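import Pool.Agent.Work.MP_c07f0d_lc.DG.PwDef
import Pool.Agent.Work.MP_c07f0d_lc.AC.LevDef
import Pool.Agent.Work.MP_c07f0d_lc.AC.AxGrid
import Pool.Agent.Work.MP_c07f0d_lc.AC.ConsDef
import Pool.Agent.Work.MP_c07f0d_lc.TL.RelSys
import Pool.Agent.Work.MP_c07f0d_lc.TL.GStage

/-!
# Families of functions of matchings which interpret the small formulas: definitions
-/

namespace AcFrege

open FregeEF LineSize GridLine

section

variable {V α : Type} [Fintype V] [DecidableEq V]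

/-- The functions `p φ`, for the formulas `φ` of `P` with at most `S` symbols, have degree at most
`k` and satisfy the truth tables up to `η` for all pseudo-functionals of degree `D`, and the
formulas of `Γ` have the value `1` up to `η`. -/
structure MFam (P : Finset (Fm α)) (S k D : ℕ) (η : ℝ) (Γ : List (Fm α)) (p : Fm α → Mt V → ℝ) :
    Prop where
  deg : ∀ φ ∈ P, kind S φ = .small → p φ ∈ Deg (ident : Mt V) k
  idem : ∀ φ ∈ P, kind S φ = .small → Sm (ident : Mt V) D η (p φ * p φ - p φ)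
  bot : Fm.bot ∈ P → Sm (ident : Mt V) D η (p .bot)
  neg : ∀ a, .neg a ∈ P → kind S (.neg a) = .small →
    Sm (ident : Mt V) D η (p (.neg a) - (1 - p a))
  and : ∀ a b, .and a b ∈ P → kind S (.and a b) = .small →
    Sm (ident : Mt V) D η (p (.and a b) - p a * p b)
  or : ∀ a b, .or a b ∈ P → kind S (.or a b) = .small →
    Sm (ident : Mt V) D η (p (.or a b) - (p a + p b - p a * p b))
  imp : ∀ a b, .imp a b ∈ P → kind S (.imp a b) = .small →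
    Sm (ident : Mt V) D η (p (.imp a b) - (1 - p a + p a * p b))
  ax : ∀ φ ∈ Γ, φ ∈ P → kind S φ = .small → Sm (ident : Mt V) D η (p φ - 1)

end

/-- The assignment of a matching. -/
def YY2 {M N : ℕ} (x : Mt (Fin N)) : GE 3 M → Bool := fun e => ev e x.f

/-- The link between the grid and the matchings. -/
def LinkP (C : ℕ) : Prop :=
  ∀ (N M k : ℕ) (hM : 1 ≤ M), Odd N → N ≤ M → 1 ≤ k → C * k ≤ N →
    (∀ f : (GE 3 M → Bool) → ℝ, LowDeg k f →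
      (fun x : Mt (Fin N) => f (YY2 x)) ∈ Deg (ident : Mt (Fin N)) (2 * k)) ∧
    (∀ f : (GE 3 M → Bool) → ℝ, LowDeg (2 * k) f → ∀ η : ℝ, 0 ≤ η →
      (gridNet 3 M hM).Ex gcharge (fun x => f x ^ 2) ≤ η ^ 2 →
      Sm (ident : Mt (Fin N)) (C * k) (η * (3 * (M : ℝ) ^ 3 + 2) ^ (2 * k))
        (fun x : Mt (Fin N) => f (YY2 x)))

/-- The base of the levels from a family. -/
def BaseP (C₁ C₂ : ℕ) : Prop :=
  ∀ (α : Type) (N k s S : ℕ) (P : Finset (Fm α)) (Γ : List (Fm α)) (η : ℝ)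
    (p : Fm α → Mt (Fin N) → ℝ), Odd N → 1 ≤ k → 1 ≤ S → PClosed P → C₂ * k ^ 9 ≤ s →
    100 * s ^ 2 ≤ N → 0 ≤ η → η ≤ (1 / (N : ℝ)) ^ (C₂ * k) → MFam P S k (C₁ * k) η Γ p →
    ∃ A, Lev P S 0 (4 * s) (ident : Mt (Fin N)) A ∧
      ∀ φ ∈ Γ, φ ∈ P → kind S φ = .small → A φ false = ∅

/-- The chain of the stages from the large grid to the grid of dimension `3` and side `u ^ 2`. -/
def ChainP : Prop :=
  ∀ (C : ℕ) (ε : ℝ), 0 < ε → ε < 1 → ∃ D w u₀ : ℕ, 4 ≤ D ∧ ∀ u : ℕ, u₀ ≤ u → ∀ (hu : 1 ≤ u ^ 2)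
    (S : Finset (Fm (GE D (u ^ (w + 2))))) (hS : Closed (· ∈ S)),
    (∀ φ ∈ S, (φ.size : ℝ) ≤ (Fintype.card (GE D (u ^ (w + 2))) : ℝ) ^ (2 - ε)) →
    ∀ k x : ℕ, 1 ≤ k → k ≤ u → 1 ≤ x → 3 * S.card ≤ x → (6 * (x : ℝ)) ^ (w + 2) * 2 ≤ 2 ^ k →
    ∃ (Q : ℝ) (q : {φ // φ ∈ S} → (GE 3 (u ^ 2) → Bool) → ℝ),
      Fam (gridNet 3 (u ^ 2) hu) gcharge (relOf S hS (gridAxioms D (u ^ (w + 2)))) k 0 Q
        ((1 / (u : ℝ) ^ 2) ^ (C * k)) q

end AcFrege
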