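import Pool.Agent.Work.MP_c07f0d_lc.DG.PxB
import Pool.Agent.Work.MP_c07f0d_lc.TL.Grid
import Pool.Agent.Work.MP_c07f0d_lc.TL.WorldA
import Mathlib.Tactic.Ring
import Mathlib.Tactic.Linarith

/-!
# Existence of pseudo-functionals
-/

set_option linter.unusedSectionVars false

namespace AcFrege

open GridLine LineSize

/-- A function which depends only on the coordinates in `A` has degree at most the size of `A`. -/
theorem lowDeg_of_dep {ι : Type} [Fintype ι] [DecidableEq ι] (A : Finset ι)
    (f : (ι → Bool) → ℝ) (h : ∀ x x' : ι → Bool, (∀ i ∈ A, x i = x' i) → f x = f x') :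
    LowDeg A.card f := by
  intro S hS
  have h1 : ¬ S ⊆ A := fun h' => absurd (Finset.card_le_card h') (by omega)
  obtain ⟨i, hiS, hiA⟩ := Finset.not_subset.1 h1
  unfold fc
  have h2 : ∑ x, f x * chi S x = 0 := by
    have h3 : ∀ x : ι → Bool, f (Function.update x i (!(x i))) *
        chi S (Function.update x i (!(x i))) = -(f x * chi S x) := by
      intro x
      have e1 : f (Function.update x i (!(x i))) = f x := by
        apply h
        intro j hj
        have hji : j ≠ i := fun hc => hiA (hc ▸ hj)
        rw [Function.update_of_ne hji]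
      have e2 : chi S (Function.update x i (!(x i))) = -chi S x := by
        unfold chi
        rw [← Finset.mul_prod_erase S _ hiS, ← Finset.mul_prod_erase S (fun j => sg (x j)) hiS,
          Function.update_self, ← neg_mul]
        congr 1
        · cases x i <;> simp [sg]
        · refine Finset.prod_congr rfl fun j hj => ?_
          rw [Function.update_of_ne (Finset.ne_of_mem_erase hj)]
      rw [e1, e2, mul_neg]
    have h4 : ∑ x, f x * chi S x = ∑ x, f (Function.update x i (!(x i))) *
        chi S (Function.update x i (!(x i))) := by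
      refine (Fintype.sum_bijective (fun x : ι → Bool => Function.update x i (!(x i))) ?_ _ _
        (fun x => rfl)).symm
      refine Function.Involutive.bijective fun x => ?_
      funext j
      by_cases hj : j = i
      · subst hj
        simp
      · simp [Function.update_of_ne hj]
    simp only [h3, Finset.sum_neg_distrib] at h4
    linarith
  rw [h2, zero_div]

/-- A character is `1` if the number of the true coordinates is even. -/
theorem chi_eq_one {ι : Type} [Fintype ι] [DecidableEq ι] (A : Finset ι) (x : ι → Bool)
    (h : Even (A.filter fun e => x e = true).card) : chi A x = 1 := by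
  unfold chi
  have h1 : ∏ i ∈ A, sg (x i) = ∏ i ∈ A, if x i = true then (-1 : ℝ) else 1 := by
    refine Finset.prod_congr rfl fun i _ => ?_
    unfold sg
    rfl
  rw [h1, Finset.prod_ite, Finset.prod_const, Finset.prod_const_one, mul_one]
  exact h.neg_one_pow

/-- The grid with its ports. -/
def gports (g : ℕ) : Ports (GV 3 g) (Fin 3 × Bool) (GE 3 g) where
  a e := (gsrc e, some (e.1.2, true))
  b e := (gtgt e, some (e.1.2, false))
  ha e e' h := by
    rw [Prod.mk.injEq, Option.some.injEq, Prod.mk.injEq] at h
    exact Subtype.ext (Prod.ext h.1 h.2.1)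
  hb e e' h := by
    rw [Prod.mk.injEq, Option.some.injEq, Prod.mk.injEq] at h
    obtain ⟨h1, h2, -⟩ := h
    obtain ⟨⟨v, i⟩, hv⟩ := e
    obtain ⟨⟨v', i'⟩, hv'⟩ := e'
    simp only at h2
    subst h2
    apply Subtype.ext
    refine Prod.ext ?_ rfl
    funext j
    have h3 := congrFun h1 j
    unfold gtgt at h3
    simp only at h3
    by_cases hj : j = i
    · subst hj
      rw [Function.update_self, Function.update_self, Fin.mk.injEq] at h3
      exact Fin.ext (by simpa using h3)
    · rw [Function.update_of_ne hj, Function.update_of_ne hj] at h3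
      exact h3
  hab e e' h := by
    rw [Prod.mk.injEq, Option.some.injEq, Prod.mk.injEq] at h
    exact absurd h.2.2 (by decide)
  hne e h := by
    have h1 := congrFun h e.1.2
    change gsrc e e.1.2 = gtgt e e.1.2 at h1
    unfold gsrc gtgt at h1
    rw [Function.update_self] at h1
    have h2 := congrArg Fin.val h1
    simp only at h2
    omega

theorem gports_star (g : ℕ) (v : GV 3 g) : (gports g).star v = bd gsrc gtgt {v} := by
  ext e
  rw [Ports.mem_star]
  unfold bd
  rw [Finset.mem_filter]
  have hne : gsrc e ≠ gtgt e := (gports g).hne e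
  have h1 : ((gports g).a e).1 = gsrc e := rfl
  have h2 : ((gports g).b e).1 = gtgt e := rfl
  rw [h1, h2, Finset.mem_singleton, Finset.mem_singleton]
  constructor
  · rintro (h | h)
    · refine ⟨Finset.mem_univ _, fun hc => ?_⟩
      exact hne (h.trans (hc.1 h).symm)
    · refine ⟨Finset.mem_univ _, fun hc => ?_⟩
      exact hne ((hc.2 h).trans h.symm)
  · rintro ⟨-, h⟩
    by_contra hc
    rw [not_or] at hc
    exact h ⟨fun h' => absurd h' hc.1, fun h' => absurd h' hc.2⟩

theorem card_star_le (g : ℕ) (v : GV 3 g) : ((gports g).star v).card ≤ 6 := by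
  classical
  have h1 : ((gports g).star v).card ≤ (Finset.univ : Finset (Fin 3 × Bool)).card := by
    refine Finset.card_le_card_of_injOn
      (fun e => if ((gports g).a e).1 = v then (e.1.2, true) else (e.1.2, false))
      (fun e _ => Finset.mem_univ _) ?_
    intro e he e' he' h
    rw [Finset.mem_coe, Ports.mem_star] at he he'
    simp only at h
    by_cases h2 : ((gports g).a e).1 = v
    · rw [if_pos h2] at h
      by_cases h3 : ((gports g).a e').1 = v
      · rw [if_pos h3] at h
        refine (gports g).ha (Prod.ext (h2.trans h3.symm) ?_)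
        show some (e.1.2, true) = some (e'.1.2, true)
        rw [h]
      · rw [if_neg h3, Prod.mk.injEq] at h
        exact absurd h.2 (by decide)
    · rw [if_neg h2] at h
      by_cases h3 : ((gports g).a e').1 = v
      · rw [if_pos h3, Prod.mk.injEq] at h
        exact absurd h.2 (by decide)
      · rw [if_neg h3] at h
        refine (gports g).hb (Prod.ext ((he.resolve_left h2).trans (he'.resolve_left h3).symm) ?_)
        show some (e.1.2, false) = some (e'.1.2, false)
        rw [h]
  exact h1

/-- **Existence of pseudo-functionals.** -/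
theorem exists_PF {V : Type} [Fintype V] [DecidableEq V] (π : Mt V) (D : ℕ)
    (hodd : Odd (free π).card) (hD : 170723 * (D + 1) ^ 3 ≤ (free π).card) :
    ∃ L : (Mt V → ℝ) →ₗ[ℝ] ℝ, PF π D L := by
  classical
  set g : ℕ := 28 * (D + 1) + 1 with hg
  have hg1 : 1 ≤ g := by omega
  have hgle : g ≤ 29 * (D + 1) := by omega
  have hcardV : Fintype.card (GV 3 g) = g ^ 3 := by
    rw [Fintype.card_fun, Fintype.card_fin, Fintype.card_fin]
  set G := gridNet 3 g hg1 with hGdef
  set c : GV 3 g → Bool := fun _ => true with hc
  have hOk : G.Ok (6 * D + 6) := by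
    refine ⟨?_, ?_⟩
    · show 128 * g * (6 * D + 6) ≤ _
      rw [hcardV]
      have h1 : 128 * (6 * D + 6) ≤ g * g := by
        rw [hg]
        nlinarith
      calc 128 * g * (6 * D + 6) = g * (128 * (6 * D + 6)) := by ring
        _ ≤ g * (g * g) := Nat.mul_le_mul_left _ h1
        _ = g ^ 3 := by ring
    · rw [hcardV]
      positivity
  -- the honest map
  have hcP : Fintype.card (Fin 3 × Bool) = 6 := rfl
  have h7 : Fintype.card (GV 3 g) * (Fintype.card (Fin 3 × Bool) + 1) = 7 * g ^ 3 := by
    rw [hcardV, hcP]
    ring
  have hle : 7 * g ^ 3 ≤ (free π).card := by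
    refine le_trans ?_ hD
    calc 7 * g ^ 3 ≤ 7 * (29 * (D + 1)) ^ 3 := Nat.mul_le_mul_left _ (Nat.pow_le_pow_left hgle 3)
      _ = 170723 * (D + 1) ^ 3 := by ring
  have hgodd : Odd (7 * g ^ 3) := by
    refine Nat.odd_mul.2 ⟨by decide, Odd.pow ?_⟩
    exact ⟨14 * (D + 1), by rw [hg]; ring⟩
  obtain ⟨X, cl, hX1, hX2, hX3⟩ := exists_X (gports g) (by rw [hcP]; decide) π
    (by rw [h7]; exact hle) (by rw [h7]; exact Nat.Odd.sub_odd hodd hgodd)
  -- degrees
  have hzz : ∀ μ : Mt V, LowDeg (6 * cost π μ) (fun x => zz μ (X x)) := by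
    intro μ
    set A : Finset (GE 3 g) := ((free π).filter fun u => μ u ≠ u).biUnion fun u =>
      (cl u).elim ∅ fun v => (gports g).star v with hA
    have hAc : A.card ≤ 6 * cost π μ := by
      refine (Finset.card_biUnion_le).trans ?_
      have h1 : ∀ u ∈ (free π).filter (fun u => μ u ≠ u),
          ((cl u).elim ∅ fun v => (gports g).star v).card ≤ 6 := by
        intro u _
        cases cl u with
        | none => simp
        | some v => exact card_star_le g v
      refine (Finset.sum_le_sum h1).trans ?_
      rw [Finset.sum_const, smul_eq_mul, mul_comm]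
      exact le_rfl
    refine (lowDeg_of_dep A _ fun x x' h => ?_).mono hAc
    have key : ∀ x x' : GE 3 g → Bool, (∀ i ∈ A, x i = x' i) → μ ≤ X x → μ ≤ X x' := by
      intro x x' h h1 u hu
      by_cases hf : π u = u
      · rw [← h1 u hu]
        refine (hX2 x x' u fun v hv e he => h e ?_).symm
        rw [hA, Finset.mem_biUnion]
        refine ⟨u, ?_, ?_⟩
        · rw [Finset.mem_filter, mem_free]
          exact ⟨hf, hu⟩
        · rw [hv]
          exact he
      · rw [← h1 u hu, hX1 x u hf, hX1 x' u hf]
    by_cases h1 : μ ≤ X x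
    · rw [zz_apply_of_le h1, zz_apply_of_le (key x x' h h1)]
    · rw [zz_apply_of_not h1, zz_apply_of_not fun h2 => h1 (key x' x
        (fun i hi => (h i hi).symm) h2)]
  have hdeg : ∀ (k : ℕ) (F : Mt V → ℝ), F ∈ Deg π k → LowDeg (6 * k) (fun x => F (X x)) := by
    intro k F hF
    unfold Deg at hF
    induction hF using Submodule.span_induction with
    | mem F hF =>
      obtain ⟨μ, hμ, rfl⟩ := hF
      exact (hzz μ).mono (Nat.mul_le_mul_left _ hμ)
    | zero => exact LowDeg.const _ 0
    | add x y _ _ hx hy => exact hx.add hy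
    | smul a x _ hx => exact hx.const_mul a
  have hfr : ∀ u : V, LowDeg 6 (fun x => fr u (X x)) := by
    intro u
    set A : Finset (GE 3 g) := (cl u).elim ∅ fun v => (gports g).star v with hA
    have hAc : A.card ≤ 6 := by
      rw [hA]
      cases cl u with
      | none => simp
      | some v => exact card_star_le g v
    refine (lowDeg_of_dep A _ fun x x' h => ?_).mono hAc
    have h1 : X x u = X x' u := hX2 x x' u fun v hv e he => h e (by rw [hA, hv]; exact he)
    show (if X x u = u then (1 : ℝ) else 0) = if X x' u = u then (1 : ℝ) else 0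
    rw [h1]
  -- the functional
  let L : (Mt V → ℝ) →ₗ[ℝ] ℝ :=
    { toFun := fun F => G.Ex c fun x => F (X x)
      map_add' := fun F H => Et_add _ _
      map_smul' := fun a F => Et_const_mul a _ }
  have hL : ∀ F, L F = G.Ex c fun x => F (X x) := fun F => rfl
  let P := G.pe c (6 * D + 6) hOk
  have hPE : ∀ f, P.E f = G.Ex c f := fun f => rfl
  refine ⟨L, ?_, ?_, ?_, ?_⟩
  · exact Net.pe_one (c := c) hOk
  · intro F hF
    have h1 := P.psd (fun x => F (X x)) ((hdeg D F hF).mono (by show 6 * D ≤ 6 * D + 6; omega))
    rw [hPE] at h1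
    have h2 : (fun x => F (X x) ^ 2) = fun x => (F * F) (X x) := by
      funext x
      rw [Pi.mul_apply, sq]
    rw [h2] at h1
    exact h1
  · intro u F hF
    rw [hL]
    rcases hclu : cl u with _ | v
    · have h1 : (fun x => (F * fr u) (X x)) = fun _ => (0 : ℝ) := by
        funext x
        rw [Pi.mul_apply]
        have h2 : fr u (X x) = 0 := by
          unfold fr
          rw [if_neg]
          intro hc'
          obtain ⟨v, hv, -⟩ := hX3 x u hc'
          rw [hclu] at hv
          exact absurd hv (by simp)
        rw [h2, mul_zero]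
      rw [h1]
      exact Et_zero
    · -- the star relation
      set S : Finset (GE 3 g) := bd gsrc gtgt {v} with hS
      have hSc : S.card ≤ 6 := by
        rw [hS, ← gports_star]
        exact card_star_le g v
      have hs1 : LowDeg (6 * D + 6) (fun x => (1 + chi S x) / 2) := by
        have h1 : LowDeg 6 (fun x => 1 + chi S x) :=
          (LowDeg.const 6 1).add ((LowDeg.chi S).mono hSc)
        have h2 := h1.const_mul (1 / 2)
        have h3 : (fun x => (1 / 2 : ℝ) * (1 + chi S x)) = fun x => (1 + chi S x) / 2 := by
          funext x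
          ring
        rw [h3] at h2
        exact h2.mono (by omega)
      have hs2 : LowDeg (6 * D + 6) (fun x => F (X x) * fr u (X x)) :=
        (hdeg D F hF).mul (hfr u)
      have h1 : (fun x => (F * fr u) (X x)) =
          fun x => (F (X x) * fr u (X x)) * ((1 + chi S x) / 2) := by
        funext x
        rw [Pi.mul_apply]
        by_cases hx : X x u = u
        · obtain ⟨v', hv', he⟩ := hX3 x u hx
          rw [hclu, Option.some.injEq] at hv'
          subst hv'
          rw [gports_star, ← hS] at he
          rw [chi_eq_one S x he]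
          ring
        · have h2 : fr u (X x) = 0 := by
            unfold fr
            rw [if_neg hx]
          rw [h2]
          ring
      have h2 : P.N (fun x => (1 + chi S x) / 2) = 0 := by
        have h3 : P.E (fun x => ((1 + chi S x) / 2) ^ 2) = 0 := by
          have h4 : (fun x : GE 3 g → Bool => ((1 + chi S x) / 2) ^ 2) =
              fun x => (1 / 2 : ℝ) * (fun _ => (1 : ℝ)) x + (1 / 2 : ℝ) * chi S x := by
            funext x
            have := chi_sq S x
            linear_combination (1 / 4 : ℝ) * this
          rw [h4, P.add', P.smul' (1 / 2) (fun _ => (1 : ℝ)), P.smul' (1 / 2) (fun x => chi S x)]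
          have h5 : P.E (fun _ => (1 : ℝ)) = 1 := Net.pe_one (c := c) hOk
          have h6 : P.E (fun x => chi S x) = chi {v} c := by
            have h7 : 3 * ({v} : Finset (GV 3 g)).card < Fintype.card (GV 3 g) := by
              rw [Finset.card_singleton, hcardV]
              have : 29 ≤ g := by omega
              calc 3 * 1 < 29 ^ 3 := by norm_num
                _ ≤ g ^ 3 := Nat.pow_le_pow_left this 3
            exact Net.Ex_chi_bdG (G := G) c (U := {v}) h7
          rw [h5, h6]
          have h7 : chi ({v} : Finset (GV 3 g)) c = -1 := by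
            simp [chi, hc, sg]
          rw [h7]
          norm_num
        show Real.sqrt _ = 0
        rw [h3, Real.sqrt_zero]
      have h3 := PE.cs (P := P) (f := fun x => F (X x) * fr u (X x))
        (g := fun x => (1 + chi S x) / 2) hs2 hs1
      rw [h2, mul_zero] at h3
      rw [h1]
      exact abs_eq_zero.1 (le_antisymm h3 (abs_nonneg _))
  · intro F hF
    rw [hL, hL]
    congr 1
    funext x
    rw [Pi.mul_apply, zz_apply_of_le (hX1 x), mul_one]

/-- The form for `1 ≤ D`. -/
theorem exists_PF' {V : Type} [Fintype V] [DecidableEq V] (π : Mt V) {D : ℕ} (hD1 : 1 ≤ D)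
    (hodd : Odd (free π).card) (hD : 1365784 * D ^ 3 ≤ (free π).card) :
    ∃ L : (Mt V → ℝ) →ₗ[ℝ] ℝ, PF π D L := by
  refine exists_PF π D hodd (le_trans ?_ hD)
  have h1 : (D + 1) ^ 3 ≤ (2 * D) ^ 3 := Nat.pow_le_pow_left (by omega) 3
  calc 170723 * (D + 1) ^ 3 ≤ 170723 * (2 * D) ^ 3 := Nat.mul_le_mul_left _ h1
    _ = 1365784 * D ^ 3 := by ring

end AcFrege
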