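import Pool.Agent.Work.MP_c07f0d_lc.DG.PwBlock
import Mathlib.Data.Fin.Tuple.Basic

/-!
# Rounding: every state can be extended to one at which an idempotent is nearly constant
-/

set_option linter.unusedSectionVars false

namespace AcFrege

variable {V : Type} [Fintype V] [DecidableEq V]

/-- Covering a set of vertices by an extension of `π` compatible with `ν`. -/
theorem exists_ext_cover {π ν : Mt V} (h : Compat π ν) (U : Finset V)
    (hroom : 2 * U.card ≤ (free (π.join ν h)).card) :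
    ∃ π', π ≤ π' ∧ Compat π' ν ∧ (∀ v ∈ U, π' v ≠ v) ∧ cost π π' ≤ 2 * U.card := by
  obtain ⟨κ, h1, h2, _⟩ := exists_cover (π.join ν h) U hroom
  have hμκ : π ≤ κ := (Mt.le_join_left π ν h).trans h1
  have hνκ : ν ≤ κ := (Mt.le_join_right π ν h).trans h1
  set π' := partQ π κ hμκ U with hπ'
  have ha : ∀ v, π' v = if π v ≠ v ∨ v ∈ U ∨ κ v ∈ U then κ v else v := fun v => rfl
  have hle : π ≤ π' := by
    intro v hv
    rw [ha, if_pos (Or.inl hv)]
    exact hμκ v hv
  have hle' : π' ≤ κ := by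
    intro v hv
    rw [ha] at hv ⊢
    by_cases hC : π v ≠ v ∨ v ∈ U ∨ κ v ∈ U
    · rw [if_pos hC]
    · rw [if_neg hC] at hv
      exact absurd rfl hv
  refine ⟨π', hle, Compat.of_le hle' hνκ, ?_, ?_⟩
  · intro v hv
    rw [ha, if_pos (Or.inr (Or.inl hv))]
    exact h2 v hv
  · unfold cost
    have h3 : (free π).filter (fun v => π' v ≠ v) ⊆ U ∪ U.image π' := by
      intro v hv
      rw [Finset.mem_filter, mem_free] at hv
      rw [Finset.mem_union, Finset.mem_image]
      have hv' := hv.2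
      rw [ha] at hv'
      by_cases hC : π v ≠ v ∨ v ∈ U ∨ κ v ∈ U
      · rcases hC with h4 | h4 | h4
        · exact absurd hv.1 h4
        · exact Or.inl h4
        · right
          refine ⟨π' v, ?_, π'.invol v⟩
          rw [ha, if_pos (Or.inr (Or.inr h4))]
          exact h4
      · rw [if_neg hC] at hv'
        exact absurd rfl hv'
    calc ((free π).filter (fun v => π' v ≠ v)).card ≤ (U ∪ U.image π').card :=
          Finset.card_le_card h3
      _ ≤ U.card + (U.image π').card := Finset.card_union_le _ _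
      _ ≤ U.card + U.card := by
          have := Finset.card_image_le (s := U) (f := (π' : V → V))
          omega
      _ = 2 * U.card := by ring

/-- The union of a family of matchings that agree. -/
theorem exists_merge {n : ℕ} (ρ : Fin n → Mt V)
    (hag : ∀ i j v, ρ i v ≠ v → ρ j v ≠ v → ρ i v = ρ j v) :
    ∃ κ : Mt V, (∀ i, ρ i ≤ κ) ∧ ∀ v, κ v ≠ v → ∃ i, ρ i v ≠ v := by
  classical
  let g : V → V := fun v => if h : ∃ i, ρ i v ≠ v then ρ h.choose v else v
  have hg1 : ∀ i v, ρ i v ≠ v → g v = ρ i v := by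
    intro i v hv
    have h : ∃ i, ρ i v ≠ v := ⟨i, hv⟩
    have e : g v = ρ h.choose v := dif_pos h
    rw [e]
    exact hag _ _ v h.choose_spec hv
  have hg2 : ∀ v, ¬ (∃ i, ρ i v ≠ v) → g v = v := fun v h => dif_neg h
  refine ⟨⟨g, ?_⟩, ?_, ?_⟩
  · intro v
    by_cases h : ∃ i, ρ i v ≠ v
    · obtain ⟨i, hi⟩ := h
      rw [hg1 i v hi, hg1 i _ ((ρ i).ne_partner hi), (ρ i).invol]
    · rw [hg2 v h, hg2 v h]
  · intro i v hv
    exact hg1 i v hv
  · intro v hv
    by_contra h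
    exact hv (hg2 v h)

/-- The part of `ρ'` over `π` that lies in the free vertices of `π'`. -/
theorem exists_pull {π π' ρ' : Mt V} (h : π ≤ π') (h' : π' ≤ ρ') :
    ∃ ρ : Mt V, π ≤ ρ ∧ ρ ≤ ρ' ∧ (∀ v, π v = v → π' v = v → ρ v = ρ' v) ∧
      (∀ v, π v = v → π' v ≠ v → ρ v = v) := by
  let g : V → V := fun v => if π v ≠ v then π v else if π' v = v then ρ' v else v
  have hg1 : ∀ v, π v ≠ v → g v = π v := fun v hv => if_pos hv
  have hg2 : ∀ v, π v = v → π' v = v → g v = ρ' v := by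
    intro v h1 h2
    show (if π v ≠ v then π v else if π' v = v then ρ' v else v) = ρ' v
    rw [if_neg (not_not.2 h1), if_pos h2]
  have hg3 : ∀ v, π v = v → π' v ≠ v → g v = v := by
    intro v h1 h2
    show (if π v ≠ v then π v else if π' v = v then ρ' v else v) = v
    rw [if_neg (not_not.2 h1), if_neg h2]
  refine ⟨⟨g, ?_⟩, fun v hv => hg1 v hv, ?_, hg2, hg3⟩
  · intro v
    by_cases h1 : π v = v
    · by_cases h2 : π' v = v
      · rw [hg2 v h1 h2]
        by_cases h3 : ρ' v = v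
        · rw [h3, hg2 v h1 h2, h3]
        · have h4 : π' (ρ' v) = ρ' v := by
            by_contra hc
            have h5 := h' _ hc
            rw [ρ'.invol] at h5
            have h6 := congrArg π' h5
            rw [π'.invol, h2] at h6
            exact h3 h6.symm
          rw [hg2 _ (Mt.free_of_le h h4) h4, ρ'.invol]
      · rw [hg3 v h1 h2, hg3 v h1 h2]
    · rw [hg1 v h1, hg1 _ (π.ne_partner h1), π.invol]
  · intro v hv
    have hv' : g v ≠ v := hv
    show ρ' v = g v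
    by_cases h1 : π v = v
    · by_cases h2 : π' v = v
      · rw [hg2 v h1 h2]
      · exact absurd (hg3 v h1 h2) hv'
    · rw [hg1 v h1]
      exact (h.trans h') v h1

/-- The thresholds. -/
noncomputable def th (N : ℕ) (m : ℕ) : ℝ := (1 / 64) * (1 / (64 * (N : ℝ))) ^ m

/-- The degrees. -/
def dg (D₁ k m : ℕ) : ℕ := D₁ + (k + 1 - m) * (9 * k)

/-- A family of `n` disjoint blocks. -/
def FamB (π : Mt V) (D m : ℕ) (θ : ℝ) (F : Mt V → ℝ) (n : ℕ) : Prop :=
  ∃ (τ : Fin n → List (V × V)) (ρ : Fin n → Mt V), (∀ i, IsBlock π D m θ F (τ i) (ρ i)) ∧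
    ∀ i j, i ≠ j → ∀ v, π v = v → ρ i v ≠ v → ρ j v = v

theorem blocks_agree {π : Mt V} {D m : ℕ} {θ : ℝ} {F : Mt V → ℝ} {n : ℕ}
    {τ : Fin n → List (V × V)} {ρ : Fin n → Mt V} (hb : ∀ i, IsBlock π D m θ F (τ i) (ρ i))
    (hdisj : ∀ i j, i ≠ j → ∀ v, π v = v → ρ i v ≠ v → ρ j v = v) :
    ∀ i j v, ρ i v ≠ v → ρ j v ≠ v → ρ i v = ρ j v := by
  intro i j v hi hj
  by_cases hv : π v = v
  · by_cases hij : i = j
    · rw [hij]
    · exact absurd (hdisj i j hij v hv hi) hj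
  · rw [(hb i).le v hv, (hb j).le v hv]

theorem cost_merge {π : Mt V} {D m : ℕ} {θ : ℝ} {F : Mt V → ℝ} {n : ℕ}
    {τ : Fin n → List (V × V)} {ρ : Fin n → Mt V} (hb : ∀ i, IsBlock π D m θ F (τ i) (ρ i))
    {κ : Mt V} (hκ : ∀ v, κ v ≠ v → ∃ i, ρ i v ≠ v) : cost π κ ≤ n * (4 * m) := by
  unfold cost
  have h1 : (free π).filter (fun v => κ v ≠ v) ⊆
      Finset.univ.biUnion fun i : Fin n => (free π).filter (fun v => ρ i v ≠ v) := by
    intro v hv
    rw [Finset.mem_filter] at hv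
    obtain ⟨i, hi⟩ := hκ v hv.2
    rw [Finset.mem_biUnion]
    exact ⟨i, Finset.mem_univ _, Finset.mem_filter.2 ⟨hv.1, hi⟩⟩
  refine (Finset.card_le_card h1).trans (Finset.card_biUnion_le.trans ?_)
  calc ∑ i : Fin n, ((free π).filter (fun v => ρ i v ≠ v)).card
      ≤ ∑ _i : Fin n, 4 * m := Finset.sum_le_sum fun i _ => (hb i).cost
    _ = n * (4 * m) := by simp

/-- The standing assumptions. -/
structure RData (F : Mt V → ℝ) (k D₁ Db R : ℕ) (η : ℝ) : Prop where
  hk : 1 ≤ k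
  hkD : k ≤ D₁
  hF : F ∈ Deg (ident : Mt V) k
  hη0 : 0 ≤ η
  hη : 1024 * 2 ^ k * η ≤ th (Fintype.card V) k
  hid : Sm (ident : Mt V) D₁ η (F * F - F)
  hex : ∀ κ : Mt V, R ≤ (free κ).card → ∃ L, PF κ Db L
  hDb : D₁ + 9 * k ^ 2 + 2 * k * (2 * k ^ 2 + 1) + 8 * k + 8 ≤ Db
  hN : R + 16 * k ^ 4 + 4 * k * (2 * k ^ 2 + 1) + 4 * k + 2 ≤ Fintype.card V

theorem ident_le (π : Mt V) : (ident : Mt V) ≤ π := fun _ hv => absurd rfl hv

theorem th_pos {N m : ℕ} (hN : 1 ≤ N) : 0 < th N m := by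
  unfold th
  have : (0 : ℝ) < N := by exact_mod_cast hN
  positivity

theorem th_succ {N m : ℕ} (hN : 1 ≤ N) : 8 * (N : ℝ) * th N (m + 1) ≤ th N m := by
  unfold th
  have h : (0 : ℝ) < N := by exact_mod_cast hN
  have e : 8 * (N : ℝ) * (1 / 64 * (1 / (64 * (N : ℝ))) ^ (m + 1)) =
      (1 / 8) * (1 / 64 * (1 / (64 * (N : ℝ))) ^ m) := by
    rw [pow_succ]
    field_simp
    norm_num
  rw [e]
  have h2 : 0 ≤ 1 / 64 * (1 / (64 * (N : ℝ))) ^ m := by positivity
  linarith

theorem th_le_one {N m : ℕ} (hN : 1 ≤ N) : th N m ≤ 1 := by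
  unfold th
  have h : (1 : ℝ) ≤ N := by exact_mod_cast hN
  have h1 : (1 / (64 * (N : ℝ))) ^ m ≤ 1 := by
    apply pow_le_one₀ (by positivity)
    rw [div_le_one (by positivity)]
    linarith
  have h2 : 0 ≤ (1 / (64 * (N : ℝ))) ^ m := by positivity
  linarith

theorem th_anti {N m k : ℕ} (hN : 1 ≤ N) (h : m ≤ k) : th N k ≤ th N m := by
  unfold th
  have h0 : (1 : ℝ) ≤ N := by exact_mod_cast hN
  have h1 : (1 / (64 * (N : ℝ))) ^ k ≤ (1 / (64 * (N : ℝ))) ^ m := by
    apply pow_le_pow_of_le_one (by positivity) _ h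
    rw [div_le_one (by positivity)]
    linarith
  linarith

/-- One round. -/
theorem one_round {F : Mt V → ℝ} {k D₁ Db R : ℕ} {η : ℝ} (hR : RData F k D₁ Db R η)
    {m : ℕ} (hm : 1 ≤ m) (hmk : m ≤ k) {π ν : Mt V} (hc : Compat π ν)
    (hcost : cost ident π + 16 * m * k ^ 2 ≤ 16 * k ^ 4)
    (hν : 48 * k ^ 4 ≤ (free ν).card)
    (hNS : NS π (dg D₁ k (m + 1)) (m + 1) (th (Fintype.card V) (m + 1)) F) :
    ∃ π', π ≤ π' ∧ Compat π' ν ∧ cost ident π' ≤ cost ident π + 16 * m * k ^ 2 ∧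
      NS π' (dg D₁ k m) m (th (Fintype.card V) m) F := by
  classical
  have hk := hR.hk
  have hN0 : 1 ≤ Fintype.card V := by have := hR.hN; omega
  have hFπ : F ∈ Deg π k := Deg.anti (ident_le π) hR.hF
  have hfree : (free π).card + cost ident π = Fintype.card V := by
    have h1 := cost_add_free (ident_le π)
    have h2 : (free (ident : Mt V)).card = Fintype.card V := by
      have : free (ident : Mt V) = Finset.univ := by
        ext v; simp [ident]
      rw [this, Finset.card_univ]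
    omega
  have hk34 : k ^ 3 ≤ k ^ 4 := Nat.pow_le_pow_right hk (by norm_num)
  have hk24 : k ^ 2 ≤ k ^ 4 := Nat.pow_le_pow_right hk (by norm_num)
  have hdg : dg D₁ k (m + 1) ≤ D₁ + 9 * k ^ 2 := by
    unfold dg
    have : (k + 1 - (m + 1)) * (9 * k) ≤ k * (9 * k) := Nat.mul_le_mul_right _ (by omega)
    nlinarith
  -- every family is small
  have hbound : ∀ n, n ≤ 2 * k ^ 2 + 1 →
      FamB π (dg D₁ k (m + 1)) m (th (Fintype.card V) m) F n → n ≤ 2 * k ^ 2 := by
    rintro n hn ⟨τ, ρ, hb, hdisj⟩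
    obtain ⟨κ, hκ1, hκ2⟩ := exists_merge ρ (blocks_agree hb hdisj)
    rcases Nat.eq_zero_or_pos n with rfl | hn0
    · omega
    · have hle : π ≤ κ := (hb ⟨0, hn0⟩).le.trans (hκ1 _)
      have hcκ : cost π κ ≤ n * (4 * m) := cost_merge hb hκ2
      have hfκ := cost_add_free hle
      have h1 : n * (4 * m) ≤ (2 * k ^ 2 + 1) * (4 * k) := Nat.mul_le_mul hn (by omega)
      have h2 : (2 * k ^ 2 + 1) * (4 * k) = 4 * k * (2 * k ^ 2 + 1) := by ring
      obtain ⟨L, hL⟩ := hR.hex κ (by have := hR.hN; omega)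
      refine block_lemma hFπ ?_ hNS hm hmk τ ρ hb hdisj hκ1 hL ?_ (th_pos hN0)
        (th_succ hN0) hR.hη0 (hR.hη.trans (th_anti hN0 hmk)) (th_le_one hN0)
        (hR.hkD.trans (by unfold dg; omega))
      · exact (hR.hid.of_le (ident_le π)).mono (by unfold dg; omega) le_rfl
      · have h3 : 2 * k * n ≤ 2 * k * (2 * k ^ 2 + 1) := Nat.mul_le_mul_left _ hn
        have := hR.hDb
        omega
  -- a maximal family
  have hmax : ∃ n, n ≤ 2 * k ^ 2 ∧ FamB π (dg D₁ k (m + 1)) m (th (Fintype.card V) m) F n ∧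
      ¬ FamB π (dg D₁ k (m + 1)) m (th (Fintype.card V) m) F (n + 1) := by
    by_contra hcon
    push Not at hcon
    have hall : ∀ n, n ≤ 2 * k ^ 2 + 1 →
        FamB π (dg D₁ k (m + 1)) m (th (Fintype.card V) m) F n := by
      intro n
      induction n with
      | zero =>
        intro _
        exact ⟨fun i => i.elim0, fun i => i.elim0, fun i => i.elim0, fun i => i.elim0⟩
      | succ n ih =>
        intro hn
        exact hcon n (by omega) (ih (by omega))
    have := hbound _ le_rfl (hall _ le_rfl)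
    omega
  obtain ⟨n, hn, ⟨τ, ρ, hb, hdisj⟩, hno⟩ := hmax
  obtain ⟨κ, hκ1, hκ2⟩ := exists_merge ρ (blocks_agree hb hdisj)
  have hcκ : cost π κ ≤ n * (4 * m) := cost_merge hb hκ2
  have hU : cost π κ ≤ 8 * m * k ^ 2 := by
    calc cost π κ ≤ n * (4 * m) := hcκ
      _ ≤ (2 * k ^ 2) * (4 * m) := Nat.mul_le_mul_right _ hn
      _ = 8 * m * k ^ 2 := by ring
  set U := (free π).filter (fun v => κ v ≠ v) with hUdef
  have hUc : U.card ≤ 8 * m * k ^ 2 := hU
  have hmk2 : m * k ^ 2 ≤ k ^ 4 := by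
    calc m * k ^ 2 ≤ k * k ^ 2 := Nat.mul_le_mul_right _ hmk
      _ = k ^ 3 := by ring
      _ ≤ k ^ 4 := hk34
  have hjoin : 2 * U.card ≤ (free (π.join ν hc)).card := by
    have h1 := free_le_free_join_add (ident_le ν) hc
    have h2 : 8 * m * k ^ 2 = 8 * (m * k ^ 2) := by ring
    have h3 : 16 * m * k ^ 2 = 16 * (m * k ^ 2) := by ring
    omega
  obtain ⟨π', hle, hcomp, hcov, hcost'⟩ := exists_ext_cover hc U hjoin
  have hcostπ' : cost ident π' ≤ cost ident π + 16 * m * k ^ 2 := by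
    have e1 := cost_add_free hle
    have e2 := cost_add_free (ident_le π')
    have e3 := cost_add_free (ident_le π)
    have h3 : 16 * m * k ^ 2 = 2 * (8 * m * k ^ 2) := by ring
    omega
  refine ⟨π', hle, hcomp, hcostπ', ?_⟩
  intro τ' hlen hτ' L hL
  by_contra hbig
  rw [not_le] at hbig
  have hF' : F ∈ Deg π' k := Deg.anti hle hFπ
  have hfree' : (free π').card + cost ident π' = Fintype.card V := by
    have h1 := cost_add_free hle
    have e2 := cost_add_free (ident_le π')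
    have e3 := cost_add_free (ident_le π)
    omega
  have hdgm : dg D₁ k (m + 1) + 8 * m + k ≤ dg D₁ k m := by
    unfold dg
    have h1 : k + 1 - m = (k + 1 - (m + 1)) + 1 := by omega
    rw [h1, add_mul]
    omega
  obtain ⟨ρ', hρ'⟩ := exists_block hF' hτ' hlen (by have := hR.hN; omega)
    (hL.mono hdgm) hbig
  obtain ⟨ρ₀, h1, h2, h3, h4⟩ := exists_pull hle hρ'.le
  have hblock : IsBlock π (dg D₁ k (m + 1)) m (th (Fintype.card V) m) F τ' ρ₀ := by
    refine ⟨hlen, ⟨hτ'.1, fun v hv => Mt.free_of_le hle (hτ'.2 v hv)⟩, h1, ?_, ?_, ?_⟩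
    · intro v hv
      rw [h3 v (Mt.free_of_le hle (hτ'.2 v hv)) (hτ'.2 v hv)]
      exact hρ'.cov v hv
    · refine le_trans ?_ hρ'.cost
      unfold cost
      apply Finset.card_le_card
      intro v hv
      rw [Finset.mem_filter, mem_free] at hv ⊢
      have hv' : π' v = v := by
        by_contra hc'
        exact hv.2 (h4 v hv.1 hc')
      exact ⟨hv', by rw [← h3 v hv.1 hv']; exact hv.2⟩
    · obtain ⟨L', hL', hb'⟩ := hρ'.big
      exact ⟨L', hL'.of_le h2, hb'⟩
  -- the new block is disjoint from the old ones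
  have hnew : ∀ v, π v = v → ρ₀ v ≠ v → ∀ i, ρ i v = v := by
    intro v hv hv' i
    by_contra hc'
    have h5 : π' v = v := by
      by_contra hc''
      exact hv' (h4 v hv hc'')
    refine hcov v ?_ h5
    rw [hUdef, Finset.mem_filter, mem_free]
    refine ⟨hv, ?_⟩
    rw [hκ1 i v hc']
    exact hc'
  have hnew' : ∀ v, π v = v → ∀ i, ρ i v ≠ v → ρ₀ v = v := by
    intro v hv i hi
    by_contra hc'
    exact hi (hnew v hv hc' i)
  apply hno
  refine ⟨Fin.cons τ' τ, Fin.cons ρ₀ ρ, ?_, ?_⟩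
  · intro i
    refine Fin.cases ?_ (fun i => ?_) i
    · exact hblock
    · exact hb i
  · intro i j
    refine Fin.cases ?_ (fun i => ?_) i
    · refine Fin.cases ?_ (fun j => ?_) j
      · intro h; exact absurd rfl h
      · intro _ v hv hv'
        exact hnew v hv hv' j
    · refine Fin.cases ?_ (fun j => ?_) j
      · intro _ v hv hv'
        exact hnew' v hv i hv'
      · intro hij v hv hv'
        exact hdisj i j (fun h => hij (by rw [h])) v hv hv'

/-- All rounds. -/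
theorem all_rounds {F : Mt V → ℝ} {k D₁ Db R : ℕ} {η : ℝ} (hR : RData F k D₁ Db R η) {ν : Mt V}
    (hν : 48 * k ^ 4 ≤ (free ν).card) :
    ∀ j, j ≤ k → ∃ π, Compat π ν ∧ cost ident π ≤ 16 * k ^ 3 * j ∧
      NS π (dg D₁ k (k + 1 - j)) (k + 1 - j) (th (Fintype.card V) (k + 1 - j)) F := by
  intro j
  have hk := hR.hk
  have hN0 : 1 ≤ Fintype.card V := by have := hR.hN; omega
  induction j with
  | zero =>
    intro _
    refine ⟨ident, Compat.mono (Compat.refl ν) (ident_le ν) le_rfl, by rw [cost_ident]; omega, ?_⟩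
    intro τ hlen hτ L hL
    rw [Dl_vanish hR.hF hτ (by omega), map_zero, abs_zero]
    exact (th_pos hN0).le
  | succ j ih =>
    intro hj
    obtain ⟨π, h1, h2, h3⟩ := ih (by omega)
    have e : k + 1 - j = (k + 1 - (j + 1)) + 1 := by omega
    rw [e] at h3
    have hmk : k + 1 - (j + 1) ≤ k := by omega
    have h5 : (k + 1 - (j + 1)) * k ^ 2 ≤ k ^ 3 := by
      calc (k + 1 - (j + 1)) * k ^ 2 ≤ k * k ^ 2 := Nat.mul_le_mul_right _ hmk
        _ = k ^ 3 := by ring
    have h6 : 16 * (k + 1 - (j + 1)) * k ^ 2 = 16 * ((k + 1 - (j + 1)) * k ^ 2) := by ring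
    have h7 : 16 * k ^ 3 * (j + 1) = 16 * k ^ 3 * j + 16 * k ^ 3 := by ring
    have h8 : 16 * k ^ 3 * (j + 1) ≤ 16 * k ^ 4 := by
      calc 16 * k ^ 3 * (j + 1) ≤ 16 * k ^ 3 * k := Nat.mul_le_mul_left _ hj
        _ = 16 * k ^ 4 := by ring
    obtain ⟨π', h9, h10, h11, h12⟩ := one_round hR (m := k + 1 - (j + 1)) (by omega) hmk h1
      (by omega) hν h3
    exact ⟨π', h10, by omega, h12⟩

/-- Smallness is inherited by products, relative to the square of the other factor. -/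
theorem Sm.mul_le {π : Mt V} {D D' r g : ℕ} {e : ℝ} {R H : Mt V → ℝ} {L : (Mt V → ℝ) →ₗ[ℝ] ℝ}
    (hR : Sm π D' e R) (hRd : R ∈ Deg π r) (h : PF π D L) (hH : H ∈ Deg π g)
    (hD : D' + 2 * g ≤ D) (hD' : g + r ≤ D) :
    |L (R * H)| ≤ e * (1 + L (H * H)) / 2 := by
  have h1 : (1 : Mt V → ℝ) + H ∈ Deg π g := Submodule.add_mem _ one_mem hH
  have h2 : (1 : Mt V → ℝ) - H ∈ Deg π g := Submodule.sub_mem _ one_mem hH
  have a1 := hR.sq hRd h h1 hD hD'
  have a2 := hR.sq hRd h h2 hD hD'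
  have e1 : R * H = (1 / 4 : ℝ) • ((1 + H) * (1 + H) * R) - (1 / 4 : ℝ) • ((1 - H) * (1 - H) * R) := by
    funext x
    simp only [Pi.mul_apply, Pi.sub_apply, Pi.add_apply, Pi.smul_apply, Pi.one_apply, smul_eq_mul]
    ring
  have e2 : (1 + H) * (1 + H) = (1 : Mt V → ℝ) + (2 : ℝ) • H + H * H := by
    funext x
    simp only [Pi.mul_apply, Pi.add_apply, Pi.smul_apply, Pi.one_apply, smul_eq_mul]
    ring
  have e3 : (1 - H) * (1 - H) = (1 : Mt V → ℝ) - (2 : ℝ) • H + H * H := by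
    funext x
    simp only [Pi.mul_apply, Pi.add_apply, Pi.sub_apply, Pi.smul_apply, Pi.one_apply, smul_eq_mul]
    ring
  have f1 : L ((1 + H) * (1 + H)) = 1 + 2 * L H + L (H * H) := by
    rw [e2, map_add, map_add, map_smul, h.one, smul_eq_mul]
  have f2 : L ((1 - H) * (1 - H)) = 1 - 2 * L H + L (H * H) := by
    rw [e3, map_add, map_sub, map_smul, h.one, smul_eq_mul]
  rw [f1] at a1
  rw [f2] at a2
  rw [e1, map_sub, map_smul, map_smul, smul_eq_mul, smul_eq_mul]
  rw [abs_le] at a1 a2 ⊢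
  constructor <;> linarith [a1.1, a1.2, a2.1, a2.2]

/-- The final step: a nearly constant idempotent is nearly `0` or nearly `1`. -/
theorem near_bool {π : Mt V} {k D₁ D : ℕ} {e η : ℝ} {F : Mt V → ℝ} (hF : F ∈ Deg π k)
    (he0 : 0 ≤ e) (he : e ≤ 1 / 1024) (hη0 : 0 ≤ η) (hη : η ≤ 1 / 1024)
    (hid : Sm π D₁ η (F * F - F))
    (hc : ∀ L L', PF π D₁ L → PF π D₁ L' → |L F - L' F| ≤ e)
    (hex : ∃ L, PF π D L) (hD : D₁ + 2 * k ≤ D) :
    ∃ b : Bool, Sm π D₁ (1 / 16) (F - (if b then 1 else 0)) := by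
  obtain ⟨L₀, hL₀⟩ := hex
  have hL₀' : PF π D₁ L₀ := hL₀.mono (by omega)
  set c := L₀ F with hcdef
  have hR : Sm π D₁ e (F - c • (1 : Mt V → ℝ)) := by
    intro L hL
    rw [map_sub, map_smul, hL.one, smul_eq_mul, mul_one]
    exact hc L L₀ hL hL₀'
  have hFk : F - c • (1 : Mt V → ℝ) ∈ Deg π k :=
    Submodule.sub_mem _ hF (Submodule.smul_mem _ _ one_mem)
  -- the square of `F - c`
  have h1 := hR.mul_le (H := F - c • (1 : Mt V → ℝ)) hFk hL₀ hFk hD (by omega)
  set s := L₀ ((F - c • (1 : Mt V → ℝ)) * (F - c • (1 : Mt V → ℝ))) with hs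
  have e1 : (F - c • (1 : Mt V → ℝ)) * (F - c • (1 : Mt V → ℝ)) =
      (F * F - F) + (1 - 2 * c) • F + (c * c) • (1 : Mt V → ℝ) := by
    funext x
    simp only [Pi.mul_apply, Pi.sub_apply, Pi.add_apply, Pi.smul_apply, Pi.one_apply, smul_eq_mul]
    ring
  have h2 : s = L₀ (F * F - F) + (1 - 2 * c) * c + c * c := by
    rw [hs, e1, map_add, map_add, map_smul, map_smul, hL₀.one, smul_eq_mul, smul_eq_mul, mul_one]
  have h3 := hid L₀ hL₀'
  have h4 : s ≤ 2 * e := by
    have h5 := (abs_le.1 h1).2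
    have h6 : s * (1 - e / 2) ≤ e / 2 := by linarith
    nlinarith
  have h5 : 0 ≤ s := hL₀.pos _ (Deg.mono (by omega) hFk)
  rw [abs_le] at h3
  have h6 : |c * (1 - c)| ≤ 3 / 1024 := by
    rw [abs_le]
    constructor <;> nlinarith
  rw [abs_le] at h6
  by_cases hc2 : c ≤ 1 / 2
  · refine ⟨false, ?_⟩
    intro L hL
    have h7 := hc L L₀ hL hL₀'
    rw [abs_le] at h7 ⊢
    have h8 : c ≤ 1 / 100 := by nlinarith
    have h9 : -(1 / 100) ≤ c := by nlinarith
    simp only [Bool.false_eq_true, if_false, sub_zero]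
    constructor <;> linarith [h7.1, h7.2]
  · refine ⟨true, ?_⟩
    intro L hL
    have h7 := hc L L₀ hL hL₀'
    rw [not_le] at hc2
    rw [abs_le] at h7 ⊢
    have h8 : c ≤ 1 + 1 / 100 := by nlinarith
    have h9 : 1 - 1 / 100 ≤ c := by nlinarith
    simp only [if_true]
    rw [map_sub, hL.one]
    constructor <;> linarith [h7.1, h7.2]

/-- Every state can be extended to one at which the idempotent is nearly constant. -/
theorem exists_near {F : Mt V → ℝ} {k D₁ Db R : ℕ} {η : ℝ} (hR : RData F k D₁ Db R η) {ν : Mt V}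
    (hν : 48 * k ^ 4 ≤ (free ν).card) :
    ∃ (μ : Mt V) (b : Bool), Compat μ ν ∧ cost ident μ ≤ 16 * k ^ 4 ∧
      Sm μ (D₁ + 9 * k ^ 2) (1 / 16) (F - (if b then 1 else 0)) := by
  have hk := hR.hk
  have hN0 : 1 ≤ Fintype.card V := by have := hR.hN; omega
  obtain ⟨μ, h1, h2, h3⟩ := all_rounds hR hν k le_rfl
  have e1 : k + 1 - k = 1 := by omega
  rw [e1] at h3
  have hdg : dg D₁ k 1 = D₁ + 9 * k ^ 2 := by
    unfold dg
    rw [Nat.add_sub_cancel]
    ring
  rw [hdg] at h3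
  have h4 : 16 * k ^ 3 * k = 16 * k ^ 4 := by ring
  rw [h4] at h2
  have hFμ : F ∈ Deg μ k := Deg.anti (ident_le μ) hR.hF
  have hkD : k ≤ D₁ + 9 * k ^ 2 := by nlinarith
  have hN1 : (1 : ℝ) ≤ (Fintype.card V : ℝ) := by exact_mod_cast hN0
  have hth1 : 2 * (Fintype.card V : ℝ) * th (Fintype.card V) 1 ≤ 1 / 1024 := by
    unfold th
    have e : 2 * (Fintype.card V : ℝ) * (1 / 64 * (1 / (64 * (Fintype.card V : ℝ))) ^ 1) =
        1 / 2048 := by
      field_simp
      norm_num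
    rw [e]; norm_num
  have hconst : ∀ L L', PF μ (D₁ + 9 * k ^ 2) L → PF μ (D₁ + 9 * k ^ 2) L' →
      |L F - L' F| ≤ 2 * (Fintype.card V : ℝ) * th (Fintype.card V) 1 := by
    intro L L' hL hL'
    refine near_const (th_pos hN0).le (Deg.mono hkD hFμ) ?_ hL hL'
    intro b c hbc hb hc
    have h5 := h3 [(b, c)] rfl ⟨by simp [verts, hbc], by
      intro v hv
      simp only [verts, List.flatMap_cons, List.flatMap_nil, List.append_nil, List.mem_cons,
        List.not_mem_nil, or_false] at hv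
      rcases hv with rfl | rfl
      · exact hb
      · exact hc⟩
    exact h5
  have hfree : R ≤ (free μ).card := by
    have e3 := cost_add_free (ident_le μ)
    have e4 : (free (ident : Mt V)).card = Fintype.card V := by
      have : free (ident : Mt V) = Finset.univ := by
        ext v; simp [ident]
      rw [this, Finset.card_univ]
    have := hR.hN
    omega
  have hηs : η ≤ 1 / 1024 := by
    have h6 := hR.hη
    have h7 := th_le_one (N := Fintype.card V) (m := k) hN0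
    have h8 : (1 : ℝ) ≤ 2 ^ k := one_le_pow₀ (by norm_num)
    have h9 := hR.hη0
    nlinarith
  obtain ⟨b, hb⟩ := near_bool (D₁ := D₁ + 9 * k ^ 2) (D := Db) hFμ
    (by positivity [th_pos (N := Fintype.card V) (m := 1) hN0]) hth1 hR.hη0 hηs
    ((hR.hid.of_le (ident_le μ)).mono (by omega) le_rfl) hconst (hR.hex μ hfree)
    (by have := hR.hDb; nlinarith)
  exact ⟨μ, b, h1, h2, hb⟩

end AcFrege
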