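import Pool.Agent.Work.MP_c07f0d_lc.DG.PwBase
import Pool.Agent.Work.MP_c07f0d_lc.DG.PwRound
import Pool.Agent.Work.MP_c07f0d_lc.DG.PX
import Pool.Agent.Work.MP_c07f0d_lc.DG.MFamDef

/-!
# The base of the levels from a family of functions of matchings
-/

namespace AcFrege

open FregeEF LineSize GridLine PwB

section parity

variable {V : Type} [Fintype V] [DecidableEq V]

theorem odd_free (hV : Odd (Fintype.card V)) (μ : Mt V) : Odd (free μ).card := by
  have hc : Compat μ (ident : Mt V) := fun v _ h => absurd rfl h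
  have h1 := qs_even hc
  have h2 : (free μ).card + (qs μ ident).card = Fintype.card V := by
    rw [← Finset.card_univ]
    have : (qs μ ident) = Finset.univ.filter (fun v => ¬ μ v = v) := by
      ext v
      simp [ident]
    rw [this]
    exact Finset.card_filter_add_card_filter_not (s := Finset.univ) (fun v => μ v = v)
  rw [← h2] at hV
  rcases Nat.even_or_odd (free μ).card with h | h
  · exact absurd hV (Nat.not_odd_iff_even.2 (h.add h1))
  · exact h

end parity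

theorem eta_le {N k C₂ : ℕ} {η : ℝ} (hk : 1 ≤ k) (hN : 64 ≤ N) (hC : 6 ≤ C₂)
    (hη : η ≤ (1 / (N : ℝ)) ^ (C₂ * k)) : 1024 * 2 ^ k * η ≤ th N k ∧ η ≤ 1 / 64 := by
  have hN' : (64 : ℝ) ≤ N := by exact_mod_cast hN
  have hN0 : (0 : ℝ) < N := by linarith
  have hx0 : (0 : ℝ) ≤ 1 / N := by positivity
  have hx1 : 1 / (N : ℝ) ≤ 1 / 64 := one_div_le_one_div_of_le (by norm_num) hN'
  have hx1' : 1 / (N : ℝ) ≤ 1 := hx1.trans (by norm_num)
  have h1 : (1 / (N : ℝ)) ^ (C₂ * k) ≤ (1 / (N : ℝ)) ^ (k + 5 * k) := by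
    apply pow_le_pow_of_le_one hx0 hx1'
    calc k + 5 * k = 6 * k := by ring
      _ ≤ C₂ * k := Nat.mul_le_mul_right k hC
  have h2 : (1 / (N : ℝ)) ^ (5 * k) ≤ (1 / 64) ^ (5 * k) := pow_le_pow_left₀ hx0 hx1 _
  have h3 : (1 / (N : ℝ)) ^ (k + 5 * k) ≤ (1 / (N : ℝ)) ^ k * (1 / 64) ^ (5 * k) := by
    rw [pow_add]
    exact mul_le_mul_of_nonneg_left h2 (pow_nonneg hx0 _)
  have h4 : η ≤ (1 / (N : ℝ)) ^ k * (1 / 64) ^ (5 * k) := hη.trans (h1.trans h3)
  constructor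
  · unfold th
    have h5 : (1 / (64 * (N : ℝ))) ^ k = (1 / 64) ^ k * (1 / (N : ℝ)) ^ k := by
      rw [← mul_pow]
      congr 1
      field_simp
    rw [h5]
    have h6 : (1024 * 2 ^ k : ℝ) * ((1 / 64) ^ (5 * k)) ≤ 1 / 64 * (1 / 64) ^ k := by
      have e1 : ((1 : ℝ) / 64) ^ (5 * k) = (1 / 64) ^ k * (1 / 64) ^ (4 * k) := by
        rw [← pow_add]; congr 1; ring
      have e2 : ((1 : ℝ) / 64) ^ (4 * k) = (1 / 16777216) ^ k := by
        rw [pow_mul]; norm_num
      have e3 : (2 : ℝ) ^ k * (1 / 16777216) ^ k = (1 / 8388608) ^ k := by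
        rw [← mul_pow]; norm_num
      have e4 : ((1 : ℝ) / 8388608) ^ k ≤ 1 / 8388608 := by
        calc ((1 : ℝ) / 8388608) ^ k ≤ (1 / 8388608) ^ 1 :=
              pow_le_pow_of_le_one (by norm_num) (by norm_num) hk
          _ = 1 / 8388608 := pow_one _
      have e5 : (0 : ℝ) ≤ (1 / 64) ^ k := by positivity
      calc (1024 * 2 ^ k : ℝ) * ((1 / 64) ^ (5 * k))
          = 1024 * ((2 : ℝ) ^ k * (1 / 16777216) ^ k) * (1 / 64) ^ k := by
            rw [e1, e2]; ring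
        _ = 1024 * (1 / 8388608) ^ k * (1 / 64) ^ k := by rw [e3]
        _ ≤ 1024 * (1 / 8388608) * (1 / 64) ^ k := by
            apply mul_le_mul_of_nonneg_right _ e5
            apply mul_le_mul_of_nonneg_left e4 (by norm_num)
        _ ≤ 1 / 64 * (1 / 64) ^ k := by
            apply mul_le_mul_of_nonneg_right _ e5
            norm_num
    calc 1024 * 2 ^ k * η ≤ 1024 * 2 ^ k * ((1 / (N : ℝ)) ^ k * (1 / 64) ^ (5 * k)) :=
          mul_le_mul_of_nonneg_left h4 (by positivity)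
      _ = (1024 * 2 ^ k * (1 / 64) ^ (5 * k)) * (1 / (N : ℝ)) ^ k := by ring
      _ ≤ (1 / 64 * (1 / 64) ^ k) * (1 / (N : ℝ)) ^ k :=
          mul_le_mul_of_nonneg_right h6 (pow_nonneg hx0 _)
      _ = 1 / 64 * ((1 / 64) ^ k * (1 / (N : ℝ)) ^ k) := by ring
  · refine hη.trans ?_
    calc (1 / (N : ℝ)) ^ (C₂ * k) ≤ (1 / (N : ℝ)) ^ 1 := by
          apply pow_le_pow_of_le_one hx0 hx1'
          exact Nat.mul_pos (by omega) hk
      _ = 1 / (N : ℝ) := pow_one _
      _ ≤ 1 / 64 := hx1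

theorem pow_le_nine {k a : ℕ} (hk : 1 ≤ k) (ha : a ≤ 9) : k ^ a ≤ k ^ 9 :=
  Nat.pow_le_pow_right hk ha

/-- The base of the levels, from the existence of pseudo-functionals. -/
theorem baseP_of (Cp : ℕ) (hPF : ∀ (N : ℕ) (π : Mt (Fin N)) (D : ℕ), 1 ≤ D →
    Odd (free π).card → Cp * D ^ 3 ≤ (free π).card → ∃ L, PF π D L) (C₁ : ℕ) :
    BaseP C₁ (100 + Cp * (2 * (C₁ + 1) + 50) ^ 3) := by
  intro α N k s S P Γ η p hNodd hk hS hP hs hN hη0 hη hp
  set K := C₁ + 1 with hK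
  set Q := Cp * (2 * K + 50) ^ 3 with hQ
  set D₁ := K * k with hD₁
  set D₀ := D₁ + 9 * k ^ 2 with hD₀
  set Db := (2 * K + 50) * k ^ 3 with hDb
  set R := Cp * Db ^ 3 with hR
  have hR' : R = Q * k ^ 9 := by
    rw [hR, hDb, hQ]; ring
  -- powers of `k`
  have k1 : 1 ≤ k ^ 9 := Nat.one_le_pow _ _ hk
  have k2 : k ≤ k ^ 3 := Nat.le_self_pow (by norm_num) k
  have k3 : k ^ 2 ≤ k ^ 3 := Nat.pow_le_pow_right hk (by norm_num)
  have k4 : k ^ 4 ≤ k ^ 9 := Nat.pow_le_pow_right hk (by norm_num)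
  have k5 : k ^ 3 ≤ k ^ 9 := Nat.pow_le_pow_right hk (by norm_num)
  have k6 : k ≤ k ^ 9 := Nat.le_self_pow (by norm_num) k
  have k7 : 1 ≤ k ^ 3 := Nat.one_le_pow _ _ hk
  have hs' : 100 * k ^ 9 + R ≤ s := by
    rw [hR']
    calc 100 * k ^ 9 + Q * k ^ 9 = (100 + Q) * k ^ 9 := by ring
      _ ≤ s := hs
  have hs100 : 100 ≤ s := by omega
  have hNs : 100 * s ≤ N := by
    refine le_trans ?_ hN
    calc 100 * s = 100 * s * 1 := by ring
      _ ≤ 100 * s * s := Nat.mul_le_mul_left _ (by omega)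
      _ = 100 * s ^ 2 := by ring
  have hcardV : Fintype.card (Fin N) = N := Fintype.card_fin N
  -- degrees
  have hKk : K * k ≤ K * k ^ 3 := Nat.mul_le_mul_left K k2
  have hDb' : Db = 2 * (K * k ^ 3) + 50 * k ^ 3 := by rw [hDb]; ring
  have hcube : 2 * k * (2 * k ^ 2 + 1) = 4 * k ^ 3 + 2 * k := by ring
  have hcube' : 4 * k * (2 * k ^ 2 + 1) = 8 * k ^ 3 + 4 * k := by ring
  have hex : ∀ κ : Mt (Fin N), R ≤ (free κ).card → ∃ L, PF κ Db L := by
    intro κ hκ
    exact hPF N κ Db (by rw [hDb']; omega) (odd_free (by rw [hcardV]; exact hNodd) κ) hκ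
  obtain ⟨hη1, hη2⟩ := eta_le (N := N) hk (by omega) (by omega : 6 ≤ 100 + Q) hη
  have hmono : ∀ {F : Mt (Fin N) → ℝ}, Sm (ident : Mt (Fin N)) (C₁ * k) η F →
      Sm (ident : Mt (Fin N)) D₁ η F := fun h =>
    h.mono (Nat.mul_le_mul_right k (Nat.le_succ C₁)) le_rfl
  have hnear : ∀ φ ∈ P, φ.size ≤ S → ∀ ν : Mt (Fin N), 3 * (4 * s) ≤ (free ν).card →
      ∃ μ : Mt (Fin N), ∃ b : Bool, Compat μ ν ∧ cost ident μ ≤ 4 * s ∧
        Sm μ D₀ (1 / 16) (p φ - (if b then 1 else 0)) := by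
    intro φ hφ hφs ν hν
    have hk' : kind S φ = .small := kind_of_size_le hφs
    have hRD : RData (p φ) k D₁ Db R η :=
      { hk := hk
        hkD := by
          rw [hD₁]
          exact Nat.le_mul_of_pos_left k (by omega)
        hF := hp.deg φ hφ hk'
        hη0 := hη0
        hη := by rw [hcardV]; exact hη1
        hid := hmono (hp.idem φ hφ hk')
        hex := hex
        hDb := by
          rw [hDb', hcube]
          omega
        hN := by
          rw [hcardV, hcube']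
          omega }
    obtain ⟨μ, b, h1, h2, h3⟩ := exists_near hRD (ν := ν) (by omega)
    exact ⟨μ, b, h1, by omega, h3⟩
  obtain ⟨A, hA, hA'⟩ := pw_base (V := Fin N) P hP (s := S) (k := k) (c := 4 * s) (D₀ := D₀)
    (D₁ := D₁) (Db := Db) (R := R) (η := η) hS p
    (fun φ hφ h => hp.deg φ hφ (kind_of_size_le h))
    (fun φ hφ h => hmono (hp.idem φ hφ (kind_of_size_le h)))
    (fun h => hmono (hp.bot h))
    (fun a ha h => hmono (hp.neg a ha (kind_of_size_le h)))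
    (fun a b ha h => hmono (hp.and a b ha (kind_of_size_le h)))
    (fun a b ha h => hmono (hp.or a b ha (kind_of_size_le h)))
    (fun a b ha h => hmono (hp.imp a b ha (kind_of_size_le h)))
    hη2 hex (by rw [hDb']; omega) (by rw [hcardV]; omega) hnear
  refine ⟨A, hA, fun φ hφΓ hφP hk' => ?_⟩
  rw [Set.eq_empty_iff_forall_notMem]
  intro μ hμ
  obtain ⟨h1, h2⟩ := hA' φ hφP hk' false μ hμ
  have hf := cost_add_free (ident_le' μ)
  rw [free_ident, hcardV] at hf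
  obtain ⟨L, hL⟩ := hex μ (by omega)
  have e1 := h2 L (hL.mono (by rw [hDb']; omega))
  have e2 := hmono (hp.ax φ hφΓ hφP hk') L ((hL.of_le (ident_le' μ)).mono (by rw [hDb']; omega))
  have e3 : L (p φ - (if false = true then 1 else 0)) = L (p φ) := by
    rw [if_neg (by simp), sub_zero]
  rw [e3] at e1
  rw [map_sub, hL.one] at e2
  rw [abs_le] at e1 e2
  linarith [e1.1, e1.2, e2.1, e2.2]

/-- **The base of the levels.** -/
theorem baseP (C₁ : ℕ) : ∃ C₂, BaseP C₁ C₂ :=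
  ⟨_, baseP_of 1365784 (fun _ π _ hD hodd h => exists_PF' π hD hodd h) C₁⟩

end AcFrege
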