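import Pool.Agent.Work.MP_c07f0d_lc.TL.GStage

/-!
# The last stage of the chain: to the grid of dimension `3` and side `u ^ 2`
-/

set_option linter.unusedSectionVars false

namespace AcFrege

open Finset LineSize GridLine

lemma fam_mono {V E J : Type} [Fintype V] [DecidableEq V] [Fintype E] [DecidableEq E] [Fintype J]
    [DecidableEq J] {G : Net V E J} {c : V → Bool} {I R : Type} {rel : R → Rl I} {K s : ℕ}
    {Q η η' : ℝ} {p : I → (E → Bool) → ℝ} (h : Fam G c rel K s Q η p) (h0 : 0 ≤ η)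
    (hle : η ≤ η') : Fam G c rel K s Q η' p :=
  ⟨h.deg, h.can, fun r => (h.rels r).trans (pow_le_pow_left₀ h0 hle 2), h.mom⟩

lemma thF_scale (A : ℝ) : thF 3 0 A = thF 3 0 1 * A ^ 4 := by
  unfold thF
  ring

/-- The last stage. -/
theorem last_stage {D a x k u : ℕ} {Q η : ℝ} {I R : Type} [Fintype I] [Fintype R]
    (rel : R → Rl I) (hu : 1 ≤ u) (hM : 1 ≤ u ^ 2) (hx : 1 ≤ x) (hI : Fintype.card I ≤ x)
    (hR : Fintype.card R ≤ x) (hQ : 1 ≤ Q) (hk1 : 1 ≤ k) (hku : k ≤ u) (hD : 24 * a + 10 ≤ D)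
    (hu1 : 1458 ≤ u) (hu2 : 32 * (1 + D) * u ^ D ≤ 2 ^ u)
    (hu3 : 128 * thF 3 0 1 ^ 6 ≤ u) (hxQ : 6 * x * Q ≤ 2 ^ k) (hη0 : 0 ≤ η)
    (hη : η ≤ (1 / (u : ℝ) ^ a) ^ k) {p : I → (GE D (u ^ 1) → Bool) → ℝ}
    (hp : Fam (gN D u 1 hu) gcharge rel (u ^ 2) 2 Q η p) :
    ∃ q, Fam (gridNet 3 (u ^ 2) hM) gcharge rel k 0 (6 * x * Q)
      (4 * x * (1 / (u : ℝ) ^ a) ^ k) q := by
  have hu1' : (1 : ℝ) ≤ u := by exact_mod_cast hu
  have hu0 : (0 : ℝ) < u := by linarith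
  set A : ℝ := (u : ℝ) ^ a with hA
  have hA1 : 1 ≤ A := one_le_pow₀ hu1'
  have hA0 : 0 < A := by linarith
  set θ : ℝ := thF 3 0 A with hθ
  have hθ1 : 1 ≤ θ := thF_one_le hA1
  have hc1 : 1 ≤ thF 3 0 1 := thF_one_le le_rfl
  have hηA : 0 < (1 / A) ^ k := by positivity
  have hp' := fam_mono hp hη0 hη
  have hom := om_small (D := 3) (s := 0) (x := x) (k := k) (Q := Q) (θ := θ) (A := A) hk1 hQ
    hx hA1 hxQ le_rfl
  have hc0 : Fintype.card (GV D (u ^ 1)) = u ^ D := by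
    rw [card_GV, pow_one]
  have hc3 : Fintype.card (GV 3 (u ^ 2)) = u ^ 6 := by
    rw [card_GV, ← pow_mul]
  have hpow : ∀ {a b : ℕ}, a ≤ b → u ^ a ≤ u ^ b := fun h => Nat.pow_le_pow_right hu h
  refine stage (gN D u 1 hu) (gridNet 3 (u ^ 2) hM) (oddCharge_gcharge (Nat.one_le_pow _ _ hu))
    (oddCharge_gcharge hM) rel (K := u ^ 2) (k := k) (u := u) (s := 0) (θ := θ) hx hI hR hQ hηA hθ1
    ?_ ?_ ?_ ?_ ?_ ?_ ?_ ?_ ?_ hp'
  · -- k ≤ u * K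
    exact hku.trans (Nat.le_mul_of_pos_right _ (by positivity))
  · -- Ok₀
    refine ⟨?_, ?_⟩
    · rw [hc0]
      show 128 * u ^ 1 * (2 ^ (0 + 3) * u ^ 2) ≤ u ^ D
      calc 128 * u ^ 1 * (2 ^ (0 + 3) * u ^ 2) = 1024 * u ^ 3 := by ring
        _ ≤ u * u ^ 3 := Nat.mul_le_mul_right _ (by omega)
        _ = u ^ 4 := by ring
        _ ≤ u ^ D := hpow (by omega)
    · rw [hc0]
      exact Nat.pow_pos hu
  · -- Ok₁
    refine ⟨?_, ?_⟩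
    · rw [hc3]
      show 128 * u ^ 2 * (2 ^ (0 + 3) * (u * u ^ 2)) ≤ u ^ 6
      calc 128 * u ^ 2 * (2 ^ (0 + 3) * (u * u ^ 2)) = 1024 * u ^ 5 := by ring
        _ ≤ u * u ^ 5 := Nat.mul_le_mul_right _ (by omega)
        _ = u ^ 6 := by ring
    · rw [hc3]
      exact Nat.pow_pos hu
  · -- tower
    rw [hc3]
    show 8 * u * u ^ 1 * (2 ^ (0 + 3) * u ^ 2) ≤ u ^ 6
    calc 8 * u * u ^ 1 * (2 ^ (0 + 3) * u ^ 2) = 64 * u ^ 4 := by ring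
      _ ≤ u ^ 2 * u ^ 4 := Nat.mul_le_mul_right _ (by nlinarith)
      _ = u ^ 6 := by ring
  · -- route
    rw [hc3, hc0]
    show 2 * 3 ^ (2 * 3) * u ^ 1 * u ^ 6 ≤ u ^ D
    calc 2 * 3 ^ (2 * 3) * u ^ 1 * u ^ 6 = 1458 * u ^ 7 := by ring
      _ ≤ u * u ^ 7 := Nat.mul_le_mul_right _ (by omega)
      _ = u ^ 8 := by ring
      _ ≤ u ^ D := hpow (by omega)
  · -- u
    have e1 : Fintype.card (GE D (u ^ 1)) ≤ D * u ^ D := by
      have h1 := card_GE_le (D := D) (M := u ^ 1)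
      rwa [← pow_mul, one_mul] at h1
    rw [hc0]
    calc 32 * (u ^ D + Fintype.card (GE D (u ^ 1))) ≤ 32 * (u ^ D + D * u ^ D) := by omega
      _ = 32 * (1 + D) * u ^ D := by ring
      _ ≤ 2 ^ u := hu2
  · -- tail
    rw [hc3, hc0]
    show 2 * (1 + θ) ^ (2 * 3) * ((u ^ 1 : ℕ) : ℝ) * ((u ^ 2 : ℕ) : ℝ) * ((u ^ 6 : ℕ) : ℝ)
      ≤ (k : ℝ) * ((u ^ D : ℕ) : ℝ)
    push_cast
    have hA4 : 1 ≤ A ^ 4 := one_le_pow₀ hA1
    have h1 : 1 + θ ≤ 2 * (thF 3 0 1 * A ^ 4) := by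
      rw [← thF_scale]
      linarith
    have h2 : 2 * (1 + θ) ^ (2 * 3) ≤ (u : ℝ) ^ (24 * a + 1) := by
      calc 2 * (1 + θ) ^ (2 * 3) ≤ 2 * (2 * (thF 3 0 1 * A ^ 4)) ^ (2 * 3) := by
            refine mul_le_mul_of_nonneg_left ?_ (by norm_num)
            exact pow_le_pow_left₀ (by linarith) h1 _
        _ = (128 * thF 3 0 1 ^ 6) * (A ^ 4) ^ 6 := by ring
        _ ≤ u * (A ^ 4) ^ 6 := mul_le_mul_of_nonneg_right hu3 (by positivity)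
        _ = (u : ℝ) ^ (24 * a + 1) := by
            rw [hA, ← pow_mul, ← pow_mul, pow_succ (u : ℝ) (24 * a)]
            ring
    have hk : (1 : ℝ) ≤ k := by exact_mod_cast hk1
    calc 2 * (1 + θ) ^ (2 * 3) * (u : ℝ) ^ 1 * (u : ℝ) ^ 2 * (u : ℝ) ^ 6
        = 2 * (1 + θ) ^ (2 * 3) * (u : ℝ) ^ 9 := by ring
      _ ≤ (u : ℝ) ^ (24 * a + 1) * (u : ℝ) ^ 9 :=
          mul_le_mul_of_nonneg_right h2 (by positivity)
      _ = (u : ℝ) ^ (24 * a + 10) := by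
          rw [← pow_add]
      _ ≤ (u : ℝ) ^ D := pow_le_pow_right₀ hu1' hD
      _ = 1 * (u : ℝ) ^ D := (one_mul _).symm
      _ ≤ (k : ℝ) * (u : ℝ) ^ D := mul_le_mul_of_nonneg_right hk (by positivity)
  · exact hom.1
  · exact hom.2

end AcFrege
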