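import Pool.Agent.Work.MP_c07f0d_lc.TL.GMain
import Pool.Agent.Work.MP_c07f0d_lc.DG.ChIter

/-!
# The first world with more moments
-/

set_option linter.unusedSectionVars false

namespace AcFrege

open Finset LineSize FregeEF GridLine

/-- The conditions on the parameters of the first world: `m = u ^ (2 ν)`, `q = u ^ 3`. -/
structure Par0O (D w e u ν J : ℕ) (A : ℝ) : Prop where
  hu : 1 ≤ u
  hD : D = w + 4 + e
  hν : 2 * ν + 2 ≤ e
  hν1 : 1 ≤ ν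
  hJ : 2 * ν + (4 + ν) * J ≤ (w + 1) * e
  hu128 : 128 ≤ u
  hn : 2 ^ (2 * (w + 1) + 2) + 4 + 18 * (J + 1) ≤ u
  hs : 2 ^ (2 * (w + 1) + 12) ≤ u
  herr1 : 400 * ((u ^ (2 * ν) : ℕ) : ℝ) ^ (J + 2) * ((2 ^ (2 * (w + 1) + 2) : ℕ) : ℝ)
    * eJ (u ^ (2 * ν)) (u ^ 3) J ≤ 1
  herr2 : 10 * ((u ^ (2 * ν) : ℕ) : ℝ) ^ (J + 1) * eJ (u ^ (2 * ν)) (u ^ 3) J ≤ (1 / A) ^ (u ^ 2)
  hax : 64 * D ^ 2 < u ^ (2 * ν)

lemma dJ_boundO {D w e u ν J : ℕ} {A : ℝ} (h : Par0O D w e u ν J A) :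
    dJ (u ^ (2 * ν)) (u ^ 3) J ≤ u ^ ((w + 1) * e) := by
  unfold dJ
  calc u ^ (2 * ν) * Sk.Dg (u ^ 3) (6 * u ^ (2 * ν)) ^ J
      ≤ u ^ (2 * ν) * (u ^ (4 + ν)) ^ J :=
        Nat.mul_le_mul_left _ (Nat.pow_le_pow_left (Dg_bound h.hu128) J)
    _ = u ^ (2 * ν + (4 + ν) * J) := by rw [← pow_mul, ← pow_add]
    _ ≤ u ^ ((w + 1) * e) := Nat.pow_le_pow_right h.hu h.hJ

/-- The family of the first world. -/
theorem world0O {D w e u ν J : ℕ} {A : ℝ} (h : Par0O D w e u ν J A)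
    (S : Finset (Fm (GE D (u ^ (w + 2))))) (hS : Closed (· ∈ S))
    (hsize : ∀ φ ∈ S, φ.size ≤ (u ^ (2 * ν)) ^ (J + 1)) :
    ∃ p, Fam (gN D u (w + 2) h.hu) gcharge (relOf S hS (gridAxioms D (u ^ (w + 2))))
      (u ^ ((w + 1) * e)) (2 * (w + 1) + 2) 2 ((1 / A) ^ (u ^ 2)) p := by
  classical
  have hc : ∀ w, Fintype.card (GV D (u ^ w)) = u ^ (w * D) := by
    intro w
    rw [card_GV, ← pow_mul]
  have hpow : ∀ {a b : ℕ}, a ≤ b → u ^ a ≤ u ^ b := fun h' => Nat.pow_le_pow_right h.hu h'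
  set m := u ^ (2 * ν) with hm
  have hd := dJ_boundO h
  -- the world
  set T₀ := u ^ (1 + 2 * ν + (w + 1) * e) with hT₀
  have hexp : 1 + 2 * ν + (w + 1) * e + (w + 3) ≤ (w + 2) * D := by
    have h1 := h.hD
    have h2 := h.hν
    rw [h1]
    nlinarith
  have hOk : (gN D u (w + 2) h.hu).Ok T₀ := by
    refine ⟨?_, ?_⟩
    · rw [hc]
      show 128 * u ^ (w + 2) * T₀ ≤ _
      calc 128 * u ^ (w + 2) * T₀ ≤ u * u ^ (w + 2) * T₀ :=
            Nat.mul_le_mul_right _ (Nat.mul_le_mul_right _ h.hu128)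
        _ = u ^ (1 + 2 * ν + (w + 1) * e + (w + 3)) := by
            rw [hT₀, pow_add u (1 + 2 * ν + (w + 1) * e) (w + 3), show w + 3 = w + 2 + 1 by rfl,
              pow_succ u (w + 2)]
            ring
        _ ≤ u ^ ((w + 2) * D) := hpow hexp
    · rw [hc]
      exact Nat.pow_pos h.hu
  set P := (gN D u (w + 2) h.hu).pe gcharge T₀ hOk with hP
  have hcapP : P.cap = T₀ := rfl
  have h1 : P.E (fun _ => 1) = 1 := Net.pe_one hOk
  have hm2 : 2 ≤ m := by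
    calc 2 ≤ u := by have := h.hu128; omega
      _ = u ^ 1 := (pow_one u).symm
      _ ≤ u ^ (2 * ν) := hpow (by have := h.hν1; omega)
  set n := 2 ^ (2 * (w + 1) + 2) with hn
  have hcap : (n + 4) * dJ m (u ^ 3) J + (J + 1) * (18 * m * dJ m (u ^ 3) J) ≤ P.cap := by
    rw [hcapP]
    have hm1 : 1 ≤ m := by omega
    calc (n + 4) * dJ m (u ^ 3) J + (J + 1) * (18 * m * dJ m (u ^ 3) J)
        ≤ (n + 4) * (m * dJ m (u ^ 3) J) + (J + 1) * (18 * (m * dJ m (u ^ 3) J)) := by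
          refine Nat.add_le_add ?_ (le_of_eq (by ring))
          exact Nat.mul_le_mul_left _ (Nat.le_mul_of_pos_left _ hm1)
      _ = (n + 4 + 18 * (J + 1)) * (m * dJ m (u ^ 3) J) := by ring
      _ ≤ u * (m * u ^ ((w + 1) * e)) := Nat.mul_le_mul h.hn (Nat.mul_le_mul_left _ hd)
      _ = T₀ := by
          rw [hT₀, hm, pow_add, pow_add, pow_one]
          ring
  have hn1 : 1 ≤ n := Nat.one_le_two_pow
  obtain ⟨p, hdeg, hidem, hbot, hneg, hand, hor, himp, hmom, hex⟩ := fm_family P h1 (q := u ^ 3)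
    (n := n) hm2 h.herr1 hn1 hcap
  have herr := h.herr2
  have hη0 : (0 : ℝ) ≤ (1 / A) ^ (u ^ 2) := by
    refine le_trans ?_ herr
    unfold eJ
    positivity
  have hrels := rels_of (P := P) hS (Γ := gridAxioms D (u ^ (w + 2))) hη0 (p := p)
    (fun φ hφ => (hidem φ (hsize φ hφ)).trans herr) (hbot.trans herr)
    (fun φ hφ => (hneg φ (hsize _ hφ)).trans herr)
    (fun φ ψ hφ => (hand φ ψ (hsize _ hφ)).trans herr)
    (fun φ ψ hφ => (hor φ ψ (hsize _ hφ)).trans herr)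
    (fun φ ψ hφ => (himp φ ψ (hsize _ hφ)).trans herr) (by
      intro φ hφ
      obtain ⟨v, _, rfl⟩ := List.mem_map.mp hφ
      have hsz : (gridAx v).size < m := by
        refine lt_of_le_of_lt (size_gridAx ?_ v) h.hax
        have := h.hD
        omega
      rw [hex _ hsz]
      have h4 : 4 ≤ Fintype.card (GV D (u ^ (w + 2))) := by
        rw [hc]
        calc 4 ≤ u := by have := h.hu128; omega
          _ = u ^ 1 := (pow_one u).symm
          _ ≤ u ^ ((w + 2) * D) := hpow (by have := h.hD; nlinarith)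
      have := ax_exact (Nat.one_le_pow (w + 2) u h.hu) h4 hOk v
      exact this.le.trans hη0)
  refine canon_family (K := u ^ ((w + 1) * e)) _ ?_ (fun a : {φ // φ ∈ S} => p a.1) ?_ ?_ ?_
  · refine ⟨?_, hOk.2⟩
    rw [hc]
    show 128 * u ^ (w + 2) * (2 ^ (2 * (w + 1) + 2 + 2) * u ^ ((w + 1) * e)) ≤ _
    calc 128 * u ^ (w + 2) * (2 ^ (2 * (w + 1) + 2 + 2) * u ^ ((w + 1) * e))
        = 2 ^ (2 * (w + 1) + 11) * (u ^ (w + 2) * u ^ ((w + 1) * e)) := by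
          rw [show 2 * (w + 1) + 11 = 2 * (w + 1) + 2 + 2 + 7 by ring,
            pow_add 2 (2 * (w + 1) + 2 + 2) 7]
          norm_num
          ring
      _ ≤ u * (u ^ (w + 2) * u ^ ((w + 1) * e)) := by
          refine Nat.mul_le_mul_right _ (le_trans ?_ h.hs)
          exact Nat.pow_le_pow_right (by norm_num) (by omega)
      _ = u ^ ((w + 1) * e + (w + 3)) := by
          rw [pow_add u ((w + 1) * e) (w + 3), show w + 3 = w + 2 + 1 by rfl, pow_succ u (w + 2)]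
          ring
      _ ≤ u ^ ((w + 2) * D) := hpow (by omega)
  · intro a
    exact (hdeg a.1 (hsize a.1 a.2)).mono hd
  · intro r
    have h2 := hrels r
    have hlow : LowDeg P.cap ((relOf S hS (gridAxioms D (u ^ (w + 2))) r).val
        fun a : {φ // φ ∈ S} => p a.1) := by
      refine (Rl.lowDeg _ (K := dJ m (u ^ 3) J) (p := fun a : {φ // φ ∈ S} => p a.1)
        fun a : {φ // φ ∈ S} => hdeg a.1 (hsize a.1 a.2)).mono ?_
      refine le_trans ?_ hcap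
      nlinarith [Nat.zero_le ((J + 1) * (18 * m * dJ m (u ^ 3) J))]
    have h3 := PE.N_sq (P := P) hlow
    have h4 : (gN D u (w + 2) h.hu).Ex gcharge (fun x =>
        (relOf S hS (gridAxioms D (u ^ (w + 2))) r).val (fun a : {φ // φ ∈ S} => p a.1) x ^ 2)
        = P.N ((relOf S hS (gridAxioms D (u ^ (w + 2))) r).val
        fun a : {φ // φ ∈ S} => p a.1) ^ 2 := h3.symm
    rw [h4]
    exact pow_le_pow_left₀ (PE.N_nonneg _) h2 2
  · intro a
    have h2 := hmom a.1 (hsize a.1 a.2)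
    have e1 : 2 ^ (2 * (w + 1) + 2 + 1) = 2 * n := by
      rw [pow_succ 2 (2 * (w + 1) + 2), hn]
      ring
    rw [e1]
    exact h2


/-- The parameters of the first world. -/
lemma exists_par0O {D w e ν J a : ℕ} (hD : D = w + 4 + e) (hν : 2 * ν + 2 ≤ e) (hν1 : 1 ≤ ν)
    (hJ : 2 * ν + (4 + ν) * J ≤ (w + 1) * e) :
    ∃ u₀ : ℕ, ∀ u : ℕ, u₀ ≤ u → Par0O D w e u ν J (2 ^ a) := by
  obtain ⟨a1, ha1⟩ : ∃ a1 : ℕ, a1 = 2 ^ (2 * (w + 1) + 2) := ⟨_, rfl⟩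
  obtain ⟨a2, ha2⟩ : ∃ a2 : ℕ, a2 = 2 ^ (2 * (w + 1) + 12) := ⟨_, rfl⟩
  refine ⟨128 + (a1 + 4 + 18 * (J + 1)) + a2
    + (64 * D ^ 2 + 1) + ((9 + (2 * (w + 1) + 2) + 9 * J) + (2 * ν * (J + 2) + 2 * ν * J) + 0)
    + ((4 + 9 * J) + (2 * ν * (J + 1) + 2 * ν * J) + a), fun u hu => ?_⟩
  have hu1 : 1 ≤ u := by omega
  have hup : ∀ k : ℕ, ((u ^ (2 * ν) : ℕ) : ℝ) ^ k ≤ 2 ^ (2 * ν * k * u) := by
    intro k
    push_cast
    rw [← pow_mul]
    calc (u : ℝ) ^ (2 * ν * k) ≤ (2 ^ u) ^ (2 * ν * k) :=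
          pow_le_pow_left₀ (by positivity) (nat_le_two_pow u) _
      _ = 2 ^ (2 * ν * k * u) := by rw [← pow_mul, mul_comm]
  refine ⟨hu1, hD, hν, hν1, hJ, by omega, by rw [← ha1]; omega, by rw [← ha2]; omega, ?_, ?_, ?_⟩
  · have h1 := eJ_le u ν J
    have h2 := hup (J + 2)
    have hb := poly_bound (c₀ := 9 + (2 * (w + 1) + 2) + 9 * J) (c₁ := 2 * ν * (J + 2) + 2 * ν * J)
      (c₂ := 0) (u := u) (by omega) hu1
    calc 400 * ((u ^ (2 * ν) : ℕ) : ℝ) ^ (J + 2) * ((2 ^ (2 * (w + 1) + 2) : ℕ) : ℝ)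
          * eJ (u ^ (2 * ν)) (u ^ 3) J
        ≤ (2 ^ 9 * 2 ^ (2 * ν * (J + 2) * u) * 2 ^ (2 * (w + 1) + 2))
          * (2 ^ (9 * J + 2 * ν * J * u) * (1 / 2) ^ (u ^ 3)) := by
          refine mul_le_mul ?_ h1 (by unfold eJ; positivity) (by positivity)
          refine mul_le_mul ?_ (by push_cast; exact le_rfl) (by positivity) (by positivity)
          exact mul_le_mul (by norm_num) h2 (by positivity) (by positivity)
      _ = 2 ^ (9 + 2 * ν * (J + 2) * u + (2 * (w + 1) + 2) + (9 * J + 2 * ν * J * u))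
          * (1 / 2) ^ (u ^ 3) := by
          rw [pow_add 2 _ (9 * J + 2 * ν * J * u), pow_add 2 _ (2 * (w + 1) + 2), pow_add 2 9]
          ring
      _ ≤ 1 := by
          refine two_pow_half (le_trans (le_of_eq ?_) hb)
          ring
  · have h1 := eJ_le u ν J
    have h2 := hup (J + 1)
    have hb := poly_bound (c₀ := 4 + 9 * J) (c₁ := 2 * ν * (J + 1) + 2 * ν * J)
      (c₂ := a) (u := u) (by omega) hu1
    have h3 : 10 * ((u ^ (2 * ν) : ℕ) : ℝ) ^ (J + 1) * eJ (u ^ (2 * ν)) (u ^ 3) J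
        * (2 ^ a) ^ (u ^ 2) ≤ 1 := by
      calc 10 * ((u ^ (2 * ν) : ℕ) : ℝ) ^ (J + 1) * eJ (u ^ (2 * ν)) (u ^ 3) J * (2 ^ a) ^ (u ^ 2)
          ≤ (2 ^ 4 * 2 ^ (2 * ν * (J + 1) * u))
            * (2 ^ (9 * J + 2 * ν * J * u) * (1 / 2) ^ (u ^ 3)) * (2 ^ a) ^ (u ^ 2) := by
            refine mul_le_mul_of_nonneg_right ?_ (by positivity)
            refine mul_le_mul ?_ h1 (by unfold eJ; positivity) (by positivity)
            exact mul_le_mul (by norm_num) h2 (by positivity) (by positivity)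
        _ = 2 ^ (4 + 2 * ν * (J + 1) * u + (9 * J + 2 * ν * J * u) + a * u ^ 2)
            * (1 / 2) ^ (u ^ 3) := by
            rw [pow_add 2 _ (a * u ^ 2), pow_add 2 _ (9 * J + 2 * ν * J * u), pow_add 2 4,
              pow_mul 2 a]
            ring
        _ ≤ 1 := by
            refine two_pow_half (le_trans (le_of_eq ?_) hb)
            ring
    rw [one_div, inv_pow, ← one_div, le_div_iff₀ (by positivity)]
    exact h3
  · calc 64 * D ^ 2 < u := by omega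
      _ = u ^ 1 := (pow_one u).symm
      _ ≤ u ^ (2 * ν) := Nat.pow_le_pow_right hu1 (by omega)

/-- The parameters of the later worlds. -/
lemma exists_parO {D w e : ℕ} {θ A : ℝ} (hD : D = w + 4 + e) (he : 2 ≤ e) (hA : 1 ≤ A)
    (hθ : ∀ s ≤ 2 * (w + 1) + 2, thF D s A ≤ θ) :
    ∃ u₀ : ℕ, ∀ u : ℕ, u₀ ≤ u → ParO D w e u θ A := by
  obtain ⟨u₁, hu₁⟩ := ev_pow (32 * (1 + D)) ((w + 3) * D)
  obtain ⟨u₂, hu₂⟩ := exists_nat_ge (2 * (1 + θ) ^ (2 * D))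
  obtain ⟨a1, ha1⟩ : ∃ a1 : ℕ, a1 = 3 ^ (2 * D) := ⟨_, rfl⟩
  obtain ⟨a2, ha2⟩ : ∃ a2 : ℕ, a2 = 2 ^ (2 * (w + 1) + 12) := ⟨_, rfl⟩
  refine ⟨1 + u₁ + u₂ + a2 + 2 * a1, fun u hu => ?_⟩
  refine ⟨by omega, hA, he, hD, by rw [← ha2]; omega, by rw [← ha1]; omega,
    ?_, ?_, hθ⟩
  · refine hu₂.trans ?_
    exact_mod_cast (by omega : u₂ ≤ u)
  · exact hu₁ u (by omega)


end AcFrege
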