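import Pool.Agent.Work.MP_c07f0d_lc.DG.ChLast
import Pool.Agent.Work.MP_c07f0d_lc.DG.ChWorld
import Pool.Agent.Work.MP_c07f0d_lc.DG.MFamDef

/-!
# The chain of the stages from the large grid to the grid of dimension `3` and side `u ^ 2`
-/

set_option linter.unusedSectionVars false

namespace AcFrege

open Finset LineSize FregeEF GridLine

/-- The exponents. -/
lemma exists_exponentsW (W : ℕ) {ε : ℝ} (h0 : 0 < ε) (h1 : ε < 1) :
    ∃ w e ν J D : ℕ, W ≤ w ∧ D = w + 4 + e ∧ 2 * ν + 2 ≤ e ∧ 1 ≤ ν ∧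
      2 * ν + (4 + ν) * J ≤ (w + 1) * e ∧
      ((w + 2) * D : ℕ) * (2 - ε) + 1 ≤ ((2 * ν) * (J + 1) : ℕ) := by
  obtain ⟨w₀, hw₀⟩ := exists_nat_ge (6 / ε)
  set w := w₀ + W with hwdef
  have hw' : 6 ≤ w * ε := by
    rw [div_le_iff₀ h0] at hw₀
    have h2 : (w₀ : ℝ) * ε ≤ w * ε := by
      refine mul_le_mul_of_nonneg_right ?_ h0.le
      rw [hwdef]
      push_cast
      have : (0 : ℝ) ≤ W := Nat.cast_nonneg _
      linarith
    linarith
  set e := (w + 20) ^ 2 with he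
  set ν := 8 * (w + 4) with hν
  set D := w + 4 + e with hD
  set T : ℕ := (w + 2) * D with hT
  have hx0 : (0 : ℝ) ≤ ((T : ℝ) * (2 - ε) + 1) / (2 * ν : ℕ) := by
    have : (0 : ℝ) ≤ T * (2 - ε) := mul_nonneg (Nat.cast_nonneg _) (by linarith)
    positivity
  refine ⟨w, e, ν, ⌊((T : ℝ) * (2 - ε) + 1) / (2 * ν : ℕ)⌋₊, D, by omega, rfl, ?_, by omega, ?_, ?_⟩
  · rw [hν, he]
    nlinarith
  · set J := ⌊((T : ℝ) * (2 - ε) + 1) / (2 * ν : ℕ)⌋₊ with hJ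
    have hν0 : (0 : ℝ) < (2 * ν : ℕ) := by
      rw [hν]
      positivity
    have hfl : (J : ℝ) * (2 * ν : ℕ) ≤ T * (2 - ε) + 1 := by
      have := Nat.floor_le hx0
      rw [← hJ, le_div_iff₀ hν0] at this
      exact this
    have hwr : (0 : ℝ) ≤ w := Nat.cast_nonneg _
    have hTr : (T : ℝ) = (w + 2) * D := by
      rw [hT]
      push_cast
      ring
    have hDr : (D : ℝ) = w + 4 + (w + 20) ^ 2 := by
      rw [hD, he]
      push_cast
      ring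
    have hνr : (ν : ℝ) = 8 * (w + 4) := by
      rw [hν]
      push_cast
      ring
    have her : (e : ℝ) = (w + 20) ^ 2 := by
      rw [he]
      push_cast
      ring
    push_cast at hfl
    have hD0 : (0 : ℝ) < D := by
      rw [hDr]
      positivity
    -- ν J ≤ (w - 1) D + 1/2
    have h2 : (ν : ℝ) * J ≤ (w - 1) * D + 1 / 2 := by
      have e1 : (T : ℝ) * ε ≥ 6 * D := by
        rw [hTr]
        nlinarith
      nlinarith
    -- 4 J ≤ D / 2 + 1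
    have h3 : 4 * (J : ℝ) ≤ D / 2 + 1 := by
      have e1 : (J : ℝ) * (2 * ν) ≤ 2 * T + 1 := by
        have : (T : ℝ) * (2 - ε) ≤ T * 2 := by
          refine mul_le_mul_of_nonneg_left (by linarith) (Nat.cast_nonneg _)
        linarith
      rw [hTr, hνr] at e1
      have e2 : (J : ℝ) * (16 * (w + 4)) ≤ 2 * (w + 4) * D + (w + 4) := by nlinarith
      have e3 : (J : ℝ) * 16 ≤ 2 * D + 1 := by
        have h4 : (0 : ℝ) < w + 4 := by linarith
        have e4 : (w + 4 : ℝ) * (J * 16) ≤ (w + 4) * (2 * D + 1) := by nlinarith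
        exact le_of_mul_le_mul_left e4 h4
      linarith
    have h4 : (2 * (ν : ℝ) + (4 + ν) * J) ≤ (w + 1) * e := by
      have e1 : (2 * (ν : ℝ) + (4 + ν) * J) ≤ 2 * ν + (w - 1) * D + 1 / 2 + D / 2 + 1 := by
        nlinarith
      refine e1.trans ?_
      rw [hνr, hDr, her]
      nlinarith [mul_nonneg hwr hwr, mul_nonneg (mul_nonneg hwr hwr) hwr]
    exact_mod_cast h4
  · set J := ⌊((T : ℝ) * (2 - ε) + 1) / (2 * ν : ℕ)⌋₊ with hJ
    have hν0 : (0 : ℝ) < (2 * ν : ℕ) := by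
      rw [hν]
      positivity
    have := Nat.lt_floor_add_one (((T : ℝ) * (2 - ε) + 1) / (2 * ν : ℕ))
    rw [← hJ, div_lt_iff₀ hν0] at this
    have h5 : ((2 * ν * (J + 1) : ℕ) : ℝ) = ((J : ℝ) + 1) * (2 * ν : ℕ) := by
      push_cast
      ring
    rw [h5]
    exact this.le

/-- The size bound. -/
lemma size_le_pow {w D ν J u : ℕ} {ε : ℝ} (h1 : ε < 1) (h0 : 0 < ε) (hu : 1 ≤ u) (hD : 1 ≤ D)
    (hDu : D ^ 2 ≤ u) (hT : ((w + 2) * D : ℕ) * (2 - ε) + 1 ≤ ((2 * ν) * (J + 1) : ℕ)) {a : ℕ}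
    (ha : (a : ℝ) ≤ (Fintype.card (GE D (u ^ (w + 2))) : ℝ) ^ (2 - ε)) :
    a ≤ (u ^ (2 * ν)) ^ (J + 1) := by
  set T : ℕ := (w + 2) * D with hTdef
  set n := Fintype.card (GE D (u ^ (w + 2))) with hn
  have hnle : n ≤ D * u ^ T := by
    have := card_GE_le (D := D) (M := u ^ (w + 2))
    rwa [← pow_mul] at this
  have hu1r : (1 : ℝ) ≤ u := by exact_mod_cast hu
  have hu0 : (0 : ℝ) < u := by linarith
  have h3 : (n : ℝ) ^ (2 - ε) ≤ (((u ^ (2 * ν)) ^ (J + 1) : ℕ) : ℝ) := by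
    have e1 : (n : ℝ) ≤ D * (u : ℝ) ^ (T : ℝ) := by
      rw [Real.rpow_natCast]
      exact_mod_cast hnle
    have hD1 : (1 : ℝ) ≤ D := by exact_mod_cast hD
    calc (n : ℝ) ^ (2 - ε) ≤ (D * (u : ℝ) ^ (T : ℝ)) ^ (2 - ε) :=
          Real.rpow_le_rpow (by positivity) e1 (by linarith)
      _ = (D : ℝ) ^ (2 - ε) * (u : ℝ) ^ ((T : ℝ) * (2 - ε)) := by
          rw [Real.mul_rpow (by positivity) (by positivity), ← Real.rpow_mul hu0.le]
      _ ≤ (D : ℝ) ^ (2 : ℝ) * (u : ℝ) ^ ((T : ℝ) * (2 - ε)) := by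
          refine mul_le_mul_of_nonneg_right ?_ (by positivity)
          exact Real.rpow_le_rpow_of_exponent_le hD1 (by linarith)
      _ ≤ u * (u : ℝ) ^ ((T : ℝ) * (2 - ε)) := by
          refine mul_le_mul_of_nonneg_right ?_ (by positivity)
          have h4 : ((D ^ 2 : ℕ) : ℝ) ≤ u := by exact_mod_cast hDu
          calc (D : ℝ) ^ (2 : ℝ) = (D : ℝ) ^ 2 := by
                rw [← Real.rpow_natCast]
                norm_num
            _ = ((D ^ 2 : ℕ) : ℝ) := by push_cast; rfl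
            _ ≤ u := h4
      _ = (u : ℝ) ^ ((T : ℝ) * (2 - ε) + 1) := by
          rw [Real.rpow_add hu0, Real.rpow_one, mul_comm]
      _ ≤ (u : ℝ) ^ (((2 * ν) * (J + 1) : ℕ) : ℝ) :=
          Real.rpow_le_rpow_of_exponent_le hu1r hT
      _ = (((u ^ (2 * ν)) ^ (J + 1) : ℕ) : ℝ) := by
          rw [Real.rpow_natCast, ← pow_mul]
          push_cast
          rfl
  exact_mod_cast ha.trans h3

/-- **The chain.** -/
theorem chain : ChainP := by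
  intro C ε h0 h1
  obtain ⟨w, e, ν, J, D, hW, hD, hν, hν1, hJ, hT⟩ := exists_exponentsW (48 * C + 60) h0 h1
  set A : ℝ := 2 ^ 1 with hAdef
  have hA : 1 ≤ A := one_le_pow₀ (by norm_num)
  set θ : ℝ := ∑ s ∈ Finset.range (2 * (w + 1) + 3), thF D s A with hθdef
  have hθ : ∀ s ≤ 2 * (w + 1) + 2, thF D s A ≤ θ := by
    intro s hs
    refine Finset.single_le_sum (f := fun s => thF D s A) (fun i _ => ?_)
      (Finset.mem_range.mpr (by omega))
    exact zero_le_one.trans (thF_one_le hA)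
  obtain ⟨u₁, hu₁⟩ := exists_par0O (a := 1) hD hν hν1 hJ
  obtain ⟨u₂, hu₂⟩ := exists_parO (e := e) hD (by omega) hA hθ
  obtain ⟨u₃, hu₃⟩ := ev_pow (32 * (1 + D)) D
  obtain ⟨u₄, hu₄⟩ := exists_nat_ge (128 * thF 3 0 1 ^ 6)
  obtain ⟨u₅, hu₅⟩ := ev_pow 2 (2 * C + 1)
  refine ⟨D, w, u₁ + u₂ + u₃ + u₄ + u₅ + D ^ 2 + 1458, by omega, ?_⟩
  intro u hu hM S hS hsize k x hk1 hku hx hxS hxk
  have hp0 := hu₁ u (by omega)
  have hp := hu₂ u (by omega)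
  have h3 := hu₃ u (by omega)
  have h4 : 128 * thF 3 0 1 ^ 6 ≤ u := hu₄.trans (by exact_mod_cast (by omega : u₄ ≤ u))
  have h5 := hu₅ u (by omega)
  have hu1 : 1 ≤ u := by omega
  have hu1r : (1 : ℝ) ≤ u := by exact_mod_cast hu1
  have hx' : (1 : ℝ) ≤ x := by exact_mod_cast hx
  have hsz : ∀ φ ∈ S, φ.size ≤ (u ^ (2 * ν)) ^ (J + 1) := fun φ hφ =>
    size_le_pow h1 h0 hu1 (by omega) (by omega) hT (hsize φ hφ)
  have hcard : Fintype.card {φ // φ ∈ S} = S.card := Fintype.card_coe _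
  have hI : Fintype.card {φ // φ ∈ S} ≤ x := by
    rw [hcard]
    omega
  have hR : Fintype.card ({φ // φ ∈ S} × Fin 3) ≤ x := by
    rw [Fintype.card_prod, hcard, Fintype.card_fin]
    omega
  -- powers
  have h6 : (1 : ℝ) ≤ 6 * x := by linarith
  have hmono : (6 * (x : ℝ)) ^ (w + 1) ≤ (6 * x) ^ (w + 2) := pow_le_pow_right₀ h6 (by omega)
  have h2k : (2 : ℝ) ^ k ≤ 2 ^ (u ^ 2) :=
    pow_le_pow_right₀ (by norm_num) (by nlinarith)
  have hQ1 : (6 * (x : ℝ)) ^ (w + 1) * 2 ≤ 2 ^ (u ^ 2) := by linarith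
  -- the chain
  have hw0 := world0O hp0 S hS hsz
  obtain ⟨q, hq⟩ := iterO hp hx (relOf S hS (gridAxioms D (u ^ (w + 2)))) hI hR w le_rfl 2
    ((1 / A) ^ (u ^ 2)) (by norm_num) hQ1 le_rfl hw0
  have hpw : (1 : ℝ) ≤ (6 * x) ^ (w + 1) := one_le_pow₀ h6
  have hη : (4 * (x : ℝ)) ^ (w + 1) * (1 / A) ^ (u ^ 2) ≤ (1 / (u : ℝ) ^ (2 * C + 1)) ^ k := by
    have e1 : (4 * (x : ℝ)) ^ (w + 1) ≤ 2 ^ k := by
      have : (4 * (x : ℝ)) ^ (w + 1) ≤ (6 * x) ^ (w + 1) :=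
        pow_le_pow_left₀ (by positivity) (by linarith) _
      linarith
    have e2 : ((2 : ℝ) * (u : ℝ) ^ (2 * C + 1)) ^ k ≤ 2 ^ (u ^ 2) := by
      have h7 : (2 : ℝ) * (u : ℝ) ^ (2 * C + 1) ≤ 2 ^ u := by exact_mod_cast h5
      calc ((2 : ℝ) * (u : ℝ) ^ (2 * C + 1)) ^ k ≤ (2 ^ u) ^ k :=
            pow_le_pow_left₀ (by positivity) h7 _
        _ = 2 ^ (u * k) := by rw [← pow_mul]
        _ ≤ 2 ^ (u ^ 2) := pow_le_pow_right₀ (by norm_num) (by nlinarith)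
    have e3 : (1 / A) ^ (u ^ 2) = 1 / 2 ^ (u ^ 2) := by
      rw [hAdef, pow_one, one_div_pow]
    rw [e3, one_div_pow, mul_one_div, div_le_div_iff₀ (by positivity) (by positivity), one_mul]
    calc (4 * (x : ℝ)) ^ (w + 1) * ((u : ℝ) ^ (2 * C + 1)) ^ k
        ≤ 2 ^ k * ((u : ℝ) ^ (2 * C + 1)) ^ k := mul_le_mul_of_nonneg_right e1 (by positivity)
      _ = ((2 : ℝ) * (u : ℝ) ^ (2 * C + 1)) ^ k := by rw [mul_pow]
      _ ≤ 2 ^ (u ^ 2) := e2
  have hxQ : 6 * (x : ℝ) * ((6 * x) ^ (w + 1) * 2) ≤ 2 ^ k := by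
    have e1 : 6 * (x : ℝ) * ((6 * x) ^ (w + 1) * 2) = (6 * x) ^ (w + 2) * 2 := by ring
    rw [e1]
    exact hxk
  obtain ⟨q', hq'⟩ := last_stage (a := 2 * C + 1) (relOf S hS (gridAxioms D (u ^ (w + 2)))) hp.hu hM
    hx hI hR (by linarith) hk1 hku (by omega) (by omega) h3 h4 hxQ (by positivity) hη hq
  refine ⟨_, q', fam_mono hq' (by positivity) ?_⟩
  have e1 : 4 * (x : ℝ) ≤ (u : ℝ) ^ k := by
    have e2 : 4 * (x : ℝ) ≤ 2 ^ k := by
      have e3 : 6 * (x : ℝ) ≤ (6 * x) ^ (w + 2) := le_self_pow₀ h6 (by omega)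
      linarith
    refine e2.trans (pow_le_pow_left₀ (by norm_num) ?_ _)
    exact_mod_cast (by omega : 2 ≤ u)
  rw [one_div_pow, one_div_pow, mul_one_div, div_le_div_iff₀ (by positivity) (by positivity),
    one_mul, ← pow_mul, ← pow_mul]
  calc 4 * (x : ℝ) * (u : ℝ) ^ (2 * (C * k)) ≤ (u : ℝ) ^ k * (u : ℝ) ^ (2 * (C * k)) :=
        mul_le_mul_of_nonneg_right e1 (by positivity)
    _ = (u : ℝ) ^ ((2 * C + 1) * k) := by
        rw [← pow_add]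
        congr 1
        ring

end AcFrege
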