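import Pool.Agent.Work.MP_c07f0d_lc.DG.MFamDef
import Pool.Agent.Work.MP_c07f0d_lc.AC.Sound
import Pool.Agent.Work.MP_c07f0d_lc.AC.Subf
import Pool.Agent.Work.MP_c07f0d_lc.AC.SemOfLev
import Pool.Agent.Work.MP_c07f0d_lc.AC.LevIter

/-!
# The integer core of the lower bound, from the interfaces
-/

set_option linter.unusedSectionVars false

namespace AcFrege

open FregeEF LineSize GridLine

section

variable {α : Type} [DecidableEq α]

/-- The small formulas of `P`. -/
def smallOf (P : Finset (Fm α)) (S : ℕ) : Finset (Fm α) := P.filter fun φ => kind S φ = .small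

theorem mem_smallOf {P : Finset (Fm α)} {S : ℕ} {φ : Fm α} :
    φ ∈ smallOf P S ↔ φ ∈ P ∧ kind S φ = .small := by
  unfold smallOf
  rw [Finset.mem_filter]

theorem closed_smallOf {P : Finset (Fm α)} (hP : PClosed P) {S : ℕ} (hS : 1 ≤ S) :
    Closed (· ∈ smallOf P S) where
  neg a h := by
    rw [mem_smallOf, kind_eq_small_iff hS] at h ⊢
    refine ⟨hP.neg a h.1, le_trans ?_ h.2⟩
    show a.size ≤ a.size + 1
    omega
  and a b h := by
    rw [mem_smallOf, kind_eq_small_iff hS] at h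
    rw [mem_smallOf, kind_eq_small_iff hS, mem_smallOf, kind_eq_small_iff hS]
    have h2 : a.size + b.size + 1 ≤ S := h.2
    exact ⟨⟨(hP.and a b h.1).1, by omega⟩, ⟨(hP.and a b h.1).2, by omega⟩⟩
  or a b h := by
    rw [mem_smallOf, kind_eq_small_iff hS] at h
    rw [mem_smallOf, kind_eq_small_iff hS, mem_smallOf, kind_eq_small_iff hS]
    have h2 : a.size + b.size + 1 ≤ S := h.2
    exact ⟨⟨(hP.or a b h.1).1, by omega⟩, ⟨(hP.or a b h.1).2, by omega⟩⟩
  imp a b h := by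
    rw [mem_smallOf, kind_eq_small_iff hS] at h
    rw [mem_smallOf, kind_eq_small_iff hS, mem_smallOf, kind_eq_small_iff hS]
    have h2 : a.size + b.size + 1 ≤ S := h.2
    exact ⟨⟨(hP.imp a b h.1).1, by omega⟩, ⟨(hP.imp a b h.1).2, by omega⟩⟩

/-- The functions of matchings of a family. -/
noncomputable def pOf {N M : ℕ} (R : Finset (Fm α))
    (q : {φ : Fm α // φ ∈ R} → (GE 3 M → Bool) → ℝ) (φ : Fm α) : Mt (Fin N) → ℝ :=
  fun x => ext0 R q φ (YY2 x)

end

theorem Sm.neg' {V : Type} [Fintype V] [DecidableEq V] {π : Mt V} {D : ℕ} {e : ℝ}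
    {F G : Mt V → ℝ} (h : Sm π D e F) (hG : G = -F) : Sm π D e G := by
  intro L hL
  rw [hG, map_neg, abs_neg]
  exact h L hL

theorem Sm.mono' {V : Type} [Fintype V] [DecidableEq V] {π : Mt V} {D D' : ℕ} {e : ℝ}
    {F : Mt V → ℝ} (h : Sm π D e F) (hD : D ≤ D') : Sm π D' e F := by
  intro L hL
  refine h L ⟨hL.one, fun G hG => hL.pos G ?_, fun i G hG => hL.perf i G ?_,
    fun G hG => hL.base G ?_⟩
  all_goals exact Submodule.span_mono (by rintro F ⟨μ, h1, h2⟩; exact ⟨μ, h1.trans hD, h2⟩) hG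

/-- The family of functions of matchings from a family on the grid. -/
theorem mfam_of_fam {α : Type} [DecidableEq α] {C₁ N M k S : ℕ} (hlink : LinkP C₁) (hM : 1 ≤ M)
    (hN : Odd N) (hNM : N ≤ M) (hk : 1 ≤ k) (hCN : C₁ * k ≤ N) {P : Finset (Fm α)}
    (hcl : Closed (· ∈ smallOf P S)) {Γ : List (Fm α)} {Q η : ℝ} (hη : 0 ≤ η)
    {q : {φ : Fm α // φ ∈ smallOf P S} → (GE 3 M → Bool) → ℝ}
    (hq : Fam (gridNet 3 M hM) gcharge (relOf (smallOf P S) hcl Γ) k 0 Q η q) :
    MFam P S (2 * k) (C₁ * (2 * k)) (η * (3 * (M : ℝ) ^ 3 + 2) ^ (2 * k)) Γ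
      (pOf (N := N) (smallOf P S) q) := by
  obtain ⟨hl1, hl2⟩ := hlink N M k hM hN hNM hk hCN
  have hdeg : ∀ r, LowDeg (2 * k) ((relOf (smallOf P S) hcl Γ r).val q) := fun r =>
    Rl.lowDeg _ hq.deg
  have hr : ∀ r, Sm (ident : Mt (Fin N)) (C₁ * (2 * k)) (η * (3 * (M : ℝ) ^ 3 + 2) ^ (2 * k))
      (fun x : Mt (Fin N) => (relOf (smallOf P S) hcl Γ r).val q (YY2 x)) := fun r =>
    (hl2 _ (hdeg r) η hη (hq.rels r)).mono' (Nat.mul_le_mul_left _ (by omega))
  have hmem : ∀ {φ : Fm α}, φ ∈ P → kind S φ = .small → φ ∈ smallOf P S := fun h1 h2 =>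
    mem_smallOf.2 ⟨h1, h2⟩
  refine ⟨?_, ?_, ?_, ?_, ?_, ?_, ?_, ?_⟩
  · intro φ h1 h2
    have h := hmem h1 h2
    have e : pOf (N := N) (smallOf P S) q φ = fun x => q ⟨φ, h⟩ (YY2 x) := by
      funext x
      unfold pOf
      rw [ext0_of q h]
    rw [e]
    exact hl1 _ (hq.deg _)
  · intro φ h1 h2
    have h := hmem h1 h2
    refine (hr (⟨φ, h⟩, 0)).neg' ?_
    funext x
    simp only [pOf, Pi.sub_apply, Pi.mul_apply, Pi.neg_apply, ext0_of q h]
    simp [relOf, idemRl, Rl.val]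
  · intro h1
    have h := hmem h1 rfl
    have h2 := hr (⟨.bot, h⟩, 1)
    have e : (fun x : Mt (Fin N) => (relOf (smallOf P S) hcl Γ (⟨.bot, h⟩, 1)).val q (YY2 x)) =
        pOf (N := N) (smallOf P S) q .bot := by
      funext x
      simp only [pOf, ext0_of q h]
      simp [relOf, strRl, Rl.val]
    rw [e] at h2
    exact h2
  · intro a h1 h2
    have h := hmem h1 h2
    have h3 := hr (⟨.neg a, h⟩, 1)
    have e : (fun x : Mt (Fin N) => (relOf (smallOf P S) hcl Γ (⟨.neg a, h⟩, 1)).val q (YY2 x)) =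
        pOf (N := N) (smallOf P S) q (.neg a) - (1 - pOf (N := N) (smallOf P S) q a) := by
      funext x
      simp only [pOf, Pi.sub_apply, Pi.one_apply, ext0_of q h, ext0_of q (hcl.neg a h)]
      simp [relOf, strRl, Rl.val]
      ring
    rw [e] at h3
    exact h3
  · intro a b h1 h2
    have h := hmem h1 h2
    have h3 := hr (⟨.and a b, h⟩, 1)
    have e : (fun x : Mt (Fin N) => (relOf (smallOf P S) hcl Γ (⟨.and a b, h⟩, 1)).val q (YY2 x)) =
        pOf (N := N) (smallOf P S) q (.and a b) -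
          pOf (N := N) (smallOf P S) q a * pOf (N := N) (smallOf P S) q b := by
      funext x
      simp only [pOf, Pi.sub_apply, Pi.mul_apply, ext0_of q h, ext0_of q (hcl.and a b h).1,
        ext0_of q (hcl.and a b h).2]
      simp [relOf, strRl, Rl.val]
    rw [e] at h3
    exact h3
  · intro a b h1 h2
    have h := hmem h1 h2
    have h3 := hr (⟨.or a b, h⟩, 1)
    have e : (fun x : Mt (Fin N) => (relOf (smallOf P S) hcl Γ (⟨.or a b, h⟩, 1)).val q (YY2 x)) =
        pOf (N := N) (smallOf P S) q (.or a b) -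
          (pOf (N := N) (smallOf P S) q a + pOf (N := N) (smallOf P S) q b -
            pOf (N := N) (smallOf P S) q a * pOf (N := N) (smallOf P S) q b) := by
      funext x
      simp only [pOf, Pi.sub_apply, Pi.add_apply, Pi.mul_apply, ext0_of q h,
        ext0_of q (hcl.or a b h).1, ext0_of q (hcl.or a b h).2]
      simp [relOf, strRl, Rl.val]
      ring
    rw [e] at h3
    exact h3
  · intro a b h1 h2
    have h := hmem h1 h2
    have h3 := hr (⟨.imp a b, h⟩, 1)
    have e : (fun x : Mt (Fin N) => (relOf (smallOf P S) hcl Γ (⟨.imp a b, h⟩, 1)).val q (YY2 x)) =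
        pOf (N := N) (smallOf P S) q (.imp a b) -
          (1 - pOf (N := N) (smallOf P S) q a +
            pOf (N := N) (smallOf P S) q a * pOf (N := N) (smallOf P S) q b) := by
      funext x
      simp only [pOf, Pi.sub_apply, Pi.add_apply, Pi.mul_apply, Pi.one_apply, ext0_of q h,
        ext0_of q (hcl.imp a b h).1, ext0_of q (hcl.imp a b h).2]
      simp [relOf, strRl, Rl.val]
      ring
    rw [e] at h3
    exact h3
  · intro φ hφ h1 h2
    have h := hmem h1 h2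
    have h3 := hr (⟨φ, h⟩, 2)
    have e : (fun x : Mt (Fin N) => (relOf (smallOf P S) hcl Γ (⟨φ, h⟩, 2)).val q (YY2 x)) =
        pOf (N := N) (smallOf P S) q φ - 1 := by
      funext x
      simp only [pOf, Pi.sub_apply, Pi.one_apply, ext0_of q h]
      simp [relOf, hφ, oneRl, Rl.val]
    rw [e] at h3
    exact h3

private lemma exists_rsize2 (R : List Rule) : ∃ K, ∀ r ∈ R, rsize r ≤ K := by
  refine ⟨(R.map rsize).sum, fun r hr => ?_⟩
  exact List.single_le_sum (by simp) _ (List.mem_map_of_mem hr)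

private lemma free_ident_card2 {N : ℕ} : (free (ident : Mt (Fin N))).card = N := by
  have h1 : free (ident : Mt (Fin N)) = Finset.univ := by
    ext v
    rw [mem_free]
    simp [ident]
  rw [h1, Finset.card_univ, Fintype.card_fin]

/-- **The integer core of the lower bound.** -/
theorem core_dg (F : FregeSystem) {C₁ C₂ : ℕ} (hlink : LinkP C₁) (hbase : BaseP C₁ C₂) :
    ∃ C₃ : ℕ, 1 ≤ C₃ ∧ ∀ {α : Type} [DecidableEq α] (M k d y s S : ℕ) (hM : 1 ≤ M) (Q η : ℝ)
      (Γ L : List (Fm α)) (hcl : Closed (· ∈ smallOf (subfL L) S)), Odd y → y ^ 5 ^ d ≤ M →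
      1 ≤ k → 1 ≤ S → C₃ * k ^ 9 ≤ s → (subfL L).card < 2 ^ s → C₃ * s ^ 2 ≤ y → 0 ≤ η →
      η * (3 * (M : ℝ) ^ 3 + 2) ^ (2 * k) ≤ (1 / ((y ^ 5 ^ d : ℕ) : ℝ)) ^ (C₂ * (2 * k)) →
      (∃ q, Fam (gridNet 3 M hM) gcharge (relOf (smallOf (subfL L) S) hcl Γ) k 0 Q η q) →
      (∀ φ ∈ Γ, φ.size ≤ S) → IsDeriv F.rules Γ L → (∀ φ ∈ L, depth S φ ≤ d) → Fm.bot ∉ L := by
  classical
  obtain ⟨K, hK⟩ := exists_rsize2 F.rules
  refine ⟨4 * K + 100 + C₁ + 512 * C₂, by omega, ?_⟩
  intro α _ M k d y s S hM Q η Γ L hcl hodd hyM hk hS hks hcard hsy hη hηN hq hax hL hdepth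
  obtain ⟨q, hq⟩ := hq
  set P := subfL L with hP
  have hPcl : PClosed P := subClosed_subfL L
  set N := y ^ 5 ^ d with hN
  have hNodd : Odd N := hodd.pow
  have hyN : y ≤ N := Nat.le_self_pow (by positivity) y
  have hk9 : k ≤ k ^ 9 := Nat.le_self_pow (by norm_num) k
  have hk9' : 1 ≤ k ^ 9 := Nat.one_le_pow _ _ hk
  have hs1 : 1 ≤ s := by
    calc 1 ≤ (4 * K + 100 + C₁ + 512 * C₂) * k ^ 9 :=
          Nat.mul_pos (by omega) (by omega)
      _ ≤ s := hks
  have hss : s ≤ s ^ 2 := Nat.le_self_pow (by norm_num) s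
  have h100 : 100 * s ^ 2 ≤ N := by
    calc 100 * s ^ 2 ≤ (4 * K + 100 + C₁ + 512 * C₂) * s ^ 2 := Nat.mul_le_mul_right _ (by omega)
      _ ≤ y := hsy
      _ ≤ N := hyN
  have hCk : C₁ * k ≤ N := by
    calc C₁ * k ≤ (4 * K + 100 + C₁ + 512 * C₂) * k ^ 9 := Nat.mul_le_mul (by omega) hk9
      _ ≤ s := hks
      _ ≤ 100 * s ^ 2 := by omega
      _ ≤ N := h100
  -- the family of functions of matchings
  have hfam := mfam_of_fam (N := N) hlink hM hNodd hyM hk hCk hcl hη hq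
  -- the bottom level
  obtain ⟨A, hlev, hA⟩ := hbase α N (2 * k) s S P Γ _ _ hNodd (by omega) hS hPcl
    (by
      refine le_trans ?_ hks
      have e : C₂ * (2 * k) ^ 9 = 512 * C₂ * k ^ 9 := by ring
      rw [e]
      exact Nat.mul_le_mul_right _ (by omega)) h100 (by positivity) hηN hfam
  -- the levels
  obtain ⟨ρ, A', hfree, -, hlev', hA'⟩ := lev_iter hS hPcl (q := s) (u := y) d
    (by
      refine le_trans (Nat.mul_le_mul_right _ ?_) hsy
      omega) hodd hcard ident A (by rw [free_ident_card2]) hlev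
  have hsem := sem_of_lev hS hPcl hlev'
  refine sem_no_bot hsem (subClosed_depth L d) F.rules F.sound hK ?_ hL ?_ ?_
  · -- the room
    show (K + 4) * (4 * s) ≤ (free ρ).card
    rw [hfree]
    refine le_trans ?_ hsy
    calc (K + 4) * (4 * s) = (4 * K + 16) * s := by ring
      _ ≤ (4 * K + 100 + C₁ + 512 * C₂) * s ^ 2 := Nat.mul_le_mul (by omega) hss
  · exact fun φ hφ => ⟨mem_subfL_of_mem hφ, hdepth φ hφ⟩
  · -- the axioms are not false
    intro φ hφ hIn a _ hV
    obtain ⟨μ, hμ, -⟩ := hV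
    have hsz : φ.size ≤ S := hax φ hφ
    rw [hA' φ hIn.1 (le_of_eq (depth_of_size_le hsz)), hA φ hφ hIn.1 (kind_of_size_le hsz)] at hμ
    exact hμ

end AcFrege
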