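import Pool.Agent.Work.MP_c07f0d_lc.TL.UpperG
import Pool.Agent.Work.MP_c07f0d_lc.AC.Subf
import Pool.Agent.Work.MP_c07f0d_lc.AC.Par

/-!
# The final theorem for the grids, from the integer core
-/

set_option linter.unusedSectionVars false

namespace AcFrege

open FregeEF LineSize GridLine DepthLine

/-- The integer core of the lower bound, for the grids of dimension `D` and side `u ^ v`. -/
def CoreG (ε : ℝ) (D v u₀ : ℕ) (F : FregeSystem) : Prop :=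
  ∃ C₁ : ℕ, 1 ≤ C₁ ∧ ∀ d u a k s T S : ℕ, u₀ ≤ u → C₁ ≤ u → Odd a → a ^ 5 ^ d ≤ u →
    1 ≤ k → k ≤ u → 1 ≤ T → (C₁ * T) ^ v * 2 ≤ 2 ^ k → C₁ * k ^ 4 ≤ s → T < 2 ^ s →
    C₁ * s ^ 2 ≤ a → 1 ≤ S → (S : ℝ) ≤ (Fintype.card (GE D (u ^ v)) : ℝ) ^ (2 - ε) →
    (∀ φ ∈ gridAxioms D (u ^ v), φ.size ≤ S) →
    ∀ L : List (Fm (GE D (u ^ v))), IsDeriv F.rules (gridAxioms D (u ^ v)) L →
      (∀ φ ∈ L, depth S φ ≤ d) → (subfL L).card ≤ T → Fm.bot ∉ L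

/-- The final theorem. -/
theorem finalG (ε : ℝ) (h1 : ε < 1) {D v u₀ : ℕ} (hD : 2 ≤ D) (hv : 1 ≤ v)
    (hcore : ∀ F, CoreG ε D v u₀ F) :
    ∃ δ : ℝ, 0 < δ ∧ ∀ F : FregeSystem, ∃ c : ℕ, ∀ u : ℕ, c ≤ u →
      (∀ φ ∈ gridAxioms D (u ^ v), φ.size ≤ c) ∧
      lsize (gridAxioms D (u ^ v)) ≤ c * Fintype.card (GE D (u ^ v)) ∧
      (∃ L, IsDeriv F.rules (gridAxioms D (u ^ v)) L ∧ Fm.bot ∈ L ∧
        L.length ≤ c * Fintype.card (GE D (u ^ v)) ^ 3 ∧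
        ∀ φ ∈ L, φ.size ≤ c * Fintype.card (GE D (u ^ v)) ^ 2) ∧
      (∀ d : ℕ, c ^ 5 ^ d ≤ u → ∀ L, IsDeriv F.rules (gridAxioms D (u ^ v)) L → Fm.bot ∈ L →
        (∀ φ ∈ L, depth ⌊(Fintype.card (GE D (u ^ v)) : ℝ) ^ (2 - ε)⌋₊ φ ≤ d) →
        (2 : ℝ) ^ ((Fintype.card (GE D (u ^ v)) : ℝ) ^ (δ / 5 ^ d)) < (subfL L).card) := by
  obtain ⟨δ, hδ, hpar⟩ := exists_par (v * D)
  refine ⟨δ, hδ, fun F => ?_⟩
  obtain ⟨c₁, hc₁⟩ := upperG F D hD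
  obtain ⟨C₁, hC₁, hcoreF⟩ := hcore F
  set C' := C₁ + v + 2 with hC'
  obtain ⟨U, hU⟩ := hpar C' (by omega)
  refine ⟨64 * D ^ 2 + c₁ + U + u₀ + C₁ + D + 2, fun u hu => ?_⟩
  have hDD : D ≤ D ^ 2 := Nat.le_self_pow (by norm_num) D
  have hu2 : 2 ≤ u := by omega
  have hM2 : 2 ≤ u ^ v := hu2.trans (Nat.le_self_pow (by omega) _)
  set n := Fintype.card (GE D (u ^ v)) with hn
  have hMn : (u ^ v) ^ D ≤ n := le_card_GE hM2 hD
  have hun : u ≤ n := by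
    refine le_trans ?_ hMn
    rw [← pow_mul]
    exact Nat.le_self_pow (Nat.mul_ne_zero (by omega) (by omega)) _
  have hn1 : 1 ≤ n := by omega
  have hn5 : n ≤ u ^ (v * D + 5) := by
    have h2 : n ≤ D * (u ^ v) ^ D := card_GE_le
    calc n ≤ D * (u ^ v) ^ D := h2
      _ ≤ u * (u ^ v) ^ D := Nat.mul_le_mul_right _ (by omega)
      _ = u ^ (v * D + 1) := by rw [← pow_mul, pow_succ]; ring
      _ ≤ u ^ (v * D + 5) := Nat.pow_le_pow_right (by omega) (by omega)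
  have hax : ∀ φ ∈ gridAxioms D (u ^ v), φ.size ≤ 64 * D ^ 2 := by
    intro φ hφ
    obtain ⟨x, _, rfl⟩ := List.mem_map.mp hφ
    exact size_gridAx (by omega) x
  refine ⟨fun φ hφ => (hax φ hφ).trans (by omega), ?_, ?_, ?_⟩
  · exact (lsize_gridAxioms hD hM2).trans (Nat.mul_le_mul_right _ (by omega))
  · obtain ⟨L, hL, hbot, hlen, hsz⟩ := hc₁ (u ^ v) hM2
    exact ⟨L, hL, hbot, hlen.trans (Nat.mul_le_mul_right _ (by omega)),
      fun φ hφ => (hsz φ hφ).trans (Nat.mul_le_mul_right _ (by omega))⟩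
  intro d hd L hL hbot hdepth
  by_contra hcon
  push Not at hcon
  -- the threshold
  set S := ⌊(n : ℝ) ^ (2 - ε)⌋₊ with hS
  have hnr : (1 : ℝ) ≤ (n : ℝ) := by exact_mod_cast hn1
  have hpow0 : (0 : ℝ) ≤ (n : ℝ) ^ (2 - ε) := by positivity
  have hnS : n ≤ S := by
    refine Nat.le_floor ?_
    calc (n : ℝ) = (n : ℝ) ^ (1 : ℝ) := (Real.rpow_one _).symm
      _ ≤ (n : ℝ) ^ (2 - ε) := Real.rpow_le_rpow_of_exponent_le hnr (by linarith)
  have hdU : U ^ 5 ^ d ≤ u := (Nat.pow_le_pow_left (by omega) _).trans hd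
  set T := (subfL L).card with hTdef
  have hT1 : 1 ≤ T := Finset.card_pos.2 ⟨_, mem_subfL_of_mem hbot⟩
  obtain ⟨a, k₀, s, hodd, _, hau, hk₀, hT, hs, hTs, hsa⟩ :=
    hU (5 ^ d) (Nat.one_le_pow _ _ (by norm_num)) u _ hdU hn1 hn5 T (by
      refine hcon.trans (le_of_eq ?_)
      push_cast
      rfl)
  have hT' : C₁ * T ≤ 2 ^ k₀ := by
    refine le_trans ?_ hT.le
    exact Nat.mul_le_mul (by omega) (Nat.le_succ _)
  have hks : C₁ * ((v + 1) * k₀) ^ 4 ≤ s := by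
    rw [hs]
    exact Nat.mul_le_mul (by omega) (Nat.pow_le_pow_left (Nat.mul_le_mul_right _ (by omega)) _)
  have hk1 : 1 ≤ (v + 1) * k₀ := Nat.mul_pos (by omega) hk₀
  have hksle : (v + 1) * k₀ ≤ s := by
    refine le_trans ?_ hks
    refine le_trans (Nat.le_self_pow (n := 4) (by norm_num) _) ?_
    exact Nat.le_mul_of_pos_left _ hC₁
  have hsle : s ≤ a := by
    refine le_trans ?_ hsa
    refine le_trans (Nat.le_self_pow (n := 2) (by norm_num) _) ?_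
    exact Nat.le_mul_of_pos_left _ (by omega)
  have hale : a ≤ u := (Nat.le_self_pow (by positivity) _).trans hau
  refine hcoreF d u a ((v + 1) * k₀) s T S (by omega) (by omega) hodd hau hk1 (by omega) hT1 ?_
    hks ?_ ?_ (hn1.trans hnS) (Nat.floor_le hpow0) (fun φ hφ => (hax φ hφ).trans (by omega))
    L hL hdepth le_rfl hbot
  · calc (C₁ * T) ^ v * 2 ≤ (2 ^ k₀) ^ v * 2 :=
          Nat.mul_le_mul_right _ (Nat.pow_le_pow_left hT' _)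
      _ = 2 ^ (k₀ * v + 1) := by rw [← pow_mul, pow_succ]
      _ ≤ 2 ^ ((v + 1) * k₀) := by
          refine Nat.pow_le_pow_right (by norm_num) ?_
          have : (v + 1) * k₀ = k₀ * v + k₀ := by ring
          omega
  · have h2 : T ≤ C' * (T + 1) :=
      (Nat.le_succ _).trans (Nat.le_mul_of_pos_left _ (by omega))
    exact lt_of_le_of_lt h2 hTs
  · exact le_trans (Nat.mul_le_mul_right _ (by omega)) hsa

end AcFrege
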