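import Pool.Agent.Work.MP_c07f0d_lc.DG.ParDG

/-!
# The final theorem from the interfaces
-/

set_option linter.unusedSectionVars false

namespace AcFrege

open FregeEF LineSize GridLine

/-- **The final theorem, from the interfaces.** -/
theorem final_dg {C₁ C₂ : ℕ} (hlink : LinkP C₁) (hbase : BaseP C₁ C₂) (hchain : ChainP)
    (ε : ℝ) (h0 : 0 < ε) (h1 : ε < 1) :
    ∃ (D v : ℕ) (δ : ℝ), 0 < δ ∧ ∀ F : FregeSystem, ∃ c : ℕ, ∀ u : ℕ, c ≤ u →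
      (∀ φ ∈ gridAxioms D (u ^ v), φ.size ≤ c) ∧
      lsize (gridAxioms D (u ^ v)) ≤ c * Fintype.card (GE D (u ^ v)) ∧
      (∃ L, IsDeriv F.rules (gridAxioms D (u ^ v)) L ∧ Fm.bot ∈ L ∧
        L.length ≤ c * Fintype.card (GE D (u ^ v)) ^ 3 ∧
        ∀ φ ∈ L, φ.size ≤ c * Fintype.card (GE D (u ^ v)) ^ 2) ∧
      (∀ d : ℕ, c ^ 5 ^ d ≤ u → ∀ L, IsDeriv F.rules (gridAxioms D (u ^ v)) L → Fm.bot ∈ L →
        (∀ φ ∈ L, depth ⌊(Fintype.card (GE D (u ^ v)) : ℝ) ^ (2 - ε)⌋₊ φ ≤ d) →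
        (2 : ℝ) ^ ((Fintype.card (GE D (u ^ v)) : ℝ) ^ (δ / 5 ^ d)) < (subfL L).card) := by
  obtain ⟨D, w, δ, hD, hδ, hpar⟩ := params_dg hchain C₂ 9 2 (by norm_num) (by norm_num) ε h0 h1
  refine ⟨D, w + 2, δ, hδ, fun F => ?_⟩
  obtain ⟨C₃, hC₃, hcore⟩ := core_dg F hlink hbase
  obtain ⟨c₁, hc₁⟩ := upperG F D (by omega)
  obtain ⟨c₂, hc₂, hpar⟩ := hpar C₃ hC₃
  refine ⟨64 * D ^ 2 + c₁ + c₂, fun u hu => ?_⟩
  have hu2 : 2 ≤ u := by omega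
  have hM2 : 2 ≤ u ^ (w + 2) := by
    calc 2 ≤ u := hu2
      _ ≤ u ^ (w + 2) := Nat.le_self_pow (by omega) _
  obtain ⟨hun, hnup⟩ := nvar_dg (w := w) hD (by omega : D + 2 ≤ u)
  set n := Fintype.card (GE D (u ^ (w + 2))) with hn
  have hn1 : 1 ≤ n := by omega
  have hnr : (1 : ℝ) ≤ (n : ℝ) := by exact_mod_cast hn1
  set S := ⌊(n : ℝ) ^ (2 - ε)⌋₊ with hS
  have hnS : n ≤ S := by
    refine Nat.le_floor ?_
    calc (n : ℝ) = (n : ℝ) ^ (1 : ℝ) := (Real.rpow_one _).symm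
      _ ≤ (n : ℝ) ^ (2 - ε) := Real.rpow_le_rpow_of_exponent_le hnr (by linarith)
  have hsizeax : ∀ φ ∈ gridAxioms D (u ^ (w + 2)), φ.size ≤ 64 * D ^ 2 := by
    intro φ hφ
    obtain ⟨v, _, rfl⟩ := List.mem_map.mp hφ
    exact size_gridAx (by omega) v
  refine ⟨?_, ?_, ?_, ?_⟩
  · intro φ hφ
    exact (hsizeax φ hφ).trans (by omega)
  · refine (lsize_gridAxioms (by omega) hM2).trans ?_
    exact Nat.mul_le_mul_right _ (by omega)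
  · obtain ⟨L, k1, k2, k3, k4⟩ := hc₁ (u ^ (w + 2)) hM2
    exact ⟨L, k1, k2, k3.trans (Nat.mul_le_mul_right _ (by omega)),
      fun φ hφ => (k4 φ hφ).trans (Nat.mul_le_mul_right _ (by omega))⟩
  intro d hd L hL hbot hdepth
  by_contra hcon
  push Not at hcon
  have hS1 : 1 ≤ S := by omega
  have hM1 : 1 ≤ u ^ 2 := Nat.one_le_pow _ _ (by omega)
  obtain ⟨k, s, y, Q, η, hodd, hyM, hk1, hks, hTs, hsy, hη, hηN, hq⟩ := hpar u d
    ((Nat.pow_le_pow_left (by omega) _).trans hd) (subfL L) (subClosed_subfL L) S hS1 hM1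
    (Nat.floor_le (by positivity)) hcon
  exact hcore (u ^ 2) k d y s S hM1 Q η _ L (closed_smallOf (subClosed_subfL L) hS1) hodd hyM hk1
    hS1 hks hTs hsy hη hηN hq (fun φ hφ => (hsizeax φ hφ).trans (by omega)) hL hdepth hbot

end AcFrege
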