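import Pool.Agent.Work.MP_c07f0d_lc.TL.GridA

/-!
# Small cuts of the 3-dimensional grid
-/

namespace AcFrege

open Finset LineSize GridLine

/-- A plane which contains points of `U` and other points has a boundary edge. -/
theorem plane_edge {M : ℕ} {U : Finset (GV 3 M)} {a b : GV 3 M} {i : Fin 3} (hab : a i = b i)
    (ha : a ∈ U) (hb : b ∉ U) : ∃ e ∈ bd gsrc gtgt U, e.1.1 i = a i := by
  have h : Odd (gpath a b ∩ bd gsrc gtgt U).card := (gpath_spec a b U).2 (by simp [ha, hb])
  obtain ⟨e, he⟩ := Finset.card_pos.1 h.pos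
  rw [mem_inter] at he
  refine ⟨e, he.2, ?_⟩
  have h1 := he.1
  simp only [gpath, mem_filter, mem_univ, true_and] at h1
  obtain ⟨h2, h3, h4, h5⟩ := h1
  rcases lt_trichotomy i e.1.2 with hi | hi | hi
  · rw [h2 i hi, hab]
  · exfalso
    rw [← hi, hab, min_self] at h4
    rw [← hi, hab, max_self] at h5
    exact absurd (lt_of_le_of_lt h4 h5) (lt_irrefl _)
  · rw [h3 i hi]

/-- There is a height without boundary edges. -/
theorem exists_height {M t : ℕ} {U : Finset (GV 3 M)} (hc : (bd gsrc gtgt U).card ≤ t)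
    (ht : t < M) (i : Fin 3) : ∃ h : Fin M, ∀ e ∈ bd gsrc gtgt U, e.1.1 i ≠ h := by
  by_contra hcon
  push Not at hcon
  have h1 : (univ : Finset (Fin M)) ⊆ (bd gsrc gtgt U).image fun e => e.1.1 i := by
    intro h _
    obtain ⟨e, he, heh⟩ := hcon h
    exact mem_image.2 ⟨e, he, heh⟩
  have h2 := (card_le_card h1).trans card_image_le
  rw [card_univ, Fintype.card_fin] at h2
  omega

theorem cut_box_aux {M t : ℕ} {U : Finset (GV 3 M)} (hc : (bd gsrc gtgt U).card ≤ t) (ht : t < M)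
    (h₀ : Fin M) (h : ∀ x : GV 3 M, x 0 = h₀ → x ∉ U) :
    ∀ i, (U.image fun u => u i).card ≤ t := by
  have key : ∀ i : Fin 3, (∀ u ∈ U, ∃ e ∈ bd gsrc gtgt U, e.1.1 i = u i) →
      (U.image fun u => u i).card ≤ t := by
    intro i hi
    have hsub : (U.image fun u => u i) ⊆ (bd gsrc gtgt U).image fun e => e.1.1 i := by
      intro y hy
      obtain ⟨u, hu, rfl⟩ := mem_image.1 hy
      obtain ⟨e, he, heu⟩ := hi u hu
      exact mem_image.2 ⟨e, he, heu⟩
    exact ((card_le_card hsub).trans card_image_le).trans hc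
  have h1 : ∀ i : Fin 3, i ≠ 0 → ∀ u ∈ U, ∃ e ∈ bd gsrc gtgt U, e.1.1 i = u i := by
    intro i hi u hu
    exact plane_edge (b := Function.update u 0 h₀)
      (by rw [Function.update_of_ne hi]) hu (h _ (by rw [Function.update_self]))
  obtain ⟨h₁, hh₁⟩ := exists_height hc ht 1
  have h2 : ∀ x : GV 3 M, x 1 = h₁ → x ∉ U := by
    intro x hx hxU
    obtain ⟨e, he, hex⟩ := h1 1 (by decide) x hxU
    exact hh₁ e he (hex.trans hx)
  intro i
  by_cases hi : i = 0
  · subst hi
    refine key 0 fun u hu => ?_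
    exact plane_edge (b := Function.update u 1 h₁)
      (by rw [Function.update_of_ne (by decide)]) hu (h2 _ (by rw [Function.update_self]))
  · exact key i (h1 i hi)

theorem cut_bd_compl {M : ℕ} (U : Finset (GV 3 M)) : bd gsrc gtgt Uᶜ = bd gsrc gtgt U := by
  ext e
  simp only [bd, mem_filter, mem_univ, true_and, mem_compl]
  tauto

/-- **Small cuts.**  A cut with at most `t < M` edges is the boundary of a set which has at most
`t` values of every coordinate. -/
theorem cut_box {M t : ℕ} {U₀ : Finset (GV 3 M)} (hc : (bd gsrc gtgt U₀).card ≤ t) (ht : t < M) :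
    ∃ U, bd gsrc gtgt U = bd gsrc gtgt U₀ ∧ ∀ i, (U.image fun u => u i).card ≤ t := by
  obtain ⟨h₀, hh₀⟩ := exists_height hc ht 0
  by_cases h : ∀ x : GV 3 M, x 0 = h₀ → x ∉ U₀
  · exact ⟨U₀, rfl, cut_box_aux hc ht h₀ h⟩
  · push Not at h
    obtain ⟨a, ha, haU⟩ := h
    refine ⟨U₀ᶜ, cut_bd_compl U₀, cut_box_aux (by rw [cut_bd_compl]; exact hc) ht h₀ ?_⟩
    intro x hx hxU
    rw [mem_compl] at hxU
    obtain ⟨e, he, hea⟩ := plane_edge (ha.trans hx.symm) haU hxU
    exact hh₀ e he (hea.trans ha)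

end AcFrege
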