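import Pool.Agent.Work.MP_c07f0d_lc.DG.PwDef
import Pool.Agent.Work.MP_c07f0d_lc.AC.ConsDef
import Mathlib.Tactic.Linarith
import Mathlib.Tactic.Positivity
import Mathlib.Tactic.FieldSimp
import Mathlib.Algebra.QuadraticDiscriminant
import Mathlib.Algebra.BigOperators.Pi

/-!
# Pseudo-functionals on functions of matchings: basic facts
-/

set_option linter.unusedSectionVars false

namespace AcFrege

variable {V : Type} [Fintype V] [DecidableEq V]

theorem zz_apply_of_le {μ x : Mt V} (h : μ ≤ x) : zz μ x = 1 := by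
  unfold zz
  rw [if_pos h]

theorem zz_apply_of_not {μ x : Mt V} (h : ¬ μ ≤ x) : zz μ x = 0 := by
  unfold zz
  rw [if_neg h]

theorem zz_nonneg (μ x : Mt V) : 0 ≤ zz μ x := by
  by_cases h : μ ≤ x
  · rw [zz_apply_of_le h]; norm_num
  · rw [zz_apply_of_not h]

theorem zz_sq (μ : Mt V) : zz μ * zz μ = zz μ := by
  funext x
  rw [Pi.mul_apply]
  by_cases h : μ ≤ x
  · rw [zz_apply_of_le h]; norm_num
  · rw [zz_apply_of_not h]; norm_num

theorem zz_mul_of_compat {μ ν : Mt V} (h : Compat μ ν) : zz μ * zz ν = zz (μ.join ν h) := by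
  funext x
  rw [Pi.mul_apply]
  by_cases h1 : μ ≤ x
  · by_cases h2 : ν ≤ x
    · rw [zz_apply_of_le h1, zz_apply_of_le h2, zz_apply_of_le (Mt.join_le h h1 h2)]
      norm_num
    · rw [zz_apply_of_not h2, zz_apply_of_not (fun h3 => h2 ((Mt.le_join_right μ ν h).trans h3))]
      norm_num
  · rw [zz_apply_of_not h1, zz_apply_of_not (fun h3 => h1 ((Mt.le_join_left μ ν h).trans h3))]
    norm_num

theorem zz_mul_of_not_compat {μ ν : Mt V} (h : ¬ Compat μ ν) : zz μ * zz ν = 0 := by
  funext x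
  rw [Pi.mul_apply, Pi.zero_apply]
  by_cases h1 : μ ≤ x
  · by_cases h2 : ν ≤ x
    · exact absurd (Compat.of_le h1 h2) h
    · rw [zz_apply_of_not h2, mul_zero]
  · rw [zz_apply_of_not h1, zero_mul]

theorem zz_mul_of_le {μ ν : Mt V} (h : μ ≤ ν) : zz μ * zz ν = zz ν := by
  funext x
  rw [Pi.mul_apply]
  by_cases h2 : ν ≤ x
  · rw [zz_apply_of_le h2, zz_apply_of_le (h.trans h2)]; norm_num
  · rw [zz_apply_of_not h2, mul_zero]

theorem zz_ident : zz (ident : Mt V) = 1 := by
  funext x
  rw [zz_apply_of_le (fun v hv => absurd rfl hv)]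
  rfl

theorem cost_join_le (π : Mt V) {μ ν : Mt V} (h : Compat μ ν) :
    cost π (μ.join ν h) ≤ cost π μ + cost π ν := by
  unfold cost
  have h1 : (free π).filter (fun v => (μ.join ν h) v ≠ v) ⊆
      (free π).filter (fun v => μ v ≠ v) ∪ (free π).filter (fun v => ν v ≠ v) := by
    intro v hv
    rw [Finset.mem_filter] at hv
    rw [Finset.mem_union, Finset.mem_filter, Finset.mem_filter]
    by_cases hm : μ v = v
    · right
      refine ⟨hv.1, ?_⟩
      have h2 := hv.2
      rw [Mt.join_apply, if_pos hm] at h2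
      exact h2
    · exact Or.inl ⟨hv.1, hm⟩
  exact (Finset.card_le_card h1).trans (Finset.card_union_le _ _)

theorem zz_mem {π μ : Mt V} {D : ℕ} (h : cost π μ ≤ D) : zz μ ∈ Deg π D :=
  Submodule.subset_span ⟨μ, h, rfl⟩

theorem Deg.mono {π : Mt V} {D D' : ℕ} (h : D ≤ D') : Deg π D ≤ Deg π D' :=
  Submodule.span_mono (by rintro F ⟨μ, h1, h2⟩; exact ⟨μ, h1.trans h, h2⟩)

theorem Deg.anti {π π' : Mt V} {D : ℕ} (h : π ≤ π') : Deg π D ≤ Deg π' D :=
  Submodule.span_mono (by rintro F ⟨μ, h1, h2⟩; exact ⟨μ, (cost_anti_left h).trans h1, h2⟩)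

theorem Deg.mul {π : Mt V} {a b : ℕ} {F G : Mt V → ℝ} (hF : F ∈ Deg π a) (hG : G ∈ Deg π b) :
    F * G ∈ Deg π (a + b) := by
  unfold Deg at hF
  induction hF using Submodule.span_induction with
  | mem F hF =>
    obtain ⟨μ, hμ, rfl⟩ := hF
    unfold Deg at hG
    induction hG using Submodule.span_induction with
    | mem G hG =>
      obtain ⟨ν, hν, rfl⟩ := hG
      by_cases h : Compat μ ν
      · rw [zz_mul_of_compat h]
        exact zz_mem ((cost_join_le π h).trans (by omega))
      · rw [zz_mul_of_not_compat h]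
        exact Submodule.zero_mem _
    | zero => rw [mul_zero]; exact Submodule.zero_mem _
    | add x y _ _ hx hy => rw [mul_add]; exact Submodule.add_mem _ hx hy
    | smul c x _ hx => rw [mul_smul_comm]; exact Submodule.smul_mem _ _ hx
  | zero => rw [zero_mul]; exact Submodule.zero_mem _
  | add x y _ _ hx hy => rw [add_mul]; exact Submodule.add_mem _ hx hy
  | smul c x _ hx => rw [smul_mul_assoc]; exact Submodule.smul_mem _ _ hx

theorem cost_ident (π : Mt V) : cost π (ident : Mt V) = 0 := by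
  unfold cost
  rw [Finset.card_eq_zero, Finset.filter_eq_empty_iff]
  intro v _ h
  exact h rfl

theorem one_mem {π : Mt V} {D : ℕ} : (1 : Mt V → ℝ) ∈ Deg π D := by
  rw [← zz_ident]
  exact zz_mem (by rw [cost_ident]; omega)

theorem const_mem {π : Mt V} {D : ℕ} (c : ℝ) : (fun _ : Mt V => c) ∈ Deg π D := by
  have : (fun _ : Mt V => c) = c • (1 : Mt V → ℝ) := by
    funext x; simp
  rw [this]
  exact Submodule.smul_mem _ _ one_mem

/-- The single edge `i j`. -/
def edge (i j : V) : Mt V := addE ident i j rfl rfl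

theorem edge_apply (i j v : V) : edge i j v = if v = i then j else if v = j then i else v := rfl

theorem edge_le_iff {i j : V} (hij : i ≠ j) (x : Mt V) : edge i j ≤ x ↔ x i = j := by
  constructor
  · intro h
    have h1 : edge i j i ≠ i := by rw [edge_apply, if_pos rfl]; exact hij.symm
    rw [h i h1, edge_apply, if_pos rfl]
  · intro h v hv
    rw [edge_apply] at hv ⊢
    by_cases h1 : v = i
    · rw [if_pos h1, h1, h]
    · rw [if_neg h1] at hv ⊢
      by_cases h2 : v = j
      · rw [if_pos h2, h2, ← h, x.invol]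
      · rw [if_neg h2] at hv
        exact absurd rfl hv

theorem cost_edge_le (π : Mt V) (i j : V) : cost π (edge i j) ≤ 2 := by
  unfold cost
  have h1 : (free π).filter (fun v => edge i j v ≠ v) ⊆ {i, j} := by
    intro v hv
    rw [Finset.mem_filter, edge_apply] at hv
    rw [Finset.mem_insert, Finset.mem_singleton]
    by_contra hc
    rw [not_or] at hc
    rw [if_neg hc.1, if_neg hc.2] at hv
    exact hv.2 rfl
  exact (Finset.card_le_card h1).trans Finset.card_le_two

theorem one_eq_sum (i : V) :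
    (1 : Mt V → ℝ) = fr i + ∑ j ∈ Finset.univ.erase i, zz (edge i j) := by
  funext x
  rw [Pi.add_apply, Finset.sum_apply, Pi.one_apply]
  unfold fr
  by_cases hx : x i = i
  · rw [if_pos hx, Finset.sum_eq_zero, add_zero]
    intro j hj
    rw [Finset.mem_erase] at hj
    apply zz_apply_of_not
    rw [edge_le_iff hj.1.symm, hx]
    exact fun h => hj.1 h.symm
  · rw [if_neg hx, zero_add, Finset.sum_eq_single_of_mem (x i)
      (Finset.mem_erase.2 ⟨hx, Finset.mem_univ _⟩), zz_apply_of_le]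
    · rw [edge_le_iff (fun h => hx h.symm)]
    · intro j hj hne
      rw [Finset.mem_erase] at hj
      apply zz_apply_of_not
      rw [edge_le_iff hj.1.symm]
      exact fun h => hne h.symm

theorem fr_eq (i : V) : (fr i : Mt V → ℝ) = 1 - ∑ j ∈ Finset.univ.erase i, zz (edge i j) := by
  rw [one_eq_sum i]
  abel

theorem fr_mem {π : Mt V} (i : V) : (fr i : Mt V → ℝ) ∈ Deg π 2 := by
  rw [fr_eq]
  refine Submodule.sub_mem _ one_mem (Submodule.sum_mem _ fun j _ => zz_mem (cost_edge_le π i j))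

/-! ### The action of the permutations -/

@[simp] theorem conj_one (x : Mt V) : Mt.conj 1 x = x := by
  ext v
  rfl

theorem conj_mul (σ τ : Equiv.Perm V) (x : Mt V) :
    Mt.conj (σ * τ) x = Mt.conj σ (Mt.conj τ x) := by
  ext v
  simp [Equiv.Perm.mul_def]

@[simp] theorem conj_inv_conj (σ : Equiv.Perm V) (x : Mt V) :
    Mt.conj σ⁻¹ (Mt.conj σ x) = x := by
  rw [← conj_mul]; simp

@[simp] theorem conj_conj_inv (σ : Equiv.Perm V) (x : Mt V) :
    Mt.conj σ (Mt.conj σ⁻¹ x) = x := by
  rw [← conj_mul]; simp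

theorem conj_mono (σ : Equiv.Perm V) {x y : Mt V} (h : x ≤ y) : Mt.conj σ x ≤ Mt.conj σ y := by
  intro v hv
  rw [Mt.conj_apply] at hv
  have h1 : x (σ.symm v) ≠ σ.symm v := by
    intro hc
    apply hv
    rw [hc]; simp
  rw [Mt.conj_apply, Mt.conj_apply, h _ h1]

theorem conj_le_iff (σ : Equiv.Perm V) {x y : Mt V} : x ≤ Mt.conj σ y ↔ Mt.conj σ⁻¹ x ≤ y := by
  constructor
  · intro h
    have := conj_mono σ⁻¹ h
    rwa [conj_inv_conj] at this
  · intro h
    have := conj_mono σ h
    rwa [conj_conj_inv] at this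

theorem act_zz (σ : Equiv.Perm V) (μ : Mt V) : act σ (zz μ) = zz (Mt.conj σ⁻¹ μ) := by
  funext x
  rw [act_apply]
  by_cases h : μ ≤ Mt.conj σ x
  · rw [zz_apply_of_le h, zz_apply_of_le ((conj_le_iff σ).1 h)]
  · rw [zz_apply_of_not h, zz_apply_of_not (fun h' => h ((conj_le_iff σ).2 h'))]

theorem act_fr (σ : Equiv.Perm V) (i : V) : act σ (fr i) = fr (σ⁻¹ i) := by
  funext x
  rw [act_apply]
  unfold fr
  rw [Mt.conj_apply]
  have h : (σ (x (σ.symm i)) = i) ↔ (x (σ⁻¹ i) = σ⁻¹ i) := by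
    constructor
    · intro h
      have := congrArg σ.symm h
      simpa using this
    · intro h
      have h' : x (σ.symm i) = σ.symm i := h
      rw [h']; simp
  by_cases hc : x (σ⁻¹ i) = σ⁻¹ i
  · rw [if_pos (h.2 hc), if_pos hc]
  · rw [if_neg (fun h' => hc (h.1 h')), if_neg hc]

theorem act_mul' (σ : Equiv.Perm V) (F G : Mt V → ℝ) : act σ (F * G) = act σ F * act σ G := rfl

theorem act_add (σ : Equiv.Perm V) (F G : Mt V → ℝ) : act σ (F + G) = act σ F + act σ G := rfl

theorem act_sub (σ : Equiv.Perm V) (F G : Mt V → ℝ) : act σ (F - G) = act σ F - act σ G := rfl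

theorem act_smul (σ : Equiv.Perm V) (c : ℝ) (F : Mt V → ℝ) : act σ (c • F) = c • act σ F := rfl

theorem act_one_fun (σ : Equiv.Perm V) : act σ (1 : Mt V → ℝ) = 1 := rfl

theorem act_one (F : Mt V → ℝ) : act 1 F = F := by
  funext x; rw [act_apply, conj_one]

theorem act_comp (σ τ : Equiv.Perm V) (F : Mt V → ℝ) : act (σ * τ) F = act τ (act σ F) := by
  funext x
  rw [act_apply, act_apply, act_apply, conj_mul]

/-- The action as a linear map. -/
def actL (σ : Equiv.Perm V) : (Mt V → ℝ) →ₗ[ℝ] (Mt V → ℝ) where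
  toFun := act σ
  map_add' := act_add σ
  map_smul' := act_smul σ

@[simp] theorem actL_apply (σ : Equiv.Perm V) (F : Mt V → ℝ) : actL σ F = act σ F := rfl

theorem cost_conj (σ : Equiv.Perm V) (π μ : Mt V) :
    cost (Mt.conj σ π) (Mt.conj σ μ) = cost π μ := by
  unfold cost
  have h : (free (Mt.conj σ π)).filter (fun v => Mt.conj σ μ v ≠ v) =
      ((free π).filter (fun v => μ v ≠ v)).map σ.toEmbedding := by
    ext v
    rw [Finset.mem_filter, mem_free, Finset.mem_map]
    constructor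
    · rintro ⟨h1, h2⟩
      refine ⟨σ.symm v, ?_, by simp⟩
      rw [Finset.mem_filter, mem_free]
      constructor
      · have := congrArg σ.symm h1
        simpa using this
      · intro hc
        apply h2
        rw [Mt.conj_apply, hc]; simp
    · rintro ⟨w, hw, rfl⟩
      rw [Finset.mem_filter, mem_free] at hw
      have e : σ.toEmbedding w = σ w := rfl
      rw [e, Mt.conj_apply, Mt.conj_apply]
      simp only [Equiv.symm_apply_apply]
      refine ⟨by rw [hw.1], fun hc => hw.2 (σ.injective hc)⟩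
  rw [h, Finset.card_map]

theorem act_mem {σ : Equiv.Perm V} {π : Mt V} {D : ℕ} {F : Mt V → ℝ}
    (hF : F ∈ Deg (Mt.conj σ π) D) : act σ F ∈ Deg π D := by
  unfold Deg at hF
  induction hF using Submodule.span_induction with
  | mem F hF =>
    obtain ⟨μ, hμ, rfl⟩ := hF
    rw [act_zz]
    apply zz_mem
    rw [← cost_conj σ, conj_conj_inv]
    exact hμ
  | zero => exact Submodule.zero_mem _
  | add x y _ _ hx hy => rw [act_add]; exact Submodule.add_mem _ hx hy
  | smul c x _ hx => rw [act_smul]; exact Submodule.smul_mem _ _ hx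

/-! ### Pseudo-functionals -/

theorem PF.mono {π : Mt V} {D D' : ℕ} {L : (Mt V → ℝ) →ₗ[ℝ] ℝ} (h : PF π D L) (hD : D' ≤ D) :
    PF π D' L where
  one := h.one
  pos G hG := h.pos G (Deg.mono hD hG)
  perf i G hG := h.perf i G (Deg.mono hD hG)
  base G hG := h.base G (Deg.mono hD hG)

theorem mul_zz_mem {π π' : Mt V} {D : ℕ} (hπ : π ≤ π') {G : Mt V → ℝ} (hG : G ∈ Deg π' D) :
    G * zz π ∈ Deg π' D := by
  unfold Deg at hG
  induction hG using Submodule.span_induction with
  | mem F hF =>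
    obtain ⟨μ, hμ, rfl⟩ := hF
    by_cases h : Compat μ π
    · rw [zz_mul_of_compat h]
      apply zz_mem
      refine le_trans ?_ hμ
      unfold cost
      apply Finset.card_le_card
      intro v hv
      rw [Finset.mem_filter, mem_free] at hv ⊢
      refine ⟨hv.1, fun hc => hv.2 ?_⟩
      rw [Mt.join_apply, if_pos hc]
      exact Mt.free_of_le hπ hv.1
    · rw [zz_mul_of_not_compat h]
      exact Submodule.zero_mem _
  | zero => rw [zero_mul]; exact Submodule.zero_mem _
  | add x y _ _ hx hy => rw [add_mul]; exact Submodule.add_mem _ hx hy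
  | smul c x _ hx => rw [smul_mul_assoc]; exact Submodule.smul_mem _ _ hx

/-- A pseudo-functional at a larger state is one at the smaller state. -/
theorem PF.of_le {π π' : Mt V} {D : ℕ} {L : (Mt V → ℝ) →ₗ[ℝ] ℝ} (h : PF π' D L) (hπ : π ≤ π') :
    PF π D L where
  one := h.one
  pos G hG := h.pos G (Deg.anti hπ hG)
  perf i G hG := h.perf i G (Deg.anti hπ hG)
  base G hG := by
    have hG' := Deg.anti hπ hG
    rw [← h.base _ (mul_zz_mem hπ hG'), mul_assoc, zz_mul_of_le hπ, h.base _ hG']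

theorem Sm.of_le {π π' : Mt V} {D : ℕ} {e : ℝ} {F : Mt V → ℝ} (h : Sm π D e F) (hπ : π ≤ π') :
    Sm π' D e F := fun L hL => h L (hL.of_le hπ)

theorem Sm.mono {π : Mt V} {D D' : ℕ} {e e' : ℝ} {F : Mt V → ℝ} (h : Sm π D e F) (hD : D ≤ D')
    (he : e ≤ e') : Sm π D' e' F := fun L hL => (h L (hL.mono hD)).trans he

theorem PF.conj {π : Mt V} {D : ℕ} {L : (Mt V → ℝ) →ₗ[ℝ] ℝ} (h : PF π D L) (σ : Equiv.Perm V) :
    PF (Mt.conj σ π) D (L.comp (actL σ)) where
  one := by
    rw [LinearMap.comp_apply, actL_apply, act_one_fun]; exact h.one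
  pos G hG := by
    rw [LinearMap.comp_apply, actL_apply, act_mul']
    exact h.pos _ (act_mem hG)
  perf i G hG := by
    rw [LinearMap.comp_apply, actL_apply, act_mul', act_fr]
    exact h.perf _ _ (act_mem hG)
  base G hG := by
    rw [LinearMap.comp_apply, LinearMap.comp_apply, actL_apply, actL_apply, act_mul', act_zz,
      conj_inv_conj]
    exact h.base _ (act_mem hG)

/-- Conditioning. -/
noncomputable def condL (L : (Mt V → ℝ) →ₗ[ℝ] ℝ) (G : Mt V → ℝ) : (Mt V → ℝ) →ₗ[ℝ] ℝ where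
  toFun F := L (G * G * F) / L (G * G)
  map_add' F H := by rw [mul_add, map_add, add_div]
  map_smul' c F := by
    rw [mul_smul_comm, map_smul, smul_eq_mul, mul_div_assoc]; rfl

theorem condL_apply (L : (Mt V → ℝ) →ₗ[ℝ] ℝ) (G F : Mt V → ℝ) :
    condL L G F = L (G * G * F) / L (G * G) := rfl

theorem PF.cond {π : Mt V} {D D' g : ℕ} {L : (Mt V → ℝ) →ₗ[ℝ] ℝ} (h : PF π D L) {G : Mt V → ℝ}
    (hG : G ∈ Deg π g) (hpos : 0 < L (G * G)) (hD : D' + 2 * g ≤ D) : PF π D' (condL L G) where
  one := by rw [condL_apply, mul_one, div_self hpos.ne']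
  pos F hF := by
    rw [condL_apply]
    refine div_nonneg ?_ hpos.le
    have e : G * G * (F * F) = (G * F) * (G * F) := by ring
    rw [e]
    exact h.pos _ (Deg.mono (by omega) (Deg.mul hG hF))
  perf i F hF := by
    rw [condL_apply, ← mul_assoc, h.perf i _ (Deg.mono (by omega) (Deg.mul (Deg.mul hG hG) hF)),
      zero_div]
  base F hF := by
    rw [condL_apply, condL_apply, ← mul_assoc,
      h.base _ (Deg.mono (by omega) (Deg.mul (Deg.mul hG hG) hF))]

/-- The Cauchy-Schwarz inequality. -/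
theorem PF.cauchy {π : Mt V} {D : ℕ} {L : (Mt V → ℝ) →ₗ[ℝ] ℝ} (h : PF π D L) {F G : Mt V → ℝ}
    (hF : F ∈ Deg π D) (hG : G ∈ Deg π D) : L (F * G) ^ 2 ≤ L (F * F) * L (G * G) := by
  have key : ∀ t : ℝ, 0 ≤ L (G * G) * (t * t) + 2 * L (F * G) * t + L (F * F) := by
    intro t
    have h1 := h.pos (F + t • G) (Submodule.add_mem _ hF (Submodule.smul_mem _ _ hG))
    have e : (F + t • G) * (F + t • G) = F * F + (2 * t) • (F * G) + (t * t) • (G * G) := by
      funext x
      simp only [Pi.mul_apply, Pi.add_apply, Pi.smul_apply, smul_eq_mul]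
      ring
    rw [e, map_add, map_add, map_smul, map_smul, smul_eq_mul, smul_eq_mul] at h1
    linarith
  have h2 := discrim_le_zero key
  unfold discrim at h2
  nlinarith

/-- A small function has a small value relative to every square. -/
theorem Sm.sq {π : Mt V} {D D' g r : ℕ} {e : ℝ} {R G : Mt V → ℝ} {L : (Mt V → ℝ) →ₗ[ℝ] ℝ}
    (hR : Sm π D' e R) (hRd : R ∈ Deg π r) (h : PF π D L) (hG : G ∈ Deg π g)
    (hD : D' + 2 * g ≤ D) (hD' : g + r ≤ D) : |L (G * G * R)| ≤ e * L (G * G) := by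
  have h0 : 0 ≤ L (G * G) := h.pos G (Deg.mono (by omega) hG)
  rcases h0.lt_or_eq with hpos | hzero
  · have h1 := hR _ (h.cond hG hpos hD)
    rw [condL_apply, abs_div, abs_of_pos hpos, div_le_iff₀ hpos] at h1
    exact h1
  · have h1 := h.cauchy (F := G) (G := G * R) (Deg.mono (by omega) hG)
      (Deg.mono (by omega) (Deg.mul hG hRd))
    rw [← hzero, zero_mul, ← mul_assoc] at h1
    have h2 : L (G * G * R) = 0 := by
      have := sq_nonneg (L (G * G * R))
      exact pow_eq_zero_iff (two_ne_zero) |>.1 (le_antisymm h1 this)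
    rw [h2, abs_zero, ← hzero, mul_zero]

end AcFrege
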