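import Pool.Agent.Work.MP_c07f0d_lc.DG.LinkDef
import Pool.Agent.Work.MP_c07f0d_lc.DG.PwBasic
import Pool.Agent.Work.MP_c07f0d_lc.TL.UpperG

/-!
# Functions of the drawn assignment: degrees and cuts
-/

set_option linter.unusedSectionVars false

namespace AcFrege

open Finset FregeEF LineSize GridLine

section degree

variable {V : Type} [Fintype V] [DecidableEq V]

/-- A function of the partner of `i`. -/
theorem partner_mem (π : Mt V) (i : V) (g : V → ℝ) : (fun x : Mt V => g (x i)) ∈ Deg π 2 := by
  have h : (fun x : Mt V => g (x i)) =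
      g i • fr i + ∑ j ∈ univ.erase i, g j • zz (edge i j) := by
    funext x
    rw [Pi.add_apply, Finset.sum_apply, Pi.smul_apply, smul_eq_mul]
    unfold fr
    by_cases hx : x i = i
    · rw [if_pos hx, mul_one, Finset.sum_eq_zero, add_zero, hx]
      intro j hj
      rw [Finset.mem_erase] at hj
      rw [Pi.smul_apply, zz_apply_of_not, smul_zero]
      rw [edge_le_iff hj.1.symm, hx]
      exact fun h => hj.1 h.symm
    · rw [if_neg hx, mul_zero, zero_add, Finset.sum_eq_single_of_mem (x i)
        (Finset.mem_erase.2 ⟨hx, Finset.mem_univ _⟩), Pi.smul_apply, zz_apply_of_le, smul_eq_mul,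
        mul_one]
      · rw [edge_le_iff (fun h => hx h.symm)]
      · intro j hj hne
        rw [Finset.mem_erase] at hj
        rw [Pi.smul_apply, zz_apply_of_not, smul_zero]
        rw [edge_le_iff hj.1.symm]
        exact fun h => hne h.symm
  rw [h]
  exact Submodule.add_mem _ (Submodule.smul_mem _ _ (fr_mem i))
    (Submodule.sum_mem _ fun j _ => Submodule.smul_mem _ _ (zz_mem (cost_edge_le π i j)))

theorem prod_mem {ι : Type} [DecidableEq ι] (π : Mt V) (S : Finset ι) (F : ι → Mt V → ℝ)
    (h : ∀ e ∈ S, F e ∈ Deg π 2) : (fun x : Mt V => ∏ e ∈ S, F e x) ∈ Deg π (2 * S.card) := by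
  induction S using Finset.induction_on with
  | empty =>
    simp only [Finset.prod_empty]
    exact const_mem 1
  | insert e S he ih =>
    have h1 := ih fun e' he' => h e' (Finset.mem_insert_of_mem he')
    have h2 := Deg.mul (h e (Finset.mem_insert_self _ _)) h1
    rw [Finset.card_insert_of_notMem he]
    have e1 : (fun x : Mt V => ∏ e' ∈ insert e S, F e' x) =
        F e * fun x : Mt V => ∏ e' ∈ S, F e' x := by
      funext x
      rw [Finset.prod_insert he]
      rfl
    rw [e1]
    exact Deg.mono (by omega) h2

end degree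

variable {M N : ℕ}

theorem sg_yy_mem (π : Mt (Fin N)) (e : GE 3 M) :
    (fun x : Mt (Fin N) => sg (yy x e)) ∈ Deg π 2 := by
  cases ho : own M N e with
  | none =>
    have h : (fun x : Mt (Fin N) => sg (yy x e)) =
        fun _ => sg (yy (M := M) (N := N) ident e) := by
      funext x
      unfold yy
      rw [ev_congr e x (ident : Mt (Fin N))]
      intro v hv
      rw [ho] at hv
      exact absurd hv (by simp)
    rw [h]
    exact const_mem _
  | some v =>
    have h : (fun x : Mt (Fin N) => sg (yy x e)) =
        fun x => (fun w => sg (ev e fun _ => w)) (x v) := by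
      funext x
      unfold yy
      simp only
      rw [ev_congr e x (fun _ => x v)]
      intro w hw
      rw [ho] at hw
      rw [Option.some.inj hw]
    rw [h]
    exact partner_mem π v fun w => sg (ev e fun _ => w)

theorem chi_yy_mem (π : Mt (Fin N)) (S : Finset (GE 3 M)) :
    (fun x : Mt (Fin N) => chi S (yy x)) ∈ Deg π (2 * S.card) := by
  unfold chi
  exact prod_mem π S (fun e x => sg (yy x e)) fun e _ => sg_yy_mem π e

/-- The functions of low degree in the edges have low degree in the matching. -/
theorem yy_mem_of {k : ℕ} (π : Mt (Fin N)) {f : (GE 3 M → Bool) → ℝ} (hf : LowDeg k f) :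
    (fun x : Mt (Fin N) => f (yy x)) ∈ Deg π (2 * k) := by
  have h : (fun x : Mt (Fin N) => f (yy x)) =
      ∑ S : Finset (GE 3 M), fc f S • fun x : Mt (Fin N) => chi S (yy x) := by
    funext x
    rw [Finset.sum_apply, ← walsh f (yy x)]
    rfl
  rw [h]
  refine Submodule.sum_mem _ fun S _ => ?_
  by_cases hS : k < S.card
  · rw [hf S hS, zero_smul]
    exact Submodule.zero_mem _
  · exact Submodule.smul_mem _ _ (Deg.mono (by omega) (chi_yy_mem π S))

theorem yy_mem {k : ℕ} {f : (GE 3 M → Bool) → ℝ} (hf : LowDeg k f) :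
    (fun x : Mt (Fin N) => f (yy x)) ∈ Deg ident (2 * k) := yy_mem_of ident hf

/-! ### The parities at the vertices -/

theorem chi_eq_odd {ι : Type} [Fintype ι] [DecidableEq ι] (S : Finset ι) (y : ι → Bool) :
    chi S y = sg (decide (Odd (S.filter fun e => y e = true).card)) := by
  unfold chi
  induction S using Finset.induction_on with
  | empty => simp [sg]
  | insert e S he ih =>
    rw [Finset.prod_insert he, ih, Finset.filter_insert]
    by_cases hy : y e = true
    · rw [if_pos hy, Finset.card_insert_of_notMem (by simp [he]), hy]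
      by_cases ho : Odd (S.filter fun e => y e = true).card
      · have h2 : ¬ Odd ((S.filter fun e => y e = true).card + 1) := by
          rw [Nat.odd_add_one]; simpa using ho
        simp [sg, ho, h2]
      · have h2 : Odd ((S.filter fun e => y e = true).card + 1) := by
          rw [Nat.odd_add_one]; exact ho
        simp [sg, ho, h2]
    · rw [if_neg hy]
      have hy' : y e = false := by simpa using hy
      rw [hy']
      simp [sg]

/-- The parity at `u`. -/
theorem chi_star (hN : Odd N) (hNM : N ≤ M) (u : GV 3 M) (x : Mt (Fin N))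
    (hx : ∀ v : Fin N, (v : ℕ) = (u 0 : ℕ) ∨ (v : ℕ) = (u 1 : ℕ) → x v ≠ v) :
    chi (bd gsrc gtgt {u}) (yy x) = sg (gcharge u) := by
  have h := parity_grid hN hNM x x.invol u hx (yy x) fun e _ => rfl
  rw [chi_eq_odd, upperG_bd, ← h, Finset.filter_filter]

theorem chi_bd (hN : Odd N) (hNM : N ≤ M) (x : Mt (Fin N)) (U : Finset (GV 3 M))
    (hx : ∀ u ∈ U, ∀ v : Fin N, (v : ℕ) = (u 0 : ℕ) ∨ (v : ℕ) = (u 1 : ℕ) → x v ≠ v) :
    chi (bd gsrc gtgt U) (yy x) = chi U gcharge := by
  induction U using Finset.induction_on with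
  | empty =>
    have h : bd gsrc gtgt (∅ : Finset (GV 3 M)) = ∅ := by
      ext e
      simp [bd]
    rw [h, chi_empty, chi_empty]
  | insert u U hu ih =>
    have h1 : insert u U = symmDiff {u} U := by
      ext w
      simp only [Finset.mem_insert, Finset.mem_symmDiff, Finset.mem_singleton]
      constructor
      · rintro (h | h)
        · left
          refine ⟨h, ?_⟩
          rw [h]
          exact hu
        · right
          refine ⟨h, ?_⟩
          rintro rfl
          exact hu h
      · rintro (h | h)
        · exact Or.inl h.1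
        · exact Or.inr h.1
    rw [h1, bd_symmDiff, ← chi_mul, ← chi_mul, chi_star hN hNM u x (hx u (Finset.mem_insert_self _ _)),
      ih fun w hw => hx w (Finset.mem_insert_of_mem hw)]
    simp [chi]

/-- Two characters which differ by a cut. -/
theorem star_kill (hN : Odd N) (hNM : N ≤ M) {U : Finset (GV 3 M)} {S : Finset (Fin N)}
    (hS : ∀ u ∈ U, ∀ v : Fin N, (v : ℕ) = (u 0 : ℕ) ∨ (v : ℕ) = (u 1 : ℕ) → v ∈ S)
    {A C : Finset (GE 3 M)} (h : symmDiff A C = bd gsrc gtgt U) (x : Mt (Fin N))
    (hx : ∀ i ∈ S, x i ≠ i) : chi A (yy x) = chi U gcharge * chi C (yy x) := by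
  have h1 := chi_bd hN hNM x U fun u hu v hv => hx v (hS u hu v hv)
  rw [← h, ← chi_mul] at h1
  rw [← h1, mul_assoc, chi_sq, mul_one]

end AcFrege
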