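import Pool.Agent.Work.MP_c07f0d_lc.DG.PwBasic
import Pool.Agent.Work.MP_c07f0d_lc.DG.LinkCut
import Pool.Agent.Work.MP_c07f0d_lc.DG.LinkStar
import Pool.Agent.Work.MP_c07f0d_lc.TL.Grid
import Pool.Agent.Work.MP_c07f0d_lc.TL.WorldB
import Pool.Agent.Work.MP_c07f0d_lc.DG.MFamDef

/-!
# The link: a small function of the grid world is small for all pseudo-functionals
-/

set_option linter.unusedSectionVars false

namespace AcFrege

open Finset GridLine LineSize

section kill

variable {V : Type} [Fintype V] [DecidableEq V]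

theorem one_sub_fr_mem {π : Mt V} (i : V) : (1 - fr i : Mt V → ℝ) ∈ Deg π 2 :=
  Submodule.sub_mem _ one_mem (fr_mem i)

/-- A function which vanishes when all vertices of `S` are covered is killed. -/
theorem PF.kill_aux {π : Mt V} {D : ℕ} {L : (Mt V → ℝ) →ₗ[ℝ] ℝ} (hL : PF π D L) :
    ∀ (l : List V) (g : ℕ) (F : Mt V → ℝ), F ∈ Deg π g → g + 2 * l.length ≤ D →
      L (F * (l.map fun i => (1 - fr i : Mt V → ℝ)).prod) = L F := by
  intro l
  induction l with
  | nil =>
    intro g F _ _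
    rw [List.map_nil, List.prod_nil, mul_one]
  | cons i l ih =>
    intro g F hF hD
    rw [List.length_cons] at hD
    rw [List.map_cons, List.prod_cons, ← mul_assoc]
    rw [ih (g + 2) (F * (1 - fr i)) (Deg.mul hF (one_sub_fr_mem i)) (by omega), mul_sub, mul_one,
      map_sub, hL.perf i F (Deg.mono (by omega) hF), sub_zero]

/-- A function which vanishes when all vertices of `S` are covered is killed. -/
theorem PF.kill {π : Mt V} {D g : ℕ} {L : (Mt V → ℝ) →ₗ[ℝ] ℝ} (hL : PF π D L) {F : Mt V → ℝ}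
    (hF : F ∈ Deg π g) (S : Finset V) (hD : g + 2 * S.card ≤ D)
    (h : ∀ x : Mt V, (∀ i ∈ S, x i ≠ i) → F x = 0) : L F = 0 := by
  rw [← PF.kill_aux hL S.toList g F hF (by rw [Finset.length_toList]; exact hD)]
  have h1 : F * (S.toList.map fun i => (1 - fr i : Mt V → ℝ)).prod = 0 := by
    funext x
    rw [Pi.mul_apply, Pi.zero_apply]
    by_cases hx : ∀ i ∈ S, x i ≠ i
    · rw [h x hx, zero_mul]
    · push Not at hx
      obtain ⟨i, hi, hxi⟩ := hx
      have h2 : (S.toList.map fun i => (1 - fr i : Mt V → ℝ)).prod x = 0 := by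
        rw [Pi.list_prod_apply, List.map_map]
        apply List.prod_eq_zero
        rw [List.mem_map]
        refine ⟨i, Finset.mem_toList.2 hi, ?_⟩
        simp [fr, hxi]
      rw [h2, mul_zero]
  rw [h1, map_zero]

end kill

section link

variable {M N : ℕ}

/-- The owners near `U`. -/
def owners (N : ℕ) (U : Finset (GV 3 M)) : Finset (Fin N) :=
  univ.filter fun v => ∃ u ∈ U, (v : ℕ) = (u 0 : ℕ) ∨ (v : ℕ) = (u 1 : ℕ)

theorem card_owners_le {U : Finset (GV 3 M)} {t : ℕ}
    (h : ∀ i, (U.image fun u => u i).card ≤ t) : (owners N U).card ≤ 2 * t := by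
  have h1 : (owners N U).map ⟨Fin.val, Fin.val_injective⟩ ⊆
      ((U.image fun u => u 0).map ⟨Fin.val, Fin.val_injective⟩) ∪
        ((U.image fun u => u 1).map ⟨Fin.val, Fin.val_injective⟩) := by
    intro v hv
    rw [Finset.mem_map] at hv
    obtain ⟨w, hw, rfl⟩ := hv
    rw [owners, Finset.mem_filter] at hw
    obtain ⟨-, u, hu, hw⟩ := hw
    rw [Finset.mem_union, Finset.mem_map, Finset.mem_map]
    rcases hw with hw | hw
    · exact Or.inl ⟨u 0, Finset.mem_image_of_mem _ hu, hw.symm⟩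
    · exact Or.inr ⟨u 1, Finset.mem_image_of_mem _ hu, hw.symm⟩
  have h2 := (Finset.card_le_card h1).trans (Finset.card_union_le _ _)
  rw [Finset.card_map, Finset.card_map, Finset.card_map] at h2
  have h3 := h 0
  have h4 := h 1
  omega

theorem card_box_le {U : Finset (GV 3 M)} {t : ℕ}
    (h : ∀ i, (U.image fun u => u i).card ≤ t) : U.card ≤ t ^ 3 := by
  have h1 : U ⊆ Fintype.piFinset fun i => U.image fun u => u i := by
    intro u hu
    rw [Fintype.mem_piFinset]
    intro i
    exact Finset.mem_image_of_mem _ hu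
  have h2 := Finset.card_le_card h1
  rw [Fintype.card_piFinset, Fin.prod_univ_three] at h2
  refine h2.trans ?_
  calc _ ≤ t * t * t := Nat.mul_le_mul (Nat.mul_le_mul (h 0) (h 1)) (h 2)
    _ = t ^ 3 := by ring

/-- Characters with equal classes have equal values up to the sign. -/
theorem link_chi {t D : ℕ} (hM : 1 ≤ M) (hN : Odd N) (hNM : N ≤ M) (hk : 4 * t ≤ M)
    {L : (Mt (Fin N) → ℝ) →ₗ[ℝ] ℝ} (hL : PF ident D L) (hD : 10 * t ≤ D)
    {A C : Finset (GE 3 M)} (hA : A.card ≤ t) (hC : C.card ≤ t)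
    (hcut : (gridNet 3 M hM).Cut (symmDiff A C)) :
    L (fun x => chi A (yy x)) =
      (gridNet 3 M hM).Ex gcharge (chi (symmDiff A C)) * L (fun x => chi C (yy x)) := by
  rcases Nat.eq_zero_or_pos t with h0 | hpos
  · have hA0 : A = ∅ := Finset.card_eq_zero.1 (by omega)
    have hC0 : C = ∅ := Finset.card_eq_zero.1 (by omega)
    subst hA0 hC0
    rw [symmDiff_self]
    have hV : 0 < Fintype.card (GV 3 M) := by
      rw [Fintype.card_fun, Fintype.card_fin, Fintype.card_fin]
      positivity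
    have h1 := Net.worldB_ex_empty (G := gridNet 3 M hM) (c := gcharge) hV
    change _ = (gridNet 3 M hM).Ex gcharge (chi (∅ : Finset (GE 3 M))) * _
    rw [h1, one_mul]
  obtain ⟨U₀, hU₀⟩ := hcut
  have hcard : (symmDiff A C).card ≤ 2 * t := (card_symmDiff_le A C).trans (by omega)
  have hc : (bd gsrc gtgt U₀).card ≤ 2 * t := by
    have h1 : symmDiff A C = bd gsrc gtgt U₀ := hU₀
    rw [← h1]
    exact hcard
  obtain ⟨U, hU, hbox⟩ := cut_box hc (by omega)
  have hAC : symmDiff A C = bd gsrc gtgt U := by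
    rw [hU]
    exact hU₀
  have hUc := card_box_le hbox
  have hsmall : 3 * U.card < Fintype.card (GV 3 M) := by
    rw [Fintype.card_fun, Fintype.card_fin, Fintype.card_fin]
    calc 3 * U.card ≤ 3 * (2 * t) ^ 3 := by omega
      _ < (4 * t) ^ 3 := by
          have : 0 < t ^ 3 := by positivity
          ring_nf
          omega
      _ ≤ M ^ 3 := Nat.pow_le_pow_left hk 3
  have hEx : (gridNet 3 M hM).Ex gcharge (chi (symmDiff A C)) = chi U gcharge := by
    rw [hAC]
    exact Net.Ex_chi_bdG (G := gridNet 3 M hM) gcharge hsmall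
  rw [hEx]
  set F : Mt (Fin N) → ℝ := (fun x => chi A (yy x)) - chi U gcharge • fun x => chi C (yy x) with hF
  have hFd : F ∈ Deg (ident : Mt (Fin N)) (2 * t) := by
    refine Submodule.sub_mem _ ?_ (Submodule.smul_mem _ _ ?_)
    · exact Deg.mono (by omega) (yy_mem (LowDeg.chi A))
    · exact Deg.mono (by omega) (yy_mem (LowDeg.chi C))
  have h0 : L F = 0 := by
    refine hL.kill hFd (owners N U) ?_ ?_
    · have := card_owners_le (N := N) hbox
      omega
    · intro x hx
      have h1 := star_kill hN hNM (U := U) (S := owners N U) (fun u hu v hv => by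
        rw [owners, Finset.mem_filter]
        exact ⟨Finset.mem_univ _, u, hu, hv⟩) hAC x hx
      rw [hF, Pi.sub_apply, Pi.smul_apply, smul_eq_mul]
      rw [h1, sub_self]
  rw [hF, map_sub, map_smul, smul_eq_mul, sub_eq_zero] at h0
  exact h0

theorem abs_link_chi_le {t D : ℕ} {L : (Mt (Fin N) → ℝ) →ₗ[ℝ] ℝ} (hL : PF ident D L)
    (hD : 2 * t ≤ D) {A : Finset (GE 3 M)} (hA : A.card ≤ t) :
    |L (fun x => chi A (yy x))| ≤ 1 := by
  have h1 := hL.cauchy (F := fun x => chi A (yy x)) (G := 1)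
    (Deg.mono (by omega) (yy_mem (LowDeg.chi A))) one_mem
  have h2 : (fun x : Mt (Fin N) => chi A (yy x)) * (fun x => chi A (yy x)) = 1 := by
    funext x
    rw [Pi.mul_apply, chi_sq]
    rfl
  rw [h2, mul_one, mul_one, hL.one, mul_one] at h1
  exact (abs_le_one_iff_mul_self_le_one).2 (by rw [← sq]; exact h1)

theorem link_expand {N : ℕ} (L : (Mt (Fin N) → ℝ) →ₗ[ℝ] ℝ) (f : (GE 3 M → Bool) → ℝ) :
    L (fun x => f (yy x)) = ∑ A : Finset (GE 3 M), fc f A * L (fun x => chi A (yy x)) := by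
  have h1 : (fun x : Mt (Fin N) => f (yy x)) =
      ∑ A : Finset (GE 3 M), fc f A • fun x : Mt (Fin N) => chi A (yy x) := by
    funext x
    rw [Finset.sum_apply]
    rw [← walsh f (yy x)]
    rfl
  rw [h1, map_sum]
  refine Finset.sum_congr rfl fun A _ => ?_
  rw [map_smul, smul_eq_mul]

/-- The value of a function of the grid world through the representatives. -/
theorem link_sum {t D : ℕ} (hM : 1 ≤ M) (hN : Odd N) (hNM : N ≤ M) (hk : 4 * t ≤ M)
    {L : (Mt (Fin N) → ℝ) →ₗ[ℝ] ℝ} (hL : PF ident D L) (hD : 10 * t ≤ D)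
    {f : (GE 3 M → Bool) → ℝ} (hf : LowDeg t f) :
    L (fun x => f (yy x)) = ∑ C ∈ (gridNet 3 M hM).Reps t,
      (gridNet 3 M hM).cc gcharge f C * L (fun x => chi C (yy x)) := by
  classical
  set G := gridNet 3 M hM with hG
  rw [link_expand]
  have h1 : ∀ C ∈ G.Reps t, G.cc gcharge f C * L (fun x => chi C (yy x)) =
      ∑ A : Finset (GE 3 M), fc f A * (G.Ex gcharge (chi (symmDiff A C)) *
        L (fun x => chi C (yy x))) := by
    intro C _
    rw [Net.worldA_cc, Finset.sum_mul]
    exact Finset.sum_congr rfl fun A _ => by ring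
  rw [Finset.sum_congr rfl h1, Finset.sum_comm]
  refine Finset.sum_congr rfl fun A _ => ?_
  by_cases hA : A.card ≤ t
  · rw [← Finset.mul_sum]
    congr 1
    have hR : G.rp A ∈ G.Reps t := Net.worldB_mem.2 ⟨Net.rp_rp A, (Net.rp_card A).trans hA⟩
    rw [Finset.sum_eq_single_of_mem _ hR]
    · exact link_chi hM hN hNM hk hL hD hA ((Net.rp_card A).trans hA) (Net.rp_eqv A)
    · intro C hC hne
      rw [Net.worldB_ne, zero_mul]
      rw [(Net.worldB_mem.1 hC).1]
      exact fun h => hne h.symm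
  · rw [hf A (by omega), zero_mul]
    simp

theorem card_small_le {E : Type} [Fintype E] [DecidableEq E] (t : ℕ) :
    (univ.filter fun C : Finset E => C.card ≤ t).card ≤ (Fintype.card E + 1) ^ t := by
  have h1 : (univ.filter fun C : Finset E => C.card ≤ t) ⊆
      (univ : Finset (Fin t → Option E)).image fun a => univ.filter fun e => ∃ i, a i = some e := by
    intro C hC
    rw [Finset.mem_filter] at hC
    rw [Finset.mem_image]
    have h2 : C.toList.length ≤ t := by rw [Finset.length_toList]; exact hC.2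
    refine ⟨fun i => C.toList[(i : ℕ)]?, Finset.mem_univ _, ?_⟩
    ext e
    rw [Finset.mem_filter]
    constructor
    · rintro ⟨-, i, hi⟩
      exact Finset.mem_toList.1 (List.mem_of_getElem? hi)
    · intro he
      refine ⟨Finset.mem_univ _, ?_⟩
      obtain ⟨n, hn⟩ := List.mem_iff_getElem?.1 (Finset.mem_toList.2 he)
      have h3 : n < C.toList.length := by
        by_contra hcon
        rw [List.getElem?_eq_none (by omega)] at hn
        exact absurd hn (by simp)
      exact ⟨⟨n, by omega⟩, hn⟩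
  refine (Finset.card_le_card h1).trans (Finset.card_image_le.trans ?_)
  rw [Finset.card_univ, Fintype.card_fun, Fintype.card_option, Fintype.card_fin]

theorem card_GE_le : Fintype.card (GE 3 M) ≤ 3 * M ^ 3 := by
  have h1 : Fintype.card (GE 3 M) ≤ Fintype.card (GV 3 M × Fin 3) := Fintype.card_subtype_le _
  rw [Fintype.card_prod, Fintype.card_fun, Fintype.card_fin, Fintype.card_fin] at h1
  omega

/-- **The link.** -/
theorem link {t D : ℕ} (hM : 1 ≤ M) (hN : Odd N) (hNM : N ≤ M) (hk : 4 * t ≤ M)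
    (hOk : (gridNet 3 M hM).Ok t) {L : (Mt (Fin N) → ℝ) →ₗ[ℝ] ℝ} (hL : PF ident D L)
    (hD : 10 * t ≤ D) {f : (GE 3 M → Bool) → ℝ} (hf : LowDeg t f) {η : ℝ} (hη0 : 0 ≤ η)
    (hη : (gridNet 3 M hM).Ex gcharge (fun x => f x ^ 2) ≤ η ^ 2) :
    |L (fun x => f (yy x))| ≤ η * (3 * (M : ℝ) ^ 3 + 1) ^ t := by
  set G := gridNet 3 M hM with hG
  have hK : (1 : ℝ) ≤ (3 * (M : ℝ) ^ 3 + 1) ^ t := by
    refine one_le_pow₀ ?_
    have : (0 : ℝ) ≤ 3 * (M : ℝ) ^ 3 := by positivity
    linarith
  have h1 : |L (fun x => f (yy x))| ≤ ∑ C ∈ G.Reps t, |G.cc gcharge f C| := by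
    rw [link_sum hM hN hNM hk hL hD hf]
    refine (Finset.abs_sum_le_sum_abs _ _).trans (Finset.sum_le_sum fun C hC => ?_)
    rw [abs_mul]
    exact mul_le_of_le_one_right (abs_nonneg _)
      (abs_link_chi_le hL (by omega) (Net.worldB_mem.1 hC).2)
  have h2 : ∑ C ∈ G.Reps t, |G.cc gcharge f C| ^ 2 ≤ η ^ 2 := by
    refine le_trans (le_of_eq ?_) hη
    have h3 : (fun x => f x ^ 2) = fun x => f x * f x := by
      funext x
      rw [sq]
    rw [h3, Net.Ex_mul hOk hf hf]
    refine Finset.sum_congr rfl fun C _ => ?_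
    rw [sq_abs, sq]
  have h4 : ((G.Reps t).card : ℝ) ≤ (3 * (M : ℝ) ^ 3 + 1) ^ t := by
    have h5 : (G.Reps t).card ≤ (3 * M ^ 3 + 1) ^ t := by
      refine (Finset.card_le_card (t := univ.filter fun C : Finset (GE 3 M) => C.card ≤ t)
        fun C hC => ?_).trans ((card_small_le t).trans
          (Nat.pow_le_pow_left (Nat.succ_le_succ card_GE_le) t))
      rw [Finset.mem_filter]
      exact ⟨Finset.mem_univ _, (Net.worldB_mem.1 hC).2⟩
    exact_mod_cast h5
  have h6 := sq_sum_le_card_mul_sum_sq (s := G.Reps t) (f := fun C => |G.cc gcharge f C|)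
  refine h1.trans (abs_le_of_sq_le_sq' ?_ (by positivity)).2
  calc (∑ C ∈ G.Reps t, |G.cc gcharge f C|) ^ 2
      ≤ ((G.Reps t).card : ℝ) * ∑ C ∈ G.Reps t, |G.cc gcharge f C| ^ 2 := h6
    _ ≤ (3 * (M : ℝ) ^ 3 + 1) ^ t * η ^ 2 := mul_le_mul h4 h2 (by positivity) (by positivity)
    _ ≤ ((3 * (M : ℝ) ^ 3 + 1) ^ t * (3 * (M : ℝ) ^ 3 + 1) ^ t) * η ^ 2 := by
        refine mul_le_mul_of_nonneg_right ?_ (sq_nonneg _)
        exact le_mul_of_one_le_left (by positivity) hK
    _ = (η * (3 * (M : ℝ) ^ 3 + 1) ^ t) ^ 2 := by ring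

end link

/-- **The link**, as used by the core. -/
theorem linkP : LinkP 256 := by
  intro N M k hM hN hNM hk hCk
  refine ⟨fun f hf => yy_mem hf, fun f hf η hη0 hη L hL => ?_⟩
  have hOk : (gridNet 3 M hM).Ok (2 * k) := by
    constructor
    · show 128 * M * (2 * k) ≤ Fintype.card (GV 3 M)
      rw [Fintype.card_fun, Fintype.card_fin, Fintype.card_fin]
      calc 128 * M * (2 * k) = M * (256 * k) * 1 := by ring
        _ ≤ M * M * M := Nat.mul_le_mul (Nat.mul_le_mul_left _ (by omega)) hM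
        _ = M ^ 3 := by ring
    · rw [Fintype.card_fun, Fintype.card_fin, Fintype.card_fin]
      positivity
  refine (link hM hN hNM (by omega) hOk hL (by omega) hf hη0 hη).trans ?_
  refine mul_le_mul_of_nonneg_left ?_ hη0
  refine pow_le_pow_left₀ (by positivity) (by linarith) _

end AcFrege
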