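import Pool.Agent.Work.MP_c07f0d_lc.AC.AxGrid
import Pool.Agent.Work.MP_c07f0d_lc.AC.AcMat

/-!
# The assignment drawn from a matching
-/

namespace AcFrege

open GridLine

/-- The values of the edges of the grid in the matching `x`. -/
def yy {M N : ℕ} (x : Mt (Fin N)) : GE 3 M → Bool := fun e => ev e x

end AcFrege
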