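import Pool.Agent.Work.MP_c07f0d_lc.DG.FinalDG
import Pool.Agent.Work.MP_c07f0d_lc.DG.Link
import Pool.Agent.Work.MP_c07f0d_lc.DG.Base
import Pool.Agent.Work.MP_c07f0d_lc.DG.Chain

/-!
# The main theorem on the depth above small formulas
-/

namespace AcFrege

open FregeEF LineSize GridLine

/-- **The main theorem.** -/
theorem main_dg (ε : ℝ) (h0 : 0 < ε) (h1 : ε < 1) :
    ∃ (D v : ℕ) (δ : ℝ), 0 < δ ∧ ∀ F : FregeSystem, ∃ c : ℕ, ∀ u : ℕ, c ≤ u →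
      (∀ φ ∈ gridAxioms D (u ^ v), φ.size ≤ c) ∧
      lsize (gridAxioms D (u ^ v)) ≤ c * Fintype.card (GE D (u ^ v)) ∧
      (∃ L, IsDeriv F.rules (gridAxioms D (u ^ v)) L ∧ Fm.bot ∈ L ∧
        L.length ≤ c * Fintype.card (GE D (u ^ v)) ^ 3 ∧
        ∀ φ ∈ L, φ.size ≤ c * Fintype.card (GE D (u ^ v)) ^ 2) ∧
      (∀ d : ℕ, c ^ 5 ^ d ≤ u → ∀ L, IsDeriv F.rules (gridAxioms D (u ^ v)) L → Fm.bot ∈ L →
        (∀ φ ∈ L, depth ⌊(Fintype.card (GE D (u ^ v)) : ℝ) ^ (2 - ε)⌋₊ φ ≤ d) →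
        (2 : ℝ) ^ ((Fintype.card (GE D (u ^ v)) : ℝ) ^ (δ / 5 ^ d)) < (subfL L).card) := by
  obtain ⟨C₂, hbase⟩ := baseP 256
  exact final_dg linkP hbase chain ε h0 h1

end AcFrege
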