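import Pool.Agent.Work.MP_c07f0d_lc.DG.CoreDG
import Pool.Agent.Work.MP_c07f0d_lc.AC.Par
import Pool.Agent.Work.MP_c07f0d_lc.TL.UpperG

/-!
# The parameters
-/

set_option linter.unusedSectionVars false

namespace AcFrege

open FregeEF LineSize GridLine

/-- The parameters of the lower bound. -/
theorem exists_par_dg (q e₁ e₂ : ℕ) (he₁ : 1 ≤ e₁) (he₂ : 1 ≤ e₂) :
    ∃ δ : ℝ, 0 < δ ∧ ∀ C : ℕ, 1 ≤ C → ∃ U : ℕ, ∀ B : ℕ, 1 ≤ B → ∀ M n : ℕ, U ^ B ≤ M → 1 ≤ n →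
      n ≤ M ^ (q + 1) → ∀ T : ℕ, (T : ℝ) ≤ 2 ^ ((n : ℝ) ^ (δ / B)) →
      ∃ u k₀ s : ℕ, Odd u ∧ C ≤ u ∧ u ^ B ≤ M ∧ 1 ≤ k₀ ∧ C * (T + 1) < 2 ^ k₀ ∧
        s = C * (C * k₀) ^ e₁ ∧ C * (T + 1) < 2 ^ s ∧ C * s ^ e₂ ≤ u := by
  obtain ⟨e, he⟩ : ∃ e : ℕ, e = e₁ * e₂ := ⟨_, rfl⟩
  have he1 : 1 ≤ e := by
    rw [he]
    exact Nat.mul_pos he₁ he₂
  have he1r : (1 : ℝ) ≤ (e : ℝ) := by exact_mod_cast he1
  refine ⟨1 / (2 * (e : ℝ) * ((q : ℝ) + 1)), by positivity, fun C hC => ?_⟩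
  obtain ⟨A, hA⟩ : ∃ A : ℕ, A = C ^ (1 + e₂ + e) * (C + 3) ^ e := ⟨_, rfl⟩
  obtain ⟨U, hU⟩ : ∃ U : ℕ, U = A ^ 2 + 2 * A + C + 4 := ⟨_, rfl⟩
  refine ⟨U + 2, fun B hB M n hM hn hnM T hT => ?_⟩
  have hBr : (1 : ℝ) ≤ (B : ℝ) := by exact_mod_cast hB
  set δ : ℝ := 1 / (2 * (e : ℝ) * ((q : ℝ) + 1)) / B with hδ
  have hδ0 : 0 < δ := by positivity
  have hM1 : 1 ≤ M := (Nat.one_le_pow _ _ (by omega)).trans hM
  obtain ⟨u, hodd, huM, hMu⟩ := DepthLine.exists_odd_root hB hM1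
  have hUu : U ≤ u := by
    by_contra hcon
    push Not at hcon
    have h1 : (u + 2) ^ B ≤ (U + 2) ^ B := Nat.pow_le_pow_left (by omega) _
    omega
  obtain ⟨t, ht⟩ : ∃ t : ℝ, t = (n : ℝ) ^ δ := ⟨_, rfl⟩
  rw [← ht] at hT
  have hnr : (1 : ℝ) ≤ (n : ℝ) := by exact_mod_cast hn
  have ht1 : 1 ≤ t := by
    rw [ht]
    exact Real.one_le_rpow hnr hδ0.le
  have ht36 : t ^ (2 * e) ≤ (u : ℝ) + 2 := by
    have hMr : (M : ℝ) ≤ ((u : ℝ) + 2) ^ B := by exact_mod_cast hMu.le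
    have hMr0 : (0 : ℝ) ≤ (M : ℝ) := by positivity
    have h1 : (n : ℝ) ≤ (((u : ℝ) + 2) ^ B) ^ (q + 1) := by
      refine le_trans ?_ (pow_le_pow_left₀ hMr0 hMr _)
      exact_mod_cast hnM
    have h2 : t ≤ ((((u : ℝ) + 2) ^ B) ^ (q + 1)) ^ δ := by
      rw [ht]
      exact Real.rpow_le_rpow (by positivity) h1 hδ0.le
    have hu0 : (0 : ℝ) ≤ (u : ℝ) + 2 := by positivity
    have h3 : ((((u : ℝ) + 2) ^ B) ^ (q + 1)) ^ δ = ((u : ℝ) + 2) ^ (1 / (2 * (e : ℝ))) := by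
      rw [← pow_mul, ← Real.rpow_natCast, ← Real.rpow_mul hu0]
      congr 1
      rw [hδ]
      push_cast
      field_simp
    rw [h3] at h2
    have h4 : t ^ (2 * e) ≤ (((u : ℝ) + 2) ^ (1 / (2 * (e : ℝ)))) ^ (2 * e) :=
      pow_le_pow_left₀ (by linarith) h2 _
    refine h4.trans (le_of_eq ?_)
    rw [← Real.rpow_natCast, ← Real.rpow_mul hu0]
    have h5 : 1 / (2 * (e : ℝ)) * ((2 * e : ℕ) : ℝ) = 1 := by
      push_cast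
      field_simp
    rw [h5, Real.rpow_one]
  obtain ⟨k₀, hk₀⟩ : ∃ k₀ : ℕ, k₀ = ⌊t⌋₊ + C + 2 := ⟨_, rfl⟩
  have hk₀r : (k₀ : ℝ) ≤ ((C : ℝ) + 3) * t := by
    have h1 : ((⌊t⌋₊ : ℕ) : ℝ) ≤ t := Nat.floor_le (by linarith)
    have hC0 : (0 : ℝ) ≤ (C : ℝ) := by positivity
    rw [hk₀]
    push_cast
    nlinarith
  have hCT : C * (T + 1) < 2 ^ k₀ := by
    have h1 : t < (⌊t⌋₊ : ℝ) + 1 := Nat.lt_floor_add_one t
    have h2 : (T : ℝ) ≤ 2 ^ (⌊t⌋₊ + 1) := by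
      refine hT.trans ?_
      rw [← Real.rpow_natCast]
      refine Real.rpow_le_rpow_of_exponent_le (by norm_num) ?_
      push_cast
      exact h1.le
    have h3 : T ≤ 2 ^ (⌊t⌋₊ + 1) := by exact_mod_cast h2
    have h4 : C < 2 ^ C := Nat.lt_two_pow_self
    have h5 : 1 ≤ 2 ^ (⌊t⌋₊ + 1) := Nat.one_le_two_pow
    have h6 : 2 ^ k₀ = 2 ^ C * (2 * 2 ^ (⌊t⌋₊ + 1)) := by
      rw [hk₀, show ⌊t⌋₊ + C + 2 = C + (⌊t⌋₊ + 1 + 1) by ring, pow_add, pow_succ 2 (⌊t⌋₊ + 1)]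
      ring
    rw [h6]
    calc C * (T + 1) ≤ C * (2 * 2 ^ (⌊t⌋₊ + 1)) := Nat.mul_le_mul_left _ (by omega)
      _ < 2 ^ C * (2 * 2 ^ (⌊t⌋₊ + 1)) := Nat.mul_lt_mul_of_pos_right h4 (by omega)
  have hk1 : 1 ≤ k₀ := by omega
  obtain ⟨s, hs⟩ : ∃ s : ℕ, s = C * (C * k₀) ^ e₁ := ⟨_, rfl⟩
  have hks : k₀ ≤ s := by
    have h1 : k₀ ≤ C * k₀ := Nat.le_mul_of_pos_left _ hC
    have h2 : C * k₀ ≤ (C * k₀) ^ e₁ := Nat.le_self_pow (by omega) _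
    have h3 : (C * k₀) ^ e₁ ≤ s := by
      rw [hs]
      exact Nat.le_mul_of_pos_left _ hC
    omega
  refine ⟨u, k₀, s, hodd, by omega, huM, hk1, hCT, hs,
    hCT.trans_le (Nat.pow_le_pow_right (by norm_num) hks), ?_⟩
  have hr : ((C * s ^ e₂ : ℕ) : ℝ) ≤ (u : ℝ) := by
    have e1 : ((C * s ^ e₂ : ℕ) : ℝ) = (C : ℝ) ^ (1 + e₂ + e) * (k₀ : ℝ) ^ e := by
      rw [hs, he]
      push_cast
      rw [mul_pow, mul_pow, mul_pow, ← pow_mul, ← pow_mul, pow_add, pow_add, pow_one]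
      ring
    have e2 : (C : ℝ) ^ (1 + e₂ + e) * (k₀ : ℝ) ^ e ≤ (A : ℝ) * t ^ e := by
      rw [hA]
      push_cast
      calc (C : ℝ) ^ (1 + e₂ + e) * (k₀ : ℝ) ^ e
          ≤ (C : ℝ) ^ (1 + e₂ + e) * (((C : ℝ) + 3) * t) ^ e :=
            mul_le_mul_of_nonneg_left (pow_le_pow_left₀ (by positivity) hk₀r _) (by positivity)
        _ = (C : ℝ) ^ (1 + e₂ + e) * ((C : ℝ) + 3) ^ e * t ^ e := by rw [mul_pow]; ring
    rw [e1]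
    refine e2.trans ?_
    have hU' : ((A : ℝ) ^ 2 + 2 * A + C + 4) ≤ (u : ℝ) := by
      rw [hU] at hUu
      exact_mod_cast hUu
    have hA0 : (0 : ℝ) ≤ (A : ℝ) := by positivity
    have hC0 : (0 : ℝ) ≤ (C : ℝ) := by positivity
    refine abs_le_of_sq_le_sq' ?_ (by positivity) |>.2
    have e3 : ((A : ℝ) * t ^ e) ^ 2 = (A : ℝ) ^ 2 * t ^ (2 * e) := by
      rw [mul_pow, ← pow_mul, mul_comm e 2]
    rw [e3]
    have h7 : (A : ℝ) ^ 2 * t ^ (2 * e) ≤ (A : ℝ) ^ 2 * ((u : ℝ) + 2) :=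
      mul_le_mul_of_nonneg_left ht36 (by positivity)
    nlinarith [sq_nonneg ((A : ℝ) - 1)]
  exact_mod_cast hr

/-- The error in the matching world. -/
lemma err_dg {u N k C : ℕ} (hu : 2 ≤ u) (hN1 : 1 ≤ N) (hN : N ≤ u ^ 2) :
    (1 / (u : ℝ) ^ 2) ^ ((8 + 2 * C) * k) * (3 * ((u ^ 2 : ℕ) : ℝ) ^ 3 + 2) ^ (2 * k) ≤
      (1 / (N : ℝ)) ^ (C * (2 * k)) := by
  have hu2 : (2 : ℝ) ≤ (u : ℝ) := by exact_mod_cast hu
  have hM4 : (4 : ℝ) ≤ (u : ℝ) ^ 2 := by nlinarith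
  obtain ⟨m, hm⟩ : ∃ m : ℝ, m = (u : ℝ) ^ 2 := ⟨_, rfl⟩
  rw [← hm] at hM4 ⊢
  have hm0 : (0 : ℝ) < m := by linarith
  have hcast : ((u ^ 2 : ℕ) : ℝ) = m := by rw [hm]; push_cast; rfl
  rw [hcast]
  have h1 : 3 * m ^ 3 + 2 ≤ m ^ 4 := by
    have h2 : (64 : ℝ) ≤ m ^ 3 := by
      calc (64 : ℝ) = 4 ^ 3 := by norm_num
        _ ≤ m ^ 3 := pow_le_pow_left₀ (by norm_num) hM4 3
    have h3 : 4 * m ^ 3 ≤ m ^ 4 := by
      have e : m ^ 4 = m * m ^ 3 := by ring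
      rw [e]
      exact mul_le_mul_of_nonneg_right hM4 (by positivity)
    linarith
  have h4 : (3 * m ^ 3 + 2) ^ (2 * k) ≤ m ^ (8 * k) := by
    calc (3 * m ^ 3 + 2) ^ (2 * k) ≤ (m ^ 4) ^ (2 * k) := pow_le_pow_left₀ (by positivity) h1 _
      _ = m ^ (8 * k) := by rw [← pow_mul]; congr 1; ring
  have h5 : (1 / m) ^ ((8 + 2 * C) * k) * m ^ (8 * k) = (1 / m) ^ (C * (2 * k)) := by
    have e : (8 + 2 * C) * k = 8 * k + C * (2 * k) := by ring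
    have e2 : (1 / m) ^ (8 * k) * m ^ (8 * k) = 1 := by
      rw [← mul_pow, one_div, inv_mul_cancel₀ hm0.ne', one_pow]
    rw [e, pow_add, mul_right_comm, e2, one_mul]
  calc (1 / m) ^ ((8 + 2 * C) * k) * (3 * m ^ 3 + 2) ^ (2 * k)
      ≤ (1 / m) ^ ((8 + 2 * C) * k) * m ^ (8 * k) :=
        mul_le_mul_of_nonneg_left h4 (by positivity)
    _ = (1 / m) ^ (C * (2 * k)) := h5
    _ ≤ (1 / (N : ℝ)) ^ (C * (2 * k)) := by
        refine pow_le_pow_left₀ (by positivity) ?_ _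
        refine one_div_le_one_div_of_le (by exact_mod_cast hN1) ?_
        have : (N : ℝ) ≤ ((u ^ 2 : ℕ) : ℝ) := by exact_mod_cast hN
        rwa [hcast] at this

/-- The number of the edges, and the size bound. -/
lemma nvar_dg {D w u : ℕ} (hD : 4 ≤ D) (hu : D + 2 ≤ u) :
    u ≤ Fintype.card (GE D (u ^ (w + 2))) ∧
      Fintype.card (GE D (u ^ (w + 2))) ≤ u ^ ((w + 2) * D + 1) := by
  have hM2 : 2 ≤ u ^ (w + 2) := by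
    calc 2 ≤ u := by omega
      _ ≤ u ^ (w + 2) := Nat.le_self_pow (by omega) _
  have hnlow : (u ^ (w + 2)) ^ D ≤ Fintype.card (GE D (u ^ (w + 2))) := le_card_GE hM2 (by omega)
  refine ⟨?_, ?_⟩
  · refine le_trans ?_ hnlow
    rw [← pow_mul]
    exact Nat.le_self_pow (by positivity) _
  · calc Fintype.card (GE D (u ^ (w + 2))) ≤ D * (u ^ (w + 2)) ^ D := card_GE_le
      _ ≤ u * (u ^ (w + 2)) ^ D := Nat.mul_le_mul_right _ (by omega)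
      _ = u ^ ((w + 2) * D + 1) := by rw [← pow_mul, pow_succ, mul_comm]

/-- **The parameters and the family.**  For a set `P` of formulas which is closed under subformulas
and not too large, all numbers and the family of functions for its small formulas. -/
theorem params_dg (hchain : ChainP) (C₂ e₁ e₂ : ℕ) (he₁ : 1 ≤ e₁) (he₂ : 1 ≤ e₂) (ε : ℝ)
    (h0 : 0 < ε) (h1 : ε < 1) :
    ∃ (D w : ℕ) (δ : ℝ), 4 ≤ D ∧ 0 < δ ∧ ∀ C₃ : ℕ, 1 ≤ C₃ → ∃ c : ℕ, D + 2 ≤ c ∧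
      ∀ u d : ℕ, c ^ 5 ^ d ≤ u → ∀ (P : Finset (Fm (GE D (u ^ (w + 2))))) (hP : PClosed P)
        (S : ℕ) (hS : 1 ≤ S) (hM : 1 ≤ u ^ 2),
        (S : ℝ) ≤ (Fintype.card (GE D (u ^ (w + 2))) : ℝ) ^ (2 - ε) →
        (P.card : ℝ) ≤ 2 ^ ((Fintype.card (GE D (u ^ (w + 2))) : ℝ) ^ (δ / 5 ^ d)) →
        ∃ (k s y : ℕ) (Q η : ℝ), Odd y ∧ y ^ 5 ^ d ≤ u ^ 2 ∧ 1 ≤ k ∧ C₃ * k ^ e₁ ≤ s ∧
          P.card < 2 ^ s ∧ C₃ * s ^ e₂ ≤ y ∧ 0 ≤ η ∧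
          η * (3 * ((u ^ 2 : ℕ) : ℝ) ^ 3 + 2) ^ (2 * k) ≤
            (1 / ((y ^ 5 ^ d : ℕ) : ℝ)) ^ (C₂ * (2 * k)) ∧
          ∃ q, Fam (gridNet 3 (u ^ 2) hM) gcharge
            (relOf (smallOf P S) (closed_smallOf hP hS) (gridAxioms D (u ^ (w + 2)))) k 0 Q η q := by
  obtain ⟨D, w, u₀, hD, hch⟩ := hchain (8 + 2 * C₂) ε h0 h1
  obtain ⟨δ, hδ, hpar⟩ := exists_par_dg ((w + 2) * D) e₁ e₂ he₁ he₂
  refine ⟨D, w, δ, hD, hδ, fun C₃ hC₃ => ?_⟩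
  obtain ⟨C, hC⟩ : ∃ C : ℕ, C = C₃ + (6 * (w + 2) + 1) + 18 := ⟨_, rfl⟩
  obtain ⟨U, hU⟩ := hpar C (by omega)
  refine ⟨u₀ + U + D + 2, by omega, fun u d hd P hP S hS hM hSn hcon => ?_⟩
  have hcu : u₀ + U + D + 2 ≤ u := (Nat.le_self_pow (by positivity) _).trans hd
  have hu2 : 2 ≤ u := by omega
  obtain ⟨hun, hnup⟩ := nvar_dg (w := w) hD (by omega : D + 2 ≤ u)
  set n := Fintype.card (GE D (u ^ (w + 2))) with hn
  have hn1 : 1 ≤ n := by omega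
  have hdU : U ^ 5 ^ d ≤ u := (Nat.pow_le_pow_left (by omega) _).trans hd
  obtain ⟨T, hTdef⟩ : ∃ T : ℕ, T = P.card := ⟨_, rfl⟩
  rw [← hTdef] at hcon
  obtain ⟨y, k₀, s, hodd, _, hyM, hk₀, hT, hs, hTs, hsy⟩ :=
    hU (5 ^ d) (Nat.one_le_pow _ _ (by norm_num)) u n hdU hn1 hnup T (by
      refine hcon.trans (le_of_eq ?_)
      push_cast
      rfl)
  obtain ⟨k, hk⟩ : ∃ k : ℕ, k = (6 * (w + 2) + 1) * k₀ := ⟨_, rfl⟩
  have hk1 : 1 ≤ k := by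
    rw [hk]
    exact Nat.mul_pos (by omega) hk₀
  have hkC : k ≤ C * k₀ := by
    rw [hk]
    exact Nat.mul_le_mul_right _ (by omega)
  have hks : C₃ * k ^ e₁ ≤ s := by
    rw [hs]
    exact Nat.mul_le_mul (by omega) (Nat.pow_le_pow_left hkC _)
  have hks' : k ≤ s := by
    calc k ≤ k ^ e₁ := Nat.le_self_pow (by omega) k
      _ ≤ C₃ * k ^ e₁ := Nat.le_mul_of_pos_left _ hC₃
      _ ≤ s := hks
  have hsy' : s ≤ y := by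
    calc s ≤ s ^ e₂ := Nat.le_self_pow (by omega) s
      _ ≤ C * s ^ e₂ := Nat.le_mul_of_pos_left _ (by omega)
      _ ≤ y := hsy
  have hyu : y ≤ u := (Nat.le_self_pow (by positivity) y).trans hyM
  have hku : k ≤ u := by omega
  have huu : u ≤ u ^ 2 := Nat.le_self_pow (by norm_num) u
  have hcardS : (smallOf P S).card ≤ T := by
    rw [hTdef]
    exact Finset.card_le_card (Finset.filter_subset _ _)
  have hx : (6 * ((3 * (T + 1) : ℕ) : ℝ)) ^ (w + 2) * 2 ≤ 2 ^ k := by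
    have e1 : 6 * (3 * (T + 1)) ≤ 2 ^ k₀ := by
      calc 6 * (3 * (T + 1)) = 18 * (T + 1) := by ring
        _ ≤ C * (T + 1) := Nat.mul_le_mul_right _ (by omega)
        _ ≤ 2 ^ k₀ := hT.le
    have e2 : (6 * (3 * (T + 1))) ^ (w + 2) * 2 ≤ 2 ^ k := by
      calc (6 * (3 * (T + 1))) ^ (w + 2) * 2 ≤ (2 ^ k₀) ^ (w + 2) * 2 :=
            Nat.mul_le_mul_right _ (Nat.pow_le_pow_left e1 _)
        _ = 2 ^ (k₀ * (w + 2) + 1) := by rw [← pow_mul, pow_succ]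
        _ ≤ 2 ^ k := by
            refine Nat.pow_le_pow_right (by norm_num) ?_
            rw [hk]
            nlinarith
    exact_mod_cast e2
  obtain ⟨Q, q, hq⟩ := hch u (by omega) hM (smallOf P S) (closed_smallOf hP hS) (by
    intro φ hφ
    rw [mem_smallOf, kind_eq_small_iff hS] at hφ
    have h3 : (φ.size : ℝ) ≤ (S : ℝ) := by exact_mod_cast hφ.2
    exact h3.trans hSn) k (3 * (T + 1)) hk1 hku (by omega) (by omega) hx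
  refine ⟨k, s, y, Q, _, hodd, hyM.trans huu, hk1, hks, ?_, ?_, by positivity,
    err_dg hu2 (Nat.one_le_pow _ _ hodd.pos) (hyM.trans huu), q, hq⟩
  · rw [← hTdef]
    have h2 : T ≤ C * (T + 1) := (Nat.le_succ _).trans (Nat.le_mul_of_pos_left _ (by omega))
    exact lt_of_le_of_lt h2 hTs
  · exact le_trans (Nat.mul_le_mul_right _ (by omega)) hsy

end AcFrege
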