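import Pool.Agent.Work.MP_c07f0d_lc.DG.PwBasic
import Pool.Agent.Work.MP_c07f0d_lc.AC.LevDef
import Pool.Agent.Work.MP_c07f0d_lc.AC.Subf
import Mathlib.Tactic.Linarith
import Mathlib.Tactic.NormNum

/-!
# The base level of leaf sets from a family of pseudo-Boolean functions
-/

namespace AcFrege

open FregeEF

namespace PwB

variable {V : Type} [Fintype V] [DecidableEq V]

/-- The constant function of a truth value. -/
def bv (t : Bool) : Mt V → ℝ := if t then 1 else 0

theorem ident_le' (μ : Mt V) : ident ≤ μ := fun _ hv => absurd rfl hv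

theorem join_cost {μ ν : Mt V} (h : Compat μ ν) :
    cost ident (μ.join ν h) ≤ cost ident μ + cost ident ν := cost_join_le ident h

theorem free_ident : (free (ident : Mt V)).card = Fintype.card V := by
  have h : free (ident : Mt V) = Finset.univ := by
    ext v
    simp [ident]
  rw [h, Finset.card_univ]

/-- A functional at the join of three cheap matchings. -/
theorem exists_join {c Db R : ℕ} (hex : ∀ κ : Mt V, R ≤ (free κ).card → ∃ L, PF κ Db L)
    (hcR : R + 3 * c ≤ Fintype.card V) {μ₁ μ₂ μ₃ ν : Mt V} (h₁ : μ₁ ≤ ν) (h₂ : μ₂ ≤ ν)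
    (h₃ : μ₃ ≤ ν) (c₁ : cost ident μ₁ ≤ c) (c₂ : cost ident μ₂ ≤ c) (c₃ : cost ident μ₃ ≤ c) :
    ∃ L, PF (ident : Mt V) Db L ∧ PF μ₁ Db L ∧ PF μ₂ Db L ∧ PF μ₃ Db L := by
  have h12 : Compat μ₁ μ₂ := Compat.of_le h₁ h₂
  have h123 : Compat (μ₁.join μ₂ h12) μ₃ := Compat.of_le (Mt.join_le h12 h₁ h₂) h₃
  have hc : cost ident ((μ₁.join μ₂ h12).join μ₃ h123) ≤ 3 * c := by
    have e1 := join_cost h12
    have e2 := join_cost h123
    omega
  have hf := cost_add_free (ident_le' ((μ₁.join μ₂ h12).join μ₃ h123))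
  rw [free_ident] at hf
  obtain ⟨L, hL⟩ := hex ((μ₁.join μ₂ h12).join μ₃ h123) (by omega)
  have g1 := Mt.le_join_left μ₁ μ₂ h12
  have g2 := Mt.le_join_right μ₁ μ₂ h12
  have g3 := Mt.le_join_left (μ₁.join μ₂ h12) μ₃ h123
  have g4 := Mt.le_join_right (μ₁.join μ₂ h12) μ₃ h123
  exact ⟨L, hL.of_le (ident_le' _), hL.of_le (g1.trans g3), hL.of_le (g2.trans g3), hL.of_le g4⟩

theorem abs_le_of_sq {p : ℝ} (h : p ^ 2 ≤ 345 / 4096) : |p| ≤ 3 / 10 := by
  apply abs_le_of_sq_le_sq _ (by norm_num)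
  linarith [h, (by norm_num : (345 / 4096 : ℝ) ≤ (3 / 10) ^ 2)]

theorem bv_true : (bv true : Mt V → ℝ) = 1 := rfl

theorem bv_false : (bv false : Mt V → ℝ) = 0 := rfl

/-- The real number of a truth value. -/
def br (t : Bool) : ℝ := if t then 1 else 0

theorem L_bv {D : ℕ} {π : Mt V} {L : (Mt V → ℝ) →ₗ[ℝ] ℝ} (hL : PF π D L) (t : Bool) :
    L (bv t) = br t := by
  cases t with
  | true => exact hL.one
  | false => exact map_zero L

/-- Products of nearly Boolean functions. -/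
theorem prod_near {D k : ℕ} {η : ℝ} (hη : η ≤ 1 / 64) (hk : k ≤ D) {L : (Mt V → ℝ) →ₗ[ℝ] ℝ}
    (hL : PF (ident : Mt V) D L) {A B : Mt V → ℝ} (hA : A ∈ Deg (ident : Mt V) k)
    (hB : B ∈ Deg (ident : Mt V) k) (hA2 : |L (A * A - A)| ≤ η) (hB2 : |L (B * B - B)| ≤ η)
    {u v : Bool} (hu : |L (A - bv u)| ≤ 1 / 16) (hv : |L (B - bv v)| ≤ 1 / 16) :
    |L (A * B) - br (u && v)| ≤ 3 / 8 := by
  rw [map_sub, L_bv hL] at hu hv
  rw [map_sub] at hA2 hB2
  have hA' := Deg.mono hk hA
  have hB' := Deg.mono hk hB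
  have hc1 := hL.cauchy hA' hB'
  have h1A : (1 - A) ∈ Deg (ident : Mt V) D := Submodule.sub_mem _ one_mem hA'
  have hc2 := hL.cauchy h1A hB'
  have e1 : L ((1 - A) * B) = L B - L (A * B) := by rw [sub_mul, one_mul, map_sub]
  have e2 : L ((1 - A) * (1 - A)) = 1 - 2 * L A + L (A * A) := by
    have : (1 - A) * (1 - A) = 1 - (2 : ℝ) • A + A * A := by
      funext x
      simp only [Pi.mul_apply, Pi.sub_apply, Pi.add_apply, Pi.one_apply, Pi.smul_apply,
        smul_eq_mul]
      ring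
    rw [this, map_add, map_sub, map_smul, hL.one, smul_eq_mul]
  rw [e1, e2] at hc2
  have hX0 := hL.pos A hA'
  have hY0 := hL.pos B hB'
  have hZ0 := hL.pos _ h1A
  rw [e2] at hZ0
  generalize L (A * A) = X at *
  generalize L (B * B) = Y at *
  generalize L (A * B) = p at *
  generalize L A = x at *
  generalize L B = y at *
  rw [abs_le] at hA2 hB2 hu hv
  have key : ∀ {P Q r : ℝ}, 0 ≤ P → 0 ≤ Q → P ≤ 5 / 64 → Q ≤ 69 / 64 → r ^ 2 ≤ P * Q →
      |r| ≤ 3 / 10 := by
    intro P Q r hP hQ hP' hQ' hr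
    apply abs_le_of_sq
    have : P * Q ≤ 5 / 64 * (69 / 64) := mul_le_mul hP' hQ' hQ (by norm_num)
    linarith [this, (by norm_num : (5 / 64 * (69 / 64) : ℝ) = 345 / 4096)]
  cases u with
  | false =>
    have hb : br (false && v) = 0 := rfl
    have hbu : br false = 0 := rfl
    rw [hbu] at hu
    have hY : Y ≤ 69 / 64 := by
      cases v with
      | false => have : br false = 0 := rfl
                 rw [this] at hv
                 linarith [hv.1, hv.2, hB2.1, hB2.2]
      | true => have : br true = 1 := rfl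
                rw [this] at hv
                linarith [hv.1, hv.2, hB2.1, hB2.2]
    have h := key hX0 hY0 (by linarith [hu.1, hu.2, hA2.1, hA2.2]) hY hc1
    rw [hb, sub_zero]
    linarith
  | true =>
    have hbu : br true = 1 := rfl
    rw [hbu] at hu
    cases v with
    | false =>
      have hb : br (true && false) = 0 := rfl
      have hbv : br false = 0 := rfl
      rw [hbv] at hv
      have hc1' : p ^ 2 ≤ Y * X := by rw [mul_comm]; exact hc1
      have h := key hY0 hX0 (by linarith [hv.1, hv.2, hB2.1, hB2.2])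
        (by linarith [hu.1, hu.2, hA2.1, hA2.2]) hc1'
      rw [hb, sub_zero]
      linarith
    | true =>
      have hb : br (true && true) = 1 := rfl
      rw [hbu] at hv
      have h := key hZ0 hY0 (by linarith [hu.1, hu.2, hA2.1, hA2.2])
        (by linarith [hv.1, hv.2, hB2.1, hB2.2]) hc2
      rw [hb]
      rw [abs_le] at h ⊢
      constructor
      · linarith [h.1, h.2, hv.1, hv.2]
      · linarith [h.1, h.2, hv.1, hv.2]

variable {α : Type}

/-- The cheap matchings at which the function of `φ` is close to `t`. -/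
def pwSmall (F : Fm α → Mt V → ℝ) (c D₀ : ℕ) (φ : Fm α) (t : Bool) : Set (Mt V) :=
  {μ | cost ident μ ≤ c ∧ Sm μ D₀ (1 / 16) (F φ - bv t)}

/-- The leaf sets. -/
def pwA (F : Fm α → Mt V → ℝ) (c D₀ s : ℕ) : Fm α → Bool → Set (Mt V)
  | .neg a, t => if (Fm.neg a).size ≤ s then pwSmall F c D₀ (.neg a) t else pwA F c D₀ s a (!t)
  | .var x, t => pwSmall F c D₀ (.var x) t
  | .bot, t => if t then ∅ else pwSmall F c D₀ .bot t
  | .and a b, t => pwSmall F c D₀ (.and a b) t
  | .or a b, t => pwSmall F c D₀ (.or a b) t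
  | .imp a b, t => pwSmall F c D₀ (.imp a b) t

variable {F : Fm α → Mt V → ℝ} {c D₀ s : ℕ}

theorem pwA_sub {φ : Fm α} (h : φ.size ≤ s) {t : Bool} {μ : Mt V} (hμ : μ ∈ pwA F c D₀ s φ t) :
    μ ∈ pwSmall F c D₀ φ t := by
  cases φ with
  | neg a => unfold pwA at hμ; rw [if_pos h] at hμ; exact hμ
  | var x => exact hμ
  | bot =>
    unfold pwA at hμ
    cases t with
    | true => rw [if_pos rfl] at hμ; exact absurd hμ (Set.notMem_empty _)
    | false => rw [if_neg (by simp)] at hμ; exact hμ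
  | and a b => exact hμ
  | or a b => exact hμ
  | imp a b => exact hμ

theorem pwA_cost : ∀ (φ : Fm α) (t : Bool) (μ : Mt V), μ ∈ pwA F c D₀ s φ t →
    cost ident μ ≤ c
  | .neg a, t, μ, hμ => by
    unfold pwA at hμ
    split_ifs at hμ with h
    · exact hμ.1
    · exact pwA_cost a (!t) μ hμ
  | .var x, t, μ, hμ => hμ.1
  | .bot, t, μ, hμ => by
    unfold pwA at hμ
    split_ifs at hμ with h
    · exact absurd hμ (Set.notMem_empty _)
    · exact hμ.1
  | .and a b, t, μ, hμ => hμ.1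
  | .or a b, t, μ, hμ => hμ.1
  | .imp a b, t, μ, hμ => hμ.1

end PwB

open PwB

variable {V : Type} [Fintype V] [DecidableEq V]

/-- **The base level.** -/
theorem pw_base {α : Type} (P : Finset (Fm α)) (hP : PClosed P) {s k c D₀ D₁ Db R : ℕ} {η : ℝ}
    (hs : 1 ≤ s) (F : Fm α → Mt V → ℝ)
    (hF : ∀ φ ∈ P, φ.size ≤ s → F φ ∈ Deg (ident : Mt V) k)
    (hid : ∀ φ ∈ P, φ.size ≤ s → Sm (ident : Mt V) D₁ η (F φ * F φ - F φ))
    (hbot : .bot ∈ P → Sm (ident : Mt V) D₁ η (F .bot))
    (hneg : ∀ φ, .neg φ ∈ P → (Fm.neg φ).size ≤ s →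
      Sm (ident : Mt V) D₁ η (F (.neg φ) - (1 - F φ)))
    (hand : ∀ φ ψ, .and φ ψ ∈ P → (Fm.and φ ψ).size ≤ s →
      Sm (ident : Mt V) D₁ η (F (.and φ ψ) - F φ * F ψ))
    (hor : ∀ φ ψ, .or φ ψ ∈ P → (Fm.or φ ψ).size ≤ s →
      Sm (ident : Mt V) D₁ η (F (.or φ ψ) - (F φ + F ψ - F φ * F ψ)))
    (himp : ∀ φ ψ, .imp φ ψ ∈ P → (Fm.imp φ ψ).size ≤ s →
      Sm (ident : Mt V) D₁ η (F (.imp φ ψ) - (1 - F φ + F φ * F ψ)))
    (hη : η ≤ 1 / 64) (hex : ∀ κ : Mt V, R ≤ (free κ).card → ∃ L, PF κ Db L)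
    (hDb : D₀ + D₁ + 8 * k ≤ Db) (hcR : R + 3 * c ≤ Fintype.card V)
    (hnear : ∀ φ ∈ P, φ.size ≤ s → ∀ ν : Mt V, 3 * c ≤ (free ν).card →
      ∃ μ : Mt V, ∃ b : Bool, Compat μ ν ∧ cost ident μ ≤ c ∧
        Sm μ D₀ (1 / 16) (F φ - (if b then 1 else 0))) :
    ∃ A : Fm α → Bool → Set (Mt V), Lev P s 0 c ident A ∧
      ∀ φ ∈ P, kind s φ = .small → ∀ t, ∀ μ ∈ A φ t, cost ident μ ≤ c ∧
        Sm μ D₀ (1 / 16) (F φ - (if t then 1 else 0)) := by
  refine ⟨pwA F c D₀ s, ?_, fun φ _ hk t μ hμ =>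
    pwA_sub ((kind_eq_small_iff hs).1 hk) hμ⟩
  -- existence of leaves
  have hex0 : ∀ φ : Fm α, φ ∈ P → depth s φ ≤ 0 → ∀ ν : Mt V, 3 * c ≤ (free ν).card →
      ∃ t, ∃ μ ∈ pwA F c D₀ s φ t, Compat μ ν := by
    have hsm : ∀ φ : Fm α, φ ∈ P → φ.size ≤ s → φ ≠ .bot → ∀ ν : Mt V,
        3 * c ≤ (free ν).card → ∃ t, ∃ μ ∈ pwA F c D₀ s φ t, Compat μ ν := by
      intro φ hφ hk hb ν hν
      obtain ⟨μ, b, h1, h2, h3⟩ := hnear φ hφ hk ν hν
      refine ⟨b, μ, ?_, h1⟩
      have h4 : μ ∈ pwSmall F c D₀ φ b := ⟨h2, h3⟩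
      cases φ with
      | neg a => unfold pwA; rw [if_pos hk]; exact h4
      | var x => exact h4
      | bot => exact absurd rfl hb
      | and a b => exact h4
      | or a b => exact h4
      | imp a b => exact h4
    have hbig : ∀ φ : Fm α, depth s φ ≤ 0 → (kind s φ = .and ∨ kind s φ = .or ∨ kind s φ = .imp) →
        False := by
      intro φ hd hk
      have h1 := one_le_depth hk
      omega
    intro φ
    induction φ with
    | neg a ih =>
      intro hφ hd ν hν
      by_cases h : (Fm.neg a).size ≤ s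
      · exact hsm _ hφ h (fun h' => by cases h') ν hν
      · rw [depth_neg] at hd
        obtain ⟨t, μ, h1, h2⟩ := ih (hP.neg a hφ) hd ν hν
        refine ⟨!t, μ, ?_, h2⟩
        unfold pwA
        rw [if_neg h, Bool.not_not]
        exact h1
    | var x =>
      exact fun hφ _ ν hν => hsm _ hφ hs (fun h' => by cases h') ν hν
    | bot =>
      intro hφ _ ν hν
      obtain ⟨μ, b, h1, h2, h3⟩ := hnear _ hφ hs ν hν
      cases b with
      | false => exact ⟨false, μ, ⟨h2, h3⟩, h1⟩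
      | true =>
        exfalso
        obtain ⟨L, g0, g1, -, -⟩ := exists_join hex hcR (le_refl μ) (le_refl μ) (le_refl μ) h2 h2 h2
        have e1 := h3 L (g1.mono (by omega))
        have e2 := hbot hφ L (g0.mono (by omega))
        have e3 : L (F .bot - (if true then 1 else 0)) = L (F .bot) - 1 := by
          rw [map_sub, if_pos rfl, g0.one]
        rw [e3, abs_le] at e1
        rw [abs_le] at e2
        linarith [e1.1, e1.2, e2.1, e2.2]
    | and a b _ _ =>
      intro hφ hd ν hν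
      refine hsm _ hφ ?_ (fun h' => by cases h') ν hν
      by_contra h
      exact hbig _ hd (Or.inl (kind_and (by omega)))
    | or a b _ _ =>
      intro hφ hd ν hν
      refine hsm _ hφ ?_ (fun h' => by cases h') ν hν
      by_contra h
      exact hbig _ hd (Or.inr (Or.inl (kind_or (by omega))))
    | imp a b _ _ =>
      intro hφ hd ν hν
      refine hsm _ hφ ?_ (fun h' => by cases h') ν hν
      by_contra h
      exact hbig _ hd (Or.inr (Or.inr (kind_imp (by omega))))
  -- incompatibility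
  have hincS : ∀ φ : Fm α, ∀ μ ∈ pwSmall F c D₀ φ true, ∀ μ' ∈ pwSmall F c D₀ φ false,
      ¬ Compat μ μ' := by
    intro φ μ hμ μ' hμ' hc
    obtain ⟨L, g0, g1, g2, -⟩ := exists_join hex hcR (μ.le_join_left μ' hc)
      (μ.le_join_right μ' hc) (μ.le_join_right μ' hc) hμ.1 hμ'.1 hμ'.1
    have e1 := hμ.2 L (g1.mono (by omega))
    have e2 := hμ'.2 L (g2.mono (by omega))
    rw [map_sub, L_bv g0] at e1 e2
    have b1 : br true = 1 := rfl
    have b2 : br false = 0 := rfl
    rw [b1, abs_le] at e1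
    rw [b2, abs_le] at e2
    linarith [e1.1, e1.2, e2.1, e2.2]
  have hinc : ∀ φ : Fm α, ∀ μ ∈ pwA F c D₀ s φ true, ∀ μ' ∈ pwA F c D₀ s φ false,
      ¬ Compat μ μ' := by
    intro φ
    induction φ with
    | neg a ih =>
      intro μ hμ μ' hμ' hc
      unfold pwA at hμ hμ'
      by_cases h : (Fm.neg a).size ≤ s
      · rw [if_pos h] at hμ hμ'
        exact hincS _ μ hμ μ' hμ' hc
      · rw [if_neg h] at hμ hμ'
        exact ih μ' hμ' μ hμ hc.symm
    | var x => exact hincS _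
    | bot =>
      intro μ hμ
      unfold pwA at hμ
      rw [if_pos rfl] at hμ
      exact absurd hμ (Set.notMem_empty _)
    | and a b _ _ => exact hincS _
    | or a b _ _ => exact hincS _
    | imp a b _ _ => exact hincS _
  -- small formulas
  have smN : ∀ a : Fm α, kind s (.neg a) = .small → (Fm.neg a).size ≤ s ∧ a.size ≤ s := by
    intro a hk
    have h1 := (kind_eq_small_iff hs).1 hk
    have h2 := h1
    simp only [Fm.size] at h2
    exact ⟨h1, by omega⟩
  have close : ∀ {D : ℕ} {π : Mt V} {L : (Mt V → ℝ) →ₗ[ℝ] ℝ}, PF π D L → ∀ {G : Mt V → ℝ}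
      {t : Bool}, |L (G - bv t)| ≤ 1 / 16 → |L G - br t| ≤ 1 / 16 := by
    intro D π L hL G t h
    rwa [map_sub, L_bv hL] at h
  constructor
  · intro φ _ _ t μ hμ _
    exact pwA_cost φ t μ hμ
  · intro φ _ _
    exact hinc φ
  · intro φ hφ hd ν _ hν
    exact hex0 φ hφ hd ν hν
  · show pwA F c D₀ s .bot true = ∅
    unfold pwA
    rw [if_pos rfl]
  · intro a ha hk ν t u h1 h2
    obtain ⟨s1, s2⟩ := smN a hk
    obtain ⟨μ₁, m1, l1⟩ := h1
    obtain ⟨μ₂, m2, l2⟩ := h2
    have m1 := pwA_sub s1 m1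
    have m2 := pwA_sub s2 m2
    obtain ⟨L, g0, g1, g2, -⟩ := exists_join hex hcR l1 l2 l2 m1.1 m2.1 m2.1
    have e1 := close g0 (m1.2 L (g1.mono (by omega)))
    have e2 := close g0 (m2.2 L (g2.mono (by omega)))
    have e3 := hneg a ha s1 L (g0.mono (by omega))
    rw [map_sub, map_sub, g0.one] at e3
    rw [abs_le] at e1 e2 e3
    have b1 : br true = 1 := rfl
    have b2 : br false = 0 := rfl
    cases t <;> cases u <;> first | rfl | (exfalso; simp only [b1, b2] at e1 e2; linarith [e1.1, e1.2, e2.1, e2.2, e3.1, e3.2])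
  · intro a b ha hk ν t u v h1 h2 h3
    have s1 := (kind_eq_small_iff hs).1 hk
    have s1' := s1
    simp only [Fm.size] at s1'
    obtain ⟨pa, pb⟩ := hP.and a b ha
    obtain ⟨μ₁, m1, l1⟩ := h1
    obtain ⟨μ₂, m2, l2⟩ := h2
    obtain ⟨μ₃, m3, l3⟩ := h3
    have m1 := pwA_sub s1 m1
    have m2 := pwA_sub (by omega) m2
    have m3 := pwA_sub (by omega) m3
    obtain ⟨L, g0, g1, g2, g3⟩ := exists_join hex hcR l1 l2 l3 m1.1 m2.1 m3.1
    have e1 := close g0 (m1.2 L (g1.mono (by omega)))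
    have e2 := m2.2 L (g2.mono (by omega))
    have e3 := m3.2 L (g3.mono (by omega))
    have e4 := prod_near hη (by omega : k ≤ Db) g0 (hF a pa (by omega)) (hF b pb (by omega))
      (hid a pa (by omega) L (g0.mono (by omega))) (hid b pb (by omega) L (g0.mono (by omega)))
      e2 e3
    have e5 := hand a b ha s1 L (g0.mono (by omega))
    rw [map_sub] at e5
    rw [abs_le] at e1 e4 e5
    have b1 : br true = 1 := rfl
    have b2 : br false = 0 := rfl
    cases t <;> cases u <;> cases v <;> first | rfl | (exfalso; simp only [b1, b2, Bool.and_true, Bool.and_false, Bool.true_and, Bool.false_and] at e1 e4; linarith [e1.1, e1.2, e4.1, e4.2, e5.1, e5.2])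
  · intro a b ha hk ν t u v h1 h2 h3
    have s1 := (kind_eq_small_iff hs).1 hk
    have s1' := s1
    simp only [Fm.size] at s1'
    obtain ⟨pa, pb⟩ := hP.or a b ha
    obtain ⟨μ₁, m1, l1⟩ := h1
    obtain ⟨μ₂, m2, l2⟩ := h2
    obtain ⟨μ₃, m3, l3⟩ := h3
    have m1 := pwA_sub s1 m1
    have m2 := pwA_sub (by omega) m2
    have m3 := pwA_sub (by omega) m3
    obtain ⟨L, g0, g1, g2, g3⟩ := exists_join hex hcR l1 l2 l3 m1.1 m2.1 m3.1
    have e1 := close g0 (m1.2 L (g1.mono (by omega)))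
    have e2 := m2.2 L (g2.mono (by omega))
    have e3 := m3.2 L (g3.mono (by omega))
    have e4 := prod_near hη (by omega : k ≤ Db) g0 (hF a pa (by omega)) (hF b pb (by omega))
      (hid a pa (by omega) L (g0.mono (by omega))) (hid b pb (by omega) L (g0.mono (by omega)))
      e2 e3
    have e2 := close g0 e2
    have e3 := close g0 e3
    have e5 := hor a b ha s1 L (g0.mono (by omega))
    rw [map_sub, map_sub, map_add] at e5
    rw [abs_le] at e1 e2 e3 e4 e5
    have b1 : br true = 1 := rfl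
    have b2 : br false = 0 := rfl
    cases t <;> cases u <;> cases v <;> first | rfl | (exfalso; simp only [b1, b2, Bool.and_true, Bool.and_false, Bool.true_and, Bool.false_and] at e1 e2 e3 e4; linarith [e1.1, e1.2, e2.1, e2.2, e3.1, e3.2, e4.1, e4.2, e5.1, e5.2])
  · intro a b ha hk ν t u v h1 h2 h3
    have s1 := (kind_eq_small_iff hs).1 hk
    have s1' := s1
    simp only [Fm.size] at s1'
    obtain ⟨pa, pb⟩ := hP.imp a b ha
    obtain ⟨μ₁, m1, l1⟩ := h1
    obtain ⟨μ₂, m2, l2⟩ := h2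
    obtain ⟨μ₃, m3, l3⟩ := h3
    have m1 := pwA_sub s1 m1
    have m2 := pwA_sub (by omega) m2
    have m3 := pwA_sub (by omega) m3
    obtain ⟨L, g0, g1, g2, g3⟩ := exists_join hex hcR l1 l2 l3 m1.1 m2.1 m3.1
    have e1 := close g0 (m1.2 L (g1.mono (by omega)))
    have e2 := m2.2 L (g2.mono (by omega))
    have e3 := m3.2 L (g3.mono (by omega))
    have e4 := prod_near hη (by omega : k ≤ Db) g0 (hF a pa (by omega)) (hF b pb (by omega))
      (hid a pa (by omega) L (g0.mono (by omega))) (hid b pb (by omega) L (g0.mono (by omega)))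
      e2 e3
    have e2 := close g0 e2
    have e3 := close g0 e3
    have e5 := himp a b ha s1 L (g0.mono (by omega))
    rw [map_sub, map_add, map_sub, g0.one] at e5
    rw [abs_le] at e1 e2 e3 e4 e5
    have b1 : br true = 1 := rfl
    have b2 : br false = 0 := rfl
    cases t <;> cases u <;> cases v <;> first | rfl | (exfalso; simp only [b1, b2, Bool.and_true, Bool.and_false, Bool.true_and, Bool.false_and] at e1 e2 e3 e4; linarith [e1.1, e1.2, e2.1, e2.2, e3.1, e3.2, e4.1, e4.2, e5.1, e5.2])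
  · intro a _ hk _ t
    have h1 : ¬ (Fm.neg a).size ≤ s := fun h => by
      rw [kind_of_size_le h] at hk
      exact absurd hk (by simp)
    conv_lhs => unfold pwA
    rw [if_neg h1]
  · intro φ _ hd hk
    have h1 := one_le_depth (s := s) (φ := φ) (Or.inr hk)
    omega
  · intro φ _ hd hk
    have h1 := one_le_depth (s := s) (φ := φ) (Or.inr hk)
    omega
  · intro φ _ hd hk
    have h1 := one_le_depth (s := s) (φ := φ) (Or.inl hk)
    omega
  · intro φ _ hd hk
    have h1 := one_le_depth (s := s) (φ := φ) (Or.inl hk)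
    omega

end AcFrege
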