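import Pool.Agent.Work.MP_c07f0d_lc.DG.PwBasic
import Mathlib.GroupTheory.Perm.Support
import Mathlib.Data.Fintype.Perm
import Mathlib.Algebra.BigOperators.Ring.Finset

/-!
# Near constancy, vanishing of high differences, existence of blocks
-/

set_option linter.unusedSectionVars false

namespace AcFrege

variable {V : Type} [Fintype V] [DecidableEq V]

/-! ### Permutations of the free vertices -/

/-- The permutation of the vertices given by a permutation of the free vertices. -/
def pext (π : Mt V) (σ : Equiv.Perm {v // π v = v}) : Equiv.Perm V :=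
  Equiv.Perm.ofSubtype σ

theorem pext_of_free (π : Mt V) (σ : Equiv.Perm {v // π v = v}) {v : V} (hv : π v = v) :
    pext π σ v = (σ ⟨v, hv⟩ : V) := Equiv.Perm.ofSubtype_apply_of_mem σ hv

theorem pext_of_cov (π : Mt V) (σ : Equiv.Perm {v // π v = v}) {v : V} (hv : ¬ π v = v) :
    pext π σ v = v := Equiv.Perm.ofSubtype_apply_of_not_mem σ hv

theorem pext_mul (π : Mt V) (σ τ : Equiv.Perm {v // π v = v}) :
    pext π (σ * τ) = pext π σ * pext π τ := by
  unfold pext
  rw [map_mul]

theorem pext_one (π : Mt V) : pext π 1 = 1 := by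
  unfold pext
  rw [map_one]

theorem pext_swap (π : Mt V) (b c : {v // π v = v}) :
    pext π (Equiv.swap b c) = Equiv.swap (b : V) (c : V) := Equiv.Perm.ofSubtype_swap_eq b c

theorem conj_pext (π : Mt V) (σ : Equiv.Perm {v // π v = v}) : Mt.conj (pext π σ) π = π := by
  ext v
  rw [Mt.conj_apply]
  by_cases hv : π v = v
  · have h1 : (pext π σ).symm v = (σ.symm ⟨v, hv⟩ : V) := by
      rw [Equiv.symm_apply_eq, pext_of_free π σ (σ.symm ⟨v, hv⟩).2]
      simp
    rw [h1, (σ.symm ⟨v, hv⟩).2, pext_of_free π σ (σ.symm ⟨v, hv⟩).2]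
    simp [hv]
  · have h1 : (pext π σ).symm v = v := by
      rw [Equiv.symm_apply_eq, pext_of_cov π σ hv]
    rw [h1, pext_of_cov π σ (π.ne_partner hv)]

theorem conj_swap {π : Mt V} {b c : V} (hb : π b = b) (hc : π c = c) :
    Mt.conj (Equiv.swap b c) π = π := by
  have h := conj_pext π (Equiv.swap ⟨b, hb⟩ ⟨c, hc⟩)
  rw [pext_swap] at h
  exact h

/-- The functional after a permutation of the free vertices. -/
theorem PF.pext {π : Mt V} {D : ℕ} {L : (Mt V → ℝ) →ₗ[ℝ] ℝ} (h : PF π D L)
    (σ : Equiv.Perm {v // π v = v}) : PF π D (L.comp (actL (pext π σ))) := by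
  have h1 := h.conj (AcFrege.pext π σ)
  rw [conj_pext] at h1
  exact h1

/-- The average over the permutations of the free vertices. -/
noncomputable def avgL (π : Mt V) (L : (Mt V → ℝ) →ₗ[ℝ] ℝ) : (Mt V → ℝ) →ₗ[ℝ] ℝ :=
  ((Fintype.card (Equiv.Perm {v // π v = v}) : ℝ)⁻¹) •
    ∑ σ : Equiv.Perm {v // π v = v}, L.comp (actL (pext π σ))

theorem avgL_apply (π : Mt V) (L : (Mt V → ℝ) →ₗ[ℝ] ℝ) (F : Mt V → ℝ) :
    avgL π L F = (Fintype.card (Equiv.Perm {v // π v = v}) : ℝ)⁻¹ *
      ∑ σ : Equiv.Perm {v // π v = v}, L (act (pext π σ) F) := by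
  unfold avgL
  rw [LinearMap.smul_apply, LinearMap.sum_apply, smul_eq_mul]
  rfl

/-- Symmetric functionals. -/
structure SymF (π : Mt V) (D : ℕ) (P : (Mt V → ℝ) →ₗ[ℝ] ℝ) : Prop where
  one : P 1 = 1
  perf : ∀ i, ∀ G ∈ Deg π D, P (G * fr i) = 0
  base : ∀ G ∈ Deg π D, P (G * zz π) = P G
  inv : ∀ b c, π b = b → π c = c → ∀ F, P (act (Equiv.swap b c) F) = P F

theorem card_perm_pos (π : Mt V) : (0 : ℝ) < Fintype.card (Equiv.Perm {v // π v = v}) := by
  exact_mod_cast Fintype.card_pos

theorem PF.symF {π : Mt V} {D : ℕ} {L : (Mt V → ℝ) →ₗ[ℝ] ℝ} (h : PF π D L) :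
    SymF π D (avgL π L) where
  one := by
    rw [avgL_apply]
    have h1 : ∀ σ : Equiv.Perm {v // π v = v}, L (act (AcFrege.pext π σ) 1) = 1 := fun σ =>
      (h.pext σ).one
    rw [Finset.sum_congr rfl fun σ _ => h1 σ, Finset.sum_const, Finset.card_univ, nsmul_eq_mul,
      mul_one]
    exact inv_mul_cancel₀ (card_perm_pos π).ne'
  perf i G hG := by
    rw [avgL_apply]
    have h1 : ∀ σ : Equiv.Perm {v // π v = v}, L (act (AcFrege.pext π σ) (G * fr i)) = 0 :=
      fun σ => (h.pext σ).perf i G hG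
    rw [Finset.sum_eq_zero fun σ _ => h1 σ, mul_zero]
  base G hG := by
    rw [avgL_apply, avgL_apply]
    have h1 : ∀ σ : Equiv.Perm {v // π v = v}, L (act (AcFrege.pext π σ) (G * zz π)) =
      L (act (AcFrege.pext π σ) G) := fun σ => (h.pext σ).base G hG
    rw [Finset.sum_congr rfl fun σ _ => h1 σ]
  inv b c hb hc F := by
    rw [avgL_apply, avgL_apply]
    congr 1
    refine Fintype.sum_equiv (Equiv.mulLeft (Equiv.swap ⟨b, hb⟩ ⟨c, hc⟩)) _ _ ?_
    intro σ
    rw [Equiv.coe_mulLeft, pext_mul, pext_swap, act_comp]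

/-! ### Deleting an edge -/

/-- The matching without the edge at `v`. -/
def delE (μ : Mt V) (v : V) : Mt V where
  f x := if x = v ∨ x = μ v then x else μ x
  inv x := by
    by_cases h : x = v ∨ x = μ v
    · rw [if_pos h, if_pos h]
    · rw [if_neg h, if_neg]
      · exact μ.invol x
      · rintro (h1 | h1)
        · exact h (Or.inr (by rw [← h1, μ.invol]))
        · exact h (Or.inl (μ.inj h1))

theorem delE_apply (μ : Mt V) (v x : V) :
    delE μ v x = if x = v ∨ x = μ v then x else μ x := rfl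

theorem cost_delE {π μ : Mt V} {v : V} (hv : π v = v) (hw : π (μ v) = μ v) (hμ : μ v ≠ v) :
    cost π (delE μ v) + 2 = cost π μ := by
  unfold cost
  have h1 : (free π).filter (fun x => delE μ v x ≠ x) =
      (((free π).filter (fun x => μ x ≠ x)).erase v).erase (μ v) := by
    ext x
    rw [Finset.mem_erase, Finset.mem_erase, Finset.mem_filter, Finset.mem_filter, delE_apply]
    constructor
    · rintro ⟨h1, h2⟩
      by_cases h : x = v ∨ x = μ v
      · rw [if_pos h] at h2
        exact absurd rfl h2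
      · rw [if_neg h] at h2
        rw [not_or] at h
        exact ⟨h.2, h.1, h1, h2⟩
    · rintro ⟨h1, h2, h3, h4⟩
      refine ⟨h3, ?_⟩
      rw [if_neg (by rw [not_or]; exact ⟨h2, h1⟩)]
      exact h4
  have hvm : v ∈ (free π).filter (fun x => μ x ≠ x) :=
    Finset.mem_filter.2 ⟨mem_free.2 hv, hμ⟩
  have hwm : μ v ∈ ((free π).filter (fun x => μ x ≠ x)).erase v :=
    Finset.mem_erase.2 ⟨hμ, Finset.mem_filter.2 ⟨mem_free.2 hw, μ.ne_partner hμ⟩⟩
  have h2 := Finset.card_erase_add_one hvm
  have h3 := Finset.card_erase_add_one hwm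
  rw [h1]
  omega

theorem zz_delE_mul {μ : Mt V} {v j : V} (hμ : μ v ≠ v) (hj : j ≠ v) (hj' : delE μ v j = j) :
    zz (delE μ v) * zz (edge v j) = act (Equiv.swap (μ v) j) (zz μ) := by
  have hjμ : j = μ v ∨ μ j = j := by
    rw [delE_apply] at hj'
    by_cases h : j = v ∨ j = μ v
    · rcases h with h | h
      · exact absurd h hj
      · exact Or.inl h
    · rw [if_neg h] at hj'
      exact Or.inr hj'
  have hc : Compat (delE μ v) (edge v j) := by
    intro x hx hx'
    exfalso
    rw [edge_apply] at hx'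
    by_cases h1 : x = v
    · rw [delE_apply, if_pos (Or.inl h1)] at hx
      exact hx rfl
    · rw [if_neg h1] at hx'
      by_cases h2 : x = j
      · rw [h2] at hx
        exact hx hj'
      · rw [if_neg h2] at hx'
        exact hx' rfl
  rw [zz_mul_of_compat hc, act_zz]
  congr 1
  ext x
  rw [Mt.join_apply, Mt.conj_apply, edge_apply, delE_apply]
  have hinv : (Equiv.swap (μ v) j)⁻¹.symm x = Equiv.swap (μ v) j x := by
    simp
  rw [hinv, Equiv.swap_inv]
  have hμμ : μ (μ v) = v := μ.invol v
  by_cases h1 : x = v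
  · subst h1
    rw [if_pos (Or.inl rfl), if_pos rfl, if_pos rfl, Equiv.swap_apply_of_ne_of_ne hμ.symm hj.symm,
      Equiv.swap_apply_left]
  · by_cases h2 : x = j
    · subst h2
      have h3 : (if x = v ∨ x = μ v then x else μ x) = x := by
        rw [← delE_apply]; exact hj'
      rw [h3, if_pos rfl, if_neg h1, if_pos rfl, Equiv.swap_apply_right, hμμ,
        Equiv.swap_apply_of_ne_of_ne hμ.symm hj.symm]
    · by_cases h3 : x = μ v
      · have h4 : μ j = j := by
          rcases hjμ with h4 | h4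
          · exact absurd (h3.trans h4.symm) h2
          · exact h4
        rw [if_pos (Or.inr h3), if_pos rfl, if_neg h1, if_neg h2, h3, Equiv.swap_apply_left, h4,
          Equiv.swap_apply_right]
      · have h4 : μ x ≠ μ v := fun h => h1 (μ.inj h)
        have h5 : μ x ≠ j := by
          intro h
          rcases hjμ with h6 | h6
          · exact h4 (h.trans h6)
          · apply h2
            rw [← μ.invol x, h, h6]
        rw [Equiv.swap_apply_of_ne_of_ne h3 h2, Equiv.swap_apply_of_ne_of_ne h4 h5,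
          if_neg (show ¬ (x = v ∨ x = μ v) by rw [not_or]; exact ⟨h1, h3⟩), if_neg h1, if_neg h2]
        by_cases h6 : μ x = x
        · rw [if_pos h6, h6]
        · rw [if_neg h6]

/-! ### The values of symmetric functionals -/

theorem edge_mul_zz_eq_zero {π : Mt V} {v j : V} (hv : π v = v) (hjv : j ≠ v) (hj : π j ≠ j) :
    zz (edge v j) * zz π = 0 := by
  apply zz_mul_of_not_compat
  intro hc
  have h1 : edge v j j ≠ j := by
    rw [edge_apply, if_neg hjv, if_pos rfl]
    exact hjv.symm
  have h2 := hc j h1 hj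
  rw [edge_apply, if_neg hjv, if_pos rfl] at h2
  -- `v = π j`
  have h3 : π v = j := by rw [h2, π.invol]
  rw [hv] at h3
  exact hjv h3.symm

theorem SymF.del {π : Mt V} {D : ℕ} {P : (Mt V → ℝ) →ₗ[ℝ] ℝ} (h : SymF π D P) {μ : Mt V} {v : V}
    (hv : π v = v) (hw : π (μ v) = μ v) (hμ : μ v ≠ v) (hD : cost π μ ≤ D) :
    P (zz (delE μ v)) =
      (((Finset.univ.erase v).filter fun j => π j = j ∧ delE μ v j = j).card : ℝ) * P (zz μ) := by
  have hcost := cost_delE hv hw hμ
  have hm : zz (delE μ v) ∈ Deg π (cost π (delE μ v)) := zz_mem le_rfl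
  have hmD : zz (delE μ v) ∈ Deg π D := Deg.mono (by omega) hm
  have h1 : zz (delE μ v) = zz (delE μ v) * fr v +
      ∑ j ∈ Finset.univ.erase v, zz (delE μ v) * zz (edge v j) := by
    rw [← Finset.mul_sum, ← mul_add, ← one_eq_sum, mul_one]
  have h2 : ∀ j ∈ Finset.univ.erase v, P (zz (delE μ v) * zz (edge v j)) =
      if π j = j ∧ delE μ v j = j then P (zz μ) else 0 := by
    intro j hj
    rw [Finset.mem_erase] at hj
    by_cases h3 : delE μ v j = j
    · by_cases h4 : π j = j
      · rw [if_pos ⟨h4, h3⟩, zz_delE_mul hμ hj.1 h3]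
        exact h.inv _ _ hw h4 _
      · rw [if_neg (fun hc => h4 hc.1)]
        have h5 : zz (delE μ v) * zz (edge v j) ∈ Deg π D :=
          Deg.mono (by omega) (Deg.mul hm (zz_mem (cost_edge_le π v j)))
        rw [← h.base _ h5, mul_assoc, edge_mul_zz_eq_zero hv hj.1 h4, mul_zero, map_zero]
    · rw [if_neg (fun hc => h3 hc.2), zz_mul_of_not_compat, map_zero]
      intro hc
      have h5 : edge v j j ≠ j := by
        rw [edge_apply, if_neg hj.1, if_pos rfl]
        exact hj.1.symm
      have h6 := hc j h3 h5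
      rw [edge_apply, if_neg hj.1, if_pos rfl] at h6
      -- `delE μ v j = v`
      have h7 : delE μ v v = v := by rw [delE_apply, if_pos (Or.inl rfl)]
      have h8 : j = v := (delE μ v).inj (h6.trans h7.symm)
      exact hj.1 h8
  rw [h1, map_add, h.perf v _ hmD, zero_add, map_sum, Finset.sum_congr rfl h2, ← Finset.sum_filter,
    Finset.sum_const, nsmul_eq_mul]

theorem SymF.eq {π : Mt V} {D : ℕ} {P P' : (Mt V → ℝ) →ₗ[ℝ] ℝ} (h : SymF π D P)
    (h' : SymF π D P') (n : ℕ) : ∀ μ, cost π μ = n → n ≤ D → P (zz μ) = P' (zz μ) := by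
  induction n using Nat.strong_induction_on with
  | _ n ih =>
    intro μ hμ hn
    have hmD : zz μ ∈ Deg π D := zz_mem (by omega)
    by_cases hc : Compat μ π
    · by_cases hex : ∃ v, π v = v ∧ μ v ≠ v
      · obtain ⟨v, hv, hvμ⟩ := hex
        have hw : π (μ v) = μ v := by
          by_contra hw
          have h1 := hc (μ v) (μ.ne_partner hvμ) hw
          rw [μ.invol] at h1
          -- `v = π (μ v)`
          have h2 : π v = μ v := by
            conv_lhs => rw [h1]
            rw [π.invol]
          exact hvμ (h2.symm.trans hv)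
        have hcost := cost_delE hv hw hvμ
        have h1 := h.del hv hw hvμ (by omega)
        have h2 := h'.del hv hw hvμ (by omega)
        have h3 := ih (cost π (delE μ v)) (by omega) (delE μ v) rfl (by omega)
        have h4 : 0 < ((Finset.univ.erase v).filter
            fun j => π j = j ∧ delE μ v j = j).card := by
          apply Finset.card_pos.2
          refine ⟨μ v, Finset.mem_filter.2 ⟨Finset.mem_erase.2 ⟨hvμ, Finset.mem_univ _⟩, hw, ?_⟩⟩
          rw [delE_apply, if_pos (Or.inr rfl)]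
        have h5 : (0 : ℝ) < (((Finset.univ.erase v).filter
            fun j => π j = j ∧ delE μ v j = j).card : ℝ) := by exact_mod_cast h4
        rw [h1, h2] at h3
        exact mul_left_cancel₀ h5.ne' h3
      · push Not at hex
        have hle : μ ≤ π := by
          intro v hv
          have h1 : π v ≠ v := fun hc' => hv (hex v hc')
          exact (hc v hv h1).symm
        have hv : ∀ {Q : (Mt V → ℝ) →ₗ[ℝ] ℝ}, SymF π D Q → Q (zz μ) = 1 := by
          intro Q hQ
          rw [← hQ.base _ hmD, zz_mul_of_le hle, ← one_mul (zz π), hQ.base _ one_mem, hQ.one]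
        rw [hv h, hv h']
    · have hv : ∀ {Q : (Mt V → ℝ) →ₗ[ℝ] ℝ}, SymF π D Q → Q (zz μ) = 0 := by
        intro Q hQ
        rw [← hQ.base _ hmD, zz_mul_of_not_compat hc, map_zero]
      rw [hv h, hv h']

theorem SymF.eq_of_mem {π : Mt V} {D : ℕ} {P P' : (Mt V → ℝ) →ₗ[ℝ] ℝ} (h : SymF π D P)
    (h' : SymF π D P') {G : Mt V → ℝ} (hG : G ∈ Deg π D) : P G = P' G := by
  unfold Deg at hG
  induction hG using Submodule.span_induction with
  | mem F hF =>
    obtain ⟨μ, hμ, rfl⟩ := hF
    exact h.eq h' (cost π μ) μ rfl hμ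
  | zero => rw [map_zero, map_zero]
  | add x y _ _ hx hy => rw [map_add, map_add, hx, hy]
  | smul c x _ hx => rw [map_smul, map_smul, hx]

/-! ### Near constancy -/

theorem act_pext_close {π : Mt V} {D : ℕ} {e : ℝ} {G : Mt V → ℝ} {L : (Mt V → ℝ) →ₗ[ℝ] ℝ}
    (he : 0 ≤ e)
    (h : ∀ b c, b ≠ c → π b = b → π c = c → Sm π D e (act (Equiv.swap b c) G - G))
    (hL : PF π D L) (n : ℕ) : ∀ σ : Equiv.Perm {v // π v = v}, σ.support.card ≤ n →
      |L (act (pext π σ) G) - L G| ≤ n * e := by
  induction n with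
  | zero =>
    intro σ hσ
    have h1 : σ = 1 := by
      rw [← Equiv.Perm.support_eq_empty_iff, ← Finset.card_eq_zero]
      omega
    rw [h1, pext_one, act_one, sub_self, abs_zero]
    simp
  | succ n ih =>
    intro σ hσ
    by_cases h1 : σ = 1
    · rw [h1, pext_one, act_one, sub_self, abs_zero]
      positivity
    · obtain ⟨x, hx⟩ : ∃ x, σ x ≠ x := by
        by_contra hc
        push Not at hc
        exact h1 (Equiv.ext hc)
      set σ' := Equiv.swap x (σ x) * σ with hσ'
      have h2 : σ'.support.card < σ.support.card := Equiv.Perm.card_support_swap_mul hx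
      have h3 : σ = Equiv.swap x (σ x) * σ' := by
        rw [hσ', Equiv.swap_mul_self_mul]
      have h4 : act (pext π σ) G =
          act (pext π σ') (act (Equiv.swap (x : V) (σ x : V)) G) := by
        conv_lhs => rw [h3]
        rw [pext_mul, pext_swap, act_comp]
      have h5 : L (act (pext π σ) G) - L G =
          L (act (pext π σ') (act (Equiv.swap (x : V) (σ x : V)) G - G)) +
            (L (act (pext π σ') G) - L G) := by
        rw [h4, act_sub, map_sub]
        ring
      have h6 : |L (act (pext π σ') (act (Equiv.swap (x : V) (σ x : V)) G - G))| ≤ e := by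
        have h7 := h x (σ x) (fun hc => hx (Subtype.ext hc.symm)) x.2 (σ x).2 _ (hL.pext σ')
        exact h7
      have h7 := ih σ' (by omega)
      rw [h5]
      refine (abs_add_le _ _).trans ?_
      push_cast
      linarith

theorem avgL_close {π : Mt V} {D : ℕ} {e : ℝ} {G : Mt V → ℝ} {L : (Mt V → ℝ) →ₗ[ℝ] ℝ}
    (he : 0 ≤ e)
    (h : ∀ b c, b ≠ c → π b = b → π c = c → Sm π D e (act (Equiv.swap b c) G - G))
    (hL : PF π D L) : |avgL π L G - L G| ≤ Fintype.card V * e := by
  have h1 : ∀ σ : Equiv.Perm {v // π v = v},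
      |L (act (pext π σ) G) - L G| ≤ Fintype.card V * e := by
    intro σ
    refine (act_pext_close he h hL _ σ le_rfl).trans ?_
    refine mul_le_mul_of_nonneg_right ?_ he
    have h2 : σ.support.card ≤ Fintype.card {v // π v = v} := Finset.card_le_univ _
    have h3 : Fintype.card {v // π v = v} ≤ Fintype.card V := Fintype.card_subtype_le _
    exact_mod_cast h2.trans h3
  have hpos := card_perm_pos π
  have h2 : avgL π L G - L G = (Fintype.card (Equiv.Perm {v // π v = v}) : ℝ)⁻¹ *
      ∑ σ : Equiv.Perm {v // π v = v}, (L (act (pext π σ) G) - L G) := by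
    rw [avgL_apply, Finset.sum_sub_distrib, Finset.sum_const, Finset.card_univ, nsmul_eq_mul,
      mul_sub, ← mul_assoc, inv_mul_cancel₀ hpos.ne', one_mul]
  rw [h2, abs_mul, abs_of_pos (inv_pos.2 hpos), inv_mul_le_iff₀ hpos]
  refine (Finset.abs_sum_le_sum_abs _ _).trans ?_
  refine (Finset.sum_le_card_nsmul _ _ _ fun σ _ => h1 σ).trans ?_
  rw [Finset.card_univ, nsmul_eq_mul]

/-- **Near constancy.**  A function which is almost invariant under the transpositions of the free
vertices has almost the same value at all pseudo-functionals. -/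
theorem near_const {π : Mt V} {D : ℕ} {e : ℝ} {G : Mt V → ℝ} {L L' : (Mt V → ℝ) →ₗ[ℝ] ℝ}
    (he : 0 ≤ e) (hG : G ∈ Deg π D)
    (h : ∀ b c, b ≠ c → π b = b → π c = c → Sm π D e (act (Equiv.swap b c) G - G))
    (hL : PF π D L) (hL' : PF π D L') : |L G - L' G| ≤ 2 * Fintype.card V * e := by
  have h1 := avgL_close he h hL
  have h2 := avgL_close he h hL'
  have h3 : avgL π L G = avgL π L' G := hL.symF.eq_of_mem hL'.symF hG
  rw [h3] at h1
  rw [abs_le] at h1 h2 ⊢
  constructor <;> linarith [h1.1, h1.2, h2.1, h2.2]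

end AcFrege
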