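import Pool.Agent.Work.MP_c07f0d_lc.DG.PwBasic
import Mathlib.Algebra.Order.BigOperators.Group.Finset
import Mathlib.Algebra.BigOperators.Group.List.Basic
import Mathlib.Algebra.BigOperators.Ring.Finset

/-!
# The iterated difference operator

The difference `Dl τ F` of a function of degree at most `k` vanishes if `τ` has more than `k`
transpositions of free vertices, and a significant difference gives a block.
-/

set_option linter.unusedSectionVars false
set_option linter.unusedVariables false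

namespace AcFrege

variable {V : Type} [Fintype V] [DecidableEq V]

/-! ### Linearity and commutation -/

theorem act_zero (σ : Equiv.Perm V) : act σ (0 : Mt V → ℝ) = 0 := rfl

theorem act_sum {ι : Type} (σ : Equiv.Perm V) (s : Finset ι) (F : ι → Mt V → ℝ) :
    act σ (∑ i ∈ s, F i) = ∑ i ∈ s, act σ (F i) := by
  rw [← actL_apply, map_sum]
  rfl

@[simp] theorem Dl_nil (F : Mt V → ℝ) : Dl [] F = F := rfl

theorem Dl_cons (p : V × V) (τ : List (V × V)) (F : Mt V → ℝ) :
    Dl (p :: τ) F = act (Equiv.swap p.1 p.2) (Dl τ F) - Dl τ F := rfl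

theorem Dl_zero (τ : List (V × V)) : Dl τ (0 : Mt V → ℝ) = 0 := by
  induction τ with
  | nil => rfl
  | cons p τ ih => rw [Dl_cons, ih, act_zero, sub_zero]

theorem Dl_add (τ : List (V × V)) (F G : Mt V → ℝ) : Dl τ (F + G) = Dl τ F + Dl τ G := by
  induction τ with
  | nil => rfl
  | cons p τ ih =>
    rw [Dl_cons, Dl_cons, Dl_cons, ih, act_add]
    abel

theorem Dl_sub (τ : List (V × V)) (F G : Mt V → ℝ) : Dl τ (F - G) = Dl τ F - Dl τ G := by
  induction τ with
  | nil => rfl
  | cons p τ ih =>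
    rw [Dl_cons, Dl_cons, Dl_cons, ih, act_sub]
    abel

theorem Dl_smul (τ : List (V × V)) (c : ℝ) (F : Mt V → ℝ) : Dl τ (c • F) = c • Dl τ F := by
  induction τ with
  | nil => rfl
  | cons p τ ih => rw [Dl_cons, Dl_cons, ih, act_smul, smul_sub]

/-- The difference operator as a linear map. -/
def DlL (τ : List (V × V)) : (Mt V → ℝ) →ₗ[ℝ] (Mt V → ℝ) where
  toFun := Dl τ
  map_add' := Dl_add τ
  map_smul' := Dl_smul τ

@[simp] theorem DlL_apply (τ : List (V × V)) (F : Mt V → ℝ) : DlL τ F = Dl τ F := rfl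

theorem Dl_sum {ι : Type} (τ : List (V × V)) (s : Finset ι) (F : ι → Mt V → ℝ) :
    Dl τ (∑ i ∈ s, F i) = ∑ i ∈ s, Dl τ (F i) := by
  rw [← DlL_apply, map_sum]
  rfl

/-- The expansion of the difference operator. -/
theorem Dl_eq_sum (τ : List (V × V)) (F : Mt V → ℝ) :
    Dl τ F = ((sperms τ).map fun q => q.1 • act q.2 F).sum := by
  induction τ with
  | nil => simp [sperms, act_one]
  | cons p τ ih =>
    rw [Dl_cons, ih, sperms, List.map_append, List.sum_append, List.map_map, List.map_map]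
    have h1 : act (Equiv.swap p.1 p.2) ((sperms τ).map fun q => q.1 • act q.2 F).sum =
        ((sperms τ).map ((fun q => q.1 • act q.2 F) ∘
          fun q => (q.1, q.2 * Equiv.swap p.1 p.2))).sum := by
      generalize sperms τ = l
      induction l with
      | nil => rfl
      | cons q l ih' =>
        rw [List.map_cons, List.sum_cons, List.map_cons, List.sum_cons, act_add, ih']
        simp only [Function.comp_apply, act_smul, act_comp]
    have h2 : -((sperms τ).map fun q => q.1 • act q.2 F).sum =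
        ((sperms τ).map ((fun q => q.1 • act q.2 F) ∘ fun q => (-q.1, q.2))).sum := by
      generalize sperms τ = l
      induction l with
      | nil => simp
      | cons q l ih' =>
        rw [List.map_cons, List.sum_cons, List.map_cons, List.sum_cons, neg_add, ih']
        simp only [Function.comp_apply, neg_smul]
    rw [sub_eq_add_neg, h1, h2]

theorem length_sperms (τ : List (V × V)) : (sperms τ).length = 2 ^ τ.length := by
  induction τ with
  | nil => rfl
  | cons p τ ih =>
    rw [sperms, List.length_append, List.length_map, List.length_map, ih, List.length_cons,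
      pow_succ]
    ring

/-! ### Lists of disjoint transpositions -/

theorem verts_cons (p : V × V) (τ : List (V × V)) : verts (p :: τ) = p.1 :: p.2 :: verts τ := rfl

theorem mem_verts {τ : List (V × V)} {v : V} : v ∈ verts τ ↔ ∃ p ∈ τ, v = p.1 ∨ v = p.2 := by
  unfold verts
  rw [List.mem_flatMap]
  constructor
  · rintro ⟨p, hp, hv⟩
    exact ⟨p, hp, by simpa using hv⟩
  · rintro ⟨p, hp, hv⟩
    exact ⟨p, hp, by simpa using hv⟩

theorem length_verts (τ : List (V × V)) : (verts τ).length = 2 * τ.length := by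
  induction τ with
  | nil => rfl
  | cons p τ ih => rw [verts_cons, List.length_cons, List.length_cons, ih, List.length_cons]; ring

theorem TOk.nil (π : Mt V) : TOk π [] := ⟨List.nodup_nil, fun v hv => by simp [verts] at hv⟩

theorem TOk.tail {π : Mt V} {p : V × V} {τ : List (V × V)} (h : TOk π (p :: τ)) : TOk π τ := by
  obtain ⟨h1, h2⟩ := h
  rw [verts_cons] at h1 h2
  exact ⟨(List.nodup_cons.1 (List.nodup_cons.1 h1).2).2,
    fun v hv => h2 v (List.mem_cons_of_mem _ (List.mem_cons_of_mem _ hv))⟩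

theorem TOk.head_free {π : Mt V} {p : V × V} {τ : List (V × V)} (h : TOk π (p :: τ)) :
    π p.1 = p.1 ∧ π p.2 = p.2 := by
  have h2 := h.2
  rw [verts_cons] at h2
  exact ⟨h2 _ List.mem_cons_self, h2 _ (List.mem_cons_of_mem _ List.mem_cons_self)⟩

theorem TOk.head_not_mem {π : Mt V} {p : V × V} {τ : List (V × V)} (h : TOk π (p :: τ)) :
    p.1 ∉ verts τ ∧ p.2 ∉ verts τ ∧ p.1 ≠ p.2 := by
  have h1 := h.1
  rw [verts_cons, List.nodup_cons, List.nodup_cons, List.mem_cons, not_or] at h1
  exact ⟨h1.1.2, h1.2.1, h1.1.1⟩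

theorem TOk.of_le {π ρ : Mt V} {τ : List (V × V)} (h : TOk ρ τ) (hρ : π ≤ ρ) : TOk π τ :=
  ⟨h.1, fun v hv => Mt.free_of_le hρ (h.2 v hv)⟩

theorem conj_swap_of_free {π : Mt V} {a b : V} (ha : π a = a) (hb : π b = b) :
    Mt.conj (Equiv.swap a b) π = π := by
  ext v
  rw [Mt.conj_apply, Equiv.symm_swap]
  by_cases h1 : v = a
  · subst h1
    rw [Equiv.swap_apply_left, hb, Equiv.swap_apply_right, ha]
  · by_cases h2 : v = b
    · subst h2
      rw [Equiv.swap_apply_right, ha, Equiv.swap_apply_left, hb]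
    · rw [Equiv.swap_apply_of_ne_of_ne h1 h2, Equiv.swap_apply_of_ne_of_ne]
      · intro h
        apply h1
        rw [← π.invol v, h, ha]
      · intro h
        apply h2
        rw [← π.invol v, h, hb]

/-- The action commutes with the differences if the permutation fixes their vertices. -/
theorem Dl_act {σ : Equiv.Perm V} {τ : List (V × V)} (h : ∀ v ∈ verts τ, σ v = v)
    (F : Mt V → ℝ) : Dl τ (act σ F) = act σ (Dl τ F) := by
  induction τ with
  | nil => rfl
  | cons p τ ih =>
    rw [verts_cons] at h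
    have h1 : σ p.1 = p.1 := h _ List.mem_cons_self
    have h2 : σ p.2 = p.2 := h _ (List.mem_cons_of_mem _ List.mem_cons_self)
    rw [Dl_cons, Dl_cons, ih (fun v hv => h v (List.mem_cons_of_mem _ (List.mem_cons_of_mem _ hv))),
      ← act_comp, act_sub, ← act_comp, Equiv.mul_swap_eq_swap_mul, h1, h2]

theorem Dl_act_swap {a b : V} {τ : List (V × V)} (ha : a ∉ verts τ) (hb : b ∉ verts τ)
    (F : Mt V → ℝ) : Dl τ (act (Equiv.swap a b) F) = act (Equiv.swap a b) (Dl τ F) := by
  apply Dl_act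
  intro v hv
  apply Equiv.swap_apply_of_ne_of_ne
  · rintro rfl; exact ha hv
  · rintro rfl; exact hb hv

/-- The differences preserve the degree. -/
theorem Dl_mem {π : Mt V} {k : ℕ} {F : Mt V → ℝ} {τ : List (V × V)} (hF : F ∈ Deg π k)
    (hτ : TOk π τ) : Dl τ F ∈ Deg π k := by
  induction τ with
  | nil => exact hF
  | cons p τ ih =>
    have h1 := ih hτ.tail
    rw [Dl_cons]
    refine Submodule.sub_mem _ (act_mem ?_) h1
    rw [conj_swap_of_free hτ.head_free.1 hτ.head_free.2]
    exact h1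

/-! ### The difference vanishes above the degree -/

theorem Dl_zz_of_free {π μ : Mt V} {τ : List (V × V)} (hτ : TOk π τ) {p : V × V} (hp : p ∈ τ)
    (h1 : μ p.1 = p.1) (h2 : μ p.2 = p.2) : Dl τ (zz μ) = 0 := by
  induction τ with
  | nil => exact absurd hp List.not_mem_nil
  | cons q τ ih =>
    rw [Dl_cons]
    rcases List.mem_cons.1 hp with rfl | hp
    · obtain ⟨h3, h4, -⟩ := hτ.head_not_mem
      rw [← Dl_act_swap h3 h4, act_zz, Equiv.swap_inv, conj_swap_of_free h1 h2, sub_self]
    · rw [ih hτ.tail hp, act_zero, sub_zero]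

/-- A list of disjoint transpositions each of which meets a set has at most as many elements as
the set. -/
theorem length_le_card_of_meet {π : Mt V} {τ : List (V × V)} (hτ : TOk π τ) (S : Finset V)
    (h : ∀ p ∈ τ, p.1 ∈ S ∨ p.2 ∈ S) : τ.length ≤ S.card := by
  induction τ generalizing S with
  | nil => exact Nat.zero_le _
  | cons q τ ih =>
    obtain ⟨h3, h4, -⟩ := hτ.head_not_mem
    have key : ∀ w ∈ S, w ∉ verts τ → (q :: τ).length ≤ S.card := by
      intro w hw hwv
      have h5 := ih hτ.tail (S.erase w) (fun p hp => by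
        rcases h p (List.mem_cons_of_mem _ hp) with h6 | h6
        · refine Or.inl (Finset.mem_erase.2 ⟨?_, h6⟩)
          rintro rfl
          exact hwv (mem_verts.2 ⟨p, hp, Or.inl rfl⟩)
        · refine Or.inr (Finset.mem_erase.2 ⟨?_, h6⟩)
          rintro rfl
          exact hwv (mem_verts.2 ⟨p, hp, Or.inr rfl⟩))
      rw [Finset.card_erase_of_mem hw] at h5
      have h7 : 0 < S.card := Finset.card_pos.2 ⟨w, hw⟩
      rw [List.length_cons]
      omega
    rcases h q List.mem_cons_self with h6 | h6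
    · exact key _ h6 h3
    · exact key _ h6 h4

theorem Dl_vanish {π : Mt V} {k : ℕ} {F : Mt V → ℝ} {τ : List (V × V)} (hF : F ∈ Deg π k)
    (hτ : TOk π τ) (hk : k < τ.length) : Dl τ F = 0 := by
  unfold Deg at hF
  induction hF using Submodule.span_induction with
  | mem F hF =>
    obtain ⟨μ, hμ, rfl⟩ := hF
    have h1 : ∃ p ∈ τ, μ p.1 = p.1 ∧ μ p.2 = p.2 := by
      by_contra hc
      push Not at hc
      have h2 := length_le_card_of_meet hτ ((free π).filter fun v => μ v ≠ v) (fun p hp => by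
        have f1 : π p.1 = p.1 := hτ.2 _ (mem_verts.2 ⟨p, hp, Or.inl rfl⟩)
        have f2 : π p.2 = p.2 := hτ.2 _ (mem_verts.2 ⟨p, hp, Or.inr rfl⟩)
        by_cases h3 : μ p.1 = p.1
        · exact Or.inr (Finset.mem_filter.2 ⟨mem_free.2 f2, hc p hp h3⟩)
        · exact Or.inl (Finset.mem_filter.2 ⟨mem_free.2 f1, h3⟩))
      unfold cost at hμ
      omega
    obtain ⟨p, hp, h2, h3⟩ := h1
    exact Dl_zz_of_free hτ hp h2 h3
  | zero => exact Dl_zero τ
  | add x y _ _ hx hy => rw [Dl_add, hx, hy, add_zero]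
  | smul c x _ hx => rw [Dl_smul, hx, smul_zero]

/-! ### Conditioning on an edge -/

theorem edge_self_apply {i j : V} : edge i j i = j := by rw [edge_apply, if_pos rfl]

/-- The degree of a product with the indicator function of an edge. -/
theorem zz_mul_mem {ρ ν : Mt V} {D : ℕ} (h : Compat ρ ν) {G : Mt V → ℝ}
    (hG : G ∈ Deg (ρ.join ν h) D) : zz ν * G ∈ Deg ρ (D + cost ρ ν) := by
  unfold Deg at hG
  induction hG using Submodule.span_induction with
  | mem F hF =>
    obtain ⟨μ, hμ, rfl⟩ := hF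
    by_cases hc : Compat ν μ
    · rw [zz_mul_of_compat hc]
      apply zz_mem
      unfold cost at hμ ⊢
      have h1 : (free ρ).filter (fun v => (ν.join μ hc) v ≠ v) ⊆
          (free (ρ.join ν h)).filter (fun v => μ v ≠ v) ∪
            (free ρ).filter (fun v => ν v ≠ v) := by
        intro v hv
        rw [Finset.mem_filter, mem_free] at hv
        rw [Finset.mem_union, Finset.mem_filter, Finset.mem_filter, mem_free, mem_free]
        by_cases hm : ν v = v
        · left
          have h2 := hv.2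
          rw [Mt.join_apply, if_pos hm] at h2
          refine ⟨?_, h2⟩
          rw [Mt.join_apply, if_pos hv.1, hm]
        · exact Or.inr ⟨hv.1, hm⟩
      exact ((Finset.card_le_card h1).trans (Finset.card_union_le _ _)).trans (by omega)
    · rw [zz_mul_of_not_compat hc]
      exact Submodule.zero_mem _
  | zero => rw [mul_zero]; exact Submodule.zero_mem _
  | add x y _ _ hx hy => rw [mul_add]; exact Submodule.add_mem _ hx hy
  | smul c x _ hx => rw [mul_smul_comm]; exact Submodule.smul_mem _ _ hx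

/-- Conditioning on a compatible matching of positive weight gives a pseudo-functional at the
union. -/
theorem PF.cond_zz {ρ ν : Mt V} {D D' : ℕ} {L : (Mt V → ℝ) →ₗ[ℝ] ℝ} (hL : PF ρ D L)
    (h : Compat ρ ν) (hpos : 0 < L (zz ν)) (hD : D' + cost ρ ν ≤ D) :
    PF (ρ.join ν h) D' (condL L (zz ν)) where
  one := by
    have h1 : 0 < L (zz ν * zz ν) := by rw [zz_sq]; exact hpos
    rw [condL_apply, mul_one, div_self h1.ne']
  pos G hG := by
    have h1 : 0 < L (zz ν * zz ν) := by rw [zz_sq]; exact hpos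
    rw [condL_apply]
    refine div_nonneg ?_ h1.le
    have e : zz ν * zz ν * (G * G) = (zz ν * G) * (zz ν * G) := by ring
    rw [e]
    exact hL.pos _ (Deg.mono hD (zz_mul_mem h hG))
  perf i G hG := by
    have e : zz ν * zz ν * (G * fr i) = (zz ν * G) * fr i := by rw [zz_sq]; ring
    rw [condL_apply, e, hL.perf i _ (Deg.mono hD (zz_mul_mem h hG)), zero_div]
  base G hG := by
    have e : zz ν * zz ν * (G * zz (ρ.join ν h)) = (zz ν * G) * zz ρ := by
      rw [← zz_mul_of_compat h]
      have : zz ν * zz ν * (G * (zz ρ * zz ν)) = (zz ν * zz ν) * zz ν * G * zz ρ := by ring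
      rw [this, zz_sq, zz_sq]
    rw [condL_apply, condL_apply, e, hL.base _ (Deg.mono hD (zz_mul_mem h hG)), zz_sq]

/-- The weights of the edges at a vertex. -/
theorem PF.sum_edge {ρ : Mt V} {D : ℕ} {L : (Mt V → ℝ) →ₗ[ℝ] ℝ} (hL : PF ρ D L) (i : V)
    {G : Mt V → ℝ} (hG : G ∈ Deg ρ D) :
    L G = ∑ j ∈ Finset.univ.erase i, L (zz (edge i j) * G) := by
  have h1 : L G = L (G * (fr i + ∑ j ∈ Finset.univ.erase i, zz (edge i j))) := by
    rw [← one_eq_sum, mul_one]
  rw [h1, mul_add, map_add, hL.perf i G hG, zero_add, Finset.mul_sum, map_sum]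
  exact Finset.sum_congr rfl fun j _ => by rw [mul_comm]

/-- One step: a vertex can be covered so that the value of `G` stays large. -/
theorem PF.cover_one {ρ : Mt V} {D k : ℕ} {θ : ℝ} {L : (Mt V → ℝ) →ₗ[ℝ] ℝ}
    (hL : PF ρ (D + 2 + k) L) {G : Mt V → ℝ} (hG : G ∈ Deg ρ k) (hbig : θ < |L G|) (i : V)
    (hi : ρ i = i) :
    ∃ ρ' : Mt V, ρ ≤ ρ' ∧ ρ' i ≠ i ∧ cost ρ ρ' ≤ 2 ∧
      ∃ L', PF ρ' (D + k) L' ∧ θ < |L' G| := by
  have hw : ∀ j, 0 ≤ L (zz (edge i j)) := by
    intro j
    rw [← zz_sq]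
    exact hL.pos _ (zz_mem ((cost_edge_le ρ i j).trans (by omega)))
  have hz : ∀ j, L (zz (edge i j)) = 0 → L (zz (edge i j) * G) = 0 := by
    intro j hj
    have h1 := hL.cauchy (F := zz (edge i j)) (G := zz (edge i j) * G)
      (zz_mem ((cost_edge_le ρ i j).trans (by omega)))
      (Deg.mono (by omega) (Deg.mul (zz_mem (cost_edge_le ρ i j)) hG))
    rw [← mul_assoc, zz_sq, hj, zero_mul] at h1
    exact pow_eq_zero_iff (two_ne_zero) |>.1 (le_antisymm h1 (sq_nonneg _))
  have hone : ∑ j ∈ Finset.univ.erase i, L (zz (edge i j)) = 1 := by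
    have h1 := hL.sum_edge i (one_mem (π := ρ) (D := D + 2 + k))
    rw [hL.one] at h1
    rw [h1]
    exact Finset.sum_congr rfl fun j _ => by rw [mul_one]
  have hex : ∃ j ∈ Finset.univ.erase i, θ * L (zz (edge i j)) < |L (zz (edge i j) * G)| := by
    by_contra hc
    push Not at hc
    have h1 : |L G| ≤ θ := by
      rw [hL.sum_edge i (Deg.mono (by omega) hG)]
      refine (Finset.abs_sum_le_sum_abs _ _).trans ((Finset.sum_le_sum hc).trans ?_)
      rw [← Finset.mul_sum, hone, mul_one]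
    linarith
  obtain ⟨j, hj, hjb⟩ := hex
  rw [Finset.mem_erase] at hj
  have hpos : 0 < L (zz (edge i j)) := by
    rcases (hw j).lt_or_eq with h1 | h1
    · exact h1
    · rw [hz j h1.symm, ← h1, mul_zero, abs_zero] at hjb
      exact absurd hjb (lt_irrefl _)
  have hcomp : Compat ρ (edge i j) := by
    by_contra hc
    have h1 := hL.base (zz (edge i j)) (zz_mem ((cost_edge_le ρ i j).trans (by omega)))
    rw [mul_comm, zz_mul_of_not_compat hc, map_zero] at h1
    rw [← h1] at hpos
    exact absurd hpos (lt_irrefl _)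
  refine ⟨ρ.join (edge i j) hcomp, Mt.le_join_left _ _ _, ?_, ?_, condL L (zz (edge i j)),
    hL.cond_zz hcomp hpos (by have := cost_edge_le ρ i j; omega), ?_⟩
  · rw [Mt.join_apply, if_pos hi, edge_self_apply]
    exact hj.1
  · refine (cost_join_le ρ hcomp).trans ?_
    have h1 : cost ρ ρ = 0 := by
      unfold cost
      rw [Finset.card_eq_zero, Finset.filter_eq_empty_iff]
      intro v hv h
      exact h (mem_free.1 hv)
    rw [h1, zero_add]
    exact cost_edge_le ρ i j
  · rw [condL_apply, zz_sq, abs_div, abs_of_pos hpos, lt_div_iff₀ hpos]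
    exact hjb

theorem cost_trans {π ρ μ : Mt V} (h1 : π ≤ ρ) (h2 : ρ ≤ μ) : cost π μ = cost π ρ + cost ρ μ := by
  have e1 := cost_add_free h1
  have e2 := cost_add_free h2
  have e3 := cost_add_free (h1.trans h2)
  omega

/-- The vertices of a list can be covered so that the value of `G` stays large. -/
theorem PF.cover {k : ℕ} {θ : ℝ} {G : Mt V → ℝ} (D : ℕ) (l : List V) :
    ∀ (ρ : Mt V) (L : (Mt V → ℝ) →ₗ[ℝ] ℝ), PF ρ (D + 2 * l.length + k) L → G ∈ Deg ρ k →
      θ < |L G| →
      ∃ ρ' : Mt V, ρ ≤ ρ' ∧ (∀ v ∈ l, ρ' v ≠ v) ∧ cost ρ ρ' ≤ 2 * l.length ∧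
        ∃ L', PF ρ' (D + k) L' ∧ θ < |L' G| := by
  induction l with
  | nil =>
    intro ρ L hL hG hbig
    refine ⟨ρ, le_refl _, fun v hv => absurd hv List.not_mem_nil, ?_, L, hL, hbig⟩
    unfold cost
    refine le_of_eq_of_le ?_ (Nat.zero_le _)
    rw [Finset.card_eq_zero, Finset.filter_eq_empty_iff]
    intro v hv h
    exact h (mem_free.1 hv)
  | cons i l ih =>
    intro ρ L hL hG hbig
    rw [List.length_cons] at hL ⊢
    by_cases hi : ρ i = i
    · obtain ⟨ρ₁, h1, h2, h3, L₁, hL₁, hb₁⟩ :=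
        PF.cover_one (D := D + 2 * l.length) (hL.mono (by omega)) hG hbig i hi
      obtain ⟨ρ₂, h4, h5, h6, L₂, hL₂, hb₂⟩ := ih ρ₁ L₁ hL₁ (Deg.anti h1 hG) hb₁
      refine ⟨ρ₂, h1.trans h4, ?_, ?_, L₂, hL₂, hb₂⟩
      · intro v hv
        rcases List.mem_cons.1 hv with rfl | hv
        · exact fun hc => h2 (Mt.free_of_le h4 hc)
        · exact h5 v hv
      · rw [cost_trans h1 h4]
        omega
    · obtain ⟨ρ₂, h4, h5, h6, L₂, hL₂, hb₂⟩ := ih ρ L (hL.mono (by omega)) hG hbig
      refine ⟨ρ₂, h4, ?_, by omega, L₂, hL₂, hb₂⟩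
      intro v hv
      rcases List.mem_cons.1 hv with rfl | hv
      · exact fun hc => hi (Mt.free_of_le h4 hc)
      · exact h5 v hv

/-- A significant difference gives a block. -/
theorem exists_block' {π : Mt V} {D k m : ℕ} {θ : ℝ} {F : Mt V → ℝ} {τ : List (V × V)}
    (hF : F ∈ Deg π k) (hτ : TOk π τ) (hlen : τ.length = m) {L : (Mt V → ℝ) →ₗ[ℝ] ℝ}
    (hL : PF π (D + 4 * m + k) L) (hbig : θ < |L (Dl τ F)|) :
    ∃ ρ, IsBlock π D m θ F τ ρ := by
  have hv : (verts τ).length = 2 * m := by rw [length_verts, hlen]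
  obtain ⟨ρ, h1, h2, h3, L', hL', hb⟩ := PF.cover (k := k) (θ := θ) D (verts τ) π L
    (hL.mono (by omega)) (Dl_mem hF hτ) hbig
  exact ⟨ρ, hlen, hτ, h1, h2, by omega, L', hL'.mono (by omega), hb⟩

theorem exists_block {π : Mt V} {D k m : ℕ} {θ : ℝ} {F : Mt V → ℝ} {τ : List (V × V)}
    (hF : F ∈ Deg π k) (hτ : TOk π τ) (hlen : τ.length = m)
    (hroom : 4 * m + 2 ≤ (free π).card) {L : (Mt V → ℝ) →ₗ[ℝ] ℝ}
    (hL : PF π (D + 8 * m + k) L) (hbig : θ < |L (Dl τ F)|) :
    ∃ ρ, IsBlock π D m θ F τ ρ :=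
  exists_block' hF hτ hlen (hL.mono (by omega)) hbig

/-- A function without a block is not significant. -/
theorem NS_of_no_block {π : Mt V} {D k m : ℕ} {θ : ℝ} {F : Mt V → ℝ} (hF : F ∈ Deg π k)
    (h : ∀ τ ρ, ¬ IsBlock π D m θ F τ ρ) : NS π (D + 4 * m + k) m θ F := by
  intro τ hlen hτ L hL
  by_contra hc
  push Not at hc
  obtain ⟨ρ, hρ⟩ := exists_block' hF hτ hlen hL hc
  exact h τ ρ hρ

end AcFrege
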