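import Pool.Agent.Work.MP_c07f0d_lc.DG.PwBasic
import Pool.Agent.Work.MP_c07f0d_lc.DG.PwDl
import Pool.Agent.Work.MP_c07f0d_lc.DG.PwConst
import Pool.Agent.Work.MP_c07f0d_lc.AC.BlockSens

/-!
# Few disjoint significant structures

The block lemma: a function of low degree over the matchings which is nearly idempotent for all
pseudo-functionals has few vertex-disjoint significant structures.
-/

set_option linter.unusedSectionVars false

namespace AcFrege

open LineSize

variable {V : Type} [Fintype V] [DecidableEq V]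

/-! ### Signed permutations -/

theorem bk_sum_neg {α M : Type} [AddCommGroup M] (l : List α) (f : α → M) :
    (l.map fun a => -f a).sum = -(l.map f).sum := by
  induction l with
  | nil => simp
  | cons a l ih => rw [List.map_cons, List.sum_cons, ih, List.map_cons, List.sum_cons, neg_add]

theorem bk_Dl_eq_sum (τ : List (V × V)) (F : Mt V → ℝ) :
    Dl τ F = ((sperms τ).map fun q => q.1 • act q.2 F).sum := by
  induction τ with
  | nil => simp [Dl, sperms, act_one]
  | cons p τ ih =>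
    have h1 : act (Equiv.swap p.1 p.2) (Dl τ F) =
        ((sperms τ).map fun q => q.1 • act (q.2 * Equiv.swap p.1 p.2) F).sum := by
      rw [ih, ← actL_apply, map_list_sum, List.map_map]
      congr 1
    have h2 : -Dl τ F = ((sperms τ).map fun q => (-q.1) • act q.2 F).sum := by
      rw [ih, ← bk_sum_neg]
      congr 1
      refine List.map_congr_left fun q _ => ?_
      rw [neg_smul]
    rw [Dl, sub_eq_add_neg, h1, h2, sperms, List.map_append, List.sum_append, List.map_map,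
      List.map_map]
    rfl

theorem bk_sum_sign {τ : List (V × V)} (hτ : τ ≠ []) : ((sperms τ).map fun q => q.1).sum = 0 := by
  cases τ with
  | nil => exact absurd rfl hτ
  | cons p τ =>
    rw [sperms, List.map_append, List.sum_append, List.map_map, List.map_map]
    have h : ((sperms τ).map ((fun q : ℝ × Equiv.Perm V => q.1) ∘
        fun q : ℝ × Equiv.Perm V => (-q.1, q.2))).sum =
        -((sperms τ).map fun q => q.1).sum := by
      rw [← bk_sum_neg]
      rfl
    rw [h]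
    have h' : ((fun q : ℝ × Equiv.Perm V => q.1) ∘
        fun q : ℝ × Equiv.Perm V => (q.1, q.2 * Equiv.swap p.1 p.2)) = fun q => q.1 := rfl
    rw [h']
    ring

theorem bk_length (τ : List (V × V)) : (sperms τ).length = 2 ^ τ.length := by
  induction τ with
  | nil => rfl
  | cons p τ ih =>
    rw [sperms, List.length_append, List.length_map, List.length_map, ih, List.length_cons,
      pow_succ]
    ring

theorem bk_verts_cons (p : V × V) (τ : List (V × V)) :
    verts (p :: τ) = p.1 :: p.2 :: verts τ := by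
  simp [verts]

theorem bk_sperms (τ : List (V × V)) : ∀ q ∈ sperms τ, |q.1| = 1 ∧
    ∀ v, v ∉ verts τ → q.2 v = v := by
  induction τ with
  | nil =>
    intro q hq
    rw [sperms, List.mem_singleton] at hq
    subst hq
    simp
  | cons p τ ih =>
    intro q hq
    rw [sperms, List.mem_append, List.mem_map, List.mem_map] at hq
    rcases hq with ⟨q', hq', rfl⟩ | ⟨q', hq', rfl⟩
    · refine ⟨(ih q' hq').1, fun v hv => ?_⟩
      rw [bk_verts_cons, List.mem_cons, List.mem_cons, not_or, not_or] at hv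
      rw [Equiv.Perm.mul_apply, Equiv.swap_apply_of_ne_of_ne hv.1 hv.2.1]
      exact (ih q' hq').2 v hv.2.2
    · refine ⟨by rw [abs_neg]; exact (ih q' hq').1, fun v hv => ?_⟩
      rw [bk_verts_cons, List.mem_cons, List.mem_cons, not_or, not_or] at hv
      exact (ih q' hq').2 v hv.2.2

theorem bk_Dl_eq_sum' {τ : List (V × V)} (hτ : τ ≠ []) (F : Mt V → ℝ) :
    Dl τ F = ((sperms τ).map fun q => q.1 • (act q.2 F - F)).sum := by
  have h : ∀ l : List (ℝ × Equiv.Perm V), (l.map fun q => q.1 • (act q.2 F - F)).sum =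
      (l.map fun q => q.1 • act q.2 F).sum - (l.map fun q => q.1).sum • F := by
    intro l
    induction l with
    | nil => simp
    | cons q l ih =>
      rw [List.map_cons, List.map_cons, List.map_cons, List.sum_cons, List.sum_cons,
        List.sum_cons, ih, smul_sub, add_smul]
      abel
  rw [h, bk_sum_sign hτ, zero_smul, sub_zero, bk_Dl_eq_sum]

/-- If all the values at the differences are at most `M`, the value at the iterated difference
is at most `2 ^ m * M`. -/
theorem bk_abs_Dl_le {τ : List (V × V)} (hτ : τ ≠ []) (F : Mt V → ℝ)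
    (Λ : (Mt V → ℝ) →ₗ[ℝ] ℝ) {M : ℝ} (h : ∀ q ∈ sperms τ, |Λ (act q.2 F - F)| ≤ M) :
    |Λ (Dl τ F)| ≤ 2 ^ τ.length * M := by
  rw [bk_Dl_eq_sum' hτ, map_list_sum, List.map_map]
  have h1 : ∀ l : List (ℝ × Equiv.Perm V), (∀ q ∈ l, |q.1| = 1 ∧ |Λ (act q.2 F - F)| ≤ M) →
      |(l.map (Λ ∘ fun q => q.1 • (act q.2 F - F))).sum| ≤ (l.length : ℝ) * M := by
    intro l hl
    induction l with
    | nil => simp
    | cons q l ih =>
      rw [List.map_cons, List.sum_cons, Function.comp_apply, map_smul, smul_eq_mul,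
        List.length_cons]
      have h2 := ih fun q' hq' => hl q' (List.mem_cons_of_mem _ hq')
      have h3 := hl q List.mem_cons_self
      refine (abs_add_le _ _).trans ?_
      rw [abs_mul, h3.1, one_mul]
      push_cast
      linarith [h3.2]
  have h2 := h1 (sperms τ) fun q hq => ⟨(bk_sperms τ q hq).1, h q hq⟩
  rw [bk_length] at h2
  push_cast at h2
  exact h2

/-! ### Permutations fixing the covered vertices -/

theorem bk_conj_eq {π : Mt V} {σ : Equiv.Perm V} (h : ∀ v, π v ≠ v → σ v = v) :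
    Mt.conj σ π = π := by
  ext v
  rw [Mt.conj_apply]
  by_cases hv : π v = v
  · have hw : π (σ.symm v) = σ.symm v := by
      by_contra hc
      have h1 := h _ hc
      rw [Equiv.apply_symm_apply] at h1
      exact hc (by rw [← h1]; exact hv)
    rw [hw, hv, Equiv.apply_symm_apply]
  · have h1 : σ.symm v = v := by
      rw [Equiv.symm_apply_eq]
      exact (h v hv).symm
    rw [h1]
    exact h _ (π.ne_partner hv)

theorem bk_Sm_act {π : Mt V} {D : ℕ} {e : ℝ} {R : Mt V → ℝ} (hR : Sm π D e R)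
    {σ : Equiv.Perm V} (h : ∀ v, π v ≠ v → σ v = v) : Sm π D e (act σ R) := by
  intro L hL
  have h1 := hL.conj σ
  rw [bk_conj_eq h] at h1
  exact hR _ h1

theorem bk_act_mem {π : Mt V} {D : ℕ} {F : Mt V → ℝ} (hF : F ∈ Deg π D)
    {σ : Equiv.Perm V} (h : ∀ v, π v ≠ v → σ v = v) : act σ F ∈ Deg π D := by
  apply act_mem
  rw [bk_conj_eq h]
  exact hF

/-! ### The calculus of near idempotents -/

section Calculus

variable {π : Mt V} {D D' g k : ℕ} {η : ℝ} {L : (Mt V → ℝ) →ₗ[ℝ] ℝ} {G a b : Mt V → ℝ}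

/-- `a` is near idempotent relative to all squares. -/
theorem bk_sm (hL : PF π D L) (hG : G ∈ Deg π g) (ha : a ∈ Deg π k)
    (hp : Sm π D' η (a * a - a)) (hD : D' + 2 * (g + 2 * k) ≤ D) (hD2 : g + 4 * k ≤ D)
    {H : Mt V → ℝ} (hH : H ∈ Deg π (2 * k)) :
    |L (G * G * (H * H) * (a * a - a))| ≤ η * L (G * G * (H * H)) := by
  have h1 : a * a - a ∈ Deg π (2 * k) :=
    Submodule.sub_mem _ (Deg.mono (by omega) (Deg.mul ha ha)) (Deg.mono (by omega) ha)
  have h2 := Sm.sq hp h1 hL (Deg.mul hG hH) (by omega) (by omega)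
  have e : G * H * (G * H) = G * G * (H * H) := by ring
  rw [e] at h2
  exact h2

theorem bk_sm1 (hL : PF π D L) (hG : G ∈ Deg π g) (ha : a ∈ Deg π k)
    (hp : Sm π D' η (a * a - a)) (hD : D' + 2 * (g + 2 * k) ≤ D) (hD2 : g + 4 * k ≤ D) :
    |L (G * G * (a * a - a))| ≤ η * L (G * G) := by
  have h := bk_sm hL hG ha hp hD hD2 (H := 1) one_mem
  rw [mul_one, mul_one] at h
  exact h

theorem bk_sm2 (hL : PF π D L) (hG : G ∈ Deg π g) (ha : a ∈ Deg π k)
    (hp : Sm π D' η (a * a - a)) (hD : D' + 2 * (g + 2 * k) ≤ D) (hD2 : g + 4 * k ≤ D)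
    {H : Mt V → ℝ} (hH : H ∈ Deg π (2 * k)) :
    2 * |L (G * G * H * (a * a - a))| ≤ η * (L (G * G * (H * H)) + L (G * G)) := by
  have h1 := bk_sm hL hG ha hp hD hD2 (H := H + 1) (Submodule.add_mem _ hH one_mem)
  have h2 := bk_sm hL hG ha hp hD hD2 (H := H - 1) (Submodule.sub_mem _ hH one_mem)
  have e1 : G * G * ((H + 1) * (H + 1)) * (a * a - a) =
      G * G * ((H - 1) * (H - 1)) * (a * a - a) + (G * G * H * (a * a - a) +
      G * G * H * (a * a - a) + G * G * H * (a * a - a) + G * G * H * (a * a - a)) := by ring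
  have e2 : G * G * ((H + 1) * (H + 1)) = G * G * (H * H) + G * G * H + G * G * H + G * G := by
    ring
  have e3 : G * G * ((H - 1) * (H - 1)) = G * G * (H * H) - G * G * H - G * G * H + G * G := by
    ring
  have e2' := congrArg L e2
  have e3' := congrArg L e3
  rw [e1] at h1
  simp only [map_add, map_sub] at e2' e3'
  rw [map_add, map_add, map_add, map_add, e2'] at h1
  rw [e3'] at h2
  rw [abs_le] at h1 h2
  have h3 : |L (G * G * H * (a * a - a))| ≤ η * (L (G * G * (H * H)) + L (G * G)) / 2 := by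
    rw [abs_le]
    constructor <;> linarith
  linarith

/-- The square of a near idempotent is at most one relative to squares. -/
theorem bk_up (hL : PF π D L) (hG : G ∈ Deg π g) (ha : a ∈ Deg π k)
    (hp : Sm π D' η (a * a - a)) (hD : D' + 2 * (g + 2 * k) ≤ D) (hD2 : g + 4 * k ≤ D) :
    L (G * G * (a * a)) ≤ (1 + 2 * η) * L (G * G) ∧
      L (G * G * ((1 - a) * (1 - a))) ≤ (1 + 2 * η) * L (G * G) := by
  have h1 := bk_sm1 hL hG ha hp hD hD2
  have h2 := hL.pos (G * (1 - a))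
    (Deg.mono (by omega) (Deg.mul hG (Submodule.sub_mem _ (one_mem (D := k)) ha)))
  have h3 := hL.pos (G * a) (Deg.mono (by omega) (Deg.mul hG ha))
  have e1 : G * (1 - a) * (G * (1 - a)) = G * G - G * G * (a * a) +
      (G * G * (a * a - a) + G * G * (a * a - a)) := by ring
  have e2 : G * a * (G * a) = G * G * (a * a) := by ring
  have e3 : G * G * ((1 - a) * (1 - a)) = G * G - G * G * (a * a) +
      (G * G * (a * a - a) + G * G * (a * a - a)) := by ring
  rw [e1] at h2
  rw [e2] at h3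
  rw [e3]
  simp only [map_add, map_sub] at h1 h2 ⊢
  rw [abs_le] at h1
  constructor <;> linarith

/-- One half of (I1). -/
theorem bk_I1' (hL : PF π D L) (hG : G ∈ Deg π g) (ha : a ∈ Deg π k) (hb : b ∈ Deg π k)
    (hp : Sm π D' η (a * a - a)) (hq : Sm π D' η (b * b - b)) (hη0 : 0 ≤ η) (hη1 : η ≤ 1 / 8)
    (hD : D' + 2 * (g + 2 * k) ≤ D) (hD2 : g + 4 * k ≤ D) :
    L (G * G * (a - b)) ≤ L (G * G * ((a - b) * (a - b))) + 8 * η * L (G * G) := by
  have h0 : 0 ≤ L (G * G) := hL.pos G (Deg.mono (by omega) hG)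
  have h1 := bk_sm1 hL hG ha hp hD hD2
  have h2 := bk_sm1 hL hG hb hq hD hD2
  have h3 := (bk_up hL hG ha hp hD hD2).2
  have h4 := (bk_up hL hG hb hq hD hD2).1
  have h5 := bk_sm hL hG hb hq hD hD2 (H := 1 - a)
    (Submodule.sub_mem _ one_mem (Deg.mono (by omega) ha))
  have h6 := bk_sm2 hL hG ha hp hD hD2 (H := b) (Deg.mono (by omega) hb)
  have h7 := hL.pos (G * (b * (1 - a)))
    (Deg.mono (by omega) (Deg.mul hG (Deg.mul hb (Submodule.sub_mem _ (one_mem (D := k)) ha))))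
  have e1 : G * G * ((a - b) * (a - b)) = G * G * (a - b) + G * G * (a * a - a) +
      G * G * (b * b - b) + (G * (b * (1 - a)) * (G * (b * (1 - a))) -
      G * G * ((1 - a) * (1 - a)) * (b * b - b) - G * G * b * (a * a - a)) +
      (G * (b * (1 - a)) * (G * (b * (1 - a))) -
      G * G * ((1 - a) * (1 - a)) * (b * b - b) - G * G * b * (a * a - a)) := by ring
  have e2 := congrArg L e1
  rw [map_add, map_add, map_sub, map_sub, map_add, map_add] at e2
  rw [abs_le] at h1 h2 h5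
  have h8 : η * L (G * G * ((1 - a) * (1 - a))) ≤ η * ((1 + 2 * η) * L (G * G)) :=
    mul_le_mul_of_nonneg_left h3 hη0
  have h9 : η * L (G * G * (b * b)) ≤ η * ((1 + 2 * η) * L (G * G)) :=
    mul_le_mul_of_nonneg_left h4 hη0
  have h10 := (abs_le.1 (show |L (G * G * b * (a * a - a))| ≤
    η * (L (G * G * (b * b)) + L (G * G)) / 2 by linarith))
  have h11 : 0 ≤ η * L (G * G) := mul_nonneg hη0 h0
  have h12 : η * (η * L (G * G)) ≤ 1 / 8 * (η * L (G * G)) :=
    mul_le_mul_of_nonneg_right hη1 h11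
  nlinarith

/-- The difference of two near idempotents is bounded by its square. -/
theorem bk_I1 (hL : PF π D L) (hG : G ∈ Deg π g) (ha : a ∈ Deg π k) (hb : b ∈ Deg π k)
    (hp : Sm π D' η (a * a - a)) (hq : Sm π D' η (b * b - b)) (hη0 : 0 ≤ η) (hη1 : η ≤ 1 / 8)
    (hD : D' + 2 * (g + 2 * k) ≤ D) (hD2 : g + 4 * k ≤ D) :
    |L (G * G * (a - b))| ≤ L (G * G * ((a - b) * (a - b))) + 8 * η * L (G * G) := by
  have h1 := bk_I1' hL hG ha hb hp hq hη0 hη1 hD hD2
  have h2 := bk_I1' hL hG hb ha hq hp hη0 hη1 hD hD2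
  have e1 : G * G * (b - a) = -(G * G * (a - b)) := by ring
  have e2 : G * G * ((b - a) * (b - a)) = G * G * ((a - b) * (a - b)) := by ring
  rw [e1, e2, map_neg] at h2
  rw [abs_le]
  constructor <;> linarith

theorem bk_pp (hL : PF π D L) (hG : G ∈ Deg π g) (ha : a ∈ Deg π k)
    (hp : Sm π D' η (a * a - a)) (hη0 : 0 ≤ η) (hη1 : η ≤ 1 / 8)
    (hD : D' + 2 * (g + 2 * k) ≤ D) (hD2 : g + 4 * k ≤ D) :
    L (G * G * ((a * a - a) * (a * a - a))) ≤ η * L (G * G) := by
  have h0 : 0 ≤ L (G * G) := hL.pos G (Deg.mono (by omega) hG)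
  have hm : a * a - a ∈ Deg π (2 * k) :=
    Submodule.sub_mem _ (Deg.mono (by omega) (Deg.mul ha ha)) (Deg.mono (by omega) ha)
  have h1 := bk_sm2 hL hG ha hp hD hD2 (H := a * a - a) hm
  have h2 := hL.pos (G * (a * a - a)) (Deg.mono (by omega) (Deg.mul hG hm))
  have e1 : G * (a * a - a) * (G * (a * a - a)) = G * G * ((a * a - a) * (a * a - a)) := by ring
  have e2 : G * G * (a * a - a) * (a * a - a) = G * G * ((a * a - a) * (a * a - a)) := by ring
  rw [e1] at h2
  rw [e2, abs_of_nonneg h2] at h1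
  have h3 : η * L (G * G * ((a * a - a) * (a * a - a))) ≤
      1 / 8 * L (G * G * ((a * a - a) * (a * a - a))) := mul_le_mul_of_nonneg_right hη1 h2
  have h4 : 0 ≤ η * L (G * G) := mul_nonneg hη0 h0
  linarith

/-- (I2) -/
theorem bk_I2 (hL : PF π D L) (hG : G ∈ Deg π g) (ha : a ∈ Deg π k) (hb : b ∈ Deg π k)
    (hp : Sm π D' η (a * a - a)) (hq : Sm π D' η (b * b - b)) (hη0 : 0 ≤ η) (hη1 : η ≤ 1 / 8)
    (hD : D' + 2 * (g + 2 * k) ≤ D) (hD2 : g + 4 * k ≤ D) :
    L (G * G * ((a - b) * (a - b)) * ((1 - a - b) * (1 - a - b))) ≤ 4 * η * L (G * G) := by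
  have h1 := bk_pp hL hG ha hp hη0 hη1 hD hD2
  have h2 := bk_pp hL hG hb hq hη0 hη1 hD hD2
  have hm : a * a - a ∈ Deg π (2 * k) :=
    Submodule.sub_mem _ (Deg.mono (by omega) (Deg.mul ha ha)) (Deg.mono (by omega) ha)
  have hm' : b * b - b ∈ Deg π (2 * k) :=
    Submodule.sub_mem _ (Deg.mono (by omega) (Deg.mul hb hb)) (Deg.mono (by omega) hb)
  have h3 := hL.pos (G * ((a * a - a) + (b * b - b)))
    (Deg.mono (by omega) (Deg.mul hG (Submodule.add_mem _ hm hm')))
  have e1 : G * G * ((a - b) * (a - b)) * ((1 - a - b) * (1 - a - b)) =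
      G * G * ((a * a - a) * (a * a - a)) + G * G * ((a * a - a) * (a * a - a)) +
      G * G * ((b * b - b) * (b * b - b)) + G * G * ((b * b - b) * (b * b - b)) -
      G * ((a * a - a) + (b * b - b)) * (G * ((a * a - a) + (b * b - b))) := by ring
  rw [e1, map_sub, map_add, map_add, map_add]
  linarith

end Calculus

/-! ### Products of permutations with disjoint supports -/

section Prods

variable {t : ℕ}

/-- The factor of the index `i`. -/
def bkS (σ : Fin t → Equiv.Perm V) (Y : Fin t → Bool) (i : Fin t) : Equiv.Perm V :=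
  if Y i then σ i else 1

/-- The product of the permutations chosen by `Y`. -/
def bkP (σ : Fin t → Equiv.Perm V) (Y : Fin t → Bool) : Equiv.Perm V :=
  ((List.finRange t).map (bkS σ Y)).prod

variable {σ : Fin t → Equiv.Perm V} {W : Fin t → List V}

theorem bkS_fix (hf : ∀ i v, v ∉ W i → σ i v = v) (Y : Fin t → Bool) (i : Fin t) (v : V)
    (hv : v ∉ W i) : bkS σ Y i v = v := by
  unfold bkS
  by_cases h : Y i = true
  · rw [if_pos h]; exact hf i v hv
  · rw [if_neg h]; rfl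

theorem bk_inv1 (s : Equiv.Perm V) (v : V) : s⁻¹ (s v) = v := s.symm_apply_apply v

theorem bk_inv2 (s : Equiv.Perm V) (v : V) : s (s⁻¹ v) = v := s.apply_symm_apply v

theorem bk_perm_mem {s : Equiv.Perm V} {w : List V} (hs : ∀ v, v ∉ w → s v = v) {v : V}
    (hv : v ∈ w) : s v ∈ w := by
  by_contra hc
  have h1 := hs _ hc
  rw [s.injective h1] at hc
  exact hc hv

theorem bk_perm_mem_inv {s : Equiv.Perm V} {w : List V} (hs : ∀ v, v ∉ w → s v = v) {v : V}
    (hv : v ∈ w) : s⁻¹ v ∈ w := by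
  by_contra hc
  have h1 := hs _ hc
  rw [bk_inv2] at h1
  rw [← h1] at hc
  exact hc hv

theorem bk_list_fix (hf : ∀ i v, v ∉ W i → σ i v = v) (Y : Fin t → Bool) (v : V) :
    ∀ l : List (Fin t), (∀ i ∈ l, v ∉ W i) → (l.map (bkS σ Y)).prod v = v := by
  intro l hl
  induction l with
  | nil => rfl
  | cons i l ih =>
    rw [List.map_cons, List.prod_cons, Equiv.Perm.mul_apply,
      ih fun j hj => hl j (List.mem_cons_of_mem _ hj)]
    exact bkS_fix hf Y i v (hl i List.mem_cons_self)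

theorem bk_list_apply (hf : ∀ i v, v ∉ W i → σ i v = v)
    (hd : ∀ i j, i ≠ j → ∀ v ∈ W i, v ∉ W j) (Y : Fin t → Bool) (v : V) (i : Fin t)
    (hv : v ∈ W i) : ∀ l : List (Fin t), l.Nodup → i ∈ l →
    (l.map (bkS σ Y)).prod v = bkS σ Y i v := by
  intro l hn hl
  induction l with
  | nil => exact absurd hl List.not_mem_nil
  | cons j l ih =>
    rw [List.map_cons, List.prod_cons, Equiv.Perm.mul_apply]
    rw [List.nodup_cons] at hn
    by_cases hij : i = j
    · subst hij
      rw [bk_list_fix hf Y v l]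
      intro j hj
      exact hd i j (fun h => hn.1 (h ▸ hj)) v hv
    · rw [List.mem_cons] at hl
      rw [ih hn.2 (hl.resolve_left hij)]
      apply bkS_fix hf
      exact hd i j hij _ (bk_perm_mem (fun u hu => bkS_fix hf Y i u hu) hv)

theorem bkP_fix (hf : ∀ i v, v ∉ W i → σ i v = v) (Y : Fin t → Bool) (v : V)
    (h : ∀ i, v ∉ W i) : bkP σ Y v = v := bk_list_fix hf Y v _ fun i _ => h i

theorem bkP_apply (hf : ∀ i v, v ∉ W i → σ i v = v)
    (hd : ∀ i j, i ≠ j → ∀ v ∈ W i, v ∉ W j) (Y : Fin t → Bool) (v : V) (i : Fin t)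
    (hv : v ∈ W i) : bkP σ Y v = bkS σ Y i v :=
  bk_list_apply hf hd Y v i hv _ (List.nodup_finRange t) (List.mem_finRange i)

theorem bkP_inv_fix (hf : ∀ i v, v ∉ W i → σ i v = v) (Y : Fin t → Bool) (v : V)
    (h : ∀ i, v ∉ W i) : (bkP σ Y)⁻¹ v = v := by
  rw [Equiv.Perm.inv_eq_iff_eq]
  exact (bkP_fix hf Y v h).symm

theorem bkP_inv_apply (hf : ∀ i v, v ∉ W i → σ i v = v)
    (hd : ∀ i j, i ≠ j → ∀ v ∈ W i, v ∉ W j) (Y : Fin t → Bool) (v : V) (i : Fin t)
    (hv : v ∈ W i) : (bkP σ Y)⁻¹ v = (bkS σ Y i)⁻¹ v := by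
  rw [Equiv.Perm.inv_eq_iff_eq]
  rw [bkP_apply hf hd Y _ i (bk_perm_mem_inv (fun u hu => bkS_fix hf Y i u hu) hv),
    bk_inv2]

theorem bkP_false (σ : Fin t → Equiv.Perm V) : bkP σ (fun _ => false) = 1 := by
  unfold bkP
  have h : bkS σ (fun _ => false) = fun _ => (1 : Equiv.Perm V) := by
    funext i
    simp [bkS]
  rw [h, List.map_const', List.prod_replicate, one_pow]

theorem bkP_single (hf : ∀ i v, v ∉ W i → σ i v = v)
    (hd : ∀ i j, i ≠ j → ∀ v ∈ W i, v ∉ W j) (i : Fin t) :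
    bkP σ (fun j => decide (j = i)) = σ i := by
  ext v
  by_cases h : ∃ j, v ∈ W j
  · obtain ⟨j, hj⟩ := h
    rw [bkP_apply hf hd _ v j hj]
    unfold bkS
    by_cases hij : j = i
    · subst hij
      simp
    · rw [if_neg (by simp [hij])]
      rw [hf i v (hd j i hij v hj)]
      rfl
  · push Not at h
    rw [bkP_fix hf _ v h, hf i v (h i)]

/-- The action on a monomial depends only on the indices whose supports meet the monomial. -/
theorem bk_act_congr (hf : ∀ i v, v ∉ W i → σ i v = v)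
    (hd : ∀ i j, i ≠ j → ∀ v ∈ W i, v ∉ W j) (μ : Mt V) {Y Y' : Fin t → Bool}
    (h : ∀ i, (∃ v ∈ W i, μ v ≠ v) → Y i = Y' i) :
    act (bkP σ Y) (zz μ) = act (bkP σ Y') (zz μ) := by
  have h1 : ∀ w, μ w ≠ w → (bkP σ Y)⁻¹ w = (bkP σ Y')⁻¹ w := by
    intro w hw
    by_cases hc : ∃ j, w ∈ W j
    · obtain ⟨j, hj⟩ := hc
      rw [bkP_inv_apply hf hd _ w j hj, bkP_inv_apply hf hd _ w j hj]
      unfold bkS
      rw [h j ⟨w, hj, hw⟩]
    · push Not at hc
      rw [bkP_inv_fix hf _ w hc, bkP_inv_fix hf _ w hc]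
  rw [act_zz, act_zz]
  congr 1
  have key : ∀ Z Z' : Equiv.Perm V, (∀ w, μ w ≠ w → Z⁻¹ w = Z'⁻¹ w) → ∀ v, μ (Z v) ≠ Z v →
      Mt.conj Z⁻¹ μ v = Mt.conj Z'⁻¹ μ v := by
    intro Z Z' hZ v hv
    have h2 := hZ _ hv
    rw [bk_inv1] at h2
    have h3 : Z' v = Z v := by
      have h6 := congrArg Z' h2
      rw [bk_inv2] at h6
      exact h6
    have h4 : Mt.conj Z⁻¹ μ v = Z⁻¹ (μ (Z v)) := rfl
    have h5 : Mt.conj Z'⁻¹ μ v = Z'⁻¹ (μ (Z' v)) := rfl
    rw [h4, h5, h3, hZ _ (μ.ne_partner hv)]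
  ext v
  by_cases hv : μ (bkP σ Y v) = bkP σ Y v
  · by_cases hv' : μ (bkP σ Y' v) = bkP σ Y' v
    · have h4 : Mt.conj (bkP σ Y)⁻¹ μ v = (bkP σ Y)⁻¹ (μ (bkP σ Y v)) := rfl
      have h5 : Mt.conj (bkP σ Y')⁻¹ μ v = (bkP σ Y')⁻¹ (μ (bkP σ Y' v)) := rfl
      rw [h4, h5, hv, hv', bk_inv1, bk_inv1]
    · exact (key _ _ (fun w hw => (h1 w hw).symm) v hv').symm
  · exact key _ _ h1 v hv

/-- A function of the cube which depends only on the coordinates in `S`. -/
theorem bk_lowDeg_of_dep {ι : Type} [Fintype ι] [DecidableEq ι] {f : (ι → Bool) → ℝ}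
    {S : Finset ι} (h : ∀ x y, (∀ i ∈ S, x i = y i) → f x = f y) : LowDeg S.card f := by
  intro T hT
  obtain ⟨j, hjT, hjS⟩ := Finset.exists_mem_notMem_of_card_lt_card hT
  have h1 := fc_translate f (fun i => decide (i = j)) T
  have h2 : (fun y : ι → Bool => f fun i => xor (y i) (decide (i = j))) = f := by
    funext y
    apply h
    intro i hi
    have : i ≠ j := fun hc => hjS (hc ▸ hi)
    simp [this]
  rw [h2] at h1
  have h3 : chi T (fun i => decide (i = j)) = -1 := by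
    unfold chi
    rw [Finset.prod_eq_single_of_mem j hjT]
    · simp [sg]
    · intro i _ hij
      simp [sg, hij]
  rw [h3] at h1
  linarith

/-- The values of a linear functional at the translates of a function of low degree. -/
theorem bk_lowDeg {π : Mt V} {k : ℕ} {F : Mt V → ℝ} (hF : F ∈ Deg π k)
    (hf : ∀ i v, v ∉ W i → σ i v = v) (hd : ∀ i j, i ≠ j → ∀ v ∈ W i, v ∉ W j)
    (hW : ∀ i, ∀ v ∈ W i, π v = v) (Λ : (Mt V → ℝ) →ₗ[ℝ] ℝ) :
    LowDeg k (fun Y => Λ (act (bkP σ Y) F)) := by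
  classical
  unfold Deg at hF
  induction hF using Submodule.span_induction with
  | mem F hF =>
    obtain ⟨μ, hμ, rfl⟩ := hF
    have h1 : LowDeg (Finset.univ.filter fun i => ∃ v ∈ W i, μ v ≠ v).card
        (fun Y => Λ (act (bkP σ Y) (zz μ))) := by
      apply bk_lowDeg_of_dep
      intro x y hxy
      rw [bk_act_congr hf hd μ fun i hi => hxy i (by rw [Finset.mem_filter]; exact ⟨Finset.mem_univ _, hi⟩)]
    refine h1.mono (le_trans ?_ hμ)
    unfold cost
    refine Finset.card_le_card_of_forall_subsingleton (fun i v => v ∈ W i) ?_ ?_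
    · intro i hi
      rw [Finset.mem_filter] at hi
      obtain ⟨v, hv, hμv⟩ := hi.2
      exact ⟨v, by rw [Finset.mem_filter, mem_free]; exact ⟨hW i v hv, hμv⟩, hv⟩
    · intro v _ i hi j hj
      by_contra hne
      exact hd i j hne v hi.2 hj.2
  | zero =>
    have : (fun Y => Λ (act (bkP σ Y) 0)) = fun _ => (0 : ℝ) := by
      funext Y
      have h0 : act (bkP σ Y) (0 : Mt V → ℝ) = 0 := rfl
      rw [h0, map_zero]
    rw [this]
    exact LowDeg.const k 0
  | add x y _ _ hx hy =>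
    have : (fun Y => Λ (act (bkP σ Y) (x + y))) =
        fun Y => Λ (act (bkP σ Y) x) + Λ (act (bkP σ Y) y) := by
      funext Y
      rw [act_add, map_add]
    rw [this]
    exact hx.add hy
  | smul c x _ hx =>
    have : (fun Y => Λ (act (bkP σ Y) (c • x))) = fun Y => c * Λ (act (bkP σ Y) x) := by
      funext Y
      rw [act_smul, map_smul, smul_eq_mul]
    rw [this]
    exact hx.const_mul c

end Prods

/-! ### The main argument -/

section Core

variable {π : Mt V} {F : Mt V → ℝ} {k m t D D' : ℕ} {η θ : ℝ} {L : (Mt V → ℝ) →ₗ[ℝ] ℝ}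

/-- The difference of `F` and its translate. -/
def bkU (F : Mt V → ℝ) (s : Equiv.Perm V) : Mt V → ℝ := act s F - F

theorem bk_prod_mem {κ : Type} [DecidableEq κ] (u : κ → Mt V → ℝ) (A : Finset κ)
    (h : ∀ i ∈ A, u i ∈ Deg π k) : ∏ i ∈ A, u i ∈ Deg π (k * A.card) := by
  induction A using Finset.induction_on with
  | empty =>
    rw [Finset.prod_empty]
    exact one_mem
  | insert i A hi ih =>
    rw [Finset.prod_insert hi, Finset.card_insert_of_notMem hi]
    have h1 := Deg.mul (h i (Finset.mem_insert_self _ _))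
      (ih fun j hj => h j (Finset.mem_insert_of_mem hj))
    exact Deg.mono (by rw [Nat.mul_add]; omega) h1

/-- The permutations of the expansion. -/
def bkOk (τ : List (V × V)) (s : Equiv.Perm V) : Prop := ∃ q ∈ sperms τ, q.2 = s

theorem bkOk_fix {τ : List (V × V)} {s : Equiv.Perm V} (h : bkOk τ s) (v : V)
    (hv : v ∉ verts τ) : s v = v := by
  obtain ⟨q, hq, rfl⟩ := h
  exact (bk_sperms τ q hq).2 v hv

theorem bkOk_fix' {τ : List (V × V)} {s : Equiv.Perm V} (h : bkOk τ s)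
    (hτ : ∀ v ∈ verts τ, π v = v) (v : V) (hv : π v ≠ v) : s v = v :=
  bkOk_fix h v fun hc => hv (hτ v hc)

theorem bk_step (hF : F ∈ Deg π k) (hη : Sm π D' η (F * F - F)) (hL : PF π D L)
    {τ : List (V × V)} (hm : 1 ≤ m) (hlen : τ.length = m) (hτ : ∀ v ∈ verts τ, π v = v)
    (hη0 : 0 ≤ η) (hη1 : η ≤ 1 / 8) (hθη : 128 * 2 ^ m * η ≤ θ)
    (hD : D' + 2 * k * t + 8 * k ≤ D) {G : Mt V → ℝ} (hG : G ∈ Deg π (k * t))
    (hbig : 0 < L (G * G) → θ / 2 * L (G * G) ≤ |L (G * G * Dl τ F)|) {M : ℝ} (hM0 : 0 ≤ M)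
    (hM : ∀ s, bkOk τ s → L (G * G * (bkU F s * bkU F s)) ≤ M) :
    θ / 4 * L (G * G) ≤ 2 ^ m * M := by
  have hDa : D' + 2 * (k * t + 2 * k) ≤ D := by
    have : 2 * (k * t + 2 * k) = 2 * k * t + 4 * k := by ring
    omega
  have hDb : k * t + 4 * k ≤ D := by
    have : 2 * k * t = k * t + k * t := by ring
    omega
  have h2 : (0 : ℝ) < 2 ^ m := by positivity
  have h0 : 0 ≤ L (G * G) := hL.pos G (Deg.mono (by omega) hG)
  rcases h0.lt_or_eq with hpos | hzero
  · have h1 := bk_abs_Dl_le (τ := τ) (fun h => by rw [h] at hlen; simp at hlen; omega) F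
      (L.comp (LinearMap.mulLeft ℝ (G * G))) (M := M + 8 * η * L (G * G)) (by
        intro q hq
        rw [LinearMap.comp_apply, LinearMap.mulLeft_apply]
        have hok : bkOk τ q.2 := ⟨q, hq, rfl⟩
        have hfix := bkOk_fix' (π := π) hok hτ
        have h3 := bk_I1 hL hG (bk_act_mem hF hfix) hF (bk_Sm_act hη hfix) hη hη0 hη1 hDa hDb
        exact h3.trans (add_le_add_left (hM q.2 hok) _))
    rw [LinearMap.comp_apply, LinearMap.mulLeft_apply, hlen] at h1
    have h3 := hbig hpos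
    have h4 : 128 * 2 ^ m * η * L (G * G) ≤ θ * L (G * G) :=
      mul_le_mul_of_nonneg_right hθη h0
    nlinarith
  · rw [← hzero, mul_zero]
    positivity

/-- The block lemma, with the lower bounds as a hypothesis. -/
theorem block_core (hF : F ∈ Deg π k) (hη : Sm π D' η (F * F - F)) (hL : PF π D L)
    (hm : 1 ≤ m) (τ : Fin t → List (V × V)) (hlen : ∀ i, (τ i).length = m)
    (hfree : ∀ i, ∀ v ∈ verts (τ i), π v = v)
    (hd : ∀ i j, i ≠ j → ∀ v ∈ verts (τ i), v ∉ verts (τ j))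
    (hbig : ∀ i, ∀ G ∈ Deg π (k * t), 0 < L (G * G) →
      θ / 2 * L (G * G) ≤ |L (G * G * Dl (τ i) F)|)
    (hθ0 : 0 < θ) (hθ1 : θ ≤ 1) (hθη : 128 * 2 ^ m * η ≤ θ)
    (hD : D' + 2 * k * t + 8 * k ≤ D) : t ≤ 2 * k ^ 2 := by
  classical
  have hDa : D' + 2 * (k * t + 2 * k) ≤ D := by
    have : 2 * (k * t + 2 * k) = 2 * k * t + 4 * k := by ring
    omega
  have hDb : k * t + 4 * k ≤ D := by
    have : 2 * k * t = k * t + k * t := by ring
    omega
  have h2m : (1 : ℝ) ≤ 2 ^ m := one_le_pow₀ (by norm_num)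
  have hη0 : 0 ≤ η := (abs_nonneg _).trans (hη L (hL.mono (by omega)))
  have hη1 : η ≤ 1 / 128 := by
    have : 128 * η ≤ 128 * 2 ^ m * η := by nlinarith
    linarith
  have hη2 : η ≤ 1 / 8 := by linarith
  have hstep : ∀ i, ∀ G ∈ Deg π (k * t), ∀ M : ℝ, 0 ≤ M →
      (∀ s, bkOk (τ i) s → L (G * G * (bkU F s * bkU F s)) ≤ M) →
      θ / 4 * L (G * G) ≤ 2 ^ m * M := fun i G hG M hM0 hM =>
    bk_step hF hη hL hm (hlen i) (hfree i) hη0 hη2 hθη hD hG (hbig i G hG) hM0 hM
  have hU : ∀ i s, bkOk (τ i) s → bkU F s ∈ Deg π k := fun i s hs =>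
    Submodule.sub_mem _ (bk_act_mem hF (bkOk_fix' hs (hfree i))) hF
  have hUA : ∀ (c : Fin t → Equiv.Perm V) (A : Finset (Fin t)), (∀ i, bkOk (τ i) (c i)) →
      ∏ i ∈ A, bkU F (c i) ∈ Deg π (k * t) := by
    intro c A hc
    refine Deg.mono ?_ (bk_prod_mem (fun i => bkU F (c i)) A fun i _ => hU i _ (hc i))
    apply Nat.mul_le_mul_left
    exact (Finset.card_le_univ A).trans (by simp)
  have hne : ∀ i, ∃ s, bkOk (τ i) s := by
    intro i
    have h1 : sperms (τ i) ≠ [] := by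
      intro h
      have h2 := bk_length (τ i)
      rw [h] at h2
      have h3 : 0 < 2 ^ (τ i).length := by positivity
      simp only [List.length_nil] at h2
      omega
    obtain ⟨q, hq⟩ := List.exists_mem_of_ne_nil _ h1
    exact ⟨q.2, q, hq, rfl⟩
  -- a choice with a positive value
  have hex : ∀ A : Finset (Fin t), ∃ c : Fin t → Equiv.Perm V, (∀ i, bkOk (τ i) (c i)) ∧
      0 < L ((∏ i ∈ A, bkU F (c i)) * ∏ i ∈ A, bkU F (c i)) := by
    intro A
    induction A using Finset.induction_on with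
    | empty =>
      choose c hc using hne
      exact ⟨c, hc, by rw [Finset.prod_empty, mul_one, hL.one]; norm_num⟩
    | insert i A hi ih =>
      obtain ⟨c, hc, hpos⟩ := ih
      by_contra hcon
      push Not at hcon
      have h1 := hstep i _ (hUA c A hc) 0 le_rfl (by
        intro s hs
        have h2 := hcon (Function.update c i s) (by
          intro j
          by_cases hj : j = i
          · subst hj; rw [Function.update_self]; exact hs
          · rw [Function.update_of_ne hj]; exact hc j)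
        rw [Finset.prod_insert hi, Function.update_self] at h2
        have h3 : ∏ j ∈ A, bkU F (Function.update c i s j) = ∏ j ∈ A, bkU F (c j) := by
          refine Finset.prod_congr rfl fun j hj => ?_
          rw [Function.update_of_ne (show j ≠ i from fun h => hi (h ▸ hj))]
        rw [h3] at h2
        have e : bkU F s * (∏ j ∈ A, bkU F (c j)) * (bkU F s * ∏ j ∈ A, bkU F (c j)) =
            (∏ j ∈ A, bkU F (c j)) * (∏ j ∈ A, bkU F (c j)) * (bkU F s * bkU F s) := by ring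
        rw [e] at h2
        exact h2)
      rw [mul_zero] at h1
      have h2 : 0 < θ / 4 * L ((∏ i ∈ A, bkU F (c i)) * ∏ i ∈ A, bkU F (c i)) := by positivity
      linarith
  -- the best choice
  obtain ⟨c₀, hc₀, hpos₀⟩ := hex Finset.univ
  obtain ⟨c, hcC, hmax⟩ := Finset.exists_max_image
    (Finset.univ.filter fun c : Fin t → Equiv.Perm V => ∀ i, bkOk (τ i) (c i))
    (fun c => L ((∏ i, bkU F (c i)) * ∏ i, bkU F (c i))) ⟨c₀, by simp [hc₀]⟩
  simp only [Finset.mem_filter, Finset.mem_univ, true_and] at hcC hmax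
  have hpos : 0 < L ((∏ i, bkU F (c i)) * ∏ i, bkU F (c i)) := hpos₀.trans_le (hmax c₀ hc₀)
  have hPdeg := hUA c Finset.univ hcC
  -- the values of the functions without one factor
  have hG : ∀ i, 32 * η * L ((∏ j ∈ Finset.univ.erase i, bkU F (c j)) *
      ∏ j ∈ Finset.univ.erase i, bkU F (c j)) ≤ L ((∏ i, bkU F (c i)) * ∏ i, bkU F (c i)) := by
    intro i
    have hGd := hUA c (Finset.univ.erase i) hcC
    have h1 := hstep i _ hGd (L ((∏ i, bkU F (c i)) * ∏ i, bkU F (c i))) hpos.le (by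
      intro s hs
      have h2 := hmax (Function.update c i s) (by
        intro j
        by_cases hj : j = i
        · subst hj; rw [Function.update_self]; exact hs
        · rw [Function.update_of_ne hj]; exact hcC j)
      rw [← Finset.mul_prod_erase Finset.univ _ (Finset.mem_univ i),
        Function.update_self] at h2
      have h3 : ∏ j ∈ Finset.univ.erase i, bkU F (Function.update c i s j) =
          ∏ j ∈ Finset.univ.erase i, bkU F (c j) := by
        refine Finset.prod_congr rfl fun j hj => ?_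
        rw [Function.update_of_ne (Finset.ne_of_mem_erase hj)]
      rw [h3] at h2
      have e : bkU F s * (∏ j ∈ Finset.univ.erase i, bkU F (c j)) *
          (bkU F s * ∏ j ∈ Finset.univ.erase i, bkU F (c j)) =
          (∏ j ∈ Finset.univ.erase i, bkU F (c j)) *
          (∏ j ∈ Finset.univ.erase i, bkU F (c j)) * (bkU F s * bkU F s) := by ring
      rw [e] at h2
      exact h2)
    have h0 := hL.pos _ (Deg.mono (by omega) hGd)
    have h4 := mul_le_mul_of_nonneg_right hθη h0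
    have h5 : (2 : ℝ) ^ m * (32 * η * L ((∏ j ∈ Finset.univ.erase i, bkU F (c j)) *
      ∏ j ∈ Finset.univ.erase i, bkU F (c j))) ≤
      2 ^ m * L ((∏ i, bkU F (c i)) * ∏ i, bkU F (c i)) := by nlinarith
    exact le_of_mul_le_mul_left h5 (by positivity)
  -- the polynomial
  obtain ⟨P, hP⟩ : ∃ P, P = ∏ i, bkU F (c i) := ⟨_, rfl⟩
  obtain ⟨ℓ, hℓ⟩ : ∃ ℓ, ℓ = L (P * P) := ⟨_, rfl⟩
  simp only [← hP] at hpos hPdeg hG
  rw [← hℓ] at hpos
  simp only [← hℓ] at hG
  have hf : ∀ i v, v ∉ verts (τ i) → c i v = v := fun i v hv => bkOk_fix (hcC i) v hv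
  have hπfix : ∀ Y v, π v ≠ v → bkP c Y v = v := fun Y v hv =>
    bkP_fix hf Y v fun i hc => hv (hfree i v hc)
  obtain ⟨g, hgdef⟩ : ∃ g : (Fin t → Bool) → ℝ, ∀ Y, g Y =
      L (P * P * (1 - F - F) * act (bkP c Y) F) + L (P * P * F) := ⟨_, fun _ => rfl⟩
  have hglow : LowDeg k g := by
    have h1 := bk_lowDeg hF hf hd hfree (L.comp (LinearMap.mulLeft ℝ (P * P * (1 - F - F))))
    have h2 := h1.add (LowDeg.const k (L (P * P * F)))
    have h3 : g = fun Y => (L.comp (LinearMap.mulLeft ℝ (P * P * (1 - F - F))))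
        (act (bkP c Y) F) + L (P * P * F) := by
      funext Y
      rw [hgdef]
      rfl
    rw [h3]
    exact h2
  have hq := bk_sm1 hL hPdeg hF hη hDa hDb
  rw [← hℓ] at hq
  rw [abs_le] at hq
  have hlow : ∀ Y, -(2 * η * ℓ) ≤ g Y := by
    intro Y
    have ha := bk_act_mem hF (hπfix Y)
    have h1 := bk_sm1 hL hPdeg ha (bk_Sm_act hη (hπfix Y)) hDa hDb
    have h2 := hL.pos (P * (act (bkP c Y) F - F))
      (Deg.mono (by omega) (Deg.mul hPdeg (Submodule.sub_mem _ ha hF)))
    have e : P * P * (1 - F - F) * act (bkP c Y) F + P * P * F =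
        P * (act (bkP c Y) F - F) * (P * (act (bkP c Y) F - F)) -
        P * P * (act (bkP c Y) F * act (bkP c Y) F - act (bkP c Y) F) -
        P * P * (F * F - F) := by ring
    rw [hgdef, ← map_add, e, map_sub, map_sub]
    rw [← hℓ, abs_le] at h1
    linarith
  have hup' : ∀ Y, g Y ≤ ℓ + 2 * η * ℓ ∧ ℓ - 2 * η * ℓ -
      L (P * (1 - act (bkP c Y) F - F) * (P * (1 - act (bkP c Y) F - F))) ≤ g Y := by
    intro Y
    have ha := bk_act_mem hF (hπfix Y)
    have h1 := bk_sm1 hL hPdeg ha (bk_Sm_act hη (hπfix Y)) hDa hDb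
    have h2 := hL.pos (P * (1 - act (bkP c Y) F - F))
      (Deg.mono (by omega) (Deg.mul hPdeg (Submodule.sub_mem _
        (Submodule.sub_mem _ one_mem ha) hF)))
    have e : P * P * (1 - F - F) * act (bkP c Y) F + P * P * F =
        P * P - P * (1 - act (bkP c Y) F - F) * (P * (1 - act (bkP c Y) F - F)) +
        P * P * (act (bkP c Y) F * act (bkP c Y) F - act (bkP c Y) F) +
        P * P * (F * F - F) := by ring
    rw [hgdef, ← map_add, e, map_add, map_add, map_sub, ← hℓ]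
    rw [← hℓ, abs_le] at h1
    constructor <;> linarith
  have hzero : g (fun _ => false) ≤ 2 * η * ℓ := by
    rw [hgdef, bkP_false, act_one, ← map_add]
    have e : P * P * (1 - F - F) * F + P * P * F =
        -(P * P * (F * F - F)) - P * P * (F * F - F) := by ring
    rw [e, map_sub, map_neg]
    linarith
  have hone : ∀ i, ℓ - 2 * η * ℓ - ℓ / 8 ≤ g (fun j => decide (j = i)) := by
    intro i
    have h1 := (hup' (fun j => decide (j = i))).2
    rw [bkP_single hf hd i] at h1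
    have hfix := bkOk_fix' (π := π) (hcC i) (hfree i)
    have h2 := bk_I2 hL (hUA c (Finset.univ.erase i) hcC) (bk_act_mem hF hfix) hF
      (bk_Sm_act hη hfix) hη hη0 hη2 hDa hDb
    have h3 := hG i
    have e : P * (1 - act (c i) F - F) * (P * (1 - act (c i) F - F)) =
        (∏ j ∈ Finset.univ.erase i, bkU F (c j)) * (∏ j ∈ Finset.univ.erase i, bkU F (c j)) *
        ((act (c i) F - F) * (act (c i) F - F)) *
        ((1 - act (c i) F - F) * (1 - act (c i) F - F)) := by
      rw [hP, ← Finset.mul_prod_erase Finset.univ _ (Finset.mem_univ i)]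
      have h4 : bkU F (c i) = act (c i) F - F := rfl
      rw [h4]
      ring
    rw [e] at h1
    linarith
  -- the bound
  have hr : 0 < 1 / (ℓ * (1 + 4 * η)) := by positivity
  have hflow : LowDeg k (fun Y => 1 / (ℓ * (1 + 4 * η)) * (ℓ - 2 * g Y)) :=
    ((LowDeg.const k ℓ).sub (hglow.const_mul 2)).const_mul _
  have hrr : 1 / (ℓ * (1 + 4 * η)) * (ℓ * (1 + 4 * η)) = 1 := by
    rw [one_div, inv_mul_cancel₀]
    positivity
  have habs : ∀ Y, |1 / (ℓ * (1 + 4 * η)) * (ℓ - 2 * g Y)| ≤ 1 := by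
    intro Y
    rw [abs_mul, abs_of_pos hr]
    have h1 : |ℓ - 2 * g Y| ≤ ℓ * (1 + 4 * η) := by
      have h2 := hlow Y
      have h3 := (hup' Y).1
      rw [abs_le]
      constructor <;> linarith
    calc 1 / (ℓ * (1 + 4 * η)) * |ℓ - 2 * g Y|
        ≤ 1 / (ℓ * (1 + 4 * η)) * (ℓ * (1 + 4 * η)) := mul_le_mul_of_nonneg_left h1 hr.le
      _ = 1 := hrr
  have hfin := sum_diff_le hflow habs (fun _ => false) (fun j : Fin t => ({j} : Finset (Fin t)))
    (fun i j hij => by simpa using hij)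
  have hflip : ∀ j : Fin t, flipSet (fun _ => false) ({j} : Finset (Fin t)) =
      fun i => decide (i = j) := by
    intro j
    funext i
    simp [flipSet]
  have hge : ∀ j : Fin t, (1 : ℝ) ≤ 1 / (ℓ * (1 + 4 * η)) * (ℓ - 2 * g (fun _ => false)) -
      1 / (ℓ * (1 + 4 * η)) * (ℓ - 2 * g (flipSet (fun _ => false) {j})) := by
    intro j
    rw [hflip]
    have h1 := hone j
    have h2 : ℓ * (1 + 4 * η) ≤ 2 * (g (fun i => decide (i = j)) - g (fun _ => false)) := by
      have h3 : η * ℓ ≤ 1 / 128 * ℓ := mul_le_mul_of_nonneg_right hη1 hpos.le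
      linarith
    have h3 := mul_le_mul_of_nonneg_left h2 hr.le
    rw [hrr] at h3
    linarith
  have hsum : (t : ℝ) ≤ ∑ j : Fin t, (1 / (ℓ * (1 + 4 * η)) * (ℓ - 2 * g (fun _ => false)) -
      1 / (ℓ * (1 + 4 * η)) * (ℓ - 2 * g (flipSet (fun _ => false) {j}))) := by
    calc (t : ℝ) = ∑ _j : Fin t, (1 : ℝ) := by simp
      _ ≤ _ := Finset.sum_le_sum fun j _ => hge j
  have h4 : (t : ℝ) ≤ 2 * (k : ℝ) ^ 2 := hsum.trans hfin
  exact_mod_cast h4

end Core

/-- At a state above the state of a block the difference is large for all pseudo-functionals. -/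
theorem IsBlock.large {π ρ : Mt V} {k m D' : ℕ} {θ θ' : ℝ} {F : Mt V → ℝ}
    {τ : List (V × V)} (hF : F ∈ Deg π k) (hkD : k ≤ D') (hNS : NS π D' (m + 1) θ' F)
    (hb : IsBlock π D' m θ F τ ρ) (hθ : 0 < θ) (hθ' : 8 * (Fintype.card V) * θ' ≤ θ)
    {L : (Mt V → ℝ) →ₗ[ℝ] ℝ} (hL : PF ρ D' L) : θ / 2 ≤ |L (Dl τ F)| := by
  obtain ⟨L₀, hL₀, hbig⟩ := hb.big
  have hG : Dl τ F ∈ Deg ρ D' := Deg.mono hkD (Deg.anti hb.le (Dl_mem hF hb.ok))
  have h1 := near_const (e := max θ' 0) (le_max_right _ _) hG (by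
    intro b c hbc hbf hcf
    have hτ' : TOk π ((b, c) :: τ) := by
      refine ⟨?_, ?_⟩
      · rw [verts_cons, List.nodup_cons, List.nodup_cons, List.mem_cons, not_or]
        exact ⟨⟨hbc, fun h => hb.cov b h hbf⟩, fun h => hb.cov c h hcf, hb.ok.1⟩
      · intro v hv
        rw [verts_cons, List.mem_cons, List.mem_cons] at hv
        rcases hv with rfl | rfl | hv
        · exact Mt.free_of_le hb.le hbf
        · exact Mt.free_of_le hb.le hcf
        · exact hb.ok.2 v hv
    have h2 := hNS ((b, c) :: τ) (by rw [List.length_cons, hb.len]) hτ'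
    exact (h2.of_le hb.le).mono le_rfl (le_max_left _ _)) hL₀ hL
  have h2 : 8 * (Fintype.card V) * max θ' 0 ≤ θ := by
    rcases le_total θ' 0 with h | h
    · rw [max_eq_right h, mul_zero]; exact hθ.le
    · rw [max_eq_left h]; exact hθ'
  have h3 : |L₀ (Dl τ F)| ≤ |L₀ (Dl τ F) - L (Dl τ F)| + |L (Dl τ F)| := by
    have := abs_add_le (L₀ (Dl τ F) - L (Dl τ F)) (L (Dl τ F))
    rw [sub_add_cancel] at this
    exact this
  linarith

/-- The block lemma: a nearly idempotent function of degree `k` has at most `2 * k ^ 2` disjoint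
blocks below one state. -/
theorem block_lemma' {π κ : Mt V} {k m t D' D : ℕ} {η θ θ' : ℝ} {F : Mt V → ℝ}
    (hF : F ∈ Deg π k) (hid : Sm π D' η (F * F - F)) (hkD : k ≤ D')
    (hNS : NS π D' (m + 1) θ' F) (hm : 1 ≤ m) (hmk : m ≤ k)
    (τ : Fin t → List (V × V)) (ρ : Fin t → Mt V)
    (hb : ∀ i, IsBlock π D' m θ F (τ i) (ρ i))
    (hdisj : ∀ i j, i ≠ j → ∀ v, π v = v → ρ i v ≠ v → ρ j v = v)
    (hκ : ∀ i, ρ i ≤ κ) {L : (Mt V → ℝ) →ₗ[ℝ] ℝ} (hL : PF κ D L)
    (hD : D' + 2 * k * t + 8 * k ≤ D) (hθ : 0 < θ)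
    (hθ' : 8 * (Fintype.card V) * θ' ≤ θ) (hη : 128 * 2 ^ k * η ≤ θ) (h1 : θ ≤ 1) :
    t ≤ 2 * k ^ 2 := by
  rcases Nat.eq_zero_or_pos t with ht | ht
  · subst ht; omega
  have hπκ : π ≤ κ := (hb ⟨0, ht⟩).le.trans (hκ ⟨0, ht⟩)
  have hLπ : PF π D L := hL.of_le hπκ
  have hη0 : 0 ≤ η := (abs_nonneg _).trans (hid L (hLπ.mono (by omega)))
  have hη' : 128 * 2 ^ m * η ≤ θ := by
    have h2 : (2 : ℝ) ^ m ≤ 2 ^ k := pow_le_pow_right₀ (by norm_num) hmk
    have h3 := mul_le_mul_of_nonneg_right h2 hη0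
    nlinarith
  refine block_core hF hid hLπ hm τ (fun i => (hb i).len) (fun i v hv => (hb i).ok.2 v hv)
    ?_ ?_ hθ h1 hη' hD
  · intro i j hij v hv hv'
    exact (hb j).cov v hv' (hdisj i j hij v ((hb i).ok.2 v hv) ((hb i).cov v hv))
  · intro i G hG hpos
    have h2 : PF (ρ i) D' (condL L G) :=
      (hL.of_le (hκ i)).cond (Deg.anti (hb i).le hG) hpos (by
        have : 2 * (k * t) = 2 * k * t := by ring
        omega)
    have h3 := (hb i).large hF hkD hNS hθ hθ' h2
    rw [condL_apply, abs_div, abs_of_pos hpos, le_div_iff₀ hpos] at h3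
    exact h3

/-- The block lemma in the form used by the rounding theorem. -/
theorem block_lemma {π κ : Mt V} {k m t D' D : ℕ} {η θ θ' : ℝ} {F : Mt V → ℝ}
    (hF : F ∈ Deg π k) (hid : Sm π D' η (F * F - F))
    (hNS : NS π D' (m + 1) θ' F) (hm : 1 ≤ m) (hmk : m ≤ k)
    (τ : Fin t → List (V × V)) (ρ : Fin t → Mt V)
    (hb : ∀ i, IsBlock π D' m θ F (τ i) (ρ i))
    (hdisj : ∀ i j, i ≠ j → ∀ v, π v = v → ρ i v ≠ v → ρ j v = v)
    (hκ : ∀ i, ρ i ≤ κ) {L : (Mt V → ℝ) →ₗ[ℝ] ℝ} (hL : PF κ D L)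
    (hD : D' + 2 * k * t + 8 * k + 8 ≤ D) (hθ : 0 < θ)
    (hθ' : 8 * (Fintype.card V) * θ' ≤ θ) (hη0 : 0 ≤ η) (hη : 1024 * 2 ^ k * η ≤ θ)
    (h1 : θ ≤ 1) (hkD : k ≤ D') : t ≤ 2 * k ^ 2 := by
  have h2 : 0 ≤ 2 ^ k * η := mul_nonneg (by positivity) hη0
  exact block_lemma' hF hid hkD hNS hm hmk τ ρ hb hdisj hκ hL (by omega) hθ hθ'
    (by nlinarith) h1

end AcFrege
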