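import Pool.Agent.Work.MP_c07f0d_lc.AC.BlockSens

/-!
# Block lemma: the final count
-/

set_option linter.unusedSectionVars false

namespace AcFrege

open LineSize

variable {ι : Type} [Fintype ι] [DecidableEq ι]

/-- A function of degree at most `k` with values in `[-1/8, 9/8]`, at most `1/8` at `0` and at
least `7/8` at the unit vectors: there are at most `2 k ^ 2` variables. -/
theorem card_le_of_units {g : (ι → Bool) → ℝ} {k : ℕ} (hg : LowDeg k g)
    (h0 : ∀ x, -(1 / 8) ≤ g x) (h1 : ∀ x, g x ≤ 9 / 8) (hz : g (fun _ => false) ≤ 1 / 8)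
    (hu : ∀ i, 7 / 8 ≤ g (fun j => decide (j = i))) : Fintype.card ι ≤ 2 * k ^ 2 := by
  have hf : LowDeg k (fun x => 4 / 5 * (1 - 2 * g x)) :=
    ((LowDeg.const k 1).sub (hg.const_mul 2)).const_mul (4 / 5)
  have hb : ∀ x, |4 / 5 * (1 - 2 * g x)| ≤ 1 := by
    intro x
    have := h0 x
    have := h1 x
    rw [abs_le]
    constructor <;> linarith
  have h := sum_diff_le hf hb (fun _ => false) (τ := ι) (fun i => {i}) (fun i j hij => by
    simpa using hij)
  have hflip : ∀ i : ι, flipSet (fun _ => false) ({i} : Finset ι) = fun j => decide (j = i) := by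
    intro i
    funext j
    simp [flipSet]
  have h2 : ∀ i ∈ (Finset.univ : Finset ι), (1 : ℝ) ≤
      4 / 5 * (1 - 2 * g (fun _ => false)) - 4 / 5 * (1 - 2 * g (flipSet (fun _ => false) {i})) := by
    intro i _
    rw [hflip i]
    have := hu i
    linarith
  have h3 := Finset.card_nsmul_le_sum _ _ _ h2
  rw [nsmul_eq_mul, mul_one, Finset.card_univ] at h3
  have h4 : (Fintype.card ι : ℝ) ≤ 2 * (k : ℝ) ^ 2 := h3.trans h
  exact_mod_cast h4

end AcFrege
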