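import Pool.Agent.Work.MP_c07f0d_lc.AC.AcProc
import Mathlib.LinearAlgebra.Span.Basic
import Mathlib.Algebra.Module.LinearMap.Basic
import Mathlib.Data.Real.Basic
import Mathlib.Algebra.Algebra.Pi
import Mathlib.Algebra.Order.BigOperators.Group.Finset
import Mathlib.Tactic.Abel

/-!
# Pseudo-functionals on functions of matchings: definitions
-/

namespace AcFrege

variable {V : Type} [Fintype V] [DecidableEq V]

open Classical in
/-- The indicator function of the extensions of `μ`. -/
noncomputable def zz (μ : Mt V) : Mt V → ℝ := fun x => if μ ≤ x then 1 else 0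

/-- The functions of degree at most `D` over `π`. -/
noncomputable def Deg (π : Mt V) (D : ℕ) : Submodule ℝ (Mt V → ℝ) :=
  Submodule.span ℝ {F | ∃ μ, cost π μ ≤ D ∧ F = zz μ}

/-- The indicator function of the matchings in which `i` is free. -/
noncomputable def fr (i : V) : Mt V → ℝ := fun x => if x i = i then 1 else 0

/-- A pseudo-functional of degree `D` at the state `π`. -/
structure PF (π : Mt V) (D : ℕ) (L : (Mt V → ℝ) →ₗ[ℝ] ℝ) : Prop where
  one : L 1 = 1
  pos : ∀ G ∈ Deg π D, 0 ≤ L (G * G)
  perf : ∀ i, ∀ G ∈ Deg π D, L (G * fr i) = 0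
  base : ∀ G ∈ Deg π D, L (G * zz π) = L G

/-- `F` is small for all pseudo-functionals of degree `D` at `π`. -/
def Sm (π : Mt V) (D : ℕ) (e : ℝ) (F : Mt V → ℝ) : Prop :=
  ∀ L : (Mt V → ℝ) →ₗ[ℝ] ℝ, PF π D L → |L F| ≤ e

/-- The action of the permutations of the vertices. -/
def Mt.conj (σ : Equiv.Perm V) (x : Mt V) : Mt V where
  f v := σ (x (σ.symm v))
  inv v := by simp

@[simp] theorem Mt.conj_apply (σ : Equiv.Perm V) (x : Mt V) (v : V) :
    Mt.conj σ x v = σ (x (σ.symm v)) := rfl

/-- The function `F` after the action of `σ`. -/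
def act (σ : Equiv.Perm V) (F : Mt V → ℝ) : Mt V → ℝ := fun x => F (Mt.conj σ x)

theorem act_apply (σ : Equiv.Perm V) (F : Mt V → ℝ) (x : Mt V) :
    act σ F x = F (Mt.conj σ x) := rfl

/-! ### Structures: lists of disjoint transpositions -/

/-- The vertices of a list of pairs. -/
def verts (τ : List (V × V)) : List V := τ.flatMap fun p => [p.1, p.2]

/-- `τ` is a list of disjoint transpositions of free vertices of `π`. -/
def TOk (π : Mt V) (τ : List (V × V)) : Prop := (verts τ).Nodup ∧ ∀ v ∈ verts τ, π v = v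

/-- The iterated difference operator of a list of transpositions. -/
def Dl : List (V × V) → (Mt V → ℝ) → (Mt V → ℝ)
  | [], F => F
  | p :: τ, F => act (Equiv.swap p.1 p.2) (Dl τ F) - Dl τ F

/-- The signed permutations of the expansion of `Dl τ`. -/
def sperms : List (V × V) → List (ℝ × Equiv.Perm V)
  | [] => [(1, 1)]
  | p :: τ => ((sperms τ).map fun q => (q.1, q.2 * Equiv.swap p.1 p.2)) ++
      ((sperms τ).map fun q => (-q.1, q.2))

/-- No list of `m` transpositions is significant at `π`. -/
def NS (π : Mt V) (D m : ℕ) (θ : ℝ) (F : Mt V → ℝ) : Prop :=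
  ∀ τ : List (V × V), τ.length = m → TOk π τ → Sm π D θ (Dl τ F)

/-- A block at `π`: a list of `m` transpositions of free vertices of `π`, and a state `ρ ≥ π`
covering their vertices at which the difference is not small. -/
structure IsBlock (π : Mt V) (D m : ℕ) (θ : ℝ) (F : Mt V → ℝ) (τ : List (V × V)) (ρ : Mt V) :
    Prop where
  len : τ.length = m
  ok : TOk π τ
  le : π ≤ ρ
  cov : ∀ v ∈ verts τ, ρ v ≠ v
  cost : cost π ρ ≤ 4 * m
  big : ∃ L, PF ρ D L ∧ θ < |L (Dl τ F)|

end AcFrege
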