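import Pool.Agent.Work.MP_c07f0d_lc.DG.PwBasic

/-!
# Near idempotents relative to the squares

`Rel ρ g L e R` says that `|L (G² R)| ≤ e L (G²)` for all `G` of degree at most `g`.  It holds for
small functions and their images under the permutations.  Two near idempotents `a`, `b` behave
under `L (G² ·)` as two Boolean functions.
-/

set_option linter.unusedSectionVars false

namespace AcFrege

variable {V : Type} [Fintype V] [DecidableEq V]

/-- `R` is small relative to the squares of degree `g`. -/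
def Rel (ρ : Mt V) (g : ℕ) (L : (Mt V → ℝ) →ₗ[ℝ] ℝ) (e : ℝ) (R : Mt V → ℝ) : Prop :=
  ∀ G ∈ Deg ρ g, |L (G * G * R)| ≤ e * L (G * G)

section

variable {π ρ : Mt V} {D D' g r h k : ℕ} {e e' η : ℝ} {L : (Mt V → ℝ) →ₗ[ℝ] ℝ}
  {R R' a b F : Mt V → ℝ}

theorem Sm.rel (hR : Sm π D' e R) (hRd : R ∈ Deg π r) (hL : PF π D L) (hD : D' + 2 * g ≤ D)
    (hD' : g + r ≤ D) : Rel π g L e R := fun _ hG => hR.sq hRd hL hG hD hD'

/-- The image of a small function under a permutation. -/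
theorem Sm.rel_act (hR : Sm π D' e R) (hRd : R ∈ Deg π r) (hL : PF ρ D L) {σ : Equiv.Perm V}
    (hσ : π ≤ Mt.conj σ ρ) (hD : D' + 2 * g ≤ D) (hD' : g + r ≤ D) :
    Rel ρ g L e (act σ R) := by
  intro G hG
  have h1 : act σ⁻¹ G ∈ Deg (Mt.conj σ ρ) g := by
    apply act_mem
    rw [conj_inv_conj]
    exact hG
  have h2 := (hR.of_le hσ).sq (Deg.anti hσ hRd) (hL.conj σ) h1 hD hD'
  have h3 : act σ (act σ⁻¹ G) = G := by
    rw [← act_comp, inv_mul_cancel, act_one]
  simp only [LinearMap.comp_apply, actL_apply, act_mul', h3] at h2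
  exact h2

theorem Rel.mono (hR : Rel ρ g L e R) {g' : ℕ} (hg : g' ≤ g) : Rel ρ g' L e R :=
  fun G hG => hR G (Deg.mono hg hG)

theorem Rel.le (hR : Rel ρ g L e R) (hL : PF ρ D L) (hg : g ≤ D) (he : e ≤ e') :
    Rel ρ g L e' R :=
  fun G hG => (hR G hG).trans (mul_le_mul_of_nonneg_right he (hL.pos G (Deg.mono hg hG)))

theorem Rel.nonneg (hR : Rel ρ g L e R) (hL : PF ρ D L) : 0 ≤ e := by
  have h1 := hR 1 one_mem
  rw [mul_one, hL.one, mul_one] at h1
  exact (abs_nonneg _).trans h1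

theorem Rel.add (hR : Rel ρ g L e R) (hR' : Rel ρ g L e' R') : Rel ρ g L (e + e') (R + R') := by
  intro G hG
  rw [mul_add, map_add, add_mul]
  exact (abs_add_le _ _).trans (add_le_add (hR G hG) (hR' G hG))

theorem Rel.sub (hR : Rel ρ g L e R) (hR' : Rel ρ g L e' R') : Rel ρ g L (e + e') (R - R') := by
  intro G hG
  rw [mul_sub, map_sub, add_mul]
  exact (abs_sub _ _).trans (add_le_add (hR G hG) (hR' G hG))

theorem Rel.neg (hR : Rel ρ g L e R) : Rel ρ g L e (-R) := by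
  intro G hG
  rw [mul_neg, map_neg, abs_neg]
  exact hR G hG

/-- Multiplication by a square. -/
theorem Rel.mul_sq (hR : Rel ρ (g + h) L e R) {G H : Mt V → ℝ} (hG : G ∈ Deg ρ g)
    (hH : H ∈ Deg ρ h) : |L (G * G * (H * H * R))| ≤ e * L (G * G * (H * H)) := by
  have h1 := hR (G * H) (Deg.mul hG hH)
  have e1 : G * H * (G * H) * R = G * G * (H * H * R) := by ring
  have e2 : G * H * (G * H) = G * G * (H * H) := by ring
  rw [e1, e2] at h1
  exact h1

theorem sq_nonneg' (hL : PF ρ D L) {G H : Mt V → ℝ} (hG : G ∈ Deg ρ g) (hH : H ∈ Deg ρ h)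
    (hD : g + h ≤ D) : 0 ≤ L (G * G * (H * H)) := by
  have h1 := hL.pos (G * H) (Deg.mono hD (Deg.mul hG hH))
  have e2 : G * H * (G * H) = G * G * (H * H) := by ring
  rwa [e2] at h1

/-- Polarisation. -/
theorem Rel.polar (hR : Rel ρ (g + h) L e R) {G H : Mt V → ℝ} (hG : G ∈ Deg ρ g)
    (hH : H ∈ Deg ρ h) :
    |L (G * G * (H * R))| ≤ e / 2 * (L (G * G) + L (G * G * (H * H))) := by
  have h1 := hR.mul_sq hG (Submodule.add_mem _ one_mem hH : 1 + H ∈ Deg ρ h)
  have h2 := hR.mul_sq hG (Submodule.sub_mem _ one_mem hH : 1 - H ∈ Deg ρ h)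
  have e1 : G * G * (H * R) = (4 : ℝ)⁻¹ • (G * G * ((1 + H) * (1 + H) * R)
      - G * G * ((1 - H) * (1 - H) * R)) := by
    funext x
    simp only [Pi.mul_apply, Pi.smul_apply, Pi.sub_apply, Pi.add_apply, Pi.one_apply, smul_eq_mul]
    ring
  have e2 : G * G * ((1 + H) * (1 + H)) = G * G + (2 : ℝ) • (G * G * H) + G * G * (H * H) := by
    funext x
    simp only [Pi.mul_apply, Pi.smul_apply, Pi.add_apply, Pi.one_apply, smul_eq_mul]
    ring
  have e3 : G * G * ((1 - H) * (1 - H)) = G * G - (2 : ℝ) • (G * G * H) + G * G * (H * H) := by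
    funext x
    simp only [Pi.mul_apply, Pi.smul_apply, Pi.sub_apply, Pi.add_apply, Pi.one_apply, smul_eq_mul]
    ring
  rw [e2, map_add, map_add] at h1
  rw [e3, map_add, map_sub] at h2
  rw [e1, map_smul, map_sub, smul_eq_mul, abs_mul, abs_of_pos (by norm_num : (0 : ℝ) < 4⁻¹)]
  have h3 := abs_sub (L (G * G * ((1 + H) * (1 + H) * R))) (L (G * G * ((1 - H) * (1 - H) * R)))
  linarith

theorem Rel.self_sq (hR : Rel ρ (g + r) L e R) (hRd : R ∈ Deg ρ r) (hL : PF ρ D L)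
    (hD : g + r ≤ D) (he : e ≤ 1) {G : Mt V → ℝ} (hG : G ∈ Deg ρ g) :
    L (G * G * (R * R)) ≤ e * L (G * G) := by
  have h0 := hR.nonneg hL
  have h1 := hR.polar hG hRd
  have h2 := sq_nonneg' hL hG hRd hD
  have h3 : 0 ≤ L (G * G) := hL.pos G (Deg.mono (by omega) hG)
  rw [abs_of_nonneg h2] at h1
  nlinarith

/-- A near idempotent, relative to the squares of degree `g`. -/
def Idem (ρ : Mt V) (g : ℕ) (L : (Mt V → ℝ) →ₗ[ℝ] ℝ) (η : ℝ) (a : Mt V → ℝ) : Prop :=
  Rel ρ g L η (a * a - a)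

theorem Sm.idem (hF : Sm π D' η (F * F - F)) (hFd : F ∈ Deg π k) (hL : PF π D L)
    (hD : D' + 2 * g ≤ D) (hD' : g + 2 * k ≤ D) : Idem π g L η F := by
  refine Sm.rel hF (r := 2 * k) ?_ hL hD hD'
  refine Submodule.sub_mem _ ?_ (Deg.mono (by omega) hFd)
  have := Deg.mul hFd hFd
  exact Deg.mono (by omega) this

/-- The images of a near idempotent under the permutations. -/
theorem Sm.idem_act (hF : Sm π D' η (F * F - F)) (hFd : F ∈ Deg π k) (hL : PF ρ D L)
    {σ : Equiv.Perm V} (hσ : π ≤ Mt.conj σ ρ) (hD : D' + 2 * g ≤ D) (hD' : g + 2 * k ≤ D) :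
    Idem ρ g L η (act σ F) := by
  have h1 : F * F - F ∈ Deg π (2 * k) := by
    refine Submodule.sub_mem _ ?_ (Deg.mono (by omega) hFd)
    have := Deg.mul hFd hFd
    exact Deg.mono (by omega) this
  exact hF.rel_act h1 hL hσ hD hD'

theorem Idem.mono (ha : Idem ρ g L η a) {g' : ℕ} (hg : g' ≤ g) : Idem ρ g' L η a :=
  Rel.mono ha hg

theorem Idem.compl (ha : Idem ρ g L η a) : Idem ρ g L η (1 - a) := by
  unfold Idem at ha ⊢
  have e1 : (1 - a) * (1 - a) - (1 - a) = a * a - a := by ring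
  rw [e1]
  exact ha

/-- `L (G² a²) ≤ 2 L (G²)`. -/
theorem Idem.sq_le (ha : Idem ρ g L η a) (had : a ∈ Deg ρ k) (hL : PF ρ D L) (hD : g + k ≤ D)
    (hη : η ≤ 1 / 4) {G : Mt V → ℝ} (hG : G ∈ Deg ρ g) :
    L (G * G * (a * a)) ≤ 2 * L (G * G) := by
  have h1 := ha G hG
  have h2 := sq_nonneg' hL hG (Submodule.sub_mem _ (Deg.mono (Nat.zero_le k) one_mem)
    (Submodule.smul_mem _ (1 : ℝ) had) : 1 - (1 : ℝ) • a ∈ Deg ρ k) hD
  have h3 : 0 ≤ L (G * G) := hL.pos G (Deg.mono (by omega) hG)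
  rw [mul_sub, map_sub] at h1
  have e1 : G * G * ((1 - (1 : ℝ) • a) * (1 - (1 : ℝ) • a)) =
      G * G - (2 : ℝ) • (G * G * a) + G * G * (a * a) := by
    funext x
    simp only [Pi.mul_apply, Pi.smul_apply, Pi.sub_apply, Pi.add_apply, Pi.one_apply, smul_eq_mul]
    ring
  rw [e1, map_add, map_sub, map_smul, smul_eq_mul] at h2
  rw [abs_le] at h1
  nlinarith [h1.1, h1.2]

theorem Idem.sq_nonneg (hL : PF ρ D L) (had : a ∈ Deg ρ k) (hD : g + k ≤ D) {G : Mt V → ℝ}
    (hG : G ∈ Deg ρ g) : 0 ≤ L (G * G * (a * a)) := sq_nonneg' hL hG had hD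

/-- The values of a near idempotent are at least `- η`. -/
theorem Idem.neg_le (ha : Idem ρ g L η a) (had : a ∈ Deg ρ k) (hL : PF ρ D L) (hD : g + k ≤ D)
    {G : Mt V → ℝ} (hG : G ∈ Deg ρ g) : -(η * L (G * G)) ≤ L (G * G * a) := by
  have h1 := ha G hG
  have h2 := sq_nonneg' hL hG had hD
  rw [mul_sub, map_sub, abs_le] at h1
  linarith [h1.2]

/-- The values of a near idempotent are at most `1 + η`. -/
theorem Idem.le_one (ha : Idem ρ g L η a) (had : a ∈ Deg ρ k) (hL : PF ρ D L) (hD : g + k ≤ D)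
    {G : Mt V → ℝ} (hG : G ∈ Deg ρ g) : L (G * G * a) ≤ (1 + η) * L (G * G) := by
  have h1 := ha.compl.neg_le (Submodule.sub_mem _ one_mem had : 1 - a ∈ Deg ρ k) hL hD hG
  rw [mul_sub, map_sub, mul_one] at h1
  linarith

/-! ### Two near idempotents -/

/-- `a + b - 2 a b` is bounded below. -/
theorem Idem.xor_nonneg (ha : Idem ρ g L η a) (hb : Idem ρ g L η b) (had : a ∈ Deg ρ k)
    (hbd : b ∈ Deg ρ k) (hL : PF ρ D L) (hD : g + k ≤ D) {G : Mt V → ℝ} (hG : G ∈ Deg ρ g) :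
    -(2 * η * L (G * G)) ≤ L (G * G * (a + b - 2 * (a * b))) := by
  have h1 := ha G hG
  have h2 := hb G hG
  have h3 := sq_nonneg' hL hG (Submodule.sub_mem _ had hbd) hD
  have e1 : G * G * (a + b - 2 * (a * b)) = G * G * ((a - b) * (a - b)) - G * G * (a * a - a)
      - G * G * (b * b - b) := by ring
  rw [e1, map_sub, map_sub]
  rw [abs_le] at h1 h2
  linarith [h1.2, h2.2]

/-- `1 - (a + b - 2 a b)` is bounded below. -/
theorem Idem.xor_le_one (ha : Idem ρ g L η a) (hb : Idem ρ g L η b) (had : a ∈ Deg ρ k)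
    (hbd : b ∈ Deg ρ k) (hL : PF ρ D L) (hD : g + k ≤ D) {G : Mt V → ℝ} (hG : G ∈ Deg ρ g) :
    L (G * G * (a + b - 2 * (a * b))) ≤ (1 + 2 * η) * L (G * G) := by
  have h1 := ha G hG
  have h2 := hb G hG
  have h3 := sq_nonneg' hL hG (Submodule.sub_mem _ (Submodule.add_mem _ had hbd) one_mem) hD
  have e1 : G * G * (a + b - 2 * (a * b)) = G * G + G * G * (a * a - a)
      + G * G * (b * b - b) - G * G * ((a + b - 1) * (a + b - 1)) := by ring
  rw [e1, map_sub, map_add, map_add]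
  rw [abs_le] at h1 h2
  linarith [h1.2, h2.2]

/-- After multiplication by `(a - b)²` the function `a + b - 2 a b` is nearly `1`. -/
theorem Idem.one_le_xor (ha : Idem ρ (g + 2 * k) L η a) (hb : Idem ρ (g + 2 * k) L η b)
    (had : a ∈ Deg ρ k) (hbd : b ∈ Deg ρ k) (hL : PF ρ D L) (hD : g + 2 * k ≤ D)
    (hη : η ≤ 1 / 2) {G : Mt V → ℝ} (hG : G ∈ Deg ρ g) :
    L (G * G * ((a - b) * (a - b))) - 2 * η * L (G * G * ((a - b) * (a - b)))
      - 2 * η * L (G * G) ≤
      L (G * G * ((a - b) * (a - b)) * (a + b - 2 * (a * b))) := by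
  have hGu : G * (a - b) ∈ Deg ρ (g + k) := Deg.mul hG (Submodule.sub_mem _ had hbd)
  have h1 := ha _ (Deg.mono (by omega) hGu)
  have h2 := hb _ (Deg.mono (by omega) hGu)
  have hRd : (a * a - a) - (b * b - b) ∈ Deg ρ (2 * k) := by
    have h3 := Deg.mono (by omega : k + k ≤ 2 * k) (Deg.mul had had)
    have h4 := Deg.mono (by omega : k + k ≤ 2 * k) (Deg.mul hbd hbd)
    exact Submodule.sub_mem _ (Submodule.sub_mem _ h3 (Deg.mono (by omega) had))
      (Submodule.sub_mem _ h4 (Deg.mono (by omega) hbd))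
  have h3 := (Rel.sub ha hb).self_sq hRd hL hD (by linarith) hG
  have e1 : G * G * ((a - b) * (a - b)) * (a + b - 2 * (a * b)) =
      G * G * ((a - b) * (a - b)) + G * (a - b) * (G * (a - b)) * (a * a - a)
      + G * (a - b) * (G * (a - b)) * (b * b - b)
      - G * G * (((a * a - a) - (b * b - b)) * ((a * a - a) - (b * b - b))) := by ring
  have e2 : G * (a - b) * (G * (a - b)) = G * G * ((a - b) * (a - b)) := by ring
  rw [e2] at h1 h2
  rw [e1, e2, map_sub, map_add, map_add]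
  rw [abs_le] at h1 h2
  linarith [h1.1, h2.1]

/-- The difference is bounded by its square. -/
theorem Idem.abs_sub_le (ha : Idem ρ (g + 2 * k) L η a) (hb : Idem ρ (g + 2 * k) L η b)
    (had : a ∈ Deg ρ k) (hbd : b ∈ Deg ρ k) (hL : PF ρ D L) (hD : g + 2 * k ≤ D)
    (hη : η ≤ 1 / 4) {G : Mt V → ℝ} (hG : G ∈ Deg ρ g) :
    |L (G * G * (a - b))| ≤ L (G * G * ((a - b) * (a - b))) + 9 * η * L (G * G) := by
  have h0 : 0 ≤ L (G * G) := hL.pos G (Deg.mono (by omega) hG)
  have hη0 : 0 ≤ η := Rel.nonneg ha hL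
  -- the one-sided inequality
  have key : ∀ {a b : Mt V → ℝ}, Idem ρ (g + 2 * k) L η a → Idem ρ (g + 2 * k) L η b →
      a ∈ Deg ρ k → b ∈ Deg ρ k →
      -(9 * η * L (G * G)) ≤ L (G * G * ((a - b) * (a - b) - (a - b))) := by
    intro a b ha hb had hbd
    have hcd : 1 - a ∈ Deg ρ k := Submodule.sub_mem _ one_mem had
    have h1 := (ha.mono (by omega : g ≤ g + 2 * k)) G hG
    have h2 := (hb.mono (by omega : g ≤ g + 2 * k)) G hG
    have h3 := Rel.polar (h := k) (Rel.mono ha (by omega)) hG hbd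
    have h4 := (hb.mono (by omega : g ≤ g + 2 * k)).sq_le hbd hL (by omega) hη hG
    have h5 := Rel.mul_sq (h := k) (Rel.mono hb (by omega)) hG hcd
    have h6 := (ha.compl.mono (by omega : g ≤ g + 2 * k)).sq_le hcd hL (by omega) hη hG
    have h7 : 0 ≤ L (G * G * ((b * (1 - a)) * (b * (1 - a)))) :=
      sq_nonneg' hL hG (Deg.mul hbd hcd) (by omega)
    have e1 : G * G * ((a - b) * (a - b) - (a - b)) = G * G * (a * a - a) + G * G * (b * b - b)
        + ((2 : ℝ) • (G * G * ((b * (1 - a)) * (b * (1 - a))))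
        - (2 : ℝ) • (G * G * (b * (a * a - a)))
        - (2 : ℝ) • (G * G * ((1 - a) * (1 - a) * (b * b - b)))) := by
      funext x
      simp only [Pi.mul_apply, Pi.smul_apply, Pi.sub_apply, Pi.add_apply, Pi.one_apply,
        smul_eq_mul]
      ring
    rw [e1, map_add, map_add, map_sub, map_sub, map_smul, map_smul, map_smul, smul_eq_mul,
      smul_eq_mul, smul_eq_mul]
    rw [abs_le] at h1 h2 h3 h5
    nlinarith [h1.1, h2.1, h3.2, h5.2]
  have k1 := key ha hb had hbd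
  have k2 := key hb ha hbd had
  have e1 : G * G * ((a - b) * (a - b) - (a - b)) =
      G * G * ((a - b) * (a - b)) - G * G * (a - b) := by ring
  have e2 : G * G * ((b - a) * (b - a) - (b - a)) =
      G * G * ((a - b) * (a - b)) + G * G * (a - b) := by ring
  rw [e1, map_sub] at k1
  rw [e2, map_add] at k2
  rw [abs_le]
  constructor <;> linarith

/-- The difference is bounded by its square, without idempotency. -/
theorem PF.sub_sq (hL : PF ρ D L) (hbd : b ∈ Deg ρ k) (hD : g + k ≤ D) {G : Mt V → ℝ}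
    (hG : G ∈ Deg ρ g) : L (G * G * b) ^ 2 ≤ L (G * G) * L (G * G * (b * b)) := by
  have h1 := hL.cauchy (F := G) (G := G * b) (Deg.mono (by omega) hG)
    (Deg.mono (by omega) (Deg.mul hG hbd))
  have e1 : G * (G * b) = G * G * b := by ring
  have e2 : G * b * (G * b) = G * G * (b * b) := by ring
  rwa [e1, e2] at h1

end

end AcFrege
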