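import Pool.Agent.Work.MP_c07f0d_lc.DG.PwBasic
import Pool.Agent.Work.MP_c07f0d_lc.LS.Walsh

/-!
# Block lemma: products of permutations with disjoint supports and the degree
-/

set_option linter.unusedSectionVars false

namespace AcFrege

open LineSize

variable {V : Type} [Fintype V] [DecidableEq V]
variable {ι : Type} [Fintype ι] [DecidableEq ι]

/-- A function of the variables in `T` has degree at most the number of these variables. -/
theorem lowDeg_of_vars {f : (ι → Bool) → ℝ} {T : Finset ι}
    (h : ∀ x y : ι → Bool, (∀ i ∈ T, x i = y i) → f x = f y) : LowDeg T.card f := by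
  intro S hS
  obtain ⟨i, hiS, hiT⟩ := Finset.exists_mem_notMem_of_card_lt_card hS
  have h1 : ∑ x, f x * chi S x = ∑ x, -(f x * chi S x) := by
    refine Finset.sum_nbij' (fun x => Function.update x i (!x i))
      (fun x => Function.update x i (!x i)) (by simp) (by simp) ?_ ?_ ?_
    · intro x _
      funext j
      by_cases hj : j = i
      · subst hj; simp
      · simp [hj]
    · intro x _
      funext j
      by_cases hj : j = i
      · subst hj; simp
      · simp [hj]
    · intro x _
      have hf : f (Function.update x i (!x i)) = f x := by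
        apply h
        intro j hj
        rw [Function.update_of_ne]
        rintro rfl
        exact hiT hj
      have hc : chi S (Function.update x i (!x i)) = - chi S x := by
        unfold LineSize.chi
        rw [← Finset.mul_prod_erase _ _ hiS, ← Finset.mul_prod_erase _ (fun j => sg (x j)) hiS,
          Function.update_self]
        have hp : ∏ j ∈ S.erase i, sg (Function.update x i (!x i) j) =
            ∏ j ∈ S.erase i, sg (x j) := by
          refine Finset.prod_congr rfl fun j hj => ?_
          rw [Function.update_of_ne (Finset.ne_of_mem_erase hj)]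
        rw [hp]
        cases x i <;> simp [sg]
      simp only [hf, hc]
      ring
  rw [Finset.sum_neg_distrib] at h1
  unfold fc
  have h2 : ∑ x, f x * chi S x = 0 := by linarith
  rw [h2, zero_div]

/-! ### Products of permutations with disjoint supports -/

/-- The product of the `σ i` with `Y i` true. -/
noncomputable def sigY (σ : ι → Equiv.Perm V) (Y : ι → Bool) : Equiv.Perm V :=
  ((Finset.univ : Finset ι).toList.map fun i => if Y i then σ i else 1).prod

/-- The permutations `σ i` have their supports in the pairwise disjoint sets `B i`. -/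
structure DjS (σ : ι → Equiv.Perm V) (B : ι → Finset V) : Prop where
  fix : ∀ i v, v ∉ B i → σ i v = v
  disj : ∀ i j, i ≠ j → Disjoint (B i) (B j)

namespace DjS

variable {σ : ι → Equiv.Perm V} {B : ι → Finset V}

theorem map_mem (h : DjS σ B) {i : ι} {v : V} (hv : v ∈ B i) : σ i v ∈ B i := by
  by_contra hc
  have h1 := h.fix i _ hc
  have h2 := (σ i).injective h1
  exact hc (h2.symm ▸ hv)

theorem not_mem (h : DjS σ B) {i j : ι} {v : V} (hv : v ∈ B i) (hij : j ≠ i) : v ∉ B j :=
  fun hc => Finset.disjoint_left.1 (h.disj j i hij) hc hv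

theorem prod_fix (h : DjS σ B) (Y : ι → Bool) (l : List ι) {v : V} (hv : ∀ i ∈ l, v ∉ B i) :
    (l.map fun i => if Y i then σ i else 1).prod v = v := by
  induction l with
  | nil => rfl
  | cons j l ih =>
    rw [List.map_cons, List.prod_cons, Equiv.Perm.mul_apply,
      ih fun i hi => hv i (List.mem_cons_of_mem _ hi)]
    by_cases hj : Y j = true
    · rw [if_pos hj]
      exact h.fix j v (hv j List.mem_cons_self)
    · rw [if_neg hj]; rfl

theorem prod_mem (h : DjS σ B) (Y : ι → Bool) (l : List ι) (hl : l.Nodup) {i : ι} {v : V}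
    (hv : v ∈ B i) (hi : i ∈ l) :
    (l.map fun i => if Y i then σ i else 1).prod v = if Y i then σ i v else v := by
  induction l with
  | nil => exact absurd hi (by simp)
  | cons j l ih =>
    rw [List.nodup_cons] at hl
    rw [List.map_cons, List.prod_cons, Equiv.Perm.mul_apply]
    by_cases hij : i = j
    · subst hij
      rw [h.prod_fix Y l fun j hj => h.not_mem hv (fun hc => hl.1 (hc ▸ hj))]
      by_cases hj : Y i = true
      · rw [if_pos hj, if_pos hj]
      · rw [if_neg hj, if_neg hj]; rfl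
    · rw [ih hl.2 ((List.mem_cons.1 hi).resolve_left hij)]
      have h1 : (if Y i then σ i v else v) ∈ B i := by
        by_cases hj : Y i = true
        · rw [if_pos hj]; exact h.map_mem hv
        · rw [if_neg hj]; exact hv
      by_cases hj : Y j = true
      · rw [if_pos hj]
        exact h.fix j _ (h.not_mem h1 (fun hc => hij hc.symm))
      · rw [if_neg hj]; rfl

theorem sigY_of_mem (h : DjS σ B) (Y : ι → Bool) {i : ι} {v : V} (hv : v ∈ B i) :
    sigY σ Y v = if Y i then σ i v else v :=
  h.prod_mem Y _ (Finset.nodup_toList _) hv (Finset.mem_toList.2 (Finset.mem_univ i))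

theorem sigY_of_not_mem (h : DjS σ B) (Y : ι → Bool) {v : V} (hv : ∀ i, v ∉ B i) :
    sigY σ Y v = v := h.prod_fix Y _ fun i _ => hv i

theorem sigY_map_mem (h : DjS σ B) (Y : ι → Bool) {i : ι} {v : V} (hv : v ∈ B i) :
    sigY σ Y v ∈ B i := by
  rw [h.sigY_of_mem Y hv]
  by_cases hj : Y i = true
  · rw [if_pos hj]; exact h.map_mem hv
  · rw [if_neg hj]; exact hv

theorem sigY_mem_iff (h : DjS σ B) (Y : ι → Bool) {i : ι} {v : V} :
    sigY σ Y v ∈ B i ↔ v ∈ B i := by
  refine ⟨fun hv => ?_, h.sigY_map_mem Y⟩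
  by_cases hv' : ∃ j, v ∈ B j
  · obtain ⟨j, hj⟩ := hv'
    by_cases hij : j = i
    · exact hij ▸ hj
    · exact absurd hv (h.not_mem (h.sigY_map_mem Y hj) (fun hc => hij hc.symm))
  · rw [h.sigY_of_not_mem Y fun i hi => hv' ⟨i, hi⟩] at hv
    exact hv

theorem sigY_congr (h : DjS σ B) {Y Y' : ι → Bool} {v : V} (hv : ∀ i, v ∈ B i → Y i = Y' i) :
    sigY σ Y v = sigY σ Y' v := by
  by_cases hv' : ∃ j, v ∈ B j
  · obtain ⟨j, hj⟩ := hv'
    rw [h.sigY_of_mem Y hj, h.sigY_of_mem Y' hj, hv j hj]
  · rw [h.sigY_of_not_mem Y fun i hi => hv' ⟨i, hi⟩, h.sigY_of_not_mem Y' fun i hi => hv' ⟨i, hi⟩]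

theorem sigY_false (h : DjS σ B) : sigY σ (fun _ => false) = 1 := by
  ext v
  by_cases hv' : ∃ j, v ∈ B j
  · obtain ⟨j, hj⟩ := hv'
    rw [h.sigY_of_mem _ hj]; simp
  · rw [h.sigY_of_not_mem _ fun i hi => hv' ⟨i, hi⟩]; rfl

theorem sigY_unit (h : DjS σ B) (i : ι) : sigY σ (fun j => decide (j = i)) = σ i := by
  ext v
  by_cases hv' : ∃ j, v ∈ B j
  · obtain ⟨j, hj⟩ := hv'
    rw [h.sigY_of_mem _ hj]
    by_cases hij : j = i
    · subst hij; simp
    · simp only [hij, decide_false, Bool.false_eq_true, if_false]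
      exact (h.fix i v (h.not_mem hj (fun hc => hij hc.symm))).symm
  · rw [h.sigY_of_not_mem _ fun i hi => hv' ⟨i, hi⟩]
    exact (h.fix i v fun hi => hv' ⟨i, hi⟩).symm

/-- The conjugate of `μ` by the product depends only on the `Y i` such that `μ` covers a
vertex of `B i`. -/
theorem conj_sigY_congr (h : DjS σ B) {μ : Mt V} {Y Y' : ι → Bool}
    (hY : ∀ i, (∃ v ∈ B i, μ v ≠ v) → Y i = Y' i) :
    Mt.conj (sigY σ Y)⁻¹ μ = Mt.conj (sigY σ Y')⁻¹ μ := by
  have key : ∀ u : V, μ u ≠ u → ∀ x, sigY σ Y x = u ↔ sigY σ Y' x = u := by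
    intro u hu x
    constructor
    · intro hx
      rw [← hx]
      refine (h.sigY_congr fun i hi => hY i ⟨u, ?_, hu⟩).symm
      rw [← hx]
      exact h.sigY_map_mem Y hi
    · intro hx
      rw [← hx]
      refine h.sigY_congr fun i hi => hY i ⟨u, ?_, hu⟩
      rw [← hx]
      exact h.sigY_map_mem Y' hi
  ext v
  rw [Mt.conj_apply, Mt.conj_apply]
  have e1 : (sigY σ Y)⁻¹.symm v = sigY σ Y v := rfl
  have e2 : (sigY σ Y')⁻¹.symm v = sigY σ Y' v := rfl
  rw [e1, e2]
  by_cases hc : μ (sigY σ Y v) = sigY σ Y v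
  · by_cases hc' : μ (sigY σ Y' v) = sigY σ Y' v
    · rw [hc, hc']
      exact ((sigY σ Y).symm_apply_apply v).trans ((sigY σ Y').symm_apply_apply v).symm
    · exact absurd hc (by rw [(key _ hc' v).2 rfl]; exact hc')
  · have e3 : sigY σ Y' v = sigY σ Y v := (key _ hc v).1 rfl
    rw [e3, Equiv.Perm.inv_eq_iff_eq]
    set u := μ (sigY σ Y v) with hu
    have hu' : μ u ≠ u := by
      rw [hu, μ.invol]
      exact fun h' => hc h'.symm
    symm
    refine (key u hu' _).2 ?_
    exact (sigY σ Y').apply_symm_apply u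

/-- The degree in the choice of the permutations. -/
theorem lowDeg_act (h : DjS σ B) {π : Mt V} (hB : ∀ i, ∀ v ∈ B i, π v = v) {k : ℕ}
    {F : Mt V → ℝ} (hF : F ∈ Deg π k) (M : (Mt V → ℝ) →ₗ[ℝ] ℝ) :
    LowDeg k (fun Y => M (act (sigY σ Y) F)) := by
  classical
  unfold Deg at hF
  induction hF using Submodule.span_induction with
  | mem F hF =>
    obtain ⟨μ, hμ, rfl⟩ := hF
    have h1 := lowDeg_of_vars (f := fun Y => M (act (sigY σ Y) (zz μ)))
      (T := Finset.univ.filter fun i => ∃ v ∈ B i, μ v ≠ v) (by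
        intro Y Y' hY
        simp only [act_zz]
        rw [h.conj_sigY_congr fun i hi => hY i (Finset.mem_filter.2 ⟨Finset.mem_univ _, hi⟩)])
    refine h1.mono (le_trans ?_ hμ)
    unfold cost
    set A := (free π).filter (fun v => μ v ≠ v) with hA
    set T := Finset.univ.filter fun i => ∃ v ∈ B i, μ v ≠ v with hT
    have h2 : (T.biUnion fun i => B i ∩ A).card = ∑ i ∈ T, (B i ∩ A).card := by
      apply Finset.card_biUnion
      intro i _ j _ hij
      exact Finset.disjoint_of_subset_left Finset.inter_subset_left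
        (Finset.disjoint_of_subset_right Finset.inter_subset_left (h.disj i j hij))
    have h3 : T.card ≤ ∑ i ∈ T, (B i ∩ A).card := by
      have := Finset.card_nsmul_le_sum T (fun i => (B i ∩ A).card) 1 (by
        intro i hi
        obtain ⟨v, hv, hμv⟩ := (Finset.mem_filter.1 hi).2
        rw [Nat.one_le_iff_ne_zero, ← Nat.pos_iff_ne_zero, Finset.card_pos]
        exact ⟨v, Finset.mem_inter.2 ⟨hv, Finset.mem_filter.2 ⟨mem_free.2 (hB i v hv), hμv⟩⟩⟩)
      simpa using this
    have h4 : (T.biUnion fun i => B i ∩ A) ⊆ A := by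
      intro v hv
      obtain ⟨i, _, hi⟩ := Finset.mem_biUnion.1 hv
      exact (Finset.mem_inter.1 hi).2
    calc T.card ≤ ∑ i ∈ T, (B i ∩ A).card := h3
      _ = (T.biUnion fun i => B i ∩ A).card := h2.symm
      _ ≤ A.card := Finset.card_le_card h4
  | zero =>
    have : (fun Y => M (act (sigY σ Y) (0 : Mt V → ℝ))) = fun _ => 0 := by
      funext Y
      have e : act (sigY σ Y) (0 : Mt V → ℝ) = 0 := rfl
      rw [e, map_zero]
    rw [this]
    exact LowDeg.const k 0
  | add x y _ _ hx hy =>
    have : (fun Y => M (act (sigY σ Y) (x + y))) =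
        fun Y => M (act (sigY σ Y) x) + M (act (sigY σ Y) y) := by
      funext Y
      rw [act_add, map_add]
    rw [this]
    exact hx.add hy
  | smul c x _ hx =>
    have : (fun Y => M (act (sigY σ Y) (c • x))) = fun Y => c * M (act (sigY σ Y) x) := by
      funext Y
      rw [act_smul, map_smul, smul_eq_mul]
    rw [this]
    exact hx.const_mul c

/-- The degree of the function of the final count. -/
theorem lowDeg_xor (h : DjS σ B) {π : Mt V} (hB : ∀ i, ∀ v ∈ B i, π v = v) {k : ℕ}
    {F : Mt V → ℝ} (hF : F ∈ Deg π k) (L : (Mt V → ℝ) →ₗ[ℝ] ℝ) (E b : Mt V → ℝ) (c : ℝ) :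
    LowDeg k (fun Y => L (E * (act (sigY σ Y) F + b - 2 * (act (sigY σ Y) F * b))) / c) := by
  have h1 := h.lowDeg_act hB hF (L.comp (LinearMap.mulLeft ℝ (E * (1 - 2 * b))))
  have h2 := (h1.add (LowDeg.const k (L (E * b)))).const_mul (1 / c)
  have e : (fun Y => L (E * (act (sigY σ Y) F + b - 2 * (act (sigY σ Y) F * b))) / c) =
      fun Y => 1 / c * ((L.comp (LinearMap.mulLeft ℝ (E * (1 - 2 * b)))) (act (sigY σ Y) F) +
        L (E * b)) := by
    funext Y
    have e2 : E * (act (sigY σ Y) F + b - 2 * (act (sigY σ Y) F * b)) =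
        E * (1 - 2 * b) * act (sigY σ Y) F + E * b := by ring
    rw [e2, map_add, LinearMap.comp_apply, LinearMap.mulLeft_apply]
    ring
  rw [e]
  exact h2

end DjS

end AcFrege
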