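import Mathlib.Algebra.BigOperators.Group.Finset.Basic
import Mathlib.Algebra.Order.BigOperators.Group.Finset
import Mathlib.Algebra.Module.LinearMap.Basic
import Mathlib.Data.Real.Basic
import Mathlib.Data.Fintype.Pi
import Mathlib.Data.Fintype.Lattice
import Mathlib.Data.Finset.Max
import Mathlib.Tactic.Ring
import Mathlib.Tactic.Linarith
import Mathlib.Tactic.Positivity
import Mathlib.Tactic.FieldSimp

/-!
# Block lemma: the maximising choice
-/

set_option linter.unusedSectionVars false

namespace AcFrege

section maxi

variable {X Y ι : Type} [Fintype Y] [Nonempty Y] [DecidableEq Y] [Fintype ι] [DecidableEq ι]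

/-- the product of the chosen functions -/
def pch (u : ι → Y → X → ℝ) (S : Finset ι) (y : ι → Y) : X → ℝ := ∏ j ∈ S, u j (y j)

theorem pch_insert (u : ι → Y → X → ℝ) {S : Finset ι} {i : ι} (hi : i ∉ S) (y : ι → Y) :
    pch u (insert i S) y = pch u S y * u i (y i) := by
  unfold pch
  rw [Finset.prod_insert hi, mul_comm]

theorem pch_congr (u : ι → Y → X → ℝ) {S : Finset ι} {y y' : ι → Y} (h : ∀ j ∈ S, y j = y' j) :
    pch u S y = pch u S y' := by
  unfold pch
  exact Finset.prod_congr rfl fun j hj => by rw [h j hj]

/-- **The maximising choice.** If for every product over a subset `G` and every further index `i` the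
sum over the choices of `L (G² u²)` is at least `c L (G²)`, then there is a choice `y` for which
`L` of the full product of squares is positive and dominates the products with one factor
missing. -/
theorem exists_max_choice (L : (X → ℝ) →ₗ[ℝ] ℝ) (hL1 : 0 < L 1) (u : ι → Y → X → ℝ) {c : ℝ}
    (hc : 0 < c)
    (hH : ∀ (S : Finset ι) (y : ι → Y) (i : ι), i ∉ S →
      c * L (pch u S y * pch u S y) ≤
        ∑ z, L (pch u S y * pch u S y * (u i z * u i z))) :
    ∃ y : ι → Y, 0 < L (pch u Finset.univ y * pch u Finset.univ y) ∧
      ∀ i, L (pch u (Finset.univ.erase i) y * pch u (Finset.univ.erase i) y) ≤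
        Fintype.card Y / c * L (pch u Finset.univ y * pch u Finset.univ y) := by
  have hpos : ∀ S : Finset ι, ∃ y : ι → Y, 0 < L (pch u S y * pch u S y) := by
    intro S
    induction S using Finset.induction_on with
    | empty =>
      refine ⟨fun _ => Classical.arbitrary Y, ?_⟩
      have : pch u ∅ (fun _ => Classical.arbitrary Y) = 1 := by
        unfold pch
        rw [Finset.prod_empty]
      rw [this, mul_one]
      exact hL1
    | insert i S hi ih =>
      obtain ⟨y, hy⟩ := ih
      have h1 := hH S y i hi
      have h2 : 0 < ∑ z, L (pch u S y * pch u S y * (u i z * u i z)) :=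
        lt_of_lt_of_le (mul_pos hc hy) h1
      obtain ⟨z, -, hz⟩ : ∃ z ∈ (Finset.univ : Finset Y),
          0 < L (pch u S y * pch u S y * (u i z * u i z)) := by
        by_contra hcon
        push Not at hcon
        exact absurd h2 (not_lt.2 (Finset.sum_nonpos hcon))
      refine ⟨Function.update y i z, ?_⟩
      have h3 : pch u S (Function.update y i z) = pch u S y := pch_congr u fun j hj => by
        have : j ≠ i := fun h => hi (h ▸ hj)
        rw [Function.update_of_ne this]
      rw [pch_insert u hi, h3, Function.update_self]
      have h4 : pch u S y * u i z * (pch u S y * u i z) =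
          pch u S y * pch u S y * (u i z * u i z) := by ring
      rw [h4]
      exact hz
  obtain ⟨y₀, hy₀⟩ := hpos Finset.univ
  obtain ⟨y, -, hy⟩ := Finset.exists_max_image (Finset.univ : Finset (ι → Y))
    (fun y => L (pch u Finset.univ y * pch u Finset.univ y)) ⟨y₀, Finset.mem_univ _⟩
  refine ⟨y, lt_of_lt_of_le hy₀ (hy y₀ (Finset.mem_univ _)), fun i => ?_⟩
  have hi : i ∉ (Finset.univ : Finset ι).erase i := Finset.notMem_erase i _
  have hins : insert i ((Finset.univ : Finset ι).erase i) = Finset.univ :=
    Finset.insert_erase (Finset.mem_univ i)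
  have h1 := hH _ y i hi
  have h2 : ∑ z, L (pch u (Finset.univ.erase i) y * pch u (Finset.univ.erase i) y *
      (u i z * u i z)) ≤ Fintype.card Y * L (pch u Finset.univ y * pch u Finset.univ y) := by
    have h3 : ∀ z ∈ (Finset.univ : Finset Y),
        L (pch u (Finset.univ.erase i) y * pch u (Finset.univ.erase i) y * (u i z * u i z)) ≤
          L (pch u Finset.univ y * pch u Finset.univ y) := by
      intro z _
      have h4 := hy (Function.update y i z) (Finset.mem_univ _)
      have h5 : pch u Finset.univ (Function.update y i z) =
          pch u (Finset.univ.erase i) y * u i z := by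
        conv_lhs => rw [← hins]
        rw [pch_insert u hi, Function.update_self]
        congr 1
        exact pch_congr u fun j hj => by
          have : j ≠ i := fun h => hi (h ▸ hj)
          rw [Function.update_of_ne this]
      have h4' : L (pch u Finset.univ (Function.update y i z) *
          pch u Finset.univ (Function.update y i z)) ≤
            L (pch u Finset.univ y * pch u Finset.univ y) := h4
      rw [h5] at h4'
      have h6 : pch u (Finset.univ.erase i) y * u i z * (pch u (Finset.univ.erase i) y * u i z) =
          pch u (Finset.univ.erase i) y * pch u (Finset.univ.erase i) y * (u i z * u i z) := by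
        ring
      rwa [h6] at h4'
    refine (Finset.sum_le_card_nsmul _ _ _ h3).trans ?_
    rw [nsmul_eq_mul, Finset.card_univ]
  rw [div_mul_eq_mul_div, le_div_iff₀ hc, mul_comm]
  exact h1.trans h2

end maxi

end AcFrege
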