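import Pool.Agent.Work.MP_c07f0d_lc.DG.PwIdem

/-!
# The Boolean values of near idempotents

The last step of the rounding (a near idempotent which is nearly constant is nearly `0` or `1`),
and the truth tables.
-/

set_option linter.unusedSectionVars false

namespace AcFrege

variable {V : Type} [Fintype V] [DecidableEq V]

/-- The real number of a truth value. -/
def bR (t : Bool) : ℝ := if t then 1 else 0

@[simp] theorem bR_true : bR true = 1 := rfl

@[simp] theorem bR_false : bR false = 0 := rfl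

theorem bR_cases (t : Bool) : bR t = 0 ∨ bR t = 1 := by
  cases t
  · exact Or.inl rfl
  · exact Or.inr rfl

theorem bR_sq (t : Bool) : bR t * bR t = bR t := by
  cases t <;> simp

theorem near_bR {c : ℝ} {δ : ℝ} (hδ : δ ≤ 1 / 40) (h : |c * c - c| ≤ δ) :
    ∃ t : Bool, |c - bR t| ≤ 2 * δ := by
  have h0 : 0 ≤ δ := (abs_nonneg _).trans h
  rw [abs_le] at h
  rcases le_total c (1 / 2) with hc | hc
  · refine ⟨false, ?_⟩
    rw [bR_false, sub_zero, abs_le]
    constructor
    · by_contra hh
      push Not at hh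
      nlinarith
    · by_contra hh
      push Not at hh
      nlinarith
  · refine ⟨true, ?_⟩
    rw [bR_true, abs_le]
    constructor
    · by_contra hh
      push Not at hh
      nlinarith
    · by_contra hh
      push Not at hh
      nlinarith

section

variable {π ρ : Mt V} {D D' g r h k : ℕ} {e e' η : ℝ} {L : (Mt V → ℝ) →ₗ[ℝ] ℝ}
  {R R' a b c F : Mt V → ℝ}

/-- **The last step of the rounding.**  If the values of the near idempotent `F` at the
pseudo-functionals of degree `D'` are close to a constant `c`, then they are close to `0` or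
`1`. -/
theorem exists_bool_of_const (hFd : F ∈ Deg π k) (hF : Sm π D' η (F * F - F)) {c : ℝ}
    (hc : ∀ L, PF π D' L → |L F - c| ≤ e) (hL : PF π D L) (hD : D' + 2 * k ≤ D)
    (he : e ≤ 1 / 128) (hη : η ≤ 1 / 128) :
    ∃ t : Bool, |c - bR t| ≤ 1 / 20 ∧ ∀ L, PF π D' L → |L F - bR t| ≤ 1 / 16 := by
  have hsm : Sm π D' e (F - c • 1) := by
    intro L' hL'
    rw [map_sub, map_smul, hL'.one, smul_eq_mul, mul_one]
    exact hc L' hL'
  have hd : F - c • (1 : Mt V → ℝ) ∈ Deg π k :=
    Submodule.sub_mem _ hFd (Submodule.smul_mem _ _ one_mem)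
  have hrel : Rel π (0 + k) L e (F - c • 1) := hsm.rel hd hL (by omega) (by omega)
  have h1 := hrel.self_sq hd hL (by omega) (by linarith) (one_mem : (1 : Mt V → ℝ) ∈ Deg π 0)
  have h2 := hL.pos _ (Deg.mono (by omega : k ≤ D) hd)
  have h3 := hsm L (hL.mono (by omega))
  have h4 := hF L (hL.mono (by omega))
  rw [one_mul, one_mul, hL.one, mul_one] at h1
  have e1 : F * F - F = (F - c • 1) * (F - c • 1) + (2 * c - 1) • (F - c • (1 : Mt V → ℝ))
      + (c * c - c) • (1 : Mt V → ℝ) := by
    funext x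
    simp only [Pi.mul_apply, Pi.smul_apply, Pi.sub_apply, Pi.add_apply, Pi.one_apply, smul_eq_mul]
    ring
  rw [e1, map_add, map_add, map_smul, map_smul, hL.one, smul_eq_mul, smul_eq_mul, mul_one] at h4
  rw [abs_le] at h3 h4
  -- `c` is bounded
  have hc2 : |c * c - c| ≤ 1 / 40 := by
    have hc1 : c ≤ 21 / 20 := by
      by_contra hh
      push Not at hh
      nlinarith [h3.1, h3.2, h4.1, h4.2]
    have hc0 : -(1 / 20) ≤ c := by
      by_contra hh
      push Not at hh
      nlinarith [h3.1, h3.2, h4.1, h4.2]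
    rw [abs_le]
    have h5 : |(2 * c - 1) * L (F - c • 1)| ≤ (11 / 10) * (1 / 128) := by
      rw [abs_mul]
      refine mul_le_mul ?_ ?_ (abs_nonneg _) (by norm_num)
      · rw [abs_le]
        constructor <;> linarith
      · rw [abs_le]
        constructor <;> linarith
    rw [abs_le] at h5
    constructor <;> linarith [h5.1, h5.2, h4.1, h4.2]
  obtain ⟨t, ht⟩ := near_bR (le_refl _) hc2
  have ht' : |c - bR t| ≤ 1 / 20 := ht.trans (by norm_num)
  -- a better bound
  have hc3 : |c * c - c| ≤ 1 / 41 := by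
    have h6 : |2 * c - 1| ≤ 11 / 10 := by
      rw [abs_le] at ht' ⊢
      rcases bR_cases t with h | h
      · rw [h] at ht'
        constructor <;> linarith [ht'.1, ht'.2]
      · rw [h] at ht'
        constructor <;> linarith [ht'.1, ht'.2]
    have h5 : |(2 * c - 1) * L (F - c • 1)| ≤ (11 / 10) * (1 / 128) := by
      rw [abs_mul]
      refine mul_le_mul h6 ?_ (abs_nonneg _) (by norm_num)
      rw [abs_le]
      constructor <;> linarith
    rw [abs_le] at h5 ⊢
    constructor
    · linarith [h5.1, h5.2, h4.1, h4.2]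
    · nlinarith [h5.1, h5.2, h4.1, h4.2]
  obtain ⟨s, hs⟩ := near_bR (by norm_num) hc3
  have hs' : |c - bR s| ≤ 1 / 20 := hs.trans (by norm_num)
  refine ⟨s, hs', fun L' hL' => ?_⟩
  have h7 := hc L' hL'
  have h8 := abs_sub_le (L' F) c (bR s)
  have h9 : |c - bR s| ≤ 2 * (1 / 41) := hs
  linarith

/-! ### The truth tables -/

/-- The value of a product. -/
theorem val_mul (hL : PF ρ D L) (had : a ∈ Deg ρ k) (hbd : b ∈ Deg ρ k) (hD : k ≤ D)
    (ha : |L (a * a - a)| ≤ 1 / 100) (hb : |L (b * b - b)| ≤ 1 / 100) {u v : Bool}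
    (hu : |L a - bR u| ≤ 1 / 16) (hv : |L b - bR v| ≤ 1 / 16) :
    |L (a * b) - bR (u && v)| ≤ 1 / 3 := by
  have ha' : a ∈ Deg ρ D := Deg.mono hD had
  have hb' : b ∈ Deg ρ D := Deg.mono hD hbd
  have h1 := hL.cauchy ha' hb'
  have h2 := hL.cauchy (Submodule.sub_mem _ one_mem ha' : 1 - a ∈ Deg ρ D)
    (Submodule.sub_mem _ one_mem hb' : 1 - b ∈ Deg ρ D)
  have pa := hL.pos _ ha'
  have pb := hL.pos _ hb'
  have pa1 := hL.pos _ (Submodule.sub_mem _ one_mem ha' : 1 - a ∈ Deg ρ D)
  have pb1 := hL.pos _ (Submodule.sub_mem _ one_mem hb' : 1 - b ∈ Deg ρ D)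
  have e1 : (1 - a) * (1 - b) = 1 - a - b + a * b := by ring
  have e2 : (1 - a) * (1 - a) = 1 - a + (a * a - a) := by ring
  have e3 : (1 - b) * (1 - b) = 1 - b + (b * b - b) := by ring
  have f1 : L ((1 - a) * (1 - b)) = 1 - L a - L b + L (a * b) := by
    rw [e1, map_add, map_sub, map_sub, hL.one]
  have f2 : L ((1 - a) * (1 - a)) = 1 - L a + L (a * a - a) := by
    rw [e2, map_add, map_sub L 1 a, hL.one]
  have f3 : L ((1 - b) * (1 - b)) = 1 - L b + L (b * b - b) := by
    rw [e3, map_add, map_sub L 1 b, hL.one]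
  rw [f2] at pa1
  rw [f3] at pb1
  rw [f1, f2, f3] at h2
  have e4 : L (a * a) = L a + L (a * a - a) := by rw [map_sub]; ring
  have e5 : L (b * b) = L b + L (b * b - b) := by rw [map_sub]; ring
  rw [e4] at h1 pa
  rw [e5] at h1 pb
  rw [abs_le] at ha hb hu hv ⊢
  generalize L (a * b) = z at *
  generalize L (a * a - a) = x at *
  generalize L (b * b - b) = y at *
  generalize L a = p at *
  generalize L b = q at *
  cases u <;> cases v
  · simp only [bR_false, Bool.and_false, sub_zero] at hu hv ⊢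
    constructor
    · by_contra hh
      push Not at hh
      nlinarith [mul_le_mul (by linarith : p + x ≤ 29 / 400) (by linarith : q + y ≤ 29 / 400) pb
        (by norm_num)]
    · by_contra hh
      push Not at hh
      nlinarith [mul_le_mul (by linarith : p + x ≤ 29 / 400) (by linarith : q + y ≤ 29 / 400) pb
        (by norm_num)]
  · simp only [bR_false, bR_true, Bool.false_and, sub_zero] at hu hv ⊢
    constructor
    · by_contra hh
      push Not at hh
      nlinarith [mul_le_mul (by linarith : p + x ≤ 29 / 400) (by linarith : q + y ≤ 429 / 400) pb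
        (by norm_num)]
    · by_contra hh
      push Not at hh
      nlinarith [mul_le_mul (by linarith : p + x ≤ 29 / 400) (by linarith : q + y ≤ 429 / 400) pb
        (by norm_num)]
  · simp only [bR_false, bR_true, Bool.and_false, sub_zero] at hu hv ⊢
    constructor
    · by_contra hh
      push Not at hh
      nlinarith [mul_le_mul (by linarith : p + x ≤ 429 / 400) (by linarith : q + y ≤ 29 / 400) pb
        (by norm_num)]
    · by_contra hh
      push Not at hh
      nlinarith [mul_le_mul (by linarith : p + x ≤ 429 / 400) (by linarith : q + y ≤ 29 / 400) pb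
        (by norm_num)]
  · simp only [bR_true, Bool.and_true] at hu hv ⊢
    have h3 : (1 - p - q + z) ^ 2 ≤ (29 / 400) * (29 / 400) :=
      h2.trans (mul_le_mul (by linarith : 1 - p + x ≤ 29 / 400)
        (by linarith : 1 - q + y ≤ 29 / 400) pb1 (by norm_num))
    have h4 : |1 - p - q + z| ≤ 29 / 400 := abs_le_of_sq_le_sq (by linarith) (by norm_num)
    rw [abs_le] at h4
    constructor <;> linarith [h4.1, h4.2]

theorem bR_inj {t u : Bool} {z : ℝ} (h1 : |z - bR t| < 1 / 2) (h2 : |z - bR u| < 1 / 2) :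
    t = u := by
  rw [abs_lt] at h1 h2
  cases t <;> cases u <;> simp only [bR_true, bR_false] at h1 h2 <;> first | rfl | linarith

/-- The truth table of the negation. -/
theorem val_neg (hL : PF ρ D L) {c : Mt V → ℝ} {t u : Bool} (hu : |L a - bR u| ≤ 1 / 16)
    (hc : |L (c - (1 - a))| ≤ 1 / 100) (ht : |L c - bR t| ≤ 1 / 16) : t = !u := by
  rw [map_sub, map_sub, hL.one] at hc
  rw [abs_le] at hu hc ht
  cases t <;> cases u <;> simp only [bR_true, bR_false] at hu ht <;> first | rfl | (exfalso; linarith)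

/-- The truth table of the conjunction. -/
theorem val_and (hL : PF ρ D L) (had : a ∈ Deg ρ k) (hbd : b ∈ Deg ρ k) (hD : k ≤ D)
    (ha : |L (a * a - a)| ≤ 1 / 100) (hb : |L (b * b - b)| ≤ 1 / 100) {t u v : Bool}
    (hu : |L a - bR u| ≤ 1 / 16) (hv : |L b - bR v| ≤ 1 / 16)
    (hc : |L (c - a * b)| ≤ 1 / 100) (ht : |L c - bR t| ≤ 1 / 16) : t = (u && v) := by
  have h1 := val_mul hL had hbd hD ha hb hu hv
  rw [map_sub] at hc
  rw [abs_le] at h1 hc ht
  rcases bR_cases t with h | h <;> rcases bR_cases (u && v) with h' | h' <;>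
    rw [h] at ht <;> rw [h'] at h1
  · cases t
    · cases hh : (u && v)
      · rfl
      · rw [hh] at h'; simp at h'
    · simp at h
  · exfalso; linarith [h1.1, h1.2, hc.1, hc.2, ht.1, ht.2]
  · exfalso; linarith [h1.1, h1.2, hc.1, hc.2, ht.1, ht.2]
  · cases t
    · simp at h
    · cases hh : (u && v)
      · rw [hh] at h'; simp at h'
      · rfl

/-- The truth table of the disjunction. -/
theorem val_or (hL : PF ρ D L) (had : a ∈ Deg ρ k) (hbd : b ∈ Deg ρ k) (hD : k ≤ D)
    (ha : |L (a * a - a)| ≤ 1 / 100) (hb : |L (b * b - b)| ≤ 1 / 100) {t u v : Bool}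
    (hu : |L a - bR u| ≤ 1 / 16) (hv : |L b - bR v| ≤ 1 / 16)
    (hc : |L (c - (a + b - a * b))| ≤ 1 / 100) (ht : |L c - bR t| ≤ 1 / 16) :
    t = (u || v) := by
  have h1 := val_mul hL had hbd hD ha hb hu hv
  rw [map_sub, map_sub, map_add] at hc
  rw [abs_le] at h1 hc ht hu hv
  cases u <;> cases v <;> cases t <;>
    simp only [bR_true, bR_false, Bool.and_true, Bool.and_false] at h1 ht hu hv <;>
    first | rfl | (exfalso; linarith [h1.1, h1.2, hc.1, hc.2, ht.1, ht.2, hu.1, hu.2, hv.1, hv.2])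

/-- The truth table of the implication. -/
theorem val_imp (hL : PF ρ D L) (had : a ∈ Deg ρ k) (hbd : b ∈ Deg ρ k) (hD : k ≤ D)
    (ha : |L (a * a - a)| ≤ 1 / 100) (hb : |L (b * b - b)| ≤ 1 / 100) {t u v : Bool}
    (hu : |L a - bR u| ≤ 1 / 16) (hv : |L b - bR v| ≤ 1 / 16)
    (hc : |L (c - (1 - a + a * b))| ≤ 1 / 100) (ht : |L c - bR t| ≤ 1 / 16) :
    t = (!u || v) := by
  have h1 := val_mul hL had hbd hD ha hb hu hv
  rw [map_sub, map_add, map_sub, hL.one] at hc
  rw [abs_le] at h1 hc ht hu hv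
  cases u <;> cases v <;> cases t <;>
    simp only [bR_true, bR_false, Bool.and_true, Bool.and_false] at h1 ht hu hv <;>
    first | rfl | (exfalso; linarith [h1.1, h1.2, hc.1, hc.2, ht.1, ht.2, hu.1, hu.2, hv.1, hv.2])

end

end AcFrege
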