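import Pool.Agent.Work.MP_c07f0d_lc.DG.PwBasic
import Mathlib.Data.Finset.Card
import Mathlib.Data.Fintype.Card
import Mathlib.Algebra.Group.Nat.Even

/-!
# Matchings of the nodes of a graph given by an assignment of the edges

Every vertex of a graph is replaced by a cluster of nodes: one node for every port of the vertex
and one more node.  An assignment of the edges gives a matching of the nodes: the edges with the
value `true` match two ports of different clusters, the remaining nodes of a cluster are matched
inside the cluster by a fixed rule, and all of them are matched if their number is even.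
-/

set_option linter.unusedSectionVars false

namespace AcFrege

/-- Pairing of the elements of a finite set. -/
theorem exists_pairing {α : Type} [Fintype α] [DecidableEq α] : ∀ (n : ℕ) (S : Finset α), S.card = n →
    ∃ m : Mt α, (∀ v, v ∉ S → m v = v) ∧ (∀ v ∈ S, m v ∈ S) ∧ (Even S.card → ∀ v ∈ S, m v ≠ v) := by
  intro n
  induction n using Nat.strong_induction_on with
  | _ n ih =>
    intro S hS
    by_cases h2 : n ≤ 1
    · refine ⟨ident, fun v _ => rfl, fun v hv => hv, fun he v hv => ?_⟩
      exfalso
      have h3 : 0 < S.card := Finset.card_pos.2 ⟨v, hv⟩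
      have h4 : S.card = 1 := by omega
      rw [h4] at he
      exact absurd he (by decide)
    · obtain ⟨a, ha, b, hb, hab⟩ := Finset.one_lt_card.1 (show 1 < S.card by omega)
      have hb' : b ∈ S.erase a := Finset.mem_erase.2 ⟨hab.symm, hb⟩
      have hc : ((S.erase a).erase b).card = n - 2 := by
        rw [Finset.card_erase_of_mem hb', Finset.card_erase_of_mem ha, hS]
        omega
      obtain ⟨m, h5, h6, h7⟩ := ih (n - 2) (by omega) ((S.erase a).erase b) hc
      have hma : m a = a := h5 a (by simp)
      have hmb : m b = b := h5 b (by simp)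
      refine ⟨addE m a b hma hmb, fun v hv => ?_, fun v hv => ?_, fun he v hv => ?_⟩
      · have n1 : v ≠ a := fun h => hv (h ▸ ha)
        have n2 : v ≠ b := fun h => hv (h ▸ hb)
        rw [addE_apply, if_neg n1, if_neg n2]
        exact h5 v (fun h => hv (Finset.mem_of_mem_erase (Finset.mem_of_mem_erase h)))
      · rw [addE_apply]
        by_cases h8 : v = a
        · rw [if_pos h8]; exact hb
        · rw [if_neg h8]
          by_cases h9 : v = b
          · rw [if_pos h9]; exact ha
          · rw [if_neg h9]
            exact Finset.mem_of_mem_erase (Finset.mem_of_mem_erase (h6 v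
              (Finset.mem_erase.2 ⟨h9, Finset.mem_erase.2 ⟨h8, hv⟩⟩)))
      · rw [addE_apply]
        by_cases h8 : v = a
        · rw [if_pos h8, h8]; exact hab.symm
        · rw [if_neg h8]
          by_cases h9 : v = b
          · rw [if_pos h9, h9]; exact hab
          · rw [if_neg h9]
            refine h7 ?_ v (Finset.mem_erase.2 ⟨h9, Finset.mem_erase.2 ⟨h8, hv⟩⟩)
            rw [hc]
            rw [hS] at he
            obtain ⟨k, hk⟩ := he
            exact ⟨k - 1, by omega⟩

/-- The fixed rule. -/
noncomputable def loc {α : Type} [Fintype α] [DecidableEq α] (S : Finset α) : Mt α :=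
  Classical.choose (exists_pairing S.card S rfl)

theorem loc_not_mem {α : Type} [Fintype α] [DecidableEq α] {S : Finset α} {v : α} (h : v ∉ S) :
    loc S v = v := (Classical.choose_spec (exists_pairing S.card S rfl)).1 v h

theorem loc_mem {α : Type} [Fintype α] [DecidableEq α] {S : Finset α} {v : α} (h : v ∈ S) :
    loc S v ∈ S := (Classical.choose_spec (exists_pairing S.card S rfl)).2.1 v h

theorem loc_ne {α : Type} [Fintype α] [DecidableEq α] {S : Finset α} {v : α} (he : Even S.card)
    (h : v ∈ S) : loc S v ≠ v := (Classical.choose_spec (exists_pairing S.card S rfl)).2.2 he v h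

/-- A graph with ports. -/
structure Ports (W P E : Type) where
  /-- the port of an edge at its source -/
  a : E → W × Option P
  /-- the port of an edge at its target -/
  b : E → W × Option P
  ha : Function.Injective a
  hb : Function.Injective b
  hab : ∀ e e', a e ≠ b e'
  hne : ∀ e, (a e).1 ≠ (b e).1

namespace Ports

variable {W P E : Type} (G : Ports W P E)

/-- The node is used by an edge. -/
def Used (x : E → Bool) (n : W × Option P) : Prop := ∃ e, x e = true ∧ (G.a e = n ∨ G.b e = n)

open Classical in
/-- The partner of a used node. -/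
noncomputable def par (x : E → Bool) (n : W × Option P) : W × Option P :=
  if h : ∃ e, x e = true ∧ G.a e = n then G.b h.choose
  else if h : ∃ e, x e = true ∧ G.b e = n then G.a h.choose else n

variable {G}

theorem par_a {x : E → Bool} {e : E} (h : x e = true) : G.par x (G.a e) = G.b e := by
  have h1 : ∃ e', x e' = true ∧ G.a e' = G.a e := ⟨e, h, rfl⟩
  unfold par
  rw [dif_pos h1, G.ha h1.choose_spec.2]

theorem par_b {x : E → Bool} {e : E} (h : x e = true) : G.par x (G.b e) = G.a e := by
  have h0 : ¬ ∃ e', x e' = true ∧ G.a e' = G.b e := fun ⟨e', _, h'⟩ => G.hab e' e h'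
  have h1 : ∃ e', x e' = true ∧ G.b e' = G.b e := ⟨e, h, rfl⟩
  unfold par
  rw [dif_neg h0, dif_pos h1, G.hb h1.choose_spec.2]

theorem par_used {x : E → Bool} {n : W × Option P} (h : G.Used x n) : G.Used x (G.par x n) := by
  obtain ⟨e, he, rfl | rfl⟩ := h
  · rw [par_a he]
    exact ⟨e, he, Or.inr rfl⟩
  · rw [par_b he]
    exact ⟨e, he, Or.inl rfl⟩

theorem par_par {x : E → Bool} {n : W × Option P} (h : G.Used x n) :
    G.par x (G.par x n) = n := by
  obtain ⟨e, he, rfl | rfl⟩ := h
  · rw [par_a he, par_b he]
  · rw [par_b he, par_a he]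

theorem par_ne {x : E → Bool} {n : W × Option P} (h : G.Used x n) : G.par x n ≠ n := by
  obtain ⟨e, he, rfl | rfl⟩ := h
  · rw [par_a he]
    exact (G.hab e e).symm
  · rw [par_b he]
    exact G.hab e e

variable [Fintype P] [DecidableEq P] (G)

open Classical in
/-- The unused nodes of a cluster. -/
noncomputable def un (x : E → Bool) (v : W) : Finset (Option P) :=
  Finset.univ.filter fun o => ¬ G.Used x (v, o)

variable {G}

theorem mem_un {x : E → Bool} {v : W} {o : Option P} : o ∈ G.un x v ↔ ¬ G.Used x (v, o) := by
  classical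
  unfold un
  rw [Finset.mem_filter]
  exact ⟨fun h => h.2, fun h => ⟨Finset.mem_univ _, h⟩⟩

variable (G)

open Classical in
/-- The matching of the nodes. -/
noncomputable def mt (x : E → Bool) : Mt (W × Option P) where
  f n := if G.Used x n then G.par x n else (n.1, loc (G.un x n.1) n.2)
  inv n := by
    by_cases h : G.Used x n
    · rw [if_pos h, if_pos (par_used h), par_par h]
    · rw [if_neg h]
      have h1 : n.2 ∈ G.un x n.1 := mem_un.2 h
      have h2 := mem_un.1 (loc_mem h1)
      rw [if_neg h2]
      show (n.1, loc (G.un x n.1) (loc (G.un x n.1) n.2)) = n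
      rw [Mt.invol]

variable {G}

open Classical in
theorem mt_apply (x : E → Bool) (n : W × Option P) :
    G.mt x n = if G.Used x n then G.par x n else (n.1, loc (G.un x n.1) n.2) := rfl

/-- A free node: the number of the unused nodes of the cluster is odd. -/
theorem mt_free {x : E → Bool} {n : W × Option P} (h : G.mt x n = n) :
    ¬ Even (G.un x n.1).card := by
  intro he
  rw [mt_apply] at h
  by_cases h1 : G.Used x n
  · rw [if_pos h1] at h
    exact par_ne h1 h
  · rw [if_neg h1] at h
    exact loc_ne he (mem_un.2 h1) (congrArg Prod.snd h)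

variable [Fintype E] [DecidableEq W] (G)

/-- The edges at a vertex. -/
def star (v : W) : Finset E := Finset.univ.filter fun e => (G.a e).1 = v ∨ (G.b e).1 = v

variable {G}

theorem mem_star {v : W} {e : E} : e ∈ G.star v ↔ (G.a e).1 = v ∨ (G.b e).1 = v := by
  unfold star
  rw [Finset.mem_filter]
  exact ⟨fun h => h.2, fun h => ⟨Finset.mem_univ _, h⟩⟩

theorem used_congr {x x' : E → Bool} {v : W} (h : ∀ e ∈ G.star v, x e = x' e) (o : Option P) :
    G.Used x (v, o) → G.Used x' (v, o) := by
  rintro ⟨e, he, h1⟩
  refine ⟨e, ?_, h1⟩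
  rw [← h e (mem_star.2 ?_)]
  · exact he
  · rcases h1 with h1 | h1
    · left; rw [h1]
    · right; rw [h1]

theorem un_congr {x x' : E → Bool} {v : W} (h : ∀ e ∈ G.star v, x e = x' e) :
    G.un x v = G.un x' v := by
  ext o
  rw [mem_un, mem_un]
  exact not_congr ⟨used_congr h o, used_congr (fun e he => (h e he).symm) o⟩

theorem mt_congr {x x' : E → Bool} {n : W × Option P} (h : ∀ e ∈ G.star n.1, x e = x' e) :
    G.mt x n = G.mt x' n := by
  obtain ⟨v, o⟩ := n
  rw [mt_apply, mt_apply]
  by_cases h1 : G.Used x (v, o)
  · have h2 := used_congr h o h1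
    rw [if_pos h1, if_pos h2]
    obtain ⟨e, he, h3⟩ := h1
    have hs : e ∈ G.star v := by
      rw [mem_star]
      rcases h3 with h3 | h3
      · left; rw [h3]
      · right; rw [h3]
    have he' : x' e = true := by rw [← h e hs]; exact he
    rcases h3 with h3 | h3
    · rw [← h3, par_a he, par_a he']
    · rw [← h3, par_b he, par_b he']
  · have h2 : ¬ G.Used x' (v, o) := fun h' => h1 (used_congr (fun e he => (h e he).symm) o h')
    rw [if_neg h1, if_neg h2, un_congr h]

/-- The number of the unused nodes and the number of the true edges at a vertex. -/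
theorem card_un (x : E → Bool) (v : W) :
    (G.un x v).card + ((G.star v).filter fun e => x e = true).card = Fintype.card P + 1 := by
  classical
  have h1 : ((G.star v).filter fun e => x e = true).card =
      (Finset.univ.filter fun o : Option P => G.Used x (v, o)).card := by
    refine Finset.card_bij (fun e _ => if (G.a e).1 = v then (G.a e).2 else (G.b e).2) ?_ ?_ ?_
    · intro e he
      rw [Finset.mem_filter, mem_star] at he
      rw [Finset.mem_filter]
      refine ⟨Finset.mem_univ _, e, he.2, ?_⟩
      by_cases h : (G.a e).1 = v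
      · rw [if_pos h]
        left
        exact Prod.ext h rfl
      · rw [if_neg h]
        right
        exact Prod.ext (he.1.resolve_left h) rfl
    · intro e he e' he' h
      rw [Finset.mem_filter, mem_star] at he he'
      by_cases h2 : (G.a e).1 = v
      · rw [if_pos h2] at h
        by_cases h3 : (G.a e').1 = v
        · rw [if_pos h3] at h
          exact G.ha (Prod.ext (h2.trans h3.symm) h)
        · rw [if_neg h3] at h
          exact absurd (Prod.ext (h2.trans (he'.1.resolve_left h3).symm) h) (G.hab e e')
      · rw [if_neg h2] at h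
        by_cases h3 : (G.a e').1 = v
        · rw [if_pos h3] at h
          exact absurd (Prod.ext (h3.trans (he.1.resolve_left h2).symm) h.symm) (G.hab e' e)
        · rw [if_neg h3] at h
          exact G.hb (Prod.ext ((he.1.resolve_left h2).trans (he'.1.resolve_left h3).symm) h)
    · intro o ho
      rw [Finset.mem_filter] at ho
      obtain ⟨e, he, h | h⟩ := ho.2
      · refine ⟨e, ?_, ?_⟩
        · rw [Finset.mem_filter, mem_star]
          exact ⟨Or.inl (by rw [h]), he⟩
        · rw [if_pos (by rw [h]), h]
      · refine ⟨e, ?_, ?_⟩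
        · rw [Finset.mem_filter, mem_star]
          exact ⟨Or.inr (by rw [h]), he⟩
        · have h2 : (G.a e).1 ≠ v := by
            intro h3
            have h4 := G.hne e
            rw [h3, h] at h4
            exact h4 rfl
          rw [if_neg h2, h]
  rw [h1, add_comm]
  unfold un
  rw [Finset.card_filter_add_card_filter_not, Finset.card_univ, Fintype.card_option]

end Ports

/-! ### Gluing -/

section glue

variable {V N : Type}

open Classical in
/-- The matching `y` on the image of `ι`, the matching `β` outside. -/
noncomputable def glue (ι : N → V) (hι : Function.Injective ι) (β : Mt V)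
    (hβ : ∀ n, β (ι n) = ι n) (y : Mt N) : Mt V where
  f v := if h : ∃ n, ι n = v then ι (y h.choose) else β v
  inv v := by
    by_cases h : ∃ n, ι n = v
    · rw [dif_pos h]
      have h1 : ∃ n, ι n = ι (y h.choose) := ⟨_, rfl⟩
      rw [dif_pos h1, hι h1.choose_spec, Mt.invol]
      exact h.choose_spec
    · rw [dif_neg h]
      have h1 : ¬ ∃ n, ι n = β v := by
        rintro ⟨n, hn⟩
        apply h
        refine ⟨n, ?_⟩
        have h2 := hβ n
        rw [hn, Mt.invol] at h2
        rw [hn]
        exact h2.symm
      rw [dif_neg h1, Mt.invol]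

open Classical in
theorem glue_ι (ι : N → V) (hι : Function.Injective ι) (β : Mt V)
    (hβ : ∀ n, β (ι n) = ι n) (y : Mt N) (n : N) : glue ι hι β hβ y (ι n) = ι (y n) := by
  have h1 : ∃ n', ι n' = ι n := ⟨n, rfl⟩
  show (if h : ∃ n', ι n' = ι n then ι (y h.choose) else β (ι n)) = _
  rw [dif_pos h1, hι h1.choose_spec]

open Classical in
theorem glue_not (ι : N → V) (hι : Function.Injective ι) (β : Mt V)
    (hβ : ∀ n, β (ι n) = ι n) (y : Mt N) {v : V} (h : ¬ ∃ n, ι n = v) :
    glue ι hι β hβ y v = β v := by
  show (if h : ∃ n, ι n = v then ι (y h.choose) else β v) = _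
  rw [dif_neg h]

end glue

/-- **The honest map.** -/
theorem exists_X {V W P E : Type} [Fintype V] [DecidableEq V] [Fintype P] [DecidableEq P]
    [Fintype W] [DecidableEq W] [Fintype E] (G : Ports W P E) (hP : Even (Fintype.card P))
    (π : Mt V) (hle : Fintype.card W * (Fintype.card P + 1) ≤ (free π).card)
    (hev : Even ((free π).card - Fintype.card W * (Fintype.card P + 1))) :
    ∃ (X : (E → Bool) → Mt V) (cl : V → Option W), (∀ x, π ≤ X x) ∧
      (∀ x x' u, (∀ v, cl u = some v → ∀ e ∈ G.star v, x e = x' e) → X x u = X x' u) ∧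
      (∀ x u, X x u = u → ∃ v, cl u = some v ∧
        Even ((G.star v).filter fun e => x e = true).card) := by
  classical
  have hcard : Fintype.card (W × Option P) = Fintype.card W * (Fintype.card P + 1) := by
    rw [Fintype.card_prod, Fintype.card_option]
  -- the embedding
  have h0 : Fintype.card (W × Option P) ≤ Fintype.card (free π) := by
    rw [hcard, Fintype.card_coe]; exact hle
  obtain ⟨j⟩ := Function.Embedding.nonempty_of_card_le h0
  let ι : W × Option P → V := fun n => (j n : V)
  have hι : Function.Injective ι := fun n n' h => j.injective (Subtype.ext h)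
  have hιf : ∀ n, π (ι n) = ι n := fun n => mem_free.1 (j n).2
  let R : Finset V := Finset.univ.image ι
  have hR : R.card = Fintype.card W * (Fintype.card P + 1) := by
    rw [Finset.card_image_of_injective _ hι, Finset.card_univ, hcard]
  have hRf : R ⊆ free π := by
    intro v hv
    obtain ⟨n, -, rfl⟩ := Finset.mem_image.1 hv
    exact mem_free.2 (hιf n)
  obtain ⟨m, hm1, hm2, hm3⟩ := exists_pairing (free π \ R).card (free π \ R) rfl
  have hm3' : ∀ v ∈ free π \ R, m v ≠ v := hm3 (by rw [Finset.card_sdiff_of_subset hRf, hR]; exact hev)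
  have hcomp : Compat π m := by
    intro v hv hmv
    exfalso
    have h1 : v ∈ free π \ R := by
      by_contra h2
      exact hmv (hm1 v h2)
    exact hv (mem_free.1 (Finset.mem_sdiff.1 h1).1)
  let β : Mt V := π.join m hcomp
  have hβι : ∀ n, β (ι n) = ι n := by
    intro n
    show (π.join m hcomp) (ι n) = ι n
    rw [Mt.join_apply, if_pos (hιf n)]
    apply hm1
    rw [Finset.mem_sdiff]
    exact fun h => h.2 (Finset.mem_image_of_mem ι (Finset.mem_univ n))
  let cl : V → Option W := fun u => if h : ∃ n, ι n = u then some h.choose.1 else none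
  have hcl : ∀ n, cl (ι n) = some n.1 := by
    intro n
    have h1 : ∃ n', ι n' = ι n := ⟨n, rfl⟩
    show (if h : ∃ n', ι n' = ι n then some h.choose.1 else none) = _
    rw [dif_pos h1, hι h1.choose_spec]
  refine ⟨fun x => glue ι hι β hβι (G.mt x), cl, fun x v hv => ?_, fun x x' u h => ?_,
    fun x u hu => ?_⟩
  · have h1 : ¬ ∃ n, ι n = v := by
      rintro ⟨n, rfl⟩
      exact hv (hιf n)
    rw [glue_not ι hι β hβι _ h1]
    show (π.join m hcomp) v = π v
    rw [Mt.join_apply, if_neg hv]
  · by_cases h1 : ∃ n, ι n = u
    · obtain ⟨n, rfl⟩ := h1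
      rw [glue_ι, glue_ι]
      congr 1
      exact Ports.mt_congr (h n.1 (hcl n))
    · rw [glue_not ι hι β hβι _ h1, glue_not ι hι β hβι _ h1]
  · by_cases h1 : ∃ n, ι n = u
    · obtain ⟨n, rfl⟩ := h1
      rw [glue_ι] at hu
      have h2 := Ports.mt_free (hι hu)
      refine ⟨n.1, hcl n, ?_⟩
      have h3 := Ports.card_un (G := G) x n.1
      rw [Nat.not_even_iff_odd] at h2
      obtain ⟨k, hk⟩ := h2
      obtain ⟨l, hl⟩ := hP
      rw [Nat.even_iff]
      omega
    · exfalso
      rw [glue_not ι hι β hβι _ h1] at hu
      change (π.join m hcomp) u = u at hu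
      rw [Mt.join_apply] at hu
      by_cases h2 : π u = u
      · rw [if_pos h2] at hu
        refine hm3' u ?_ hu
        rw [Finset.mem_sdiff, mem_free]
        refine ⟨h2, fun h3 => h1 ?_⟩
        obtain ⟨n, -, hn⟩ := Finset.mem_image.1 h3
        exact ⟨n, hn⟩
      · rw [if_neg h2] at hu
        exact h2 hu

end AcFrege
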